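import Mathlib
import Pool.Agent.N753.SF.Mu

/-!
# Points close to the zeros of a polynomial: a bound which is uniform in the polynomial
-/

set_option autoImplicit false
set_option linter.unusedSectionVars false

namespace Pool.Agent.N753.SU

open NumberField IsDedekindDomain Finset Pool.Agent.H691R3
open Pool.Agent.TH876.Loc hiding mx
open Pool.Agent.N753.LS Pool.Agent.N753.SF Polynomial

section Abs

variable {K : Type} [Field K]

/-- the constant in the triangle inequality -/
def Qm (g : AbsoluteValue K ℝ) (A : ℝ) : Prop :=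
  1 ≤ A ∧ ∀ a b, g (a + b) ≤ A * max (g a) (g b)

theorem qm_two (g : AbsoluteValue K ℝ) : Qm g 2 := by
  refine ⟨by norm_num, fun a b => (g.add_le a b).trans ?_⟩
  have h1 := le_max_left (g a) (g b)
  have h2 := le_max_right (g a) (g b)
  linarith

theorem qm_sum {g : AbsoluteValue K ℝ} {A : ℝ} (hA : Qm g A) {ι : Type} (s : Finset ι) (h : ι → K)
    {M : ℝ} (hM : 0 ≤ M) (hh : ∀ i ∈ s, g (h i) ≤ M) : g (∑ i ∈ s, h i) ≤ A ^ s.card * M := by
  classical
  have hA0 : 0 ≤ A := zero_le_one.trans hA.1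
  induction s using Finset.induction with
  | empty => simp [hM]
  | insert a s ha ih =>
    rw [Finset.sum_insert ha, Finset.card_insert_of_notMem ha]
    have h1 := hh a (Finset.mem_insert_self _ _)
    have h2 := ih fun i hi => hh i (Finset.mem_insert_of_mem hi)
    have h3 : (1 : ℝ) ≤ A ^ s.card := one_le_pow₀ hA.1
    refine (hA.2 _ _).trans ?_
    rw [pow_succ']
    rw [mul_assoc]
    refine mul_le_mul_of_nonneg_left (max_le ?_ h2) hA0
    nlinarith

theorem qm_prod {g : AbsoluteValue K ℝ} {A : ℝ} (hA : Qm g A) (U : Finset K) (i : ℕ) :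
    g ((∏ y ∈ U, (X - C y)).coeff i) ≤ A ^ U.card * ∏ y ∈ U, max (g y) 1 := by
  classical
  have hA0 : 0 ≤ A := zero_le_one.trans hA.1
  induction U using Finset.induction generalizing i with
  | empty =>
    simp only [Finset.prod_empty, Finset.card_empty, pow_zero, mul_one]
    rw [coeff_one]
    split_ifs
    · rw [map_one]
    · rw [map_zero]
      exact zero_le_one
  | insert a s ha ih =>
    rw [Finset.prod_insert ha, Finset.prod_insert ha, Finset.card_insert_of_notMem ha]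
    obtain ⟨B, hB⟩ : ∃ B : ℝ, B = A ^ s.card * ∏ y ∈ s, max (g y) 1 := ⟨_, rfl⟩
    have hB0 : 0 ≤ B := by
      rw [hB]
      exact mul_nonneg (pow_nonneg hA0 _) (Finset.prod_nonneg fun y _ =>
        zero_le_one.trans (le_max_right _ _))
    rw [← hB] at ih
    have e : A ^ (s.card + 1) * (max (g a) 1 * ∏ y ∈ s, max (g y) 1) = A * (max (g a) 1 * B) := by
      rw [hB]
      ring
    have h1 : (1 : ℝ) ≤ max (g a) 1 := le_max_right _ _
    rw [e, sub_mul, coeff_sub, sub_eq_add_neg]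
    refine (hA.2 _ _).trans (mul_le_mul_of_nonneg_left (max_le ?_ ?_) hA0)
    · cases i with
      | zero =>
        rw [coeff_X_mul_zero, map_zero]
        positivity
      | succ n =>
        rw [coeff_X_mul]
        refine (ih n).trans ?_
        nlinarith
    · rw [g.map_neg, coeff_C_mul, g.map_mul]
      exact mul_le_mul (le_max_left _ _) (ih i) (g.nonneg _) (zero_le_one.trans h1)

/-- the Gauss norm -/
noncomputable def gs (g : AbsoluteValue K ℝ) (f : K[X]) : ℝ :=
  ⨆ i : Fin (f.natDegree + 1), g (f.coeff i)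

theorem exists_gs (g : AbsoluteValue K ℝ) (f : K[X]) : ∃ i, g (f.coeff i) = gs g f := by
  obtain ⟨i, hi⟩ := exists_eq_ciSup_of_finite
    (f := fun i : Fin (f.natDegree + 1) => g (f.coeff i))
  exact ⟨i, hi⟩

theorem le_gs (g : AbsoluteValue K ℝ) (f : K[X]) (i : ℕ) : g (f.coeff i) ≤ gs g f := by
  have h0 : ∀ j : Fin (f.natDegree + 1), g (f.coeff j) ≤ gs g f := fun j =>
    le_ciSup (f := fun i : Fin (f.natDegree + 1) => g (f.coeff i)) (Set.finite_range _).bddAbove j
  by_cases hi : i ≤ f.natDegree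
  · exact h0 ⟨i, by omega⟩
  · rw [coeff_eq_zero_of_natDegree_lt (by omega), map_zero]
    exact (g.nonneg _).trans (h0 0)

theorem gs_nonneg (g : AbsoluteValue K ℝ) (f : K[X]) : 0 ≤ gs g f :=
  (g.nonneg _).trans (le_gs g f 0)

theorem gs_pos (g : AbsoluteValue K ℝ) {f : K[X]} (hf : f ≠ 0) : 0 < gs g f :=
  (g.pos (leadingCoeff_ne_zero.2 hf)).trans_le (le_gs g f f.natDegree)

/-- **interpolation** -/
theorem lag {g : AbsoluteValue K ℝ} {A : ℝ} (hA : Qm g A) {f : K[X]} {e : ℕ}
    (hf : f.natDegree ≤ e) (U : Finset K) [DecidableEq K] (hU : U.card = e + 1) :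
    ∃ x ∈ U, gs g f ≤ A ^ (2 * e + 1) * (g (f.eval x) *
      ∏ y ∈ U.erase x, (max (g y) 1 / g (x - y))) := by
  have hA0 : 0 ≤ A := zero_le_one.trans hA.1
  obtain ⟨i, hi⟩ := exists_gs g f
  have hdeg : f.degree < U.card := by
    refine (degree_le_natDegree).trans_lt ?_
    rw [hU]
    exact_mod_cast Nat.lt_succ_of_le hf
  have h1 := Lagrange.eq_interpolate (s := U) (v := id) (Set.injOn_id _) hdeg
  obtain ⟨b, hb⟩ : ∃ b : K → ℝ, b = fun x => g (f.eval x) *
    ∏ y ∈ U.erase x, (max (g y) 1 / g (x - y)) := ⟨_, rfl⟩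
  have hne : U.Nonempty := by
    rw [← Finset.card_pos]
    omega
  obtain ⟨x0, hx0, hmax⟩ := Finset.exists_max_image U b hne
  refine ⟨x0, hx0, ?_⟩
  have hb0 : 0 ≤ b x0 := by
    rw [hb]
    exact mul_nonneg (g.nonneg _) (Finset.prod_nonneg fun y _ =>
      div_nonneg (zero_le_one.trans (le_max_right _ _)) (g.nonneg _))
  have h2 : f.coeff i = ∑ x ∈ U, (C (f.eval x) * Lagrange.basis U id x).coeff i := by
    conv_lhs => rw [h1]
    rw [Lagrange.interpolate_apply, finsetSum_coeff]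
    rfl
  have h3 : ∀ x ∈ U, g ((C (f.eval x) * Lagrange.basis U id x).coeff i) ≤ A ^ e * b x0 := by
    intro x hx
    have e1 : Lagrange.basis U id x = C (∏ y ∈ U.erase x, (x - y)⁻¹) *
        ∏ y ∈ U.erase x, (X - C y) := by
      unfold Lagrange.basis Lagrange.basisDivisor
      rw [Finset.prod_mul_distrib, map_prod]
      rfl
    rw [e1, ← mul_assoc, ← C_mul, coeff_C_mul, g.map_mul, g.map_mul, map_prod]
    have h4 := qm_prod hA (U.erase x) i
    rw [Finset.card_erase_of_mem hx, hU, Nat.add_sub_cancel] at h4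
    have h5 := hmax x hx
    have h6 : g (f.eval x) * (∏ y ∈ U.erase x, g (x - y)⁻¹) *
        (A ^ e * ∏ y ∈ U.erase x, max (g y) 1) = A ^ e * b x := by
      rw [hb]
      simp only [Finset.prod_div_distrib, map_inv₀, Finset.prod_inv_distrib]
      ring
    refine (mul_le_mul_of_nonneg_left h4 (mul_nonneg (g.nonneg _)
      (Finset.prod_nonneg fun y _ => g.nonneg _))).trans ?_
    rw [h6]
    exact mul_le_mul_of_nonneg_left h5 (pow_nonneg hA0 _)
  rw [← hi, h2]
  refine (qm_sum hA U _ (mul_nonneg (pow_nonneg hA0 _) hb0) h3).trans (le_of_eq ?_)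
  rw [hU, ← mul_assoc, ← pow_add, hb]
  congr 2
  omega

end Abs

variable {K : Type} [Field K] [NumberField K]

theorem qm_na (v : Pr K) : Qm (fv v) 1 := by
  refine ⟨le_rfl, fun a b => ?_⟩
  rw [one_mul]
  exact fv_na v a b

/-- the logarithm of the Gauss norm -/
noncomputable def gn (p : Pl K) (f : K[X]) : ℝ :=
  Sum.elim (fun w : InfinitePlace K => (w.mult : ℝ) * Real.log (gs w.1 f))
    (fun v : HeightOneSpectrum (𝓞 K) => Real.log (gs (fv v) f)) p

/-- the normalised local height with respect to the zeros of `f`, a form of degree `e` -/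
noncomputable def mv (p : Pl K) (e : ℕ) (f : K[X]) (x : K) : ℝ :=
  gn p f + e * mx p x - nm p (f.eval x)

theorem lam_aff_eq (g : AbsoluteValue K ℝ) {x y : K} (hxy : x ≠ y) :
    lamA g (aff x) (aff y) = Real.log (max (g x) 1) + Real.log (max (g y) 1) -
      Real.log (g (x - y)) := by
  have h := lamA_eq g (aff_ne_zero x) (aff_ne_zero y) (aff_wedge hxy)
  have e1 : (aff x).1 * (aff y).2 - (aff x).2 * (aff y).1 = x - y := by
    simp only [aff, mul_one, one_mul]
  have e2 : ∀ z : K, max (g (aff z).1) (g (aff z).2) = max (g z) 1 := by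
    intro z
    show max (g z) (g 1) = _
    rw [map_one]
  rw [h, e1, e2, e2]

theorem key_abs {g : AbsoluteValue K ℝ} {A : ℝ} (hA : Qm g A) {f : K[X]} (hf0 : f ≠ 0) {e : ℕ}
    (hf : f.natDegree ≤ e) (U : Finset K) [DecidableEq K] (hU : U.card = e + 1)
    (hU0 : ∀ x ∈ U, f.eval x ≠ 0) :
    ∃ x ∈ U, Real.log (gs g f) + e * Real.log (max (g x) 1) - Real.log (g (f.eval x)) ≤
      (2 * e + 1) * Real.log A + ∑ y ∈ U.erase x, lamA g (aff x) (aff y) := by
  obtain ⟨x, hx, h⟩ := lag hA hf U hU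
  refine ⟨x, hx, ?_⟩
  have hA0 : 0 < A := zero_lt_one.trans_le hA.1
  have hm : ∀ z : K, 0 < max (g z) 1 := fun z => zero_lt_one.trans_le (le_max_right _ _)
  have hd : ∀ y ∈ U.erase x, 0 < g (x - y) := by
    intro y hy
    exact g.pos (sub_ne_zero.2 (Ne.symm (Finset.mem_erase.1 hy).1))
  have hp : ∀ y ∈ U.erase x, max (g y) 1 / g (x - y) ≠ 0 := fun y hy =>
    (div_pos (hm y) (hd y hy)).ne'
  have h1 := Real.log_le_log (gs_pos g hf0) h
  rw [Real.log_mul (by positivity) (mul_ne_zero (g.pos (hU0 x hx)).ne'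
    (Finset.prod_ne_zero_iff.2 hp)), Real.log_pow, Real.log_mul (g.pos (hU0 x hx)).ne'
    (Finset.prod_ne_zero_iff.2 hp), Real.log_prod hp] at h1
  have h2 : ∑ y ∈ U.erase x, lamA g (aff x) (aff y) = e * Real.log (max (g x) 1) +
      ∑ y ∈ U.erase x, Real.log (max (g y) 1 / g (x - y)) := by
    have h3 : (e : ℝ) * Real.log (max (g x) 1) = ∑ _y ∈ U.erase x, Real.log (max (g x) 1) := by
      rw [Finset.sum_const, Finset.card_erase_of_mem hx, hU, Nat.add_sub_cancel, nsmul_eq_mul]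
    rw [h3, ← Finset.sum_add_distrib]
    refine Finset.sum_congr rfl fun y hy => ?_
    rw [lam_aff_eq g (Ne.symm (Finset.mem_erase.1 hy).1), Real.log_div (hm y).ne' (hd y hy).ne']
    ring
  rw [h2]
  push_cast at h1
  linarith

theorem key_place (p : Pl K) {f : K[X]} (hf0 : f ≠ 0) {e : ℕ}
    (hf : f.natDegree ≤ e) (U : Finset K) [DecidableEq K] (hU : U.card = e + 1)
    (hU0 : ∀ x ∈ U, f.eval x ≠ 0) :
    ∃ x ∈ U, mv p e f x ≤ (2 * e + 1) * loss p + ∑ y ∈ U.erase x, lam p (aff x) (aff y) := by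
  rcases p with w | v
  · obtain ⟨x, hx, h⟩ := key_abs (qm_two w.1) hf0 hf U hU hU0
    refine ⟨x, hx, ?_⟩
    have h1 := mul_le_mul_of_nonneg_left h (show (0 : ℝ) ≤ w.mult from Nat.cast_nonneg _)
    have e1 : mv (Sum.inl w) e f x = w.mult * (Real.log (gs w.1 f) +
        e * Real.log (max (w.1 x) 1) - Real.log (w.1 (f.eval x))) := by
      show w.mult * Real.log (gs w.1 f) + e * (w.mult * Real.log (max (w x) 1)) -
        w.mult * Real.log (w (f.eval x)) = _
      simp only [InfinitePlace.coe_apply]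
      ring
    have e2 : loss (Sum.inl w : Pl K) = w.mult * Real.log 2 := rfl
    have e3 : ∑ y ∈ U.erase x, lam (Sum.inl w) (aff x) (aff y) =
        w.mult * ∑ y ∈ U.erase x, lamA w.1 (aff x) (aff y) := by
      rw [Finset.mul_sum]
      rfl
    rw [e1, e2, e3]
    refine h1.trans (le_of_eq ?_)
    ring
  · obtain ⟨x, hx, h⟩ := key_abs (qm_na v) hf0 hf U hU hU0
    refine ⟨x, hx, ?_⟩
    rw [Real.log_one] at h
    exact h

/-- **clusters at a place** -/
theorem clu (p : Pl K) {f : K[X]} (hf0 : f ≠ 0) {e : ℕ} (he : 1 ≤ e) (hf : f.natDegree ≤ e)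
    (τ : ℝ) (S : Finset K) (hS : ∀ x ∈ S, f.eval x ≠ 0 ∧ τ ≤ mv p e f x) :
    ∃ (T : Finset K) (φ : K → K), T.card ≤ e ∧ (∀ x ∈ S, φ x ∈ T) ∧
      ∀ x ∈ S, ∀ y ∈ S, x ≠ y → φ x = φ y →
        (τ - (2 * e + 1) * loss p) / e - loss p ≤ lam p (aff x) (aff y) := by
  classical
  have he0 : (0 : ℝ) < e := by exact_mod_cast he
  obtain ⟨θ, hθ⟩ : ∃ θ : ℝ, θ = (τ - (2 * e + 1) * loss p) / e := ⟨_, rfl⟩
  have hθe : e * θ = τ - (2 * e + 1) * loss p := by
    rw [hθ]
    field_simp
  have hl := loss_nonneg p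
  rw [← hθ]
  let 𝒯 : Finset (Finset K) := S.powerset.filter fun T =>
    ∀ x ∈ T, ∀ y ∈ T, x ≠ y → lam p (aff x) (aff y) < θ
  have hne : 𝒯.Nonempty := ⟨∅, by simp [𝒯]⟩
  obtain ⟨T, hT, hTmax⟩ := Finset.exists_max_image 𝒯 Finset.card hne
  obtain ⟨hT1, hT2⟩ := Finset.mem_filter.1 hT
  rw [Finset.mem_powerset] at hT1
  have hcov : ∀ x ∈ S, ∃ c ∈ T, x = c ∨ (x ≠ c ∧ θ ≤ lam p (aff x) (aff c)) := by
    intro x hx
    by_contra hcon
    push Not at hcon
    have hxT : x ∉ T := fun h => (hcon x h).1 rfl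
    have h1 : insert x T ∈ 𝒯 := by
      rw [Finset.mem_filter, Finset.mem_powerset]
      refine ⟨Finset.insert_subset hx hT1, ?_⟩
      intro a ha b hb hab
      rcases Finset.mem_insert.1 ha with rfl | ha'
      · rcases Finset.mem_insert.1 hb with rfl | hb'
        · exact absurd rfl hab
        · exact (hcon b hb').2 hab
      · rcases Finset.mem_insert.1 hb with rfl | hb'
        · rw [lam_comm]
          exact (hcon a ha').2 (Ne.symm hab)
        · exact hT2 a ha' b hb' hab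
    have h2 := hTmax _ h1
    rw [Finset.card_insert_of_notMem hxT] at h2
    omega
  choose! φ hφ1 hφ2 using hcov
  refine ⟨T, φ, ?_, hφ1, ?_⟩
  · by_contra hcon
    rw [not_le] at hcon
    obtain ⟨U, hU, hUc⟩ := Finset.exists_subset_card_eq (show e + 1 ≤ T.card by omega)
    obtain ⟨x, hx, h⟩ := key_place p hf0 hf U hUc fun x hx => (hS x (hT1 (hU hx))).1
    have h1 := (hS x (hT1 (hU hx))).2
    have h2 : ∑ y ∈ U.erase x, lam p (aff x) (aff y) < e * θ := by
      have hc : (U.erase x).card = e := by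
        rw [Finset.card_erase_of_mem hx, hUc, Nat.add_sub_cancel]
      have h3 : ∑ _y ∈ U.erase x, θ = e * θ := by
        rw [Finset.sum_const, hc, nsmul_eq_mul]
      rw [← h3]
      refine Finset.sum_lt_sum_of_nonempty ?_ ?_
      · rw [← Finset.card_pos, hc]
        omega
      · intro y hy
        obtain ⟨hy1, hy2⟩ := Finset.mem_erase.1 hy
        exact hT2 x (hU hx) y (hU hy2) (Ne.symm hy1)
    linarith
  · intro x hx y hy hxy hφ
    rcases hφ2 x hx with h1 | ⟨h1, h1'⟩
    · rcases hφ2 y hy with h2 | ⟨h2, h2'⟩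
      · exact absurd (h1.trans (hφ.trans h2.symm)) hxy
      · rw [← hφ, ← h1, lam_comm] at h2'
        linarith
    · rcases hφ2 y hy with h2 | ⟨h2, h2'⟩
      · rw [hφ, ← h2] at h1'
        linarith
      · rw [← hφ] at h2 h2'
        rw [lam_comm] at h2'
        exact lam_triangle p (aff_ne_zero x) (aff_ne_zero (φ x)) (aff_ne_zero y) (aff_wedge hxy)
          (aff_wedge h1) (aff_wedge (Ne.symm h2)) θ h1' h2'

end Pool.Agent.N753.SU
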