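import Mathlib
import Pool.Agent.N753.SF.SumZ
import Pool.Agent.N753.SU.Lag

/-!
# Bounds for the number of points which are uniform in the polynomial
-/

set_option autoImplicit false
set_option linter.unusedSectionVars false

namespace Pool.Agent.N753.SU

open NumberField IsDedekindDomain Finset Pool.Agent.H691R3
open Pool.Agent.TH876.Loc hiding mx
open Pool.Agent.N753.LS Pool.Agent.N753.SF Polynomial

variable (K : Type) [Field K] [NumberField K]

open Classical in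
/-- the larger sieve, uniformly in the bad primes -/
theorem ls_bound3 {κ : ℝ} (hκ : 1 ≤ κ) {K' : ℝ} (hK' : 0 ≤ K') {δ : ℝ}
    (hδ : 0 < δ) : ∃ C : ℝ, 0 < C ∧ ∀ (Bad : Finset (Pr K)) (H : ℝ), 0 ≤ H → ∀ S : Finset K,
      ∀ (G : Finset (Pr K)) (g : ℝ), ∑ v ∈ G, Real.log (Nv v) ≤ g →
        (∀ x ∈ S, ∀ y ∈ S, x ≠ y → ∀ Q : Finset (Pr K), Disjoint Q G →
          (∀ v ∈ Q, cls v x = cls v y) → g + ∑ v ∈ Q, Real.log (Nv v) ≤ 2 * H + lossK K) →
        (∀ v, v ∉ G → v ∉ Bad →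
          ((S.image (cls v)).card : ℝ) ≤ Nv v / κ + K' * Real.sqrt (Nv v)) →
        (S.card : ℝ) ≤ 1 + C * Real.exp (δ * (H + ∑ v ∈ Bad, Real.log (Nv v)) +
          (2 * H - g) / κ) := by
  obtain ⟨C, hC, h⟩ := ls_bound2 K hκ hK' ∅ hδ
  refine ⟨C, hC, ?_⟩
  intro Bad H hH S G g hG hpair hcls
  obtain ⟨β, hβ⟩ : ∃ β : ℝ, β = ∑ v ∈ Bad, Real.log (Nv v) := ⟨_, rfl⟩
  have hβ0 : 0 ≤ β := by
    rw [hβ]
    exact Finset.sum_nonneg fun v _ => (log_Nv_pos v).le
  rw [← hβ]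
  have h1 := h (H + β / 2) (by positivity) S (G ∪ Bad) (g + β) (by
    have h2 : ∑ v ∈ G ∪ Bad, Real.log (Nv v) ≤ ∑ v ∈ G, Real.log (Nv v) +
        ∑ v ∈ Bad, Real.log (Nv v) := by
      rw [← Finset.sum_union_inter]
      have : 0 ≤ ∑ v ∈ G ∩ Bad, Real.log (Nv v) := Finset.sum_nonneg fun v _ => (log_Nv_pos v).le
      linarith
    rw [← hβ] at h2
    linarith) (by
    intro x hx y hy hxy Q hQ hQc
    have h2 := hpair x hx y hy hxy Q (hQ.mono_right Finset.subset_union_left) hQc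
    linarith) (by
    intro v hv _
    rw [Finset.mem_union, not_or] at hv
    exact hcls v hv.1 hv.2)
  refine h1.trans ?_
  have e1 : 2 * (H + β / 2) - (g + β) = 2 * H - g := by ring
  rw [e1]
  have h2 : Real.exp (δ * (H + β / 2) + (2 * H - g) / κ) ≤
      Real.exp (δ * (H + β) + (2 * H - g) / κ) := by
    refine Real.exp_le_exp.2 ?_
    have : δ * (H + β / 2) ≤ δ * (H + β) := mul_le_mul_of_nonneg_left (by linarith) hδ.le
    linarith
  have := mul_le_mul_of_nonneg_left h2 hC.le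
  linarith

variable {K}

variable (K) in
open Classical in
/-- **the points divisible by a product of primes**, uniformly in the polynomial -/
theorem count_preU {δ : ℝ} (hδ : 0 < δ) : ∃ C : ℝ, 0 < C ∧
    ∀ (f : (𝓞 K)[X]), 1 ≤ f.natDegree → ∀ Bad : Finset (Pr K),
    (∀ v ∉ Bad, Good f v ∧ GoodS f v) →
      ∀ H : ℝ, 0 ≤ H → ∀ n : Pr K →₀ ℕ, (∀ v ∈ n.support, v ∉ Bad) → ∀ S : Finset K,
        (∀ x ∈ S, hr (aff x) ≤ H ∧ aeval x f ≠ 0 ∧ ∀ v ∈ n.support, n v ≤ nu f v x) →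
          (S.card : ℝ) ≤ ((f.natDegree : ℝ) + 1) ^ n.support.card *
            (1 + C * Real.exp ((2 + δ) * H - nrm n)) := by
  obtain ⟨C, hC, h⟩ := ls_bound2 K (κ := 1) le_rfl (K' := 1) zero_le_one ∅ hδ
  refine ⟨C, hC, ?_⟩
  intro f hd Bad hBad H hH n hn S hS
  have hn1 : ∀ v ∈ n.support, 1 ≤ n v := fun v hv =>
    Nat.one_le_iff_ne_zero.2 (Finsupp.mem_support_iff.1 hv)
  let key : K → ((v : n.support) → Option (kk v.1)) := fun x v => cls v.1 x
  obtain ⟨t, ht⟩ : ∃ t : Finset ((v : n.support) → Option (kk v.1)),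
    t = Fintype.piFinset fun v : n.support => RC f v.1 := ⟨_, rfl⟩
  have hmaps : ∀ x ∈ S, key x ∈ t := by
    intro x hx
    rw [ht, Fintype.mem_piFinset]
    intro v
    obtain ⟨g1, g2⟩ := hBad v.1 (hn v.1 v.2)
    refine cls_nu g1 g2.2 hd (hS x hx).2.1 ?_
    exact (hn1 v.1 v.2).trans ((hS x hx).2.2 v.1 v.2)
  have hcard : (t.card : ℝ) ≤ ((f.natDegree : ℝ) + 1) ^ n.support.card := by
    rw [ht, Fintype.card_piFinset]
    push_cast
    calc ∏ v : n.support, ((RC f v.1).card : ℝ) ≤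
          ∏ _v : n.support, ((f.natDegree : ℝ) + 1) := by
          refine Finset.prod_le_prod (fun _ _ => Nat.cast_nonneg _) fun v _ => ?_
          exact_mod_cast card_RC f v.1
      _ = _ := by
          rw [Finset.prod_const, Finset.card_univ, Fintype.card_coe]
  have hfib : ∀ b ∈ t, ((S.filter fun x => key x = b).card : ℝ) ≤
      1 + C * Real.exp ((2 + δ) * H - nrm n) := by
    intro b _
    obtain ⟨S', hS'⟩ : ∃ S', S' = S.filter fun x => key x = b := ⟨_, rfl⟩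
    rw [← hS']
    have hm : ∀ x ∈ S', x ∈ S ∧ key x = b := fun x hx => by
      rw [hS'] at hx
      exact Finset.mem_filter.1 hx
    have h1 := h H hH S' n.support (nrm n) (by
      rw [nrm_eq]
      refine Finset.sum_le_sum fun v hv => ?_
      have h2 : (1 : ℝ) ≤ n v := by exact_mod_cast hn1 v hv
      have h3 := log_Nv_pos v
      nlinarith) (by
      intro x hx y hy hxy Q hQ hQc
      obtain ⟨hxS, hx1⟩ := hm x hx
      obtain ⟨hyS, hy1⟩ := hm y hy
      have h2 := sum_lam_le (aff_ne_zero x) (aff_ne_zero y) (aff_wedge hxy)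
        ((n.support ∪ Q).map ⟨Sum.inr, Sum.inr_injective⟩ : Finset (Pl K))
      rw [Finset.sum_map, Finset.sum_union hQ.symm] at h2
      have h3 : nrm n ≤ ∑ v ∈ n.support, lam (Sum.inr v) (aff x) (aff y) := by
        rw [nrm_eq]
        refine Finset.sum_le_sum fun v hv => ?_
        refine lam_sep (hBad v (hn v hv)).2 hxy (hS x hxS).2.1 (hS y hyS).2.1 (hn1 v hv)
          ((hS x hxS).2.2 v hv) ((hS y hyS).2.2 v hv) ?_
        exact congrFun (hx1.trans hy1.symm) ⟨v, hv⟩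
      have h4 : ∑ v ∈ Q, Real.log (Nv v) ≤ ∑ v ∈ Q, lam (Sum.inr v) (aff x) (aff y) :=
        Finset.sum_le_sum fun v hv => lam_ge_of_cls v hxy (hQc v hv)
      have h5 := (hS x hxS).1
      have h6 := (hS y hyS).1
      have h7 : ∑ x_1 ∈ n.support, lam (Sum.inr x_1) (aff x) (aff y) +
        ∑ x_1 ∈ Q, lam (Sum.inr x_1) (aff x) (aff y) ≤ hr (aff x) + hr (aff y) + lossK K := h2
      linarith) (fun v _ _ => card_cls K v S')
    rw [div_one] at h1
    refine h1.trans (le_of_eq ?_)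
    congr 3
    ring
  have hsum : (S.card : ℝ) = ∑ b ∈ t, ((S.filter fun x => key x = b).card : ℝ) := by
    have := Finset.card_eq_sum_card_fiberwise hmaps
    exact_mod_cast this
  rw [hsum]
  calc ∑ b ∈ t, ((S.filter fun x => key x = b).card : ℝ) ≤
        ∑ _b ∈ t, (1 + C * Real.exp ((2 + δ) * H - nrm n)) := Finset.sum_le_sum hfib
    _ = t.card * (1 + C * Real.exp ((2 + δ) * H - nrm n)) := by
        rw [Finset.sum_const, nsmul_eq_mul]
    _ ≤ _ := mul_le_mul_of_nonneg_right hcard (by positivity)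

variable (K) in
open Classical in
/-- **the points with a powerful divisor**, uniformly in the polynomial -/
theorem count_powU (d : ℕ) {δ : ℝ} (hδ : 0 < δ) (hδ1 : δ ≤ 1) :
    ∃ C : ℝ, 0 < C ∧ ∀ (f : (𝓞 K)[X]), 1 ≤ f.natDegree → f.natDegree ≤ d →
      ∀ Bad : Finset (Pr K), (∀ v ∉ Bad, Good f v ∧ GoodS f v) →
      ∀ H : ℝ, 0 ≤ H → ∀ a b : ℝ, 0 ≤ a → ∀ S : Finset K,
        (∀ x ∈ S, hr (aff x) ≤ H ∧ aeval x f ≠ 0 ∧ ∃ m : Pr K →₀ ℕ,
          (∀ v ∈ m.support, v ∉ Bad ∧ 2 ≤ m v ∧ m v ≤ nu f v x) ∧ a ≤ nrm m ∧ nrm m ≤ b) →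
            a ≤ 4 * H → b ≤ 4 * H →
            (S.card : ℝ) ≤ C * (Real.exp (b / 2 + δ * H) + Real.exp ((2 + δ) * H - a / 2)) := by
  obtain ⟨C1, hC1, h1⟩ := count_preU K (half_pos hδ)
  obtain ⟨C2, hC2, h2⟩ := rankin K (D := (d : ℝ) + 1) (by positivity)
    (s := 1 / 2 + δ / 8) (by linarith)
  refine ⟨C2 * (1 + C1), by positivity, ?_⟩
  intro f hd hdd Bad hBad H hH a b ha S hS haH hbH
  have hS' : ∀ x, ∃ m : Pr K →₀ ℕ, x ∈ S →
      (∀ v ∈ m.support, v ∉ Bad ∧ 2 ≤ m v ∧ m v ≤ nu f v x) ∧ a ≤ nrm m ∧ nrm m ≤ b := by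
    intro x
    by_cases hx : x ∈ S
    · obtain ⟨m, hm⟩ := (hS x hx).2.2
      exact ⟨m, fun _ => hm⟩
    · exact ⟨0, fun h => absurd h hx⟩
  choose M hM using hS'
  obtain ⟨W, hW⟩ : ∃ W : Finset (Pr K →₀ ℕ), W = S.image M := ⟨_, rfl⟩
  obtain ⟨s, hs⟩ : ∃ s : ℝ, s = 1 / 2 + δ / 8 := ⟨_, rfl⟩
  rw [← hs] at h2
  have hs0 : 0 < s := by rw [hs]; positivity
  have hs1 : s < 1 := by rw [hs]; linarith
  have hWm : ∀ m ∈ W, (∀ v ∈ m.support, v ∉ Bad ∧ 2 ≤ m v) ∧ a ≤ nrm m ∧ nrm m ≤ b := by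
    intro m hm
    rw [hW] at hm
    obtain ⟨x, hx, rfl⟩ := Finset.mem_image.1 hm
    obtain ⟨e1, e2, e3⟩ := hM x hx
    exact ⟨fun v hv => ⟨(e1 v hv).1, (e1 v hv).2.1⟩, e2, e3⟩
  have hsum : (S.card : ℝ) = ∑ m ∈ W, ((S.filter fun x => M x = m).card : ℝ) := by
    have := Finset.card_eq_sum_card_fiberwise (s := S) (t := W) (f := M) (by
      intro x hx
      rw [hW]
      exact Finset.mem_coe.2 (Finset.mem_image_of_mem _ (Finset.mem_coe.1 hx)))
    exact_mod_cast this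
  obtain ⟨D, hD⟩ : ∃ D : ℝ, D = (d : ℝ) + 1 := ⟨_, rfl⟩
  have hD0 : 0 < D := by rw [hD]; positivity
  rw [← hD] at h2
  have hterm : ∀ m ∈ W, ((S.filter fun x => M x = m).card : ℝ) ≤
      (Real.exp (s * b) + C1 * Real.exp ((2 + δ / 2) * H - (1 - s) * a)) *
        (D ^ m.support.card * Real.exp (-(s * nrm m))) := by
    intro m hm
    obtain ⟨e1, e2, e3⟩ := hWm m hm
    have h3 := h1 f hd Bad hBad H hH m (fun v hv => (e1 v hv).1) (S.filter fun x => M x = m) (by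
      intro x hx
      obtain ⟨hxS, hxm⟩ := Finset.mem_filter.1 hx
      refine ⟨(hS x hxS).1, (hS x hxS).2.1, fun v hv => ?_⟩
      rw [← hxm] at hv ⊢
      exact ((hM x hxS).1 v hv).2.2)
    have h3' : ((f.natDegree : ℝ) + 1) ^ m.support.card ≤ D ^ m.support.card := by
      refine pow_le_pow_left₀ (by positivity) ?_ _
      have : (f.natDegree : ℝ) ≤ d := by exact_mod_cast hdd
      linarith
    refine (h3.trans (mul_le_mul_of_nonneg_right h3' (by positivity))).trans ?_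
    have e4 : (1 : ℝ) ≤ Real.exp (s * b) * Real.exp (-(s * nrm m)) := by
      rw [← Real.exp_add]
      refine Real.one_le_exp ?_
      have := mul_le_mul_of_nonneg_left e3 hs0.le
      linarith
    have e5 : Real.exp ((2 + δ / 2) * H - nrm m) ≤
        Real.exp ((2 + δ / 2) * H - (1 - s) * a) * Real.exp (-(s * nrm m)) := by
      rw [← Real.exp_add]
      refine Real.exp_le_exp.2 ?_
      have := mul_le_mul_of_nonneg_left e2 (show 0 ≤ 1 - s by linarith)
      linarith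
    have e6 : 0 < D ^ m.support.card := by positivity
    calc D ^ m.support.card * (1 + C1 * Real.exp ((2 + δ / 2) * H - nrm m)) ≤
        D ^ m.support.card * (Real.exp (s * b) * Real.exp (-(s * nrm m)) + C1 *
          (Real.exp ((2 + δ / 2) * H - (1 - s) * a) * Real.exp (-(s * nrm m)))) := by
          refine mul_le_mul_of_nonneg_left ?_ e6.le
          exact add_le_add e4 (mul_le_mul_of_nonneg_left e5 hC1.le)
      _ = _ := by ring
  rw [hsum]
  have h4 := h2 W (fun m hm v hv => ((hWm m hm).1 v hv).2)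
  have e7 : 0 ≤ Real.exp (s * b) + C1 * Real.exp ((2 + δ / 2) * H - (1 - s) * a) := by positivity
  calc ∑ m ∈ W, ((S.filter fun x => M x = m).card : ℝ) ≤
      ∑ m ∈ W, (Real.exp (s * b) + C1 * Real.exp ((2 + δ / 2) * H - (1 - s) * a)) *
        (D ^ m.support.card * Real.exp (-(s * nrm m))) := Finset.sum_le_sum hterm
    _ = (Real.exp (s * b) + C1 * Real.exp ((2 + δ / 2) * H - (1 - s) * a)) *
        ∑ m ∈ W, (D ^ m.support.card * Real.exp (-(s * nrm m))) := by rw [Finset.mul_sum]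
    _ ≤ (Real.exp (s * b) + C1 * Real.exp ((2 + δ / 2) * H - (1 - s) * a)) * C2 :=
        mul_le_mul_of_nonneg_left h4 e7
    _ ≤ (Real.exp (b / 2 + δ * H) + C1 * Real.exp ((2 + δ) * H - a / 2)) * C2 := by
        refine mul_le_mul_of_nonneg_right ?_ hC2.le
        refine add_le_add (Real.exp_le_exp.2 ?_)
          (mul_le_mul_of_nonneg_left (Real.exp_le_exp.2 ?_) hC1.le)
        · rw [hs]
          nlinarith
        · rw [hs]
          nlinarith
    _ ≤ _ := by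
        have e8 : 0 ≤ Real.exp (b / 2 + δ * H) := (Real.exp_pos _).le
        have e9 : 0 ≤ Real.exp ((2 + δ) * H - a / 2) := (Real.exp_pos _).le
        nlinarith [mul_nonneg hC2.le e8, mul_nonneg hC2.le e9, mul_nonneg hC1.le e8,
          mul_nonneg (mul_nonneg hC2.le hC1.le) e8]

variable (K) in
open Classical in
/-- **the number of classes**, uniformly in the polynomial -/
theorem cell_cardU (d : ℕ) : ∃ M : ℝ, 0 ≤ M ∧ ∀ f : (𝓞 K)[X], 1 ≤ f.natDegree →
    f.natDegree ≤ d → ∀ v : Pr K, Good f v → ∀ S : Finset K, (∀ x ∈ S, aeval x f ≠ 0) →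
      (∀ x ∈ S, ∀ y ∈ S, ∃ w : K, aeval x f = aeval y f * w ^ 2) →
      ((S.image (cls v)).card : ℝ) ≤ Nv v / 2 + M * Real.sqrt (Nv v) := by
  obtain ⟨M, hM, h⟩ := cell_gen (K := K) d
  refine ⟨M, hM, fun f hd hdd v hv S hS0 hS => ?_⟩
  refine h v hv.1 (f.map (Ideal.Quotient.mk v.asIdeal)) (by rw [hv.2.1]; exact hd)
    (by rw [hv.2.1]; exact hdd) hv.2.2 S ?_
  intro x hx y hy hxv hyv hy0
  have hvy : v.valuation K (aeval y f) = 1 := isSquare_of_eval hyv hy0
  obtain ⟨w, hw⟩ := hS x hx y hy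
  have hw1 : v.valuation K w ≤ 1 := by
    have h2 := (rd_eval v hxv f).1
    rw [hw, map_mul, hvy, one_mul, map_pow] at h2
    exact (pow_le_one_iff_of_nonneg zero_le two_ne_zero).1 h2
  refine ⟨rd v w, ?_⟩
  rw [← (rd_eval v hxv f).2, ← (rd_eval v hyv f).2, hw, sq w,
    rd_mul v hvy.le (by rw [map_mul]; exact mul_le_one' hw1 hw1), rd_mul v hw1 hw1, sq]

variable (K) in
open Classical in
/-- **points with a given set of odd primes**, uniformly in the polynomial -/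
theorem count_TU (d : ℕ) {δ : ℝ} (hδ : 0 < δ) : ∃ C : ℝ, 0 < C ∧
    ∀ f : (𝓞 K)[X], 1 ≤ f.natDegree → f.natDegree ≤ d → ∀ Bad : Finset (Pr K),
    (∀ v ∉ Bad, Good f v) → ∀ H : ℝ, 0 ≤ H →
      ∀ S : Finset K, (∀ x ∈ S, hr (aff x) ≤ H ∧ aeval x f ≠ 0) →
        ∀ T : Finset (Pr K), (∀ x ∈ S, od (aeval x f) = T) →
          (S.card : ℝ) ≤ C * ((d : ℝ) + 1) ^ (T \ Bad).card *
            (1 + Real.exp (δ * (H + ∑ v ∈ Bad, Real.log (Nv v)) +
              (2 * H - ∑ v ∈ T \ Bad, Real.log (Nv v)) / 2)) := by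
  obtain ⟨M, hM, hcell⟩ := cell_cardU K d
  obtain ⟨C1, hC1, hls⟩ := ls_bound3 K (κ := 2) one_le_two hM hδ
  obtain ⟨ι, hι, c, hc⟩ := H645.ABC.selmer (K := K) 2 two_pos
  have : Fintype ι := Fintype.ofFinite ι
  refine ⟨(Fintype.card ι + 1) * (C1 + 1), by positivity, ?_⟩
  intro f hd hdd Bad hBad H hH S hS T hT
  obtain ⟨U, hU⟩ : ∃ U : Finset (Pr K), U = T \ Bad := ⟨_, rfl⟩
  rw [← hU]
  obtain ⟨E, hE⟩ : ∃ E : ℝ, E = Real.exp (δ * (H + ∑ v ∈ Bad, Real.log (Nv v)) +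
    (2 * H - ∑ v ∈ U, Real.log (Nv v)) / 2) := ⟨_, rfl⟩
  rw [← hE]
  have hE0 : 0 < E := by rw [hE]; exact Real.exp_pos _
  have hUBad : ∀ v ∈ U, v ∉ Bad := fun v hv => by
    rw [hU] at hv
    exact (Finset.mem_sdiff.1 hv).2
  have hUT : ∀ v ∈ U, v ∈ T := fun v hv => by
    rw [hU] at hv
    exact (Finset.mem_sdiff.1 hv).1
  rcases S.eq_empty_or_nonempty with hS0 | ⟨x0, hx0⟩
  · rw [hS0, Finset.card_empty, Nat.cast_zero]
    positivity
  -- the key
  let col : K → ι := fun x => if h : aeval x f / aeval x0 f ≠ 0 then c (Units.mk0 _ h) else c 1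
  let key : K → ((v : U) → Option (kk v.1)) × ι := fun x => (fun v => cls v.1 x, col x)
  obtain ⟨t, ht⟩ : ∃ t : Finset (((v : U) → Option (kk v.1)) × ι),
    t = (Fintype.piFinset fun v : U => RC f v.1) ×ˢ (Finset.univ : Finset ι) := ⟨_, rfl⟩
  have hmaps : ∀ x ∈ S, key x ∈ t := by
    intro x hx
    rw [ht, Finset.mem_product]
    refine ⟨?_, Finset.mem_univ _⟩
    rw [Fintype.mem_piFinset]
    intro v
    refine cls_mem_RC (hBad v.1 (hUBad v.1 v.2)) hd ?_
    rw [← mem_od, hT x hx]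
    exact hUT v.1 v.2
  have hdd' : (f.natDegree : ℝ) + 1 ≤ (d : ℝ) + 1 := by
    have : (f.natDegree : ℝ) ≤ d := by exact_mod_cast hdd
    linarith
  have hcard : (t.card : ℝ) ≤ ((d : ℝ) + 1) ^ U.card * Fintype.card ι := by
    rw [ht, Finset.card_product, Fintype.card_piFinset, Finset.card_univ]
    push_cast
    refine mul_le_mul_of_nonneg_right ?_ (Nat.cast_nonneg _)
    calc ∏ v : U, ((RC f v.1).card : ℝ) ≤ ∏ _v : U, ((d : ℝ) + 1) := by
          refine Finset.prod_le_prod (fun _ _ => Nat.cast_nonneg _) fun v _ => ?_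
          refine le_trans ?_ hdd'
          exact_mod_cast card_RC f v.1
      _ = _ := by
          rw [Finset.prod_const, Finset.card_univ, Fintype.card_coe]
  have hfib : ∀ b ∈ t, ((S.filter fun x => key x = b).card : ℝ) ≤ 1 + C1 * E := by
    intro b _
    obtain ⟨S', hS'⟩ : ∃ S', S' = S.filter fun x => key x = b := ⟨_, rfl⟩
    rw [← hS']
    have hm : ∀ x ∈ S', x ∈ S ∧ key x = b := fun x hx => by
      rw [hS'] at hx
      exact Finset.mem_filter.1 hx
    have hUc : ∀ x ∈ S', ∀ y ∈ S', ∀ v ∈ U, cls v x = cls v y := by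
      intro x hx y hy v hv
      have h1 := (hm x hx).2.trans (hm y hy).2.symm
      exact congrFun (congrArg Prod.fst h1) ⟨v, hv⟩
    rw [hE]
    refine hls Bad H hH S' U _ le_rfl ?_ ?_
    · intro x hx y hy hxy Q hQ hQc
      have h1 := coinc_le hxy (U ∪ Q) (by
        intro v hv
        rcases Finset.mem_union.1 hv with hv | hv
        · exact hUc x hx y hy v hv
        · exact hQc v hv)
      rw [Finset.sum_union hQ.symm] at h1
      have h2 := (hS x (hm x hx).1).1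
      have h3 := (hS y (hm y hy).1).1
      linarith
    · intro v _ hvB
      refine hcell f hd hdd v (hBad v hvB) S' (fun x hx => (hS x (hm x hx).1).2) ?_
      intro x hx y hy
      obtain ⟨hxS, hx1⟩ := hm x hx
      obtain ⟨hyS, hy1⟩ := hm y hy
      have h1 : col x = col y := congrArg Prod.snd (hx1.trans hy1.symm)
      have hfx := (hS x hxS).2
      have hfy := (hS y hyS).2
      have hf0 := (hS x0 hx0).2
      have dx : aeval x f / aeval x0 f ≠ 0 := div_ne_zero hfx hf0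
      have dy : aeval y f / aeval x0 f ≠ 0 := div_ne_zero hfy hf0
      have h2 : c (Units.mk0 _ dx) = c (Units.mk0 _ dy) := by
        have e1 : col x = c (Units.mk0 _ dx) := dif_pos dx
        have e2 : col y = c (Units.mk0 _ dy) := dif_pos dy
        rw [← e1, ← e2, h1]
      have h3 : ∀ z (hzS : z ∈ S) (dz : aeval z f / aeval x0 f ≠ 0), ∀ v : Pr K,
          ((2 : ℕ) : ℤ) ∣ H645.ABC.vl v (Units.mk0 _ dz) := by
        intro z hzS dz v
        have e1 : Units.mk0 _ dz = Units.mk0 (aeval z f) (hS z hzS).2 / Units.mk0 (aeval x0 f) hf0 := by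
          ext
          simp
        rw [e1]
        refine even_of_od ?_ v
        rw [Units.val_mk0, Units.val_mk0, hT z hzS, hT x0 hx0]
      obtain ⟨w, hw⟩ := hc _ _ (h3 x hxS dx) (h3 y hyS dy) h2
      refine ⟨w, ?_⟩
      have h4 := congrArg (fun z : Kˣ => (z : K)) hw
      simp only [Units.val_mk0, Units.val_mul, Units.val_pow_eq_pow_val] at h4
      rw [div_eq_iff hf0] at h4
      rw [h4]
      field_simp
  have hsum : (S.card : ℝ) = ∑ b ∈ t, ((S.filter fun x => key x = b).card : ℝ) := by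
    have := Finset.card_eq_sum_card_fiberwise hmaps
    exact_mod_cast this
  rw [hsum]
  have hp : (0 : ℝ) < ((d : ℝ) + 1) ^ U.card := by positivity
  calc ∑ b ∈ t, ((S.filter fun x => key x = b).card : ℝ) ≤ ∑ _b ∈ t, (1 + C1 * E) :=
        Finset.sum_le_sum hfib
    _ = t.card * (1 + C1 * E) := by rw [Finset.sum_const, nsmul_eq_mul]
    _ ≤ (((d : ℝ) + 1) ^ U.card * Fintype.card ι) * ((C1 + 1) * (1 + E)) := by
        refine mul_le_mul hcard ?_ (by positivity) (by positivity)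
        nlinarith
    _ ≤ ((Fintype.card ι + 1) * (C1 + 1)) * ((d : ℝ) + 1) ^ U.card * (1 + E) := by
        have h1 : (0 : ℝ) ≤ ((d : ℝ) + 1) ^ U.card * ((C1 + 1) * (1 + E)) := by positivity
        nlinarith

variable (K) in
open Classical in
/-- **the number of the points with few odd primes**, uniformly in the polynomial -/
theorem count_lightU (d : ℕ) {δ : ℝ} (hδ : 0 < δ) : ∃ C : ℝ, 0 < C ∧
    ∀ f : (𝓞 K)[X], 1 ≤ f.natDegree → f.natDegree ≤ d → ∀ Bad : Finset (Pr K),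
    (∀ v ∉ Bad, Good f v) → ∀ H : ℝ, 0 ≤ H →
      ∀ τ : ℝ, τ ≤ 2 * H → ∀ S : Finset K, (∀ x ∈ S, hr (aff x) ≤ H ∧ aeval x f ≠ 0 ∧
        ∑ v ∈ od (aeval x f) \ Bad, Real.log (Nv v) ≤ τ) →
          (S.card : ℝ) ≤ C * Real.exp ((1 + δ) * H + δ * ∑ v ∈ Bad, Real.log (Nv v) + τ / 2) := by
  obtain ⟨C1, hC1, h1⟩ := count_TU K d (half_pos hδ)
  obtain ⟨C2, hC2, h2⟩ := sumU K ((d : ℝ) + 1)
    (by have : (0 : ℝ) ≤ d := Nat.cast_nonneg _; linarith) (half_pos hδ)
  obtain ⟨C3, hC3, hcp⟩ := card_primes K (half_pos hδ)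
  refine ⟨2 * C1 * C3 * C2, by positivity, ?_⟩
  intro f hd hdd Bad hBad H hH τ hτ S hS
  obtain ⟨D, hD⟩ : ∃ D : ℝ, D = (d : ℝ) + 1 := ⟨_, rfl⟩
  have hD0 : 0 < D := by
    rw [hD]
    positivity
  obtain ⟨β, hβ⟩ : ∃ β : ℝ, β = ∑ v ∈ Bad, Real.log (Nv v) := ⟨_, rfl⟩
  have hβ0 : 0 ≤ β := by
    rw [hβ]
    exact Finset.sum_nonneg fun v _ => (log_Nv_pos v).le
  obtain ⟨W, hW⟩ : ∃ W : Finset (Finset (Pr K)), W = S.image fun x => od (aeval x f) := ⟨_, rfl⟩
  have hWm : ∀ T ∈ W, ∑ v ∈ T \ Bad, Real.log (Nv v) ≤ τ := by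
    intro T hT
    rw [hW, Finset.mem_image] at hT
    obtain ⟨x, hx, rfl⟩ := hT
    exact (hS x hx).2.2
  have hsum : (S.card : ℝ) = ∑ T ∈ W, ((S.filter fun x => od (aeval x f) = T).card : ℝ) := by
    have := Finset.card_eq_sum_card_fiberwise (s := S) (t := W) (f := fun x => od (aeval x f)) (by
      intro x hx
      rw [hW]
      exact Finset.mem_coe.2 (Finset.mem_image_of_mem _ (Finset.mem_coe.1 hx)))
    exact_mod_cast this
  have hterm : ∀ T ∈ W, ((S.filter fun x => od (aeval x f) = T).card : ℝ) ≤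
      2 * C1 * Real.exp ((1 + δ / 2) * H + δ / 2 * β + τ / 2) * ∏ v ∈ T \ Bad, (D / Nv v) := by
    intro T hT
    have h3 := h1 f hd hdd Bad hBad H hH (S.filter fun x => od (aeval x f) = T)
      (fun x hx => ⟨(hS x (Finset.mem_filter.1 hx).1).1, (hS x (Finset.mem_filter.1 hx).1).2.1⟩) T
      (fun x hx => (Finset.mem_filter.1 hx).2)
    refine h3.trans ?_
    rw [← hβ]
    obtain ⟨U, hU⟩ : ∃ U : Finset (Pr K), U = T \ Bad := ⟨_, rfl⟩
    have hg := hWm T hT
    rw [← hU] at hg ⊢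
    obtain ⟨g, hg'⟩ : ∃ g : ℝ, g = ∑ v ∈ U, Real.log (Nv v) := ⟨_, rfl⟩
    rw [← hg'] at hg ⊢
    have h4 : (1 : ℝ) ≤ Real.exp (δ / 2 * (H + β) + (2 * H - g) / 2) := by
      refine Real.one_le_exp ?_
      have : 0 ≤ δ / 2 * (H + β) := by positivity
      linarith
    have h5 : ∏ v ∈ U, (D / Nv v) = D ^ U.card / Real.exp g := by
      rw [hg', exp_sum_log, Finset.prod_div_distrib, Finset.prod_const]
    rw [h5, ← hD]
    have h6 : Real.exp (δ / 2 * (H + β) + (2 * H - g) / 2) ≤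
        Real.exp ((1 + δ / 2) * H + δ / 2 * β + τ / 2) / Real.exp g := by
      rw [← Real.exp_sub]
      refine Real.exp_le_exp.2 ?_
      linarith
    have hp : 0 < D ^ U.card := by positivity
    calc C1 * D ^ U.card * (1 + Real.exp (δ / 2 * (H + β) + (2 * H - g) / 2)) ≤
        C1 * D ^ U.card * (2 * (Real.exp ((1 + δ / 2) * H + δ / 2 * β + τ / 2) /
          Real.exp g)) := by
          refine mul_le_mul_of_nonneg_left ?_ (by positivity)
          linarith
      _ = _ := by ring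
  rw [hsum]
  obtain ⟨E, hE⟩ : ∃ E : ℝ, E = Real.exp ((1 + δ / 2) * H + δ / 2 * β + τ / 2) := ⟨_, rfl⟩
  have hE0 : 0 < E := by rw [hE]; exact Real.exp_pos _
  rw [← hE] at hterm
  have hfin := sum_forget Bad (fun U => ∏ v ∈ U, (D / Nv v))
    (fun U => Finset.prod_nonneg fun v _ => by have := Nv_pos v; positivity) W
  have h7 := h2 H hH (W.image fun T => T \ Bad) (by
    intro U hU v hv
    obtain ⟨T, hT, rfl⟩ := Finset.mem_image.1 hU
    refine le_trans ?_ ((hWm T hT).trans hτ)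
    exact Finset.single_le_sum (f := fun v => Real.log (Nv v))
      (fun w _ => (log_Nv_pos w).le) hv)
  rw [← hD] at h7
  have h8 := hcp Bad
  rw [← hβ] at h8 ⊢
  calc ∑ T ∈ W, ((S.filter fun x => od (aeval x f) = T).card : ℝ)
      ≤ ∑ T ∈ W, 2 * C1 * E * ∏ v ∈ T \ Bad, (D / Nv v) := Finset.sum_le_sum hterm
    _ = 2 * C1 * E * ∑ T ∈ W, ∏ v ∈ T \ Bad, (D / Nv v) := by rw [Finset.mul_sum]
    _ ≤ 2 * C1 * E * ((C3 * Real.exp (δ / 2 * β)) * (C2 * Real.exp (δ / 2 * H))) := by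
        refine mul_le_mul_of_nonneg_left (hfin.trans ?_) (by positivity)
        exact mul_le_mul h8 h7 (Finset.sum_nonneg fun U _ => Finset.prod_nonneg fun v _ => by
          have := Nv_pos v
          positivity) (by positivity)
    _ = 2 * C1 * C3 * C2 * (E * (Real.exp (δ / 2 * β) * Real.exp (δ / 2 * H))) := by ring
    _ = _ := by
        rw [hE, ← Real.exp_add, ← Real.exp_add]
        congr 2
        ring

end Pool.Agent.N753.SU
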