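import Mathlib
import Pool.Agent.N753.SU.Unif

/-!
# Sums over the products of the primes of a finite set
-/

set_option autoImplicit false
set_option linter.unusedSectionVars false

namespace Pool.Agent.N753.SU

open NumberField IsDedekindDomain Finset Pool.Agent.H691R3
open Pool.Agent.TH876.Loc hiding mx
open Pool.Agent.N753.LS Pool.Agent.N753.SF Polynomial

variable (K : Type) [Field K] [NumberField K]

theorem geom_one {q q0 : ℝ} (hq0 : 0 ≤ q) (hq : q ≤ q0) (hq1 : q0 < 1) (N : ℕ) :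
    ∑ j ∈ Finset.range N, (if j = 0 then 0 else q ^ j) ≤ (1 - q0)⁻¹ * q := by
  have h1 : ∑ j ∈ Finset.range N, (if j = 0 then 0 else q ^ j) ≤
      ∑ j ∈ Finset.range (N + 1), (if j = 0 then 0 else q ^ j) := by
    refine Finset.sum_le_sum_of_subset_of_nonneg ?_ fun j _ _ => ?_
    · exact Finset.range_subset_range.2 (by omega)
    · split_ifs
      · exact le_rfl
      · positivity
  refine h1.trans ?_
  rw [Finset.sum_range_succ']
  have h2 : ∑ j ∈ Finset.range N, (if j + 1 = 0 then (0 : ℝ) else q ^ (j + 1)) =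
      q * ∑ j ∈ Finset.range N, q ^ j := by
    rw [Finset.mul_sum]
    refine Finset.sum_congr rfl fun j _ => ?_
    rw [if_neg (by omega), pow_succ']
  rw [h2, if_pos rfl, add_zero]
  have h3 : ∑ j ∈ Finset.range N, q ^ j ≤ (1 - q0)⁻¹ := by
    have h4 := geom_sum_mul q N
    have h5 : 0 ≤ q ^ N := by positivity
    have h6 : 0 ≤ ∑ j ∈ Finset.range N, q ^ j := Finset.sum_nonneg fun j _ => pow_nonneg hq0 j
    rw [← one_div, le_div_iff₀ (by linarith)]
    nlinarith
  rw [mul_comm]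
  exact mul_le_mul_of_nonneg_right h3 hq0

open Classical in
/-- the product over the primes of a finite set -/
theorem prod_bad {A : ℝ} (hA : 0 ≤ A) {s : ℝ} (hs : 0 < s) {δ : ℝ} (hδ : 0 < δ) :
    ∃ C : ℝ, 0 ≤ C ∧ ∀ Bad : Finset (Pr K),
      ∑ v ∈ Bad, A * Nv v ^ (-s) ≤ C + δ * ∑ v ∈ Bad, Real.log (Nv v) := by
  have hl2 : 0 < Real.log 2 := Real.log_pos (by norm_num)
  obtain ⟨T, hT⟩ : ∃ T : ℝ, T = ((A + 1) / (δ * Real.log 2)) ^ (s⁻¹) := ⟨_, rfl⟩
  have hb : 0 < (A + 1) / (δ * Real.log 2) := div_pos (by linarith) (mul_pos hδ hl2)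
  have hT0 : 0 < T := by rw [hT]; exact Real.rpow_pos_of_pos hb _
  have hTs : T ^ (-s) = (δ * Real.log 2) / (A + 1) := by
    rw [hT, ← Real.rpow_mul hb.le]
    have : s⁻¹ * -s = -1 := by
      rw [mul_neg, inv_mul_cancel₀ hs.ne']
    rw [this, Real.rpow_neg_one, inv_div]
  refine ⟨A * (PP K T).card, mul_nonneg hA (Nat.cast_nonneg _), fun Bad => ?_⟩
  have h1 : ∀ v ∈ Bad, A * Nv v ^ (-s) ≤ (if Nv v ≤ T then A else 0) + δ * Real.log (Nv v) := by
    intro v _
    have hN := two_le_Nv v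
    have hlog : Real.log 2 ≤ Real.log (Nv v) := Real.log_le_log (by norm_num) hN
    by_cases h : Nv v ≤ T
    · rw [if_pos h]
      have h2 : Nv v ^ (-s) ≤ 1 := Real.rpow_le_one_of_one_le_of_nonpos (by linarith) (by linarith)
      have h3 : A * Nv v ^ (-s) ≤ A * 1 := mul_le_mul_of_nonneg_left h2 hA
      have h4 : 0 ≤ δ * Real.log (Nv v) := mul_nonneg hδ.le (log_Nv_pos v).le
      linarith
    · rw [if_neg h, zero_add]
      rw [not_le] at h
      have h2 : Nv v ^ (-s) ≤ T ^ (-s) :=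
        Real.rpow_le_rpow_of_nonpos hT0 h.le (by linarith)
      have h3 : A * Nv v ^ (-s) ≤ A * T ^ (-s) := mul_le_mul_of_nonneg_left h2 hA
      have h4 : A * T ^ (-s) ≤ δ * Real.log 2 := by
        rw [hTs, mul_div_assoc', div_le_iff₀ (by linarith)]
        have h6 : 0 ≤ δ * Real.log 2 := mul_nonneg hδ.le hl2.le
        nlinarith
      have h5 : δ * Real.log 2 ≤ δ * Real.log (Nv v) := mul_le_mul_of_nonneg_left hlog hδ.le
      linarith
  refine (Finset.sum_le_sum h1).trans ?_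
  rw [Finset.sum_add_distrib, ← Finset.mul_sum]
  refine add_le_add ?_ le_rfl
  rw [← Finset.sum_filter, Finset.sum_const, nsmul_eq_mul, mul_comm]
  refine mul_le_mul_of_nonneg_left ?_ hA
  have h2 : (Bad.filter fun v => Nv v ≤ T) ⊆ PP K T := by
    intro v hv
    exact mem_PP.2 (Finset.mem_filter.1 hv).2
  exact_mod_cast Finset.card_le_card h2

open Classical in
/-- **Rankin's trick for the products of the primes of a finite set** -/
theorem rankin_bad {D : ℝ} (hD : 0 ≤ D) {s : ℝ} (hs : 0 < s) {δ : ℝ} (hδ : 0 < δ) :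
    ∃ C : ℝ, 0 < C ∧ ∀ Bad : Finset (Pr K), ∀ W : Finset (Pr K →₀ ℕ),
      (∀ n ∈ W, n.support ⊆ Bad) →
      ∑ n ∈ W, D ^ n.support.card * Real.exp (-(s * nrm n)) ≤
        C * Real.exp (δ * ∑ v ∈ Bad, Real.log (Nv v)) := by
  obtain ⟨q0, hq0⟩ : ∃ q0 : ℝ, q0 = 2 ^ (-s) := ⟨_, rfl⟩
  have hq01 : q0 < 1 := by
    rw [hq0]
    exact Real.rpow_lt_one_of_one_lt_of_neg (by norm_num) (by linarith)
  obtain ⟨A, hA⟩ : ∃ A : ℝ, A = D * (1 - q0)⁻¹ := ⟨_, rfl⟩
  have hA0 : 0 ≤ A := by
    rw [hA]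
    exact mul_nonneg hD (inv_nonneg.2 (by linarith))
  obtain ⟨C1, hC1, h1⟩ := prod_bad K hA0 hs hδ
  refine ⟨Real.exp C1, Real.exp_pos _, ?_⟩
  intro Bad W hW
  obtain ⟨q, hq⟩ : ∃ q : Pr K → ℝ, q = fun v => Nv v ^ (-s) := ⟨_, rfl⟩
  have hqn : ∀ v, 0 ≤ q v := fun v => by
    rw [hq]
    exact Real.rpow_nonneg (Nv_pos v).le _
  have hq1 : ∀ v, q v ≤ q0 := by
    intro v
    rw [hq, hq0]
    exact Real.rpow_le_rpow_of_nonpos (by norm_num) (two_le_Nv v) (by linarith)
  have hqlog : ∀ v, Real.exp (-(s * Real.log (Nv v))) = q v := by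
    intro v
    rw [hq]
    beta_reduce
    rw [Real.rpow_def_of_pos (Nv_pos v)]
    congr 1
    ring
  obtain ⟨N, hN⟩ : ∃ N : ℕ, N = W.sup (fun n => Bad.sup n) + 1 := ⟨_, rfl⟩
  have hVN : ∀ n ∈ W, ∀ v ∈ Bad, n v < N := by
    intro n hn v hv
    rw [hN]
    have e1 : n v ≤ Bad.sup n := Finset.le_sup (f := n) hv
    have e2 : Bad.sup n ≤ W.sup (fun n => Bad.sup n) :=
      Finset.le_sup (f := fun n : Pr K →₀ ℕ => Bad.sup n) hn
    omega
  let g : Pr K → ℕ → ℝ := fun v j => if j = 0 then 1 else D * q v ^ j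
  have hg0 : ∀ v j, 0 ≤ g v j := by
    intro v j
    show 0 ≤ if j = 0 then (1 : ℝ) else D * q v ^ j
    split_ifs
    · norm_num
    · exact mul_nonneg hD (pow_nonneg (hqn v) _)
  have hterm : ∀ n ∈ W, D ^ n.support.card * Real.exp (-(s * nrm n)) = ∏ v ∈ Bad, g v (n v) := by
    intro n hn
    rw [← Finset.prod_subset (hW n hn) (f := fun v => g v (n v)) (by
      intro v _ hv
      rw [Finsupp.notMem_support_iff] at hv
      show g v (n v) = 1
      rw [hv]
      exact if_pos rfl)]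
    have e1 : Real.exp (-(s * nrm n)) = ∏ v ∈ n.support, q v ^ n v := by
      rw [nrm_eq, Finset.mul_sum, ← Finset.sum_neg_distrib, Real.exp_sum]
      refine Finset.prod_congr rfl fun v _ => ?_
      rw [← hqlog v, ← Real.exp_nat_mul]
      congr 1
      ring
    rw [e1, ← Finset.prod_const, ← Finset.prod_mul_distrib]
    refine Finset.prod_congr rfl fun v hv => ?_
    show D * q v ^ n v = if n v = 0 then (1 : ℝ) else D * q v ^ n v
    rw [if_neg (Finsupp.mem_support_iff.1 hv)]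
  rw [Finset.sum_congr rfl hterm]
  let i : (Pr K →₀ ℕ) → ((v : Pr K) → v ∈ Bad → ℕ) := fun n v _ => n v
  have hinj : Set.InjOn i W := by
    intro m hm n hn hmn
    ext v
    by_cases hv : v ∈ Bad
    · have := congrFun (congrFun hmn v) hv
      exact this
    · have e1 : m v = 0 := Finsupp.notMem_support_iff.1 fun h => hv (hW m hm h)
      have e2 : n v = 0 := Finsupp.notMem_support_iff.1 fun h => hv (hW n hn h)
      rw [e1, e2]
  have hmem : W.image i ⊆ Bad.pi fun _ => Finset.range N := by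
    intro p hp
    obtain ⟨n, hn, rfl⟩ := Finset.mem_image.1 hp
    rw [Finset.mem_pi]
    intro v hv
    exact Finset.mem_range.2 (hVN n hn v hv)
  calc ∑ n ∈ W, ∏ v ∈ Bad, g v (n v) = ∑ n ∈ W, ∏ v ∈ Bad.attach, g v.1 (i n v.1 v.2) := by
        refine Finset.sum_congr rfl fun n _ => ?_
        exact (Finset.prod_attach Bad fun v => g v (n v)).symm
    _ = ∑ p ∈ W.image i, ∏ v ∈ Bad.attach, g v.1 (p v.1 v.2) :=
        (Finset.sum_image (f := fun p => ∏ v ∈ Bad.attach, g v.1 (p v.1 v.2)) hinj).symm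
    _ ≤ ∑ p ∈ Bad.pi fun _ => Finset.range N, ∏ v ∈ Bad.attach, g v.1 (p v.1 v.2) :=
        Finset.sum_le_sum_of_subset_of_nonneg hmem fun p _ _ =>
          Finset.prod_nonneg fun v _ => hg0 _ _
    _ = ∏ v ∈ Bad, ∑ j ∈ Finset.range N, g v j := by
        rw [Finset.prod_sum]
    _ ≤ ∏ v ∈ Bad, Real.exp (A * Nv v ^ (-s)) := by
        refine Finset.prod_le_prod (fun v _ => Finset.sum_nonneg fun j _ => hg0 v j) fun v _ => ?_
        have e1 : ∑ j ∈ Finset.range N, g v j ≤
            1 + D * ∑ j ∈ Finset.range N, (if j = 0 then 0 else q v ^ j) := by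
          have e0 : ∀ j ∈ Finset.range N, g v j = (if j = 0 then 1 else 0) +
              D * (if j = 0 then 0 else q v ^ j) := by
            intro j _
            show (if j = 0 then (1 : ℝ) else D * q v ^ j) = _
            by_cases h1 : j = 0
            · rw [if_pos h1, if_pos h1, if_pos h1, mul_zero, add_zero]
            · rw [if_neg h1, if_neg h1, if_neg h1, zero_add]
          rw [Finset.sum_congr rfl e0, Finset.sum_add_distrib, ← Finset.mul_sum]
          refine add_le_add ?_ le_rfl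
          rw [Finset.sum_ite_eq' (Finset.range N) 0 (fun _ => (1 : ℝ))]
          split_ifs <;> norm_num
        have e2 := geom_one (hqn v) (hq1 v) hq01 N
        have e3 : q v = Nv v ^ (-s) := by rw [hq]
        have e4 : D * ∑ j ∈ Finset.range N, (if j = 0 then 0 else q v ^ j) ≤ A * Nv v ^ (-s) := by
          rw [← e3, hA]
          have := mul_le_mul_of_nonneg_left e2 hD
          linarith
        have e5 := Real.add_one_le_exp (A * Nv v ^ (-s))
        linarith
    _ = Real.exp (∑ v ∈ Bad, A * Nv v ^ (-s)) := by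
        rw [← Real.exp_sum]
    _ ≤ _ := by
        rw [← Real.exp_add]
        exact Real.exp_le_exp.2 (h1 Bad)

end Pool.Agent.N753.SU
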