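import Mathlib
import Pool.Agent.N753.SU.Ran

/-!
# Points close to the zeros of a polynomial at the archimedean places and at the bad primes
-/

set_option autoImplicit false
set_option linter.unusedSectionVars false

namespace Pool.Agent.N753.SU

open NumberField IsDedekindDomain Finset Pool.Agent.H691R3
open Pool.Agent.TH876.Loc hiding mx
open Pool.Agent.N753.LS Pool.Agent.N753.SF Polynomial

section Abs

variable {K : Type} [Field K]

theorem eval_le {g : AbsoluteValue K ℝ} {A : ℝ} (hA : Qm g A) {f : K[X]} {e : ℕ}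
    (hf : f.natDegree ≤ e) (x : K) :
    g (f.eval x) ≤ A ^ (e + 1) * (gs g f * max (g x) 1 ^ e) := by
  have hm : (1 : ℝ) ≤ max (g x) 1 := le_max_right _ _
  have h0 : 0 ≤ gs g f * max (g x) 1 ^ e := mul_nonneg (gs_nonneg g f) (by positivity)
  rw [eval_eq_sum_range]
  refine (qm_sum hA _ _ h0 fun i hi => ?_).trans ?_
  · rw [g.map_mul, g.map_pow]
    refine mul_le_mul (le_gs g f i) ?_ (pow_nonneg (g.nonneg _) _) (gs_nonneg g f)
    refine (pow_le_pow_left₀ (g.nonneg _) (le_max_left _ 1) i).trans ?_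
    refine pow_le_pow_right₀ hm ?_
    have := Finset.mem_range.1 hi
    omega
  · refine mul_le_mul_of_nonneg_right ?_ h0
    rw [Finset.card_range]
    exact pow_le_pow_right₀ hA.1 (by omega)

theorem log_eval_le {g : AbsoluteValue K ℝ} {A : ℝ} (hA : Qm g A) {f : K[X]} {e : ℕ}
    (hf : f.natDegree ≤ e) {x : K} (hx : f.eval x ≠ 0) :
    Real.log (g (f.eval x)) ≤ (e + 1) * Real.log A + Real.log (gs g f) +
      e * Real.log (max (g x) 1) := by
  have hf0 : f ≠ 0 := by
    rintro rfl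
    simp at hx
  have h := Real.log_le_log (g.pos hx) (eval_le hA hf x)
  have h1 := gs_pos g hf0
  have h2 : (0 : ℝ) < max (g x) 1 := zero_lt_one.trans_le (le_max_right _ _)
  have h3 : 0 < A := zero_lt_one.trans_le hA.1
  rw [Real.log_mul (by positivity) (by positivity), Real.log_mul h1.ne' (by positivity),
    Real.log_pow, Real.log_pow] at h
  push_cast at h
  linarith

end Abs

variable {K : Type} [Field K] [NumberField K]

/-- the local heights are bounded from below -/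
theorem mv_ge (p : Pl K) {f : K[X]} {e : ℕ} (hf : f.natDegree ≤ e) {x : K}
    (hx : f.eval x ≠ 0) : -((e + 1) * loss p) ≤ mv p e f x := by
  rcases p with w | v
  · have h := log_eval_le (qm_two w.1) hf hx
    have h1 := mul_le_mul_of_nonneg_left h (show (0 : ℝ) ≤ w.mult from Nat.cast_nonneg _)
    have e1 : mv (Sum.inl w) e f x = w.mult * (Real.log (gs w.1 f) +
        e * Real.log (max (w.1 x) 1) - Real.log (w.1 (f.eval x))) := by
      show w.mult * Real.log (gs w.1 f) + e * (w.mult * Real.log (max (w x) 1)) -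
        w.mult * Real.log (w (f.eval x)) = _
      simp only [InfinitePlace.coe_apply]
      ring
    have e2 : loss (Sum.inl w : Pl K) = w.mult * Real.log 2 := rfl
    rw [e1, e2]
    linarith
  · have h := log_eval_le (qm_na v) hf hx
    rw [Real.log_one, mul_zero, zero_add] at h
    have e1 : mv (Sum.inr v) e f x = Real.log (gs (fv v) f) + e * Real.log (max (fv v x) 1) -
      Real.log (fv v (f.eval x)) := rfl
    have e2 : loss (Sum.inr v : Pl K) = 0 := rfl
    rw [e1, e2]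
    linarith

theorem mv_nonneg (v : Pr K) {f : K[X]} {e : ℕ} (hf : f.natDegree ≤ e) {x : K}
    (hx : f.eval x ≠ 0) : 0 ≤ mv (Sum.inr v) e f x := by
  have h := mv_ge (Sum.inr v) hf hx
  have e2 : loss (Sum.inr v : Pl K) = 0 := rfl
  rw [e2, mul_zero, neg_zero] at h
  exact h

/-- the local heights at the primes are integral multiples of `log N(v)` -/
theorem mv_nat (v : Pr K) {f : K[X]} {e : ℕ} (hf : f.natDegree ≤ e) {x : K}
    (hx : f.eval x ≠ 0) : ∃ n : ℕ, mv (Sum.inr v) e f x = n * Real.log (Nv v) := by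
  have hN := log_Nv_pos v
  have hf0 : f ≠ 0 := by
    rintro rfl
    simp at hx
  obtain ⟨i, hi⟩ := exists_gs (fv v) f
  have hc : f.coeff i ≠ 0 := by
    intro h
    rw [h, map_zero] at hi
    have := gs_pos (fv v) hf0
    linarith
  have h1 := log_fv_vl v (Units.mk0 _ hc)
  have h2 := log_fv_vl v (Units.mk0 _ hx)
  rw [Units.val_mk0] at h1 h2
  have e1 : mv (Sum.inr v) e f x = Real.log (gs (fv v) f) + e * mx (Sum.inr v) x -
    Real.log (fv v (f.eval x)) := rfl
  rw [← hi, h1, h2, mx_eq_mxn] at e1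
  have h3 := mv_nonneg v hf hx
  obtain ⟨a, ha⟩ : ∃ a : ℤ, a = H645.ABC.vl v (Units.mk0 _ hc) + e * mxn v x -
    H645.ABC.vl v (Units.mk0 _ hx) := ⟨_, rfl⟩
  have e2 : mv (Sum.inr v) e f x = a * Real.log (Nv v) := by
    rw [e1, ha]
    push_cast
    ring
  rw [e2] at h3
  have h4 : (0 : ℝ) ≤ (a : ℝ) := nonneg_of_mul_nonneg_left h3 hN
  have h5 : 0 ≤ a := by exact_mod_cast h4
  obtain ⟨n, rfl⟩ := Int.eq_ofNat_of_zero_le h5
  exact ⟨n, by rw [e2]; norm_cast⟩

variable (K) in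
open Classical in
/-- points which are pairwise close -/
theorem ls_bound4 {δ : ℝ} (hδ : 0 < δ) : ∃ C : ℝ, 0 < C ∧ ∀ (Bad : Finset (Pr K)) (H : ℝ), 0 ≤ H →
      ∀ (S : Finset K) (g : ℝ), 0 ≤ g →
        (∀ x ∈ S, ∀ y ∈ S, x ≠ y → ∀ Q : Finset (Pr K), Disjoint Q Bad →
          (∀ v ∈ Q, cls v x = cls v y) → g + ∑ v ∈ Q, Real.log (Nv v) ≤ 2 * H + lossK K) →
        (S.card : ℝ) ≤ 1 + C * Real.exp (δ * (H + ∑ v ∈ Bad, Real.log (Nv v)) + (2 * H - g)) := by
  obtain ⟨C, hC, h⟩ := ls_bound2 K (κ := 1) le_rfl (K' := 1) zero_le_one ∅ hδ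
  refine ⟨C, hC, ?_⟩
  intro Bad H hH S g hg hpair
  obtain ⟨β, hβ⟩ : ∃ β : ℝ, β = ∑ v ∈ Bad, Real.log (Nv v) := ⟨_, rfl⟩
  have hβ0 : 0 ≤ β := by
    rw [hβ]
    exact Finset.sum_nonneg fun v _ => (log_Nv_pos v).le
  rw [← hβ]
  have h1 := h (H + β / 2) (by positivity) S Bad (g + β) (by rw [← hβ]; linarith) (by
    intro x hx y hy hxy Q hQ hQc
    have h2 := hpair x hx y hy hxy Q hQ hQc
    linarith) (fun v _ _ => card_cls K v S)
  refine h1.trans ?_
  rw [div_one]
  have e1 : 2 * (H + β / 2) - (g + β) = 2 * H - g := by ring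
  rw [e1]
  have h2 : Real.exp (δ * (H + β / 2) + (2 * H - g)) ≤
      Real.exp (δ * (H + β) + (2 * H - g)) := by
    refine Real.exp_le_exp.2 ?_
    have : δ * (H + β / 2) ≤ δ * (H + β) := mul_le_mul_of_nonneg_left (by linarith) hδ.le
    linarith
  have := mul_le_mul_of_nonneg_left h2 hC.le
  linarith

theorem sum_loss_le (F : Finset (Pl K)) : ∑ p ∈ F, loss p ≤ lossK K := by
  have e1 : ∑ p ∈ F, loss p = ∑ w ∈ F.toLeft, (w.mult : ℝ) * Real.log 2 := by
    rw [← Finset.toLeft_disjSum_toRight (u := F), Finset.sum_disjSum]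
    simp only [Finset.toLeft_disjSum]
    have e2 : ∑ v ∈ F.toRight, loss (Sum.inr v : Pl K) = 0 := Finset.sum_eq_zero fun v _ => rfl
    rw [e2, add_zero]
    rfl
  rw [e1]
  unfold lossK
  exact Finset.sum_le_sum_of_subset_of_nonneg (Finset.subset_univ _) fun w _ _ =>
    mul_nonneg (Nat.cast_nonneg _) (Real.log_nonneg (by norm_num))

variable (K) in
open Classical in
/-- **points close to the zeros at several places**, uniformly in the polynomial -/
theorem count_vecU {δ : ℝ} (hδ : 0 < δ) : ∃ C : ℝ, 0 < C ∧ ∀ (f : K[X]) (e : ℕ), f ≠ 0 →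
    1 ≤ e → f.natDegree ≤ e → ∀ (F : Finset (Pl K)) (H : ℝ), 0 ≤ H → ∀ τ : Pl K → ℝ,
      ∀ S : Finset K, (∀ x ∈ S, hr (aff x) ≤ H ∧ f.eval x ≠ 0 ∧ ∀ p ∈ F, τ p ≤ mv p e f x) →
        (S.card : ℝ) ≤ (e : ℝ) ^ F.card * (1 + C * Real.exp (δ * (H + ∑ v ∈ F.toRight,
          Real.log (Nv v)) + (2 * H - (∑ p ∈ F, τ p) / e))) := by
  obtain ⟨C1, hC1, h1⟩ := ls_bound4 K hδ
  have hl0 := lossK_nonneg K
  refine ⟨C1 * Real.exp (4 * lossK K), by positivity, ?_⟩
  intro f e hf0 he hf F H hH τ S hS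
  have he0 : (0 : ℝ) < e := by exact_mod_cast he
  have he1 : (1 : ℝ) ≤ e := by exact_mod_cast he
  have hex := fun p (hp : p ∈ F) => clu p hf0 he hf (τ p) S fun x hx =>
    ⟨(hS x hx).2.1, (hS x hx).2.2 p hp⟩
  choose! T φ hT1 hT2 hT3 using hex
  let key : K → ((p : F) → K) := fun x p => φ p.1 x
  obtain ⟨t, ht⟩ : ∃ t : Finset ((p : F) → K), t = Fintype.piFinset fun p : F => T p.1 := ⟨_, rfl⟩
  have hmaps : ∀ x ∈ S, key x ∈ t := by
    intro x hx
    rw [ht, Fintype.mem_piFinset]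
    intro p
    exact hT2 p.1 p.2 x hx
  have hcard : (t.card : ℝ) ≤ (e : ℝ) ^ F.card := by
    rw [ht, Fintype.card_piFinset]
    push_cast
    calc ∏ p : F, ((T p.1).card : ℝ) ≤ ∏ _p : F, (e : ℝ) := by
          refine Finset.prod_le_prod (fun _ _ => Nat.cast_nonneg _) fun p _ => ?_
          exact_mod_cast hT1 p.1 p.2
      _ = _ := by
          rw [Finset.prod_const, Finset.card_univ, Fintype.card_coe]
  obtain ⟨g0, hg0⟩ : ∃ g0 : ℝ, g0 = (∑ p ∈ F, τ p) / e - 4 * lossK K := ⟨_, rfl⟩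
  have hgain : g0 ≤ ∑ p ∈ F, ((τ p - (2 * e + 1) * loss p) / e - loss p) := by
    have e1 : ∑ p ∈ F, ((τ p - (2 * e + 1) * loss p) / e - loss p) =
        (∑ p ∈ F, τ p) / e - ((2 * e + 1) / e + 1) * ∑ p ∈ F, loss p := by
      rw [Finset.sum_sub_distrib, ← Finset.sum_div, Finset.sum_sub_distrib, ← Finset.mul_sum]
      ring
    rw [e1, hg0]
    have h2 := sum_loss_le F
    have h3 : 0 ≤ ∑ p ∈ F, loss p := Finset.sum_nonneg fun p _ => loss_nonneg p
    have h4 : (2 * (e : ℝ) + 1) / e + 1 ≤ 4 := by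
      have : (2 * (e : ℝ) + 1) / e ≤ 3 := by
        rw [div_le_iff₀ he0]
        linarith
      linarith
    have h5 : ((2 * (e : ℝ) + 1) / e + 1) * ∑ p ∈ F, loss p ≤ 4 * lossK K :=
      mul_le_mul h4 h2 h3 (by norm_num)
    linarith
  have hfib : ∀ b ∈ t, ((S.filter fun x => key x = b).card : ℝ) ≤
      1 + C1 * Real.exp (4 * lossK K) * Real.exp (δ * (H + ∑ v ∈ F.toRight,
          Real.log (Nv v)) + (2 * H - (∑ p ∈ F, τ p) / e)) := by
    intro b _
    obtain ⟨S', hS'⟩ : ∃ S', S' = S.filter fun x => key x = b := ⟨_, rfl⟩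
    rw [← hS']
    have hm : ∀ x ∈ S', x ∈ S ∧ key x = b := fun x hx => by
      rw [hS'] at hx
      exact Finset.mem_filter.1 hx
    have h2 := h1 F.toRight H hH S' (max g0 0) (le_max_right _ _) (by
      intro x hx y hy hxy Q hQ hQc
      obtain ⟨hxS, hx1⟩ := hm x hx
      obtain ⟨hyS, hy1⟩ := hm y hy
      have h5 := (hS x hxS).1
      have h6 := (hS y hyS).1
      have h4 : ∑ v ∈ Q, Real.log (Nv v) ≤ ∑ v ∈ Q, lam (Sum.inr v) (aff x) (aff y) :=
        Finset.sum_le_sum fun v hv => lam_ge_of_cls v hxy (hQc v hv)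
      rcases le_total g0 0 with hg | hg
      · rw [max_eq_right hg, zero_add]
        have h7 := sum_lam_le (aff_ne_zero x) (aff_ne_zero y) (aff_wedge hxy)
          (Q.map ⟨Sum.inr, Sum.inr_injective⟩ : Finset (Pl K))
        rw [Finset.sum_map] at h7
        have h8 : ∑ v ∈ Q, lam (Sum.inr v) (aff x) (aff y) ≤
          hr (aff x) + hr (aff y) + lossK K := h7
        linarith
      · rw [max_eq_left hg]
        have hdis : Disjoint F (Q.map ⟨Sum.inr, Sum.inr_injective⟩ : Finset (Pl K)) := by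
          rw [Finset.disjoint_left]
          intro p hp hp'
          obtain ⟨v, hv, rfl⟩ := Finset.mem_map.1 hp'
          exact Finset.disjoint_left.1 hQ hv (Finset.mem_toRight.2 hp)
        have h7 := sum_lam_le (aff_ne_zero x) (aff_ne_zero y) (aff_wedge hxy)
          (F ∪ (Q.map ⟨Sum.inr, Sum.inr_injective⟩ : Finset (Pl K)))
        rw [Finset.sum_union hdis, Finset.sum_map] at h7
        have h8 : ∑ p ∈ F, lam p (aff x) (aff y) + ∑ v ∈ Q, lam (Sum.inr v) (aff x) (aff y) ≤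
          hr (aff x) + hr (aff y) + lossK K := h7
        have h9 : ∑ p ∈ F, ((τ p - (2 * e + 1) * loss p) / e - loss p) ≤
            ∑ p ∈ F, lam p (aff x) (aff y) := by
          refine Finset.sum_le_sum fun p hp => ?_
          exact hT3 p hp x hxS y hyS hxy (congrFun (hx1.trans hy1.symm) ⟨p, hp⟩)
        linarith)
    refine h2.trans ?_
    rw [mul_assoc, ← Real.exp_add]
    refine add_le_add le_rfl (mul_le_mul_of_nonneg_left (Real.exp_le_exp.2 ?_) hC1.le)
    have := le_max_left g0 0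
    linarith
  have hsum : (S.card : ℝ) = ∑ b ∈ t, ((S.filter fun x => key x = b).card : ℝ) := by
    have := Finset.card_eq_sum_card_fiberwise hmaps
    exact_mod_cast this
  rw [hsum]
  refine (Finset.sum_le_sum hfib).trans ?_
  rw [Finset.sum_const, nsmul_eq_mul]
  exact mul_le_mul_of_nonneg_right hcard (by positivity)

end Pool.Agent.N753.SU
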