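import Mathlib
import Pool.Agent.N753.SU.BadC
import Pool.Agent.N753.LS.Total

/-!
# Points close to the zeros of a polynomial at the archimedean places and at the bad primes:
the count
-/

set_option autoImplicit false
set_option linter.unusedSectionVars false

namespace Pool.Agent.N753.SU

open NumberField IsDedekindDomain Finset Pool.Agent.H691R3
open Pool.Agent.TH876.Loc hiding mx
open Pool.Agent.N753.LS Pool.Agent.N753.SF Polynomial

variable {K : Type} [Field K] [NumberField K]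

/-- the number of times the prime `v` divides the value of the form -/
noncomputable def mvn (v : Pr K) (e : ℕ) (f : K[X]) (x : K) : ℕ :=
  ⌊mv (Sum.inr v) e f x / Real.log (Nv v)⌋₊

theorem mv_eq_mvn (v : Pr K) {f : K[X]} {e : ℕ} (hf : f.natDegree ≤ e) {x : K}
    (hx : f.eval x ≠ 0) : mv (Sum.inr v) e f x = mvn v e f x * Real.log (Nv v) := by
  obtain ⟨n, hn⟩ := mv_nat v hf hx
  have hN := log_Nv_pos v
  unfold mvn
  rw [hn, mul_div_assoc, div_self hN.ne', mul_one, Nat.floor_natCast]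

variable (K) in
open Classical in
/-- **points close to the zeros at the archimedean places and at the bad primes**, uniformly in the
polynomial -/
theorem count_bad (e : ℕ) (he : 1 ≤ e) {κ : ℝ} (hκ0 : 0 < κ) (hκe : κ ≤ e) {R : ℝ} (hR : 0 ≤ R)
    {δ : ℝ} (hδ : 0 < δ) :
    ∃ C : ℝ, 0 < C ∧ ∀ f : K[X], f ≠ 0 → f.natDegree ≤ e → ∀ (Bad : Finset (Pr K)) (H : ℝ),
      0 ≤ H → ∀ S : Finset K, (∀ x ∈ S, hr (aff x) ≤ H ∧ f.eval x ≠ 0 ∧
        κ * H ≤ ∑ w : InfinitePlace K, mv (Sum.inl w) e f x +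
          ∑ v ∈ Bad, mv (Sum.inr v) e f x ∧
        ∑ w : InfinitePlace K, mv (Sum.inl w) e f x + ∑ v ∈ Bad, mv (Sum.inr v) e f x ≤
          R * (1 + H)) →
      (S.card : ℝ) ≤ C * Real.exp ((2 - κ / e + δ) * H + δ * ∑ v ∈ Bad, Real.log (Nv v)) := by
  have he0 : (0 : ℝ) < e := by exact_mod_cast he
  have he1 : (1 : ℝ) ≤ e := by exact_mod_cast he
  obtain ⟨l, hl⟩ : ∃ l : ℝ, l = (e + 1) * lossK K := ⟨_, rfl⟩
  have hl0 : 0 ≤ l := by
    rw [hl]
    exact mul_nonneg (by positivity) (lossK_nonneg K)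
  obtain ⟨r, hr'⟩ : ∃ r : ℕ, r = Fintype.card (InfinitePlace K) := ⟨_, rfl⟩
  obtain ⟨s, hs⟩ : ∃ s : ℝ, s = min (1 / 2) (δ / (8 * (R + 1))) := ⟨_, rfl⟩
  have hs0 : 0 < s := by
    rw [hs]
    exact lt_min (by norm_num) (by positivity)
  have hs1 : s ≤ 1 / 2 := by rw [hs]; exact min_le_left _ _
  have hs2 : s * (R + 1) ≤ δ / 8 := by
    have h1 : s ≤ δ / (8 * (R + 1)) := by rw [hs]; exact min_le_right _ _
    have h2 := mul_le_mul_of_nonneg_right h1 (show 0 ≤ R + 1 by linarith)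
    refine h2.trans (le_of_eq ?_)
    field_simp
  have hsR : s * R ≤ δ / 8 := by nlinarith
  have hs3 : s ≤ δ / 8 := by nlinarith
  have hse : 0 < s / e := by positivity
  obtain ⟨C1, hC1, h1⟩ := count_vecU K (δ := δ / 4) (by positivity)
  obtain ⟨C2, hC2, h2⟩ := rankin_bad K (D := (e : ℝ)) he0.le (s := s / e) hse (δ := δ / 4)
    (by positivity)
  obtain ⟨C3, hC3, h3⟩ := pow_le_exp r (δ := δ / 4) (by positivity)
  -- the constants
  obtain ⟨A1, hA1⟩ : ∃ A1 : ℝ, A1 = R + 2 * l + 1 := ⟨_, rfl⟩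
  have hA10 : 0 < A1 := by rw [hA1]; positivity
  obtain ⟨c2, hc2⟩ : ∃ c2 : ℝ, c2 = Real.exp (s * (R + 2 * l)) + C1 * Real.exp ((r + l) + l) :=
    ⟨_, rfl⟩
  have hc20 : 0 < c2 := by rw [hc2]; positivity
  refine ⟨A1 ^ r * C3 * ((e : ℝ) ^ r * c2 * C2), by positivity, ?_⟩
  intro f hf0 hf Bad H hH S hS
  obtain ⟨β, hβ⟩ : ∃ β : ℝ, β = ∑ v ∈ Bad, Real.log (Nv v) := ⟨_, rfl⟩
  have hβ0 : 0 ≤ β := by
    rw [hβ]
    exact Finset.sum_nonneg fun v _ => (log_Nv_pos v).le
  rw [← hβ]
  -- lower bounds at the infinite places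
  have hlw : ∀ w : InfinitePlace K, 0 ≤ (e + 1) * loss (Sum.inl w : Pl K) := fun w =>
    mul_nonneg (by positivity) (loss_nonneg _)
  have hlsum : ∑ w : InfinitePlace K, ((e : ℝ) + 1) * loss (Sum.inl w : Pl K) = l := by
    rw [hl, ← Finset.mul_sum]
    rfl
  -- the keys
  let a : K → InfinitePlace K → ℕ := fun x w =>
    ⌊mv (Sum.inl w) e f x + (e + 1) * loss (Sum.inl w : Pl K)⌋₊
  let n : K → (Pr K →₀ ℕ) := fun x => Finsupp.onFinset Bad
    (fun v => if v ∈ Bad then mvn v e f x else 0) (by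
      intro v hv
      by_contra hcon
      exact hv (if_neg hcon))
  have hnv : ∀ x v, n x v = if v ∈ Bad then mvn v e f x else 0 := fun x v => rfl
  have hns : ∀ x, (n x).support ⊆ Bad := by
    intro x v hv
    by_contra hcon
    rw [Finsupp.mem_support_iff, hnv, if_neg hcon] at hv
    exact hv rfl
  have hnn : ∀ x ∈ S, nrm (n x) = ∑ v ∈ Bad, mv (Sum.inr v) e f x := by
    intro x hx
    rw [nrm_eq, Finset.sum_subset (hns x) (fun v _ hv => by
      rw [Finsupp.notMem_support_iff.1 hv, Nat.cast_zero, zero_mul])]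
    refine Finset.sum_congr rfl fun v hv => ?_
    rw [hnv, if_pos hv, mv_eq_mvn v hf (hS x hx).2.1]
  have hbp : ∀ x ∈ S, 0 ≤ ∑ v ∈ Bad, mv (Sum.inr v) e f x := fun x hx =>
    Finset.sum_nonneg fun v _ => mv_nonneg v hf (hS x hx).2.1
  have hge : ∀ x ∈ S, ∀ w : InfinitePlace K,
      0 ≤ mv (Sum.inl w) e f x + (e + 1) * loss (Sum.inl w : Pl K) := by
    intro x hx w
    have := mv_ge (Sum.inl w) hf (hS x hx).2.1
    linarith
  have hal : ∀ x ∈ S, ∀ w, (a x w : ℝ) ≤ mv (Sum.inl w) e f x + (e + 1) * loss (Sum.inl w : Pl K) :=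
    fun x hx w => Nat.floor_le (hge x hx w)
  have hau : ∀ x ∈ S, ∀ w : InfinitePlace K,
      mv (Sum.inl w) e f x + (e + 1) * loss (Sum.inl w : Pl K) ≤ a x w + 1 :=
    fun x hx w => (Nat.lt_floor_add_one _).le
  have hsumge : ∀ x ∈ S, -l ≤ ∑ w : InfinitePlace K, mv (Sum.inl w) e f x := by
    intro x hx
    rw [← hlsum, ← Finset.sum_neg_distrib]
    refine Finset.sum_le_sum fun w _ => ?_
    have := hge x hx w
    linarith
  have hale : ∀ x ∈ S, ∀ w, (a x w : ℝ) ≤ R * (1 + H) + 2 * l := by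
    intro x hx w
    have e1 := (hS x hx).2.2.2
    have e2 := hbp x hx
    have e3 : mv (Sum.inl w) e f x + (e + 1) * loss (Sum.inl w : Pl K) ≤
        ∑ w : InfinitePlace K, (mv (Sum.inl w) e f x + (e + 1) * loss (Sum.inl w : Pl K)) :=
      Finset.single_le_sum (f := fun w : InfinitePlace K =>
        mv (Sum.inl w) e f x + (e + 1) * loss (Sum.inl w : Pl K))
        (fun w _ => hge x hx w) (Finset.mem_univ w)
    rw [Finset.sum_add_distrib, hlsum] at e3
    have e4 := hal x hx w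
    linarith
  have hnle : ∀ x ∈ S, nrm (n x) ≤ R * (1 + H) + 2 * l := by
    intro x hx
    have e1 := (hS x hx).2.2.2
    have e2 := hsumge x hx
    rw [hnn x hx]
    linarith
  -- the range of the keys
  obtain ⟨M, hM⟩ : ∃ M : ℕ, M = ⌊R * (1 + H) + 2 * l⌋₊ := ⟨_, rfl⟩
  have hA0 : 0 ≤ R * (1 + H) + 2 * l := by positivity
  obtain ⟨W, hW⟩ : ∃ W : Finset (Pr K →₀ ℕ), W = S.image n := ⟨_, rfl⟩
  obtain ⟨box, hbox⟩ : ∃ box : Finset (InfinitePlace K → ℕ),
    box = Fintype.piFinset fun _ => Finset.range (M + 1) := ⟨_, rfl⟩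
  have hboxc : (box.card : ℝ) ≤ A1 ^ r * (C3 * Real.exp (δ / 4 * H)) := by
    rw [hbox, Fintype.card_piFinset, Finset.prod_const, Finset.card_range, Finset.card_univ, ← hr']
    push_cast
    have e1 : (M : ℝ) + 1 ≤ A1 * (2 + 2 * H) := by
      have e2 : (M : ℝ) ≤ R * (1 + H) + 2 * l := by
        rw [hM]
        exact Nat.floor_le hA0
      have e3 : 0 ≤ l * H := mul_nonneg hl0 hH
      have e4 : 0 ≤ R * H := mul_nonneg hR hH
      rw [hA1]
      linarith
    refine (pow_le_pow_left₀ (by positivity) e1 r).trans ?_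
    rw [mul_pow]
    exact mul_le_mul_of_nonneg_left (h3 H hH) (by positivity)
  have hmaps : ∀ x ∈ S, (a x, n x) ∈ box ×ˢ W := by
    intro x hx
    rw [Finset.mem_product]
    refine ⟨?_, ?_⟩
    · rw [hbox, Fintype.mem_piFinset]
      intro w
      rw [Finset.mem_range]
      refine Nat.lt_succ_of_le ?_
      rw [hM]
      exact Nat.le_floor (hale x hx w)
    · rw [hW]
      exact Finset.mem_image_of_mem _ hx
  -- the fibres
  obtain ⟨E, hE⟩ : ∃ E : ℝ, E = Real.exp ((2 - κ / e + δ / 2) * H + δ / 4 * β) := ⟨_, rfl⟩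
  have hE0 : 0 < E := by rw [hE]; exact Real.exp_pos _
  have hκe' : κ / e ≤ 1 := by
    rw [div_le_one he0]
    exact hκe
  have hκe0 : 0 < κ / e := by positivity
  have hfib : ∀ b ∈ box ×ˢ W, ((S.filter fun x => (a x, n x) = b).card : ℝ) ≤
      (e : ℝ) ^ r * c2 * E * ((e : ℝ) ^ b.2.support.card * Real.exp (-(s / e * nrm b.2))) := by
    intro b _
    obtain ⟨S', hS'⟩ : ∃ S', S' = S.filter fun x => (a x, n x) = b := ⟨_, rfl⟩
    rw [← hS']
    have hm : ∀ x ∈ S', x ∈ S ∧ a x = b.1 ∧ n x = b.2 := fun x hx => by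
      rw [hS'] at hx
      obtain ⟨h4, h5⟩ := Finset.mem_filter.1 hx
      exact ⟨h4, congrArg Prod.fst h5, congrArg Prod.snd h5⟩
    rcases S'.eq_empty_or_nonempty with h0 | ⟨x0, hx0⟩
    · rw [h0, Finset.card_empty, Nat.cast_zero]
      positivity
    obtain ⟨hx0S, hx0a, hx0n⟩ := hm x0 hx0
    let τ : Pl K → ℝ := Sum.elim (fun w => (b.1 w : ℝ) - (e + 1) * loss (Sum.inl w : Pl K))
      (fun v => (b.2 v : ℝ) * Real.log (Nv v))
    obtain ⟨F, hF⟩ : ∃ F : Finset (Pl K), F = Finset.disjSum Finset.univ b.2.support := ⟨_, rfl⟩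
    have hτ : ∑ p ∈ F, τ p = ∑ w, (b.1 w : ℝ) - l + nrm b.2 := by
      rw [hF, Finset.sum_disjSum]
      show ∑ w : InfinitePlace K, ((b.1 w : ℝ) - (e + 1) * loss (Sum.inl w : Pl K)) +
        ∑ v ∈ b.2.support, (b.2 v : ℝ) * Real.log (Nv v) = _
      rw [Finset.sum_sub_distrib, hlsum, nrm_eq]
    have hFr : F.toRight = b.2.support := by
      rw [hF, Finset.toRight_disjSum]
    have hFc : F.card = r + b.2.support.card := by
      rw [hF, Finset.card_disjSum, Finset.card_univ, hr']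
    have hmain := h1 f e hf0 he hf F H hH τ S' (by
      intro x hx
      obtain ⟨hxS, hxa, hxn⟩ := hm x hx
      refine ⟨(hS x hxS).1, (hS x hxS).2.1, fun p hp => ?_⟩
      rcases p with w | v
      · show (b.1 w : ℝ) - (e + 1) * loss (Sum.inl w : Pl K) ≤ _
        have e1 := hal x hxS w
        rw [hxa] at e1
        linarith
      · show (b.2 v : ℝ) * Real.log (Nv v) ≤ _
        rw [hF, Finset.inr_mem_disjSum] at hp
        rw [mv_eq_mvn v hf (hS x hxS).2.1, ← hxn, hnv, if_pos (hns x (by rw [hxn]; exact hp))])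
    rw [hFr, hFc, hτ] at hmain
    -- the bounds
    have g1 : κ * H ≤ ∑ w, (b.1 w : ℝ) + r + nrm b.2 := by
      have e1 := (hS x0 hx0S).2.2.1
      have e2 : ∑ w : InfinitePlace K, mv (Sum.inl w) e f x0 ≤ ∑ w, (b.1 w : ℝ) + r := by
        have e3 : ∑ w : InfinitePlace K, mv (Sum.inl w) e f x0 ≤
            ∑ w : InfinitePlace K, ((b.1 w : ℝ) + 1) := by
          refine Finset.sum_le_sum fun w _ => ?_
          have e4 := hau x0 hx0S w
          rw [hx0a] at e4
          have e5 := hlw w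
          linarith
        rw [Finset.sum_add_distrib] at e3
        rw [Finset.sum_const, Finset.card_univ, ← hr', nsmul_eq_mul, mul_one] at e3
        exact e3
      rw [← hnn x0 hx0S, hx0n] at e1
      linarith
    have g2 : 0 ≤ ∑ w, (b.1 w : ℝ) := Finset.sum_nonneg fun w _ => Nat.cast_nonneg _
    have g3 : nrm b.2 ≤ R * (1 + H) + 2 * l := by
      rw [← hx0n]
      exact hnle x0 hx0S
    have g4 : 0 ≤ nrm b.2 := nrm_nonneg _
    have g5 : ∑ v ∈ b.2.support, Real.log (Nv v) ≤ β := by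
      rw [hβ]
      refine Finset.sum_le_sum_of_subset_of_nonneg ?_ fun v _ _ => (log_Nv_pos v).le
      rw [← hx0n]
      exact hns x0
    obtain ⟨N, hN⟩ : ∃ N : ℝ, N = nrm b.2 := ⟨_, rfl⟩
    obtain ⟨A, hA⟩ : ∃ A : ℝ, A = ∑ w, (b.1 w : ℝ) := ⟨_, rfl⟩
    rw [← hN] at g1 g3 g4 hmain ⊢
    rw [← hA] at g1 g2 hmain
    have g6 : Real.exp (δ / 4 * (H + ∑ v ∈ b.2.support, Real.log (Nv v)) +
        (2 * H - (A - l + N) / e)) ≤ Real.exp ((r + l) + l) * E * Real.exp (-(s / e * N)) := by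
      rw [hE, ← Real.exp_add, ← Real.exp_add]
      refine Real.exp_le_exp.2 ?_
      have e1 : δ / 4 * (H + ∑ v ∈ b.2.support, Real.log (Nv v)) ≤ δ / 4 * H + δ / 4 * β := by
        rw [mul_add]
        exact add_le_add le_rfl (mul_le_mul_of_nonneg_left g5 (by positivity))
      -- (A - l + N) ≥ (1 - s) (κ H - r - l) + s (N - l)
      have e2 : (1 - s) * (κ * H - r - l) + s * (N - l) ≤ A - l + N := by
        have e3 : κ * H - r - l ≤ A - l + N := by linarith
        have e4 : N - l ≤ A - l + N := by linarith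
        have e5 := mul_le_mul_of_nonneg_left e3 (show 0 ≤ 1 - s by linarith)
        have e6 := mul_le_mul_of_nonneg_left e4 hs0.le
        linarith
      have e3 : ((1 - s) * (κ * H - r - l) + s * (N - l)) / e ≤ (A - l + N) / e :=
        div_le_div_of_nonneg_right e2 he0.le
      have e4 : ((1 - s) * (κ * H - r - l) + s * (N - l)) / e = (1 - s) * (κ / e) * H -
          (1 - s) * ((r + l) / e) + s / e * N - s * l / e := by
        field_simp
        ring
      have e5 : (1 - s) * ((r + l) / e) ≤ r + l := by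
        have e6 : (r + l) / e ≤ r + l := div_le_self (by positivity) he1
        have e7 : 0 ≤ (r + l) / e := by positivity
        nlinarith
      have e6 : s * l / e ≤ l := by
        have e7 : s * l / e ≤ s * l := div_le_self (by positivity) he1
        nlinarith
      have e7 : s * (κ / e) * H ≤ δ / 4 * H := by
        refine mul_le_mul_of_nonneg_right ?_ hH
        nlinarith
      rw [e4] at e3
      nlinarith
    have g7 : (1 : ℝ) ≤ Real.exp (s * (R + 2 * l)) * E * Real.exp (-(s / e * N)) := by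
      rw [hE, ← Real.exp_add, ← Real.exp_add]
      refine Real.one_le_exp ?_
      have e1 : s / e * N ≤ s * (R * (1 + H) + 2 * l) := by
        have e2 : s / e ≤ s := div_le_self hs0.le he1
        exact mul_le_mul e2 g3 g4 hs0.le
      have e2 : s * R * H ≤ δ / 8 * H := mul_le_mul_of_nonneg_right hsR hH
      have e3 : 0 ≤ (2 - κ / e) * H := mul_nonneg (by linarith) hH
      have e4 : 0 ≤ δ / 4 * β := by positivity
      have e5 : 0 ≤ δ * H := by positivity
      nlinarith
    refine hmain.trans ?_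
    rw [pow_add]
    have e0 : 0 < (e : ℝ) ^ b.2.support.card := by positivity
    have e00 : 0 < (e : ℝ) ^ r := by positivity
    have g8 := mul_le_mul_of_nonneg_left g6 hC1.le
    have g9 : 1 + C1 * Real.exp (δ / 4 * (H + ∑ v ∈ b.2.support, Real.log (Nv v)) +
        (2 * H - (A - l + N) / e)) ≤ c2 * E * Real.exp (-(s / e * N)) := by
      rw [hc2]
      linarith
    calc (e : ℝ) ^ r * (e : ℝ) ^ b.2.support.card * (1 + C1 * Real.exp (δ / 4 * (H +
          ∑ v ∈ b.2.support, Real.log (Nv v)) + (2 * H - (A - l + N) / e))) ≤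
        (e : ℝ) ^ r * (e : ℝ) ^ b.2.support.card * (c2 * E * Real.exp (-(s / e * N))) :=
          mul_le_mul_of_nonneg_left g9 (by positivity)
      _ = _ := by ring
  have hsum : (S.card : ℝ) = ∑ b ∈ box ×ˢ W, ((S.filter fun x => (a x, n x) = b).card : ℝ) := by
    have := Finset.card_eq_sum_card_fiberwise (s := S) (t := box ×ˢ W) (f := fun x => (a x, n x))
      hmaps
    exact_mod_cast this
  rw [hsum]
  have h5 := h2 Bad W (by
    intro m hm
    rw [hW] at hm
    obtain ⟨x, -, rfl⟩ := Finset.mem_image.1 hm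
    exact hns x)
  rw [← hβ] at h5
  calc ∑ b ∈ box ×ˢ W, ((S.filter fun x => (a x, n x) = b).card : ℝ) ≤
      ∑ b ∈ box ×ˢ W, (e : ℝ) ^ r * c2 * E *
        ((e : ℝ) ^ b.2.support.card * Real.exp (-(s / e * nrm b.2))) := Finset.sum_le_sum hfib
    _ = box.card * ((e : ℝ) ^ r * c2 * E *
        ∑ m ∈ W, ((e : ℝ) ^ m.support.card * Real.exp (-(s / e * nrm m)))) := by
        rw [Finset.sum_product, Finset.mul_sum (s := W)]
        simp only []
        rw [Finset.sum_const, nsmul_eq_mul]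
    _ ≤ (A1 ^ r * (C3 * Real.exp (δ / 4 * H))) * ((e : ℝ) ^ r * c2 * E *
        (C2 * Real.exp (δ / 4 * β))) := by
        refine mul_le_mul hboxc (mul_le_mul_of_nonneg_left h5 (by positivity)) ?_ (by positivity)
        refine mul_nonneg (by positivity) (Finset.sum_nonneg fun m _ => by positivity)
    _ = A1 ^ r * C3 * ((e : ℝ) ^ r * c2 * C2) * (E * (Real.exp (δ / 4 * H) *
        Real.exp (δ / 4 * β))) := by ring
    _ ≤ _ := by
        refine mul_le_mul_of_nonneg_left ?_ (by positivity)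
        rw [hE, ← Real.exp_add, ← Real.exp_add]
        refine Real.exp_le_exp.2 ?_
        have e1 : 0 ≤ δ * H := by positivity
        have e2 : 0 ≤ δ * β := by positivity
        nlinarith

end Pool.Agent.N753.SU
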