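import Mathlib
import Pool.Agent.N753.SU.BadD
import Pool.Agent.N753.SF.CountW

/-!
# The number of the points of a fibre with a small radical, uniformly in the fibre
-/

set_option autoImplicit false
set_option linter.unusedSectionVars false

namespace Pool.Agent.N753.SU

open NumberField IsDedekindDomain Finset Pool.Agent.H691R3
open Pool.Agent.TH876.Loc hiding mx
open Pool.Agent.N753.LS Pool.Agent.N753.SF Polynomial
open H645.ABC (vl)

variable {K : Type} [Field K] [NumberField K]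

/-- the parity of the valuation at the primes which do not divide the denominator -/
theorem od_nu' {f : (𝓞 K)[X]} {v : Pr K} (hv : f.leadingCoeff ∉ v.asIdeal) {x : K}
    (hx : aeval x f ≠ 0) (h2 : fv v x ≤ 1) (h : v ∈ od (aeval x f)) :
    1 ≤ nu f v x ∧ ¬ Even (nu f v x) := by
  rw [mem_od] at h
  obtain ⟨z, hz⟩ : ∃ z : Kˣ, z = Units.mk0 _ hx := ⟨_, rfl⟩
  have hz' : (z : K) = aeval x f := by rw [hz]; rfl
  rw [← hz', sq_iff] at h
  have hN := log_Nv_pos v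
  have h1 := log_fv_vl v z
  rw [hz'] at h1
  have h3 := mu_eq_nu hv hx
  rw [mu_small f h2, h1] at h3
  have h4 : ((nu f v x : ℤ) : ℝ) = ((-(vl v z) : ℤ) : ℝ) := by
    have h5 : ((nu f v x : ℤ) : ℝ) * Real.log (Nv v) = ((-(vl v z) : ℤ) : ℝ) * Real.log (Nv v) := by
      push_cast
      linarith
    exact mul_right_cancel₀ hN.ne' h5
  have h5 : (nu f v x : ℤ) = -(vl v z) := by exact_mod_cast h4
  have h6 : ¬ Even (nu f v x) := by
    intro h7
    apply h
    have h8 : Even (nu f v x : ℤ) := by exact_mod_cast h7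
    rw [h5] at h8
    exact (even_neg).1 h8
  refine ⟨?_, h6⟩
  by_contra hcon
  have : nu f v x = 0 := by omega
  rw [this] at h6
  exact h6 (by norm_num)

variable (K) in
open Classical in
/-- **few values are divisible by the square of a large prime** -/
theorem noLargeU (e E : ℕ) (he : 1 ≤ e) (hE : (Even e ∧ E ≤ 5) ∨ E ≤ 4) (c0 : ℝ) (hc0 : 0 ≤ c0)
    {δ : ℝ} (hδ : 0 < δ) (hδ1 : δ ≤ 1 / 16) :
    ∃ C : ℝ, 0 < C ∧ ∀ f : (𝓞 K)[X], f.natDegree = e → ∀ Bad : Finset (Pr K),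
      (∀ v ∉ Bad, Good f v ∧ GoodS f v) → ∀ H : ℝ, 0 ≤ H → ∀ S : Finset K,
      (∀ x ∈ S, hr (aff x) ≤ H ∧ aeval x f ≠ 0 ∧
        ∑ v ∈ dv f x \ Bad, (nu f v x : ℝ) * Real.log (Nv v) ≤ E * H + c0 ∧
        ∃ v, v ∉ Bad ∧ 2 ≤ nu f v x ∧ (2 - 1 / 16) * H ≤ Real.log (Nv v)) →
      (S.card : ℝ) ≤ C * Real.exp ((2 - 1 / 4) * H + δ * ∑ v ∈ Bad, Real.log (Nv v)) := by
  obtain ⟨C1, hC1, h2⟩ := count_all K (δ := 1) one_pos
  obtain ⟨C2, hC2, h3⟩ := count_lightU K e hδ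
  refine ⟨C1 * Real.exp (3 * (2 * c0 + 1)) + C2 * Real.exp (c0 / 2), by positivity, ?_⟩
  intro f hfe Bad hBad H hH S hS
  obtain ⟨β, hβ⟩ : ∃ β : ℝ, β = ∑ v ∈ Bad, Real.log (Nv v) := ⟨_, rfl⟩
  have hβ0 : 0 ≤ β := by
    rw [hβ]
    exact Finset.sum_nonneg fun v _ => (log_Nv_pos v).le
  rw [← hβ]
  obtain ⟨G, hG⟩ : ∃ G : ℝ, G = Real.exp ((2 - 1 / 4) * H + δ * β) := ⟨_, rfl⟩
  rw [← hG]
  have hG0 : 0 < G := by rw [hG]; exact Real.exp_pos _
  have hG1 : 1 ≤ G := by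
    rw [hG]
    refine Real.one_le_exp ?_
    have : 0 ≤ δ * β := by positivity
    linarith
  by_cases hcase : H ≤ 2 * c0 + 1
  · have h5 := h2 H hH S fun x hx => (hS x hx).1
    have h6 : Real.exp ((2 + 1) * H) ≤ Real.exp (3 * (2 * c0 + 1)) :=
      Real.exp_le_exp.2 (by linarith)
    have h7 : 0 ≤ C2 * Real.exp (c0 / 2) * G := by positivity
    have h8 : 0 ≤ C1 * Real.exp (3 * (2 * c0 + 1)) := by positivity
    calc (S.card : ℝ) ≤ C1 * Real.exp ((2 + 1) * H) := h5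
      _ ≤ C1 * Real.exp (3 * (2 * c0 + 1)) := mul_le_mul_of_nonneg_left h6 hC1.le
      _ ≤ C1 * Real.exp (3 * (2 * c0 + 1)) * G := le_mul_of_one_le_right h8 hG1
      _ ≤ _ := by nlinarith
  rw [not_le] at hcase
  have key : ∀ x ∈ S, ∑ v ∈ od (aeval x f) \ Bad, Real.log (Nv v) ≤ (1 + 1 / 8) * H + c0 := by
    intro x hx
    obtain ⟨hxH, hx0, hsum, v0, hv0, hv2, hv3⟩ := hS x hx
    have hl0 := log_Nv_pos v0
    have hv0d : v0 ∈ dv f x \ Bad := by
      rw [Finset.mem_sdiff]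
      exact ⟨(mem_dv_iff hx0 (hBad v0 hv0).2.2).2 (by omega), hv0⟩
    rw [← Finset.add_sum_erase _ _ hv0d] at hsum
    obtain ⟨Q, hQ⟩ : ∃ Q : ℝ, Q = ∑ v ∈ (dv f x \ Bad).erase v0,
      (nu f v x : ℝ) * Real.log (Nv v) := ⟨_, rfl⟩
    rw [← hQ] at hsum
    have h7 : 0 ≤ Q := by
      rw [hQ]
      exact Finset.sum_nonneg fun v _ => mul_nonneg (Nat.cast_nonneg _) (log_Nv_pos v).le
    have h8 : (2 : ℝ) ≤ nu f v0 x := by exact_mod_cast hv2
    have h9 : 2 * ((2 - 1 / 16) * H) ≤ nu f v0 x * Real.log (Nv v0) := by nlinarith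
    have hE5 : (E : ℝ) ≤ 5 := by
      have : E ≤ 5 := by omega
      exact_mod_cast this
    have hEH : (E : ℝ) * H ≤ 5 * H := mul_le_mul_of_nonneg_right hE5 hH
    have hnu : nu f v0 x = 2 := by
      by_contra hcon
      have h10 : (3 : ℝ) ≤ nu f v0 x := by
        have : 3 ≤ nu f v0 x := by omega
        exact_mod_cast this
      have h11 : 3 * ((2 - 1 / 16) * H) ≤ nu f v0 x * Real.log (Nv v0) := by nlinarith
      nlinarith
    obtain ⟨den, hden⟩ : ∃ den : Finset (Pr K), den = (od (aeval x f) \ Bad).filter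
      fun v => 1 < fv v x := ⟨_, rfl⟩
    obtain ⟨U, hU⟩ : ∃ U : Finset (Pr K), U = (od (aeval x f) \ Bad).filter
      fun v => ¬ 1 < fv v x := ⟨_, rfl⟩
    have hsplit : ∑ v ∈ od (aeval x f) \ Bad, Real.log (Nv v) =
        ∑ v ∈ den, Real.log (Nv v) + ∑ v ∈ U, Real.log (Nv v) := by
      rw [hden, hU]
      exact (Finset.sum_filter_add_sum_filter_not _ _ _).symm
    have h10 : U ⊆ (dv f x \ Bad).erase v0 := by
      intro v hv
      rw [hU, Finset.mem_filter, Finset.mem_sdiff, not_lt] at hv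
      obtain ⟨⟨hva, hvb⟩, hvx⟩ := hv
      obtain ⟨h11, h12⟩ := od_nu' (hBad v hvb).2.2 hx0 hvx hva
      rw [Finset.mem_erase, Finset.mem_sdiff]
      refine ⟨?_, (mem_dv_iff hx0 (hBad v hvb).2.2).2 h11, hvb⟩
      rintro rfl
      rw [hnu] at h12
      exact h12 (by norm_num)
    have h11 : ∑ v ∈ U, Real.log (Nv v) ≤ Q := by
      rw [hQ]
      refine (Finset.sum_le_sum_of_subset_of_nonneg h10 fun v _ _ => (log_Nv_pos v).le).trans ?_
      refine Finset.sum_le_sum fun v hv => ?_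
      obtain ⟨-, hv⟩ := Finset.mem_erase.1 hv
      obtain ⟨hva, hvb⟩ := Finset.mem_sdiff.1 hv
      have h12 : (1 : ℝ) ≤ nu f v x := by
        exact_mod_cast (mem_dv_iff hx0 (hBad v hvb).2.2).1 hva
      have := log_Nv_pos v
      nlinarith
    rcases hE with ⟨hev, -⟩ | hE4
    · have hd0 : den = ∅ := by
        rw [hden, Finset.filter_eq_empty_iff]
        intro v hv hcon
        rw [Finset.mem_sdiff] at hv
        obtain ⟨h12, -⟩ := od_nu (hBad v hv.2).2.2 hx0 (by rw [hfe]; exact hev) hv.1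
        have h13 : v ∈ dv f x := (mem_dv_iff hx0 (hBad v hv.2).2.2).2 h12
        rw [mem_dv hx0] at h13
        linarith [h13.1]
      rw [hsplit, hd0, Finset.sum_empty]
      linarith
    · have hd1 : ∑ v ∈ den, Real.log (Nv v) ≤ H := by
        have h12 := fin_le_hr x den
        have h13 : ∑ v ∈ den, Real.log (Nv v) ≤ ∑ v ∈ den, Real.log (max (fv v x) 1) := by
          refine Finset.sum_le_sum fun v hv => ?_
          rw [hden, Finset.mem_filter] at hv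
          exact log_fv_ge v hv.2
        rw [hr_aff] at hxH
        linarith
      have hE4' : (E : ℝ) ≤ 4 := by exact_mod_cast hE4
      have hEH' : (E : ℝ) * H ≤ 4 * H := mul_le_mul_of_nonneg_right hE4' hH
      rw [hsplit]
      linarith
  have hdeg : 1 ≤ f.natDegree := by omega
  have h5 := h3 f hdeg (by omega) Bad (fun v hv => (hBad v hv).1) H hH ((1 + 1 / 8) * H + c0)
    (by linarith) S fun x hx => ⟨(hS x hx).1, (hS x hx).2.1, key x hx⟩
  rw [← hβ] at h5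
  have h6 : Real.exp ((1 + δ) * H + δ * β + ((1 + 1 / 8) * H + c0) / 2) ≤
      Real.exp (c0 / 2) * G := by
    rw [hG, ← Real.exp_add]
    refine Real.exp_le_exp.2 ?_
    have : δ * H ≤ 1 / 16 * H := mul_le_mul_of_nonneg_right hδ1 hH
    linarith
  have h7 : 0 ≤ C1 * Real.exp (3 * (2 * c0 + 1)) * G := by positivity
  calc (S.card : ℝ) ≤ C2 * Real.exp ((1 + δ) * H + δ * β + ((1 + 1 / 8) * H + c0) / 2) := h5
    _ ≤ C2 * (Real.exp (c0 / 2) * G) := mul_le_mul_of_nonneg_left h6 hC2.le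
    _ ≤ _ := by nlinarith

variable (K) in
open Classical in
/-- **the points with a large powerful part** -/
theorem count_WU (e E : ℕ) (he : 1 ≤ e) (hE : (Even e ∧ E ≤ 5) ∨ E ≤ 4) (c0 : ℝ) (hc0 : 0 ≤ c0)
    {κ : ℝ} (hκ0 : 0 < κ) (hκ1 : κ ≤ 1) {δ : ℝ} (hδ : 0 < δ) (hδ1 : δ ≤ 1 / 16) :
    ∃ C : ℝ, 0 < C ∧ ∀ f : (𝓞 K)[X], f.natDegree = e → ∀ Bad : Finset (Pr K),
      (∀ v ∉ Bad, Good f v ∧ GoodS f v) → ∀ H : ℝ, 0 ≤ H → ∀ S : Finset K,
      (∀ x ∈ S, hr (aff x) ≤ H ∧ aeval x f ≠ 0 ∧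
        ∑ v ∈ dv f x \ Bad, (nu f v x : ℝ) * Real.log (Nv v) ≤ E * H + c0 ∧
        ∑ v ∈ dv f x \ Bad, Real.log (Nv v) + κ * H ≤
          ∑ v ∈ dv f x \ Bad, (nu f v x : ℝ) * Real.log (Nv v)) →
      (S.card : ℝ) ≤ C * Real.exp ((2 - κ / 64) * H + δ * ∑ v ∈ Bad, Real.log (Nv v)) := by
  -- the parameters
  obtain ⟨κ', hκ'⟩ : ∃ κ' : ℝ, κ' = 1 / 16 := ⟨_, rfl⟩
  obtain ⟨a0, ha0⟩ : ∃ a0 : ℝ, a0 = κ / 16 := ⟨_, rfl⟩
  have ha00 : 0 < a0 := by rw [ha0]; positivity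
  have ha01 : a0 ≤ κ := by rw [ha0]; linarith
  have ha02 : a0 ≤ κ' := by rw [ha0, hκ']; linarith
  obtain ⟨C2, hC2, h2⟩ := count_powU K e (δ := a0 / 4) (by positivity) (by linarith)
  obtain ⟨C3, hC3, h3⟩ := noLargeU K e E he hE c0 hc0 hδ hδ1
  obtain ⟨C4, hC4, h4⟩ := count_all K (δ := 1) one_pos
  refine ⟨C2 * 2 + C3 + C4, by positivity, ?_⟩
  intro f hfe Bad hBad H hH S hS
  obtain ⟨β, hβ⟩ : ∃ β : ℝ, β = ∑ v ∈ Bad, Real.log (Nv v) := ⟨_, rfl⟩
  have hβ0 : 0 ≤ β := by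
    rw [hβ]
    exact Finset.sum_nonneg fun v _ => (log_Nv_pos v).le
  rw [← hβ]
  have hδβ : 0 ≤ δ * β := by positivity
  obtain ⟨G, hG⟩ : ∃ G : ℝ, G = Real.exp ((2 - κ / 64) * H + δ * β) := ⟨_, rfl⟩
  rw [← hG]
  have hG0 : 0 < G := by rw [hG]; exact Real.exp_pos _
  have hG1 : 1 ≤ G := by
    rw [hG]
    refine Real.one_le_exp ?_
    have : 0 ≤ (2 - κ / 64) * H := mul_nonneg (by linarith) hH
    linarith
  have hexp : ∀ t : ℝ, t ≤ 2 - κ / 64 → Real.exp (t * H) ≤ G := fun t ht => by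
    rw [hG]
    refine Real.exp_le_exp.2 ?_
    have := mul_le_mul_of_nonneg_right ht hH
    linarith
  rcases hH.eq_or_lt with hH0 | hHpos
  · have h5 := h4 H hH S fun x hx => (hS x hx).1
    rw [← hH0, mul_zero, Real.exp_zero, mul_one] at h5
    have e1 : C4 ≤ C4 * G := le_mul_of_one_le_right hC4.le hG1
    have e2 : 0 ≤ (C2 * 2 + C3) * G := by positivity
    linarith
  have hdeg : 1 ≤ f.natDegree := by omega
  -- the two kinds of points
  obtain ⟨S3, hS3⟩ : ∃ S3 : Finset K, S3 = S.filter fun x => ∃ v, v ∉ Bad ∧ 2 ≤ nu f v x ∧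
    (2 - κ') * H ≤ Real.log (Nv v) := ⟨_, rfl⟩
  obtain ⟨S2, hS2⟩ : ∃ S2 : Finset K, S2 = S.filter fun x => ∃ m : Pr K →₀ ℕ,
    (∀ v ∈ m.support, v ∉ Bad ∧ 2 ≤ m v ∧ m v ≤ nu f v x) ∧ a0 * H ≤ nrm m ∧
      nrm m ≤ (4 - κ') * H := ⟨_, rfl⟩
  have hc3 : (S3.card : ℝ) ≤ C3 * G := by
    have h5 := h3 f hfe Bad hBad H hH S3 fun x hx => ?_
    · rw [← hβ] at h5
      refine h5.trans (mul_le_mul_of_nonneg_left ?_ hC3.le)
      rw [hG]
      refine Real.exp_le_exp.2 ?_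
      have : (2 - 1 / 4) * H ≤ (2 - κ / 64) * H := mul_le_mul_of_nonneg_right (by linarith) hH
      linarith
    · rw [hS3] at hx
      obtain ⟨hxS, v, hv1, hv2, hv3⟩ := Finset.mem_filter.1 hx
      rw [hκ'] at hv3
      exact ⟨(hS x hxS).1, (hS x hxS).2.1, (hS x hxS).2.2.1, v, hv1, hv2, hv3⟩
  have hc2 : (S2.card : ℝ) ≤ C2 * (G + G) := by
    have h6 := h2 f hdeg (by omega) Bad hBad H hH (a0 * H) ((4 - κ') * H) (by positivity) S2
      (fun x hx => by
        rw [hS2] at hx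
        obtain ⟨hxS, hx1⟩ := Finset.mem_filter.1 hx
        exact ⟨(hS x hxS).1, (hS x hxS).2.1, hx1⟩)
      (mul_le_mul_of_nonneg_right (by linarith) hH)
      (mul_le_mul_of_nonneg_right (by linarith) hH)
    refine h6.trans (mul_le_mul_of_nonneg_left (add_le_add ?_ ?_) hC2.le)
    · have e5 : (4 - κ') * H / 2 + a0 / 4 * H = (2 - κ' / 2 + a0 / 4) * H := by ring
      rw [e5]
      exact hexp _ (by linarith)
    · have e5 : (2 + a0 / 4) * H - a0 * H / 2 = (2 - a0 / 4) * H := by ring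
      rw [e5]
      exact hexp _ (by linarith)
  have hcover : S ⊆ S2 ∪ S3 := by
    intro x hx
    obtain ⟨hxH, hx0, hxE, hxW⟩ := hS x hx
    rw [Finset.mem_union]
    by_cases hx3 : ∃ v, v ∉ Bad ∧ 2 ≤ nu f v x ∧ (2 - κ') * H ≤ Real.log (Nv v)
    · right
      rw [hS3]
      exact Finset.mem_filter.2 ⟨hx, hx3⟩
    left
    rw [hS2]
    refine Finset.mem_filter.2 ⟨hx, ?_⟩
    push Not at hx3
    -- the powerful part
    let n : Pr K →₀ ℕ := Finsupp.onFinset (dv f x \ Bad)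
      (fun v => if v ∉ Bad ∧ v ∈ dv f x ∧ 2 ≤ nu f v x then nu f v x else 0) (by
        intro v hv
        have : v ∉ Bad ∧ v ∈ dv f x ∧ 2 ≤ nu f v x := by
          by_contra hcon
          exact hv (if_neg hcon)
        exact Finset.mem_sdiff.2 ⟨this.2.1, this.1⟩)
    have hnv : ∀ v, n v = if v ∉ Bad ∧ v ∈ dv f x ∧ 2 ≤ nu f v x then nu f v x else 0 :=
      fun v => rfl
    have hns : ∀ v, v ∈ n.support ↔ v ∉ Bad ∧ v ∈ dv f x ∧ 2 ≤ nu f v x := by
      intro v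
      rw [Finsupp.mem_support_iff, hnv]
      constructor
      · intro h
        by_contra hcon
        exact h (if_neg hcon)
      · intro h
        rw [if_pos h]
        omega
    have hn2 : ∀ v ∈ n.support, 2 ≤ n v := by
      intro v hv
      have h9 := (hns v).1 hv
      rw [hnv, if_pos h9]
      exact h9.2.2
    have hnn : ∀ v, n v ≤ nu f v x := by
      intro v
      rw [hnv]
      split_ifs
      · exact le_rfl
      · exact Nat.zero_le _
    have hnrm : nrm n = ∑ v ∈ dv f x \ Bad, (n v : ℝ) * Real.log (Nv v) := by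
      rw [nrm_eq]
      refine Finset.sum_subset ?_ ?_
      · intro v hv
        have h9 := (hns v).1 hv
        exact Finset.mem_sdiff.2 ⟨h9.2.1, h9.1⟩
      · intro v _ hv
        rw [Finsupp.notMem_support_iff.1 hv, Nat.cast_zero, zero_mul]
    have hsplit : ∑ v ∈ dv f x \ Bad, (nu f v x : ℝ) * Real.log (Nv v) ≤
        nrm n + ∑ v ∈ dv f x \ Bad, Real.log (Nv v) := by
      rw [hnrm, ← Finset.sum_add_distrib]
      refine Finset.sum_le_sum fun v hv => ?_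
      obtain ⟨hva, hvb⟩ := Finset.mem_sdiff.1 hv
      have hl := log_Nv_pos v
      rw [hnv]
      split_ifs with h10
      · linarith
      · have h11 : nu f v x ≤ 1 := by
          by_contra hcon
          exact h10 ⟨hvb, hva, by omega⟩
        have h12 : (nu f v x : ℝ) ≤ 1 := by exact_mod_cast h11
        rw [Nat.cast_zero, zero_mul, zero_add]
        nlinarith
    have hbig : a0 * H ≤ nrm n := by
      have h9 := mul_le_mul_of_nonneg_right ha01 hH
      linarith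
    obtain ⟨m, hm1, hm2, hm3, hm4⟩ := exists_sub n hn2 (a := a0 * H) (b := (2 - κ') * H)
      (by positivity) hbig (fun v hv => by
        have h9 := (hns v).1 hv
        exact (hx3 v h9.1 h9.2.2).le)
    refine ⟨m, ?_, hm3, ?_⟩
    · intro v hv
      have h9 : v ∈ n.support := by
        rw [Finsupp.mem_support_iff] at hv ⊢
        have := hm1 v
        omega
      exact ⟨((hns v).1 h9).1, hm2 v hv, (hm1 v).trans (hnn v)⟩
    · have h9 := mul_le_mul_of_nonneg_right ha02 hH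
      linarith
  have h9 : (S.card : ℝ) ≤ S2.card + S3.card := by
    exact_mod_cast (Finset.card_le_card hcover).trans (Finset.card_union_le _ _)
  have e2 : 0 ≤ C4 * G := by positivity
  linarith

/-- the decomposition of the local height of the fibre polynomial -/
theorem mv_mu (p : Pl K) (f : (𝓞 K)[X]) (x : K) :
    mv p f.natDegree (f.map (algebraMap (𝓞 K) K)) x = gn p (f.map (algebraMap (𝓞 K) K)) +
      mu p f x := by
  unfold mv mu
  rw [eval_map_algebraMap]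
  ring

variable (K) in
open Classical in
/-- **the points of a fibre with a small radical** -/
theorem fibre_bound (e E : ℕ) (he : 1 ≤ e) (hE : (Even e ∧ E ≤ 5) ∨ E ≤ 4) (c0 : ℝ)
    (hc0 : 0 ≤ c0) {κ : ℝ} (hκ0 : 0 < κ) (hκ1 : κ ≤ 1) {δ : ℝ} (hδ : 0 < δ) (hδ1 : δ ≤ 1 / 16) :
    ∃ C : ℝ, 0 < C ∧ ∀ f : (𝓞 K)[X], f.natDegree = e → ∀ Bad : Finset (Pr K),
      (∀ v ∉ Bad, Good f v ∧ GoodS f v) → ∀ H : ℝ, 0 ≤ H → ∀ L : ℝ,
      L = ∑ w : InfinitePlace K, gn (Sum.inl w) (f.map (algebraMap (𝓞 K) K)) +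
        ∑ v ∈ Bad, gn (Sum.inr v) (f.map (algebraMap (𝓞 K) K)) →
      L + e * H ≤ E * H + c0 → ∀ S : Finset K, (∀ x ∈ S, hr (aff x) ≤ H ∧ aeval x f ≠ 0 ∧
        ∑ v ∈ dv f x \ Bad, Real.log (Nv v) < L + e * hr (aff x) - κ * H) →
      (S.card : ℝ) ≤ C * Real.exp ((2 - κ / (128 * e)) * H + δ * ∑ v ∈ Bad, Real.log (Nv v)) := by
  have he0 : (0 : ℝ) < e := by exact_mod_cast he
  have he1 : (1 : ℝ) ≤ e := by exact_mod_cast he
  obtain ⟨l, hl⟩ : ∃ l : ℝ, l = (e + 1) * lossK K := ⟨_, rfl⟩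
  have hl0 : 0 ≤ l := by
    rw [hl]
    exact mul_nonneg (by positivity) (lossK_nonneg K)
  obtain ⟨δ1, hδ1'⟩ : ∃ δ1 : ℝ, δ1 = min δ (κ / (4 * e)) := ⟨_, rfl⟩
  have hδ10 : 0 < δ1 := by rw [hδ1']; exact lt_min hδ (by positivity)
  have hδ11 : δ1 ≤ δ := by rw [hδ1']; exact min_le_left _ _
  have hδ12 : δ1 ≤ κ / (4 * e) := by rw [hδ1']; exact min_le_right _ _
  obtain ⟨C1, hC1, h1⟩ := count_bad K e he (κ := κ / 2) (by positivity) (by linarith)
    (R := E + c0) (by positivity) hδ10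
  obtain ⟨C2, hC2, h2⟩ := count_WU K e E he hE (c0 + l) (by positivity) (κ := κ / 2)
    (by positivity) (by linarith) hδ hδ1
  refine ⟨C1 + C2, by positivity, ?_⟩
  intro f hfe Bad hBad H hH L hL hLE S hS
  have hdeg : 1 ≤ f.natDegree := by omega
  have hf0 : f ≠ 0 := by
    rintro rfl
    simp at hdeg
  obtain ⟨g, hg⟩ : ∃ g : K[X], g = f.map (algebraMap (𝓞 K) K) := ⟨_, rfl⟩
  have hg0 : g ≠ 0 := by
    rw [hg, Ne, Polynomial.map_eq_zero_iff (FaithfulSMul.algebraMap_injective (𝓞 K) K)]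
    exact hf0
  have hgd : g.natDegree ≤ e := by
    rw [hg, ← hfe]
    exact natDegree_map_le
  have hge : ∀ x, g.eval x = aeval x f := fun x => by
    rw [hg, eval_map_algebraMap]
  rw [← hg] at hL
  obtain ⟨β, hβ⟩ : ∃ β : ℝ, β = ∑ v ∈ Bad, Real.log (Nv v) := ⟨_, rfl⟩
  have hβ0 : 0 ≤ β := by
    rw [hβ]
    exact Finset.sum_nonneg fun v _ => (log_Nv_pos v).le
  rw [← hβ]
  obtain ⟨ν, hν⟩ : ∃ ν : ℝ, ν = κ / (128 * e) := ⟨_, rfl⟩
  have hν1 : ν ≤ κ / (4 * e) := by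
    rw [hν]
    refine div_le_div_of_nonneg_left hκ0.le (by positivity) ?_
    linarith
  have hν2 : ν ≤ κ / 2 / 64 := by
    rw [hν, div_div]
    refine div_le_div_of_nonneg_left hκ0.le (by positivity) ?_
    linarith
  rw [← hν]
  obtain ⟨G, hG⟩ : ∃ G : ℝ, G = Real.exp ((2 - ν) * H + δ * β) := ⟨_, rfl⟩
  rw [← hG]
  -- the identity
  have hid : ∀ x ∈ S, ∑ w : InfinitePlace K, mv (Sum.inl w) e g x +
      ∑ v ∈ Bad, mv (Sum.inr v) e g x + ∑ v ∈ dv f x \ Bad, (nu f v x : ℝ) * Real.log (Nv v) =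
        L + e * hr (aff x) := by
    intro x hx
    have h3 := height_eq f Bad (fun v hv => (hBad v hv).2.2) (hS x hx).2.1
    rw [hfe] at h3
    have h4 : ∀ p : Pl K, mv p e g x = gn p g + mu p f x := fun p => by
      rw [← hfe, hg]
      exact mv_mu p f x
    simp only [h4]
    rw [Finset.sum_add_distrib, Finset.sum_add_distrib, hL]
    linarith
  have hlow : ∀ x ∈ S, -l ≤ ∑ w : InfinitePlace K, mv (Sum.inl w) e g x := by
    intro x hx
    have hlsum : ∑ w : InfinitePlace K, ((e : ℝ) + 1) * loss (Sum.inl w : Pl K) = l := by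
      rw [hl, ← Finset.mul_sum]
      rfl
    rw [← hlsum, ← Finset.sum_neg_distrib]
    refine Finset.sum_le_sum fun w _ => ?_
    have := mv_ge (Sum.inl w) hgd (x := x) (by rw [hge]; exact (hS x hx).2.1)
    linarith
  have hlow2 : ∀ x ∈ S, 0 ≤ ∑ v ∈ Bad, mv (Sum.inr v) e g x := fun x hx =>
    Finset.sum_nonneg fun v _ => mv_nonneg v hgd (by rw [hge]; exact (hS x hx).2.1)
  have hlow3 : ∀ x, 0 ≤ ∑ v ∈ dv f x \ Bad, (nu f v x : ℝ) * Real.log (Nv v) := fun x =>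
    Finset.sum_nonneg fun v _ => mul_nonneg (Nat.cast_nonneg _) (log_Nv_pos v).le
  have hup : ∀ x ∈ S, L + e * hr (aff x) ≤ E * H + c0 := by
    intro x hx
    have := mul_le_mul_of_nonneg_left (hS x hx).1 he0.le
    linarith
  obtain ⟨S1, hS1⟩ : ∃ S1 : Finset K, S1 = S.filter fun x => κ / 2 * H ≤
    ∑ w : InfinitePlace K, mv (Sum.inl w) e g x + ∑ v ∈ Bad, mv (Sum.inr v) e g x := ⟨_, rfl⟩
  obtain ⟨S2, hS2⟩ : ∃ S2 : Finset K, S2 = S.filter fun x => ¬ κ / 2 * H ≤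
    ∑ w : InfinitePlace K, mv (Sum.inl w) e g x + ∑ v ∈ Bad, mv (Sum.inr v) e g x := ⟨_, rfl⟩
  have hc1 : (S1.card : ℝ) ≤ C1 * G := by
    have h5 := h1 g hg0 hgd Bad H hH S1 (by
      intro x hx
      rw [hS1] at hx
      obtain ⟨hxS, hx1⟩ := Finset.mem_filter.1 hx
      refine ⟨(hS x hxS).1, by rw [hge]; exact (hS x hxS).2.1, hx1, ?_⟩
      have e1 := hid x hxS
      have e2 := hlow3 x
      have e3 := hup x hxS
      have e4 : (E : ℝ) * H + c0 ≤ (E + c0) * (1 + H) := by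
        have e5 : (0 : ℝ) ≤ E := Nat.cast_nonneg _
        nlinarith [mul_nonneg hc0 hH]
      linarith)
    rw [← hβ] at h5
    refine h5.trans (mul_le_mul_of_nonneg_left ?_ hC1.le)
    rw [hG]
    refine Real.exp_le_exp.2 (add_le_add (mul_le_mul_of_nonneg_right ?_ hH)
      (mul_le_mul_of_nonneg_right hδ11 hβ0))
    have e1 : κ / 2 / e = κ / (4 * e) + κ / (4 * e) := by
      field_simp
      ring
    rw [e1]
    linarith
  have hc2 : (S2.card : ℝ) ≤ C2 * G := by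
    have h5 := h2 f hfe Bad hBad H hH S2 (by
      intro x hx
      rw [hS2] at hx
      obtain ⟨hxS, hx1⟩ := Finset.mem_filter.1 hx
      rw [not_le] at hx1
      have e1 := hid x hxS
      have e2 := hup x hxS
      have e3 := hlow x hxS
      have e4 := hlow2 x hxS
      have e5 := (hS x hxS).2.2
      refine ⟨(hS x hxS).1, (hS x hxS).2.1, by linarith, by linarith⟩)
    rw [← hβ] at h5
    refine h5.trans (mul_le_mul_of_nonneg_left ?_ hC2.le)
    rw [hG]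
    refine Real.exp_le_exp.2 (add_le_add (mul_le_mul_of_nonneg_right ?_ hH) le_rfl)
    linarith
  have h9 : (S.card : ℝ) = S1.card + S2.card := by
    rw [hS1, hS2]
    exact_mod_cast (Finset.card_filter_add_card_filter_not (s := S) (p := fun x => κ / 2 * H ≤
      ∑ w : InfinitePlace K, mv (Sum.inl w) e g x + ∑ v ∈ Bad, mv (Sum.inr v) e g x)).symm
  rw [h9]
  linarith

end Pool.Agent.N753.SU
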