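import Mathlib
import Pool.Agent.N753.SU.Unif

/-!
# Polynomials in two variables: definitions and statements

`K[X][Y]` is `Polynomial (Polynomial K)`. The inner variable is the variable `y` of the base, the
outer variable is the variable `x` of the fibre: `F.evalEval y x` is the value at the point
`(y, x)`.
-/

set_option autoImplicit false
set_option linter.unusedSectionVars false

namespace Pool.Agent.N753.SU

open NumberField IsDedekindDomain Finset Pool.Agent.H691R3
open Pool.Agent.TH876.Loc hiding mx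
open Pool.Agent.N753.LS Pool.Agent.N753.SF Polynomial

/-- the polynomial in one variable which is the restriction of `F` to the fibre over `y` -/
noncomputable def fib {K : Type} [Field K] (F : K[X][X]) (y : K) : K[X] := F.map (evalRingHom y)

theorem eval_fib {K : Type} [Field K] (F : K[X][X]) (y x : K) :
    (fib F y).eval x = F.evalEval y x := map_evalRingHom_eval y x F

/-- the degree in the inner variable -/
noncomputable def dgi {K : Type} [Field K] (F : K[X][X]) : ℕ :=
  F.support.sup fun j => (F.coeff j).natDegree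

/-- **SU/G** the Gauss norms of the fibres -/
def StmG : Prop := ∀ (K : Type) [Field K] [NumberField K] (F : K[X][X]), Irreducible F →
  1 ≤ F.natDegree → ∃ c : Pl K → ℝ, (∀ p, 0 ≤ c p) ∧ {p | c p ≠ 0}.Finite ∧
    ∀ (y : K), fib F y ≠ 0 ∧ ∀ p : Pl K, (dgi F : ℝ) * mx p y - c p ≤ gn p (fib F y) ∧
      gn p (fib F y) ≤ (dgi F : ℝ) * mx p y + c p

/-- **SU/R** the fibres of an irreducible polynomial -/
def StmR : Prop := ∀ (K : Type) [Field K] [NumberField K] (F : K[X][X]), Irreducible F →
  1 ≤ F.natDegree → ∃ (n : K[X]) (C : ℝ), n ≠ 0 ∧ 0 ≤ C ∧ ∀ y : K, n.eval y ≠ 0 →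
    ∃ (f : (𝓞 K)[X]) (u : K) (Bad : Finset (Pr K)), u ≠ 0 ∧
      f.map (algebraMap (𝓞 K) K) = Polynomial.C u * fib F y ∧ f.natDegree = F.natDegree ∧
      (∀ v ∉ Bad, Good f v ∧ GoodS f v ∧ fv v y ≤ 1 ∧ fv v u = 1) ∧
      ∑ v ∈ Bad, Real.log (Nv v) ≤ C * (1 + hr (aff y))

/-- **SU/O** two different components meet over few primes only. The prime `v` does not meet
both, for `v` outside a set `Bad` which depends on `y` only. -/
def StmO : Prop := ∀ (K : Type) [Field K] [NumberField K] (F G : K[X][X]), Irreducible F →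
  Irreducible G → ¬ Associated F G → 1 ≤ F.natDegree → ∃ (n : K[X]) (C : ℝ), n ≠ 0 ∧ 0 ≤ C ∧
    ∀ y : K, n.eval y ≠ 0 → ∃ Bad : Finset (Pr K),
      ∑ v ∈ Bad, Real.log (Nv v) ≤ C * (1 + hr (aff y)) ∧
      ∀ v ∉ Bad, fv v y ≤ 1 ∧ ∀ x : K,
        (fv v x ≤ 1 → ¬ (fv v (F.evalEval y x) < 1 ∧ fv v (G.evalEval y x) < 1)) ∧
        (1 < fv v x → fv v (F.evalEval y x) = fv v x ^ F.natDegree ∧
          fv v (G.evalEval y x) = fv v x ^ G.natDegree)

/-- **SU/W** exchanging the variables -/
def StmW : Prop := ∀ (K : Type) [Field K] (F : K[X][X]),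
  dgi (Bivariate.swap F) = F.natDegree ∧ (Bivariate.swap F).natDegree = dgi F ∧
    (Irreducible F → Irreducible (Bivariate.swap F)) ∧
    (∀ x y : K, (Bivariate.swap F).evalEval x y = F.evalEval y x) ∧
    ∀ g : AbsoluteValue K ℝ, (⨆ i : Fin (F.natDegree + 1), gs g (F.coeff i)) =
      ⨆ i : Fin ((Bivariate.swap F).natDegree + 1), gs g ((Bivariate.swap F).coeff i)

end Pool.Agent.N753.SU
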