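import Mathlib
import Pool.Agent.N753.SU.NL
import Pool.Agent.N753.SU.Stm

/-!
# Curves in the product of two lines: the fibres
-/

set_option autoImplicit false
set_option linter.unusedSectionVars false

namespace Pool.Agent.N753.SU

open NumberField IsDedekindDomain Finset Pool.Agent.H691R3
open Pool.Agent.TH876.Loc hiding mx
open Pool.Agent.N753.LS Pool.Agent.N753.SF Polynomial

variable {K : Type} [Field K] [NumberField K]

theorem sum_nm {z : K} (hz : z ≠ 0) (T : Finset (Pr K)) (hT : ∀ v ∉ T, nm (Sum.inr v) z = 0) :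
    ∑ w : InfinitePlace K, nm (Sum.inl w) z + ∑ v ∈ T, nm (Sum.inr v) z = 0 := by
  have h1 : ∑ w : InfinitePlace K, nm (Sum.inl w) z + ∑ᶠ v : Pr K, nm (Sum.inr v) z = 0 :=
    log_product_formula hz
  have h2 : ∑ᶠ v : Pr K, nm (Sum.inr v) z = ∑ v ∈ T, nm (Sum.inr v) z := by
    refine finsum_eq_sum_of_support_subset _ ?_
    intro v hv
    by_contra hcon
    exact hv (hT v hcon)
  rw [← h2]
  exact h1

theorem sum_mx (x : K) (T : Finset (Pr K)) (hT : ∀ v ∉ T, mx (Sum.inr v) x = 0) :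
    ∑ w : InfinitePlace K, mx (Sum.inl w) x + ∑ v ∈ T, mx (Sum.inr v) x = hr (aff x) := by
  have h2 : ∑ᶠ v : Pr K, mx (Sum.inr v) x = ∑ v ∈ T, mx (Sum.inr v) x := by
    refine finsum_eq_sum_of_support_subset _ ?_
    intro v hv
    by_contra hcon
    exact hv (hT v hcon)
  rw [← h2, ← hr_eq]

theorem nm_fin {z : K} (hz : z ≠ 0) : {v : Pr K | nm (Sum.inr v) z ≠ 0}.Finite :=
  log_fv_support_finite hz

/-- the conclusion of `StmG` -/
def GeoC (F : K[X][X]) : Prop := ∃ c : Pl K → ℝ, (∀ p, 0 ≤ c p) ∧ {p | c p ≠ 0}.Finite ∧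
    ∀ (y : K), fib F y ≠ 0 ∧ ∀ p : Pl K, (dgi F : ℝ) * mx p y - c p ≤ gn p (fib F y) ∧
      gn p (fib F y) ≤ (dgi F : ℝ) * mx p y + c p

/-- the conclusion of `StmR` -/
def FibC (F : K[X][X]) : Prop := ∃ (n : K[X]) (C : ℝ), n ≠ 0 ∧ 0 ≤ C ∧ ∀ y : K, n.eval y ≠ 0 →
    ∃ (f : (𝓞 K)[X]) (u : K) (Bad : Finset (Pr K)), u ≠ 0 ∧
      f.map (algebraMap (𝓞 K) K) = Polynomial.C u * fib F y ∧ f.natDegree = F.natDegree ∧
      (∀ v ∉ Bad, Good f v ∧ GoodS f v ∧ fv v y ≤ 1 ∧ fv v u = 1) ∧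
      ∑ v ∈ Bad, Real.log (Nv v) ≤ C * (1 + hr (aff y))

open Classical in
/-- the primes at which the point `(y, x)` is integral and meets the curve -/
noncomputable def dd (F : K[X][X]) (y x : K) : Finset (Pr K) :=
  if h : {v : Pr K | fv v y ≤ 1 ∧ fv v x ≤ 1 ∧ fv v (F.evalEval y x) < 1}.Finite then
    h.toFinset else ∅

theorem mem_dd {F : K[X][X]} {y x : K} (hx : F.evalEval y x ≠ 0) {v : Pr K} :
    v ∈ dd F y x ↔ fv v y ≤ 1 ∧ fv v x ≤ 1 ∧ fv v (F.evalEval y x) < 1 := by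
  have h : {v : Pr K | fv v y ≤ 1 ∧ fv v x ≤ 1 ∧ fv v (F.evalEval y x) < 1}.Finite := by
    refine (fv_support_finite hx).subset ?_
    rintro v ⟨-, -, h2⟩
    exact h2.ne
  unfold dd
  rw [dif_pos h, Set.Finite.mem_toFinset]
  rfl

theorem gs_C_mul (g : AbsoluteValue K ℝ) {u : K} (f : K[X]) :
    gs g (C u * f) = g u * gs g f := by
  by_cases hu : u = 0
  · rw [hu, C_0, zero_mul, map_zero, zero_mul]
    refine le_antisymm (ciSup_le fun i => ?_) (gs_nonneg _ _)
    rw [coeff_zero, map_zero]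
  have hgu : 0 < g u := g.pos hu
  refine le_antisymm ?_ ?_
  · obtain ⟨i, hi⟩ := exists_gs g (C u * f)
    rw [← hi, coeff_C_mul, g.map_mul]
    exact mul_le_mul_of_nonneg_left (le_gs g f i) hgu.le
  · obtain ⟨i, hi⟩ := exists_gs g f
    rw [← hi, ← g.map_mul, ← coeff_C_mul]
    exact le_gs g _ i

theorem gn_C_mul (p : Pl K) {u : K} (hu : u ≠ 0) {f : K[X]} (hf : f ≠ 0) :
    gn p (C u * f) = nm p u + gn p f := by
  rcases p with w | v
  · show (w.mult : ℝ) * Real.log (gs w.1 (C u * f)) = w.mult * Real.log (w u) +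
      w.mult * Real.log (gs w.1 f)
    rw [gs_C_mul, Real.log_mul (w.1.pos hu).ne' (gs_pos _ hf).ne']
    simp only [InfinitePlace.coe_apply]
    ring
  · show Real.log (gs (fv v) (C u * f)) = Real.log (fv v u) + Real.log (gs (fv v) f)
    rw [gs_C_mul, Real.log_mul ((fv v).pos hu).ne' (gs_pos _ hf).ne']

/-- the number of the points in a box, fibre by fibre -/
theorem fibres (n : K[X]) (hn : n ≠ 0) {C ν : ℝ} (hC : 0 < C) (hν0 : 0 < ν) (hν1 : ν ≤ 1) :
    ∃ C' : ℝ, 0 < C' ∧ ∀ H : ℝ, 0 ≤ H → ∀ S : Finset (K × K),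
      (∀ z ∈ S, hr (aff z.1) ≤ H ∧ hr (aff z.2) ≤ H) →
      (∀ y : K, n.eval y ≠ 0 → hr (aff y) ≤ H → ∀ S' : Finset K, (∀ x ∈ S', (y, x) ∈ S) →
        (S'.card : ℝ) ≤ C * Real.exp ((2 - ν) * H)) →
      (S.card : ℝ) ≤ C' * Real.exp ((4 - ν / 2) * H) := by
  classical
  obtain ⟨C1, hC1, h1⟩ := count_all K (δ := 1) one_pos
  obtain ⟨C2, hC2, h2⟩ := count_all K (δ := ν / 2) (by positivity)
  refine ⟨n.natDegree * C1 + C2 * C, by positivity, ?_⟩
  intro H hH S hS hfib
  obtain ⟨G, hG⟩ : ∃ G : ℝ, G = Real.exp ((4 - ν / 2) * H) := ⟨_, rfl⟩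
  rw [← hG]
  have hG0 : 0 < G := by rw [hG]; exact Real.exp_pos _
  let fi : K → Finset (K × K) := fun y => S.filter fun z => z.1 = y
  have hfi : ∀ y z, z ∈ fi y ↔ z ∈ S ∧ z.1 = y := fun y z => Finset.mem_filter
  have hcard : ∀ y, (fi y).card = ((fi y).image Prod.snd).card := by
    intro y
    refine (Finset.card_image_of_injOn ?_).symm
    intro a ha b hb hab
    rw [Finset.mem_coe, hfi] at ha hb
    exact Prod.ext (ha.2.trans hb.2.symm) hab
  have himg : ∀ y, ∀ x ∈ (fi y).image Prod.snd, (y, x) ∈ S := by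
    intro y x hx
    obtain ⟨z, hz, rfl⟩ := Finset.mem_image.1 hx
    rw [hfi] at hz
    rw [← hz.2]
    exact hz.1
  obtain ⟨Y, hY⟩ : ∃ Y : Finset K, Y = S.image Prod.fst := ⟨_, rfl⟩
  have hYh : ∀ y ∈ Y, hr (aff y) ≤ H := by
    intro y hy
    rw [hY] at hy
    obtain ⟨z, hz, rfl⟩ := Finset.mem_image.1 hy
    exact (hS z hz).1
  have hsum : (S.card : ℝ) = ∑ y ∈ Y, ((fi y).card : ℝ) := by
    have := Finset.card_eq_sum_card_fiberwise (s := S) (t := Y) (f := Prod.fst) (by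
      intro z hz
      rw [hY]
      exact Finset.mem_coe.2 (Finset.mem_image_of_mem _ (Finset.mem_coe.1 hz)))
    exact_mod_cast this
  rw [hsum, ← Finset.sum_filter_add_sum_filter_not Y (fun y => n.eval y = 0)]
  have hA : ∑ y ∈ Y.filter (fun y => n.eval y = 0), ((fi y).card : ℝ) ≤
      n.natDegree * C1 * G := by
    have e1 : ((Y.filter fun y => n.eval y = 0).card : ℝ) ≤ n.natDegree := by
      have e2 : (Y.filter fun y => n.eval y = 0) ⊆ n.roots.toFinset := by
        intro y hy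
        rw [Multiset.mem_toFinset, mem_roots hn]
        exact (Finset.mem_filter.1 hy).2
      exact_mod_cast (Finset.card_le_card e2).trans ((Multiset.toFinset_card_le _).trans
        (card_roots' n))
    have e2 : ∀ y ∈ Y.filter (fun y => n.eval y = 0), ((fi y).card : ℝ) ≤ C1 * G := by
      intro y _
      rw [hcard]
      refine (h1 H hH _ fun x hx => (hS _ (himg y x hx)).2).trans ?_
      refine mul_le_mul_of_nonneg_left ?_ hC1.le
      rw [hG]
      refine Real.exp_le_exp.2 (mul_le_mul_of_nonneg_right ?_ hH)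
      linarith
    refine (Finset.sum_le_sum e2).trans ?_
    rw [Finset.sum_const, nsmul_eq_mul, mul_assoc]
    exact mul_le_mul_of_nonneg_right e1 (by positivity)
  have hB : ∑ y ∈ Y.filter (fun y => ¬ n.eval y = 0), ((fi y).card : ℝ) ≤ C2 * C * G := by
    have e1 : ((Y.filter fun y => ¬ n.eval y = 0).card : ℝ) ≤ C2 * Real.exp ((2 + ν / 2) * H) := by
      refine le_trans ?_ (h2 H hH Y hYh)
      exact_mod_cast Finset.card_le_card (Finset.filter_subset _ _)
    have e2 : ∀ y ∈ Y.filter (fun y => ¬ n.eval y = 0), ((fi y).card : ℝ) ≤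
        C * Real.exp ((2 - ν) * H) := by
      intro y hy
      obtain ⟨hy1, hy2⟩ := Finset.mem_filter.1 hy
      rw [hcard]
      exact hfib y hy2 (hYh y hy1) _ (himg y)
    refine (Finset.sum_le_sum e2).trans ?_
    rw [Finset.sum_const, nsmul_eq_mul]
    refine (mul_le_mul_of_nonneg_right e1 (by positivity)).trans (le_of_eq ?_)
    have e3 : G = Real.exp ((2 + ν / 2) * H) * Real.exp ((2 - ν) * H) := by
      rw [hG, ← Real.exp_add]
      congr 1
      ring
    rw [e3]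
    ring
  linarith

open Classical in
/-- the sum of the local heights -/
theorem tot {F : K[X][X]} {c : Pl K → ℝ} (hc0 : ∀ p, 0 ≤ c p) (hcf : {p | c p ≠ 0}.Finite)
    (hc : ∀ (y : K), fib F y ≠ 0 ∧ ∀ p : Pl K, (dgi F : ℝ) * mx p y - c p ≤ gn p (fib F y) ∧
      gn p (fib F y) ≤ (dgi F : ℝ) * mx p y + c p) {y x : K} (hx : F.evalEval y x ≠ 0)
    (B : Finset (Pr K)) :
    ∑ w : InfinitePlace K, mv (Sum.inl w) F.natDegree (fib F y) x +
      ∑ v ∈ B, mv (Sum.inr v) F.natDegree (fib F y) x ≤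
        dgi F * hr (aff y) + F.natDegree * hr (aff x) + ∑ p ∈ hcf.toFinset, c p := by
  obtain ⟨e, he⟩ : ∃ e : ℕ, e = F.natDegree := ⟨_, rfl⟩
  obtain ⟨g, hg⟩ : ∃ g : K[X], g = fib F y := ⟨_, rfl⟩
  have hgd : g.natDegree ≤ e := by
    rw [hg, he]
    exact natDegree_map_le
  have hgx : g.eval x = F.evalEval y x := by
    rw [hg, eval_fib]
  have hgx0 : g.eval x ≠ 0 := by
    rw [hgx]
    exact hx
  have hc' := (hc y).2
  rw [← he, ← hg]
  rw [← hg] at hc'
  obtain ⟨T, hT⟩ : ∃ T : Finset (Pr K), T = B ∪ (hcf.toFinset.toRight ∪ ((mx_fin y).toFinset ∪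
    ((mx_fin x).toFinset ∪ (nm_fin hgx0).toFinset))) := ⟨_, rfl⟩
  have hTB : B ⊆ T := by rw [hT]; exact Finset.subset_union_left
  have hTn : ∀ v ∉ T, c (Sum.inr v) = 0 ∧ mx (Sum.inr v) y = 0 ∧ mx (Sum.inr v) x = 0 ∧
      nm (Sum.inr v) (g.eval x) = 0 := by
    intro v hv
    rw [hT] at hv
    simp only [Finset.mem_union, not_or, Finset.mem_toRight, Set.Finite.mem_toFinset,
      Set.mem_ofPred_eq, not_not] at hv
    exact hv.2
  have h1 : ∑ v ∈ B, mv (Sum.inr v) e g x ≤ ∑ v ∈ T, mv (Sum.inr v) e g x :=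
    Finset.sum_le_sum_of_subset_of_nonneg hTB fun v _ _ => mv_nonneg v hgd hgx0
  have h2 := sum_nm hgx0 T fun v hv => (hTn v hv).2.2.2
  have h3 := sum_mx x T fun v hv => (hTn v hv).2.2.1
  have h4 := sum_mx y T fun v hv => (hTn v hv).2.1
  have h5 : ∑ w : InfinitePlace K, gn (Sum.inl w) g + ∑ v ∈ T, gn (Sum.inr v) g ≤
      dgi F * hr (aff y) + ∑ p ∈ hcf.toFinset, c p := by
    have e1 : ∑ w : InfinitePlace K, gn (Sum.inl w) g ≤
        dgi F * ∑ w : InfinitePlace K, mx (Sum.inl w) y + ∑ w : InfinitePlace K, c (Sum.inl w) := by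
      rw [Finset.mul_sum, ← Finset.sum_add_distrib]
      exact Finset.sum_le_sum fun w _ => (hc' (Sum.inl w)).2
    have e2 : ∑ v ∈ T, gn (Sum.inr v) g ≤
        dgi F * ∑ v ∈ T, mx (Sum.inr v) y + ∑ v ∈ T, c (Sum.inr v) := by
      rw [Finset.mul_sum, ← Finset.sum_add_distrib]
      exact Finset.sum_le_sum fun v _ => (hc' (Sum.inr v)).2
    have e3 : ∑ w : InfinitePlace K, c (Sum.inl w) + ∑ v ∈ T, c (Sum.inr v) =
        ∑ p ∈ hcf.toFinset, c p := by
      rw [← Finset.sum_disjSum (s := Finset.univ) (t := T) (f := c)]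
      symm
      refine Finset.sum_subset ?_ ?_
      · intro p hp
        rcases p with w | v
        · exact Finset.inl_mem_disjSum.2 (Finset.mem_univ w)
        · rw [Finset.inr_mem_disjSum]
          by_contra hcon
          have := (hTn v hcon).1
          rw [Set.Finite.mem_toFinset] at hp
          exact hp this
      · intro p _ hp
        rw [Set.Finite.mem_toFinset] at hp
        by_contra hcon
        exact hp hcon
    rw [← h4]
    linarith
  have h6 : ∑ w : InfinitePlace K, mv (Sum.inl w) e g x + ∑ v ∈ T, mv (Sum.inr v) e g x =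
      (∑ w : InfinitePlace K, gn (Sum.inl w) g + ∑ v ∈ T, gn (Sum.inr v) g) +
        e * hr (aff x) := by
    unfold mv
    rw [Finset.sum_sub_distrib, Finset.sum_sub_distrib, Finset.sum_add_distrib,
      Finset.sum_add_distrib, ← Finset.mul_sum, ← Finset.mul_sum, ← h3]
    linarith
  linarith

end Pool.Agent.N753.SU
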