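import Mathlib
import Pool.Agent.N753.SU.Biv

/-!
# Polynomials in several variables: definitions and statements

The variable `0` of `MvPolynomial (Fin (m + 1)) K` is the variable of the fibre, the other
variables are the variables of the base.
-/

set_option autoImplicit false
set_option linter.unusedSectionVars false

namespace Pool.Agent.N753.SU

open NumberField IsDedekindDomain Finset Pool.Agent.H691R3
open Pool.Agent.TH876.Loc hiding mx
open Pool.Agent.N753.LS Pool.Agent.N753.SF Polynomial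

/-- the polynomial in one variable which is the restriction of `F` to the fibre over `y` -/
noncomputable def fibm {K : Type} [Field K] {m : ℕ} (F : MvPolynomial (Fin (m + 1)) K)
    (y : Fin m → K) : K[X] := (MvPolynomial.finSuccEquiv K m F).map (MvPolynomial.eval y)

theorem eval_fibm {K : Type} [Field K] {m : ℕ} (F : MvPolynomial (Fin (m + 1)) K)
    (y : Fin m → K) (x : K) :
    (fibm F y).eval x = MvPolynomial.eval (Fin.cons x y : Fin (m + 1) → K) F :=
  (MvPolynomial.eval_eq_eval_mv_eval' y x F).symm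

theorem natDegree_fibm {K : Type} [Field K] {m : ℕ} (F : MvPolynomial (Fin (m + 1)) K)
    (y : Fin m → K) : (fibm F y).natDegree ≤ F.degreeOf 0 := by
  rw [← MvPolynomial.natDegree_finSuccEquiv]
  exact natDegree_map_le

/-- **SU/RM** the fibres of an irreducible polynomial -/
def StmRM : Prop := ∀ (K : Type) [Field K] [NumberField K] (m : ℕ)
  (F : MvPolynomial (Fin (m + 1)) K), Irreducible F → 1 ≤ F.degreeOf 0 →
  ∃ (n : MvPolynomial (Fin m) K) (C : ℝ), n ≠ 0 ∧ 0 ≤ C ∧ ∀ y : Fin m → K,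
    MvPolynomial.eval y n ≠ 0 →
    ∃ (f : (𝓞 K)[X]) (u : K) (Bad : Finset (Pr K)), u ≠ 0 ∧
      f.map (algebraMap (𝓞 K) K) = Polynomial.C u * fibm F y ∧ f.natDegree = F.degreeOf 0 ∧
      (∀ v ∉ Bad, Good f v ∧ GoodS f v ∧ (∀ i, fv v (y i) ≤ 1) ∧ fv v u = 1) ∧
      ∑ v ∈ Bad, Real.log (Nv v) ≤ C * (1 + ∑ i, hr (aff (y i)))

/-- **SU/OM** two different components meet over few primes only -/
def StmOM : Prop := ∀ (K : Type) [Field K] [NumberField K] (m : ℕ)
  (F G : MvPolynomial (Fin (m + 1)) K), Irreducible F → Irreducible G → ¬ Associated F G →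
  1 ≤ F.degreeOf 0 → ∃ (n : MvPolynomial (Fin m) K) (C : ℝ), n ≠ 0 ∧ 0 ≤ C ∧ ∀ y : Fin m → K,
    MvPolynomial.eval y n ≠ 0 → ∃ Bad : Finset (Pr K),
      ∑ v ∈ Bad, Real.log (Nv v) ≤ C * (1 + ∑ i, hr (aff (y i))) ∧
      ∀ v ∉ Bad, (∀ i, fv v (y i) ≤ 1) ∧ ∀ x : K, fv v x ≤ 1 →
        ¬ (fv v (MvPolynomial.eval (Fin.cons x y : Fin (m + 1) → K) F) < 1 ∧
          fv v (MvPolynomial.eval (Fin.cons x y : Fin (m + 1) → K) G) < 1)

/-- **SU/UM** an upper bound for the absolute values of a polynomial in several variables -/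
def StmUM : Prop := ∀ (K : Type) [Field K] [NumberField K] (m : ℕ)
  (G : MvPolynomial (Fin m) K), ∃ c : Pl K → ℝ, (∀ p, 0 ≤ c p) ∧ {p | c p ≠ 0}.Finite ∧
    ∀ y : Fin m → K, MvPolynomial.eval y G ≠ 0 → ∀ p : Pl K,
      nm p (MvPolynomial.eval y G) ≤ ∑ i, (G.degreeOf i : ℝ) * mx p (y i) + c p

/-- **SU/ZM** the number of the zeros of a polynomial in a box -/
def StmZM : Prop := ∀ (K : Type) [Field K] [NumberField K] (m : ℕ)
  (n : MvPolynomial (Fin m) K), n ≠ 0 → ∃ C : ℝ, 0 < C ∧ ∀ H : ℝ, 0 ≤ H →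
    ∀ S : Finset (Fin m → K), (∀ y ∈ S, (∀ i, hr (aff (y i)) ≤ H) ∧
      MvPolynomial.eval y n = 0) → (S.card : ℝ) ≤ C * Real.exp ((2 * m - 1) * H)

/-- the height of a polynomial in one variable -/
noncomputable def ht {K : Type} [Field K] [NumberField K] (g : K[X]) : ℝ :=
  ∑ w : InfinitePlace K, gn (Sum.inl w) g + ∑ᶠ v : Pr K, gn (Sum.inr v) g

/-- **SU/LM** almost all fibres have the expected height -/
def StmLM : Prop := ∀ (K : Type) [Field K] [NumberField K] (m : ℕ)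
  (F : MvPolynomial (Fin (m + 1)) K), Irreducible F → 1 ≤ F.degreeOf 0 →
  ∀ κ : ℝ, 0 < κ → κ ≤ 1 → ∃ ν C : ℝ, 0 < ν ∧ 0 < C ∧ ∀ H : ℝ, 0 ≤ H →
    ∀ S : Finset (Fin m → K), (∀ y ∈ S, (∀ i, hr (aff (y i)) ≤ H) ∧ fibm F y ≠ 0 ∧
      ht (fibm F y) < ∑ i, (F.degreeOf (Fin.succ i) : ℝ) * hr (aff (y i)) - κ * H) →
        (S.card : ℝ) ≤ C * Real.exp ((2 * m - ν) * H)

end Pool.Agent.N753.SU
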