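import Mathlib
import Pool.Agent.N753.SU.StmM

/-!
# Heights of tuples and of families of polynomials in one variable
-/

set_option autoImplicit false
set_option linter.unusedSectionVars false

namespace Pool.Agent.N753.SU

open NumberField IsDedekindDomain Finset Pool.Agent.H691R3
open Pool.Agent.TH876.Loc hiding mx
open Pool.Agent.N753.LS Pool.Agent.N753.SF Polynomial

section Tuples

variable {K : Type} [Field K] {ι : Type} [Fintype ι]

/-- the largest absolute value of the entries of a tuple -/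
noncomputable def gT (g : AbsoluteValue K ℝ) (z : ι → K) : ℝ := ⨆ k, g (z k)

theorem le_gT (g : AbsoluteValue K ℝ) (z : ι → K) (k : ι) : g (z k) ≤ gT g z :=
  le_ciSup (f := fun k => g (z k)) (Set.finite_range _).bddAbove k

theorem exists_gT (g : AbsoluteValue K ℝ) (z : ι → K) [Nonempty ι] : ∃ k, g (z k) = gT g z := by
  obtain ⟨i, hi⟩ := exists_eq_ciSup_of_finite (f := fun k => g (z k))
  exact ⟨i, hi⟩

theorem gT_pos (g : AbsoluteValue K ℝ) {z : ι → K} (h : ∃ k, z k ≠ 0) : 0 < gT g z := by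
  obtain ⟨k, hk⟩ := h
  exact (g.pos hk).trans_le (le_gT g z k)

end Tuples

variable {K : Type} [Field K] [NumberField K] {ι : Type} [Fintype ι]

/-- the logarithm of the largest absolute value -/
noncomputable def lm (p : Pl K) (z : ι → K) : ℝ :=
  Sum.elim (fun w : InfinitePlace K => (w.mult : ℝ) * Real.log (gT w.1 z))
    (fun v : HeightOneSpectrum (𝓞 K) => Real.log (gT (fv v) z)) p

theorem nm_le_lm (p : Pl K) {z : ι → K} {k : ι} (hk : z k ≠ 0) : nm p (z k) ≤ lm p z := by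
  rcases p with w | v
  · refine mul_le_mul_of_nonneg_left (Real.log_le_log (w.pos_iff.2 hk) ?_) (Nat.cast_nonneg _)
    exact le_gT w.1 z k
  · exact Real.log_le_log ((fv v).pos hk) (le_gT (fv v) z k)

theorem exists_nm (p : Pl K) {z : ι → K} (h : ∃ k, z k ≠ 0) : ∃ k, z k ≠ 0 ∧ nm p (z k) = lm p z := by
  have hne : Nonempty ι := ⟨h.choose⟩
  rcases p with w | v
  · obtain ⟨k, hk⟩ := exists_gT w.1 z
    have h1 := gT_pos w.1 h
    refine ⟨k, ?_, ?_⟩
    · intro h0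
      rw [h0, map_zero] at hk
      linarith
    · show (w.mult : ℝ) * Real.log (w (z k)) = w.mult * Real.log (gT w.1 z)
      rw [← hk]
      rfl
  · obtain ⟨k, hk⟩ := exists_gT (fv v) z
    have h1 := gT_pos (fv v) h
    refine ⟨k, ?_, ?_⟩
    · intro h0
      rw [h0, map_zero] at hk
      linarith
    · show Real.log (fv v (z k)) = Real.log (gT (fv v) z)
      rw [← hk]

theorem lm_fin {z : ι → K} (h : ∃ k, z k ≠ 0) : {v : Pr K | lm (Sum.inr v) z ≠ 0}.Finite := by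
  classical
  have h1 : {v : Pr K | lm (Sum.inr v) z ≠ 0} ⊆
      ⋃ k : ι, {v : Pr K | z k ≠ 0 ∧ nm (Sum.inr v) (z k) ≠ 0} := by
    intro v hv
    obtain ⟨k, hk, hk'⟩ := exists_nm (Sum.inr v) h
    refine Set.mem_iUnion.2 ⟨k, hk, ?_⟩
    rw [hk']
    exact hv
  refine (Set.finite_iUnion fun k => ?_).subset h1
  by_cases hk : z k = 0
  · refine (Set.finite_empty).subset ?_
    rintro v ⟨h2, -⟩
    exact absurd hk h2
  · exact (nm_fin hk).subset fun v hv => hv.2

/-- the height of a tuple -/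
noncomputable def hT (z : ι → K) : ℝ :=
  ∑ w : InfinitePlace K, lm (Sum.inl w) z + ∑ᶠ v : Pr K, lm (Sum.inr v) z

theorem hT_eq {z : ι → K} (T : Finset (Pr K)) (hT' : ∀ v ∉ T, lm (Sum.inr v) z = 0) :
    hT z = ∑ w : InfinitePlace K, lm (Sum.inl w) z + ∑ v ∈ T, lm (Sum.inr v) z := by
  unfold hT
  congr 1
  refine finsum_eq_sum_of_support_subset _ ?_
  intro v hv
  by_contra hcon
  exact hv (hT' v hcon)

/-- the coefficients of a family of polynomials -/
def cf (a : ℕ) (f : ι → K[X]) : ι × Fin (a + 1) → K := fun q => (f q.1).coeff q.2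

theorem gn_eq (p : Pl K) {f : K[X]} (hf : f ≠ 0) : ∃ j ≤ f.natDegree, f.coeff j ≠ 0 ∧
    gn p f = nm p (f.coeff j) := by
  rcases p with w | v
  · obtain ⟨j, hj⟩ := exists_gs w.1 f
    have h1 := gs_pos w.1 hf
    have h2 : f.coeff j ≠ 0 := by
      intro h0
      rw [h0, map_zero] at hj
      linarith
    refine ⟨j, le_natDegree_of_ne_zero h2, h2, ?_⟩
    show (w.mult : ℝ) * Real.log (gs w.1 f) = w.mult * Real.log (w (f.coeff j))
    rw [← hj]
    rfl
  · obtain ⟨j, hj⟩ := exists_gs (fv v) f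
    have h1 := gs_pos (fv v) hf
    have h2 : f.coeff j ≠ 0 := by
      intro h0
      rw [h0, map_zero] at hj
      linarith
    refine ⟨j, le_natDegree_of_ne_zero h2, h2, ?_⟩
    show Real.log (gs (fv v) f) = Real.log (fv v (f.coeff j))
    rw [← hj]

theorem nm_le_gn (p : Pl K) {f : K[X]} {j : ℕ} (hj : f.coeff j ≠ 0) :
    nm p (f.coeff j) ≤ gn p f := by
  rcases p with w | v
  · exact mul_le_mul_of_nonneg_left (Real.log_le_log (w.pos_iff.2 hj) (le_gs w.1 f j))
      (Nat.cast_nonneg _)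
  · exact Real.log_le_log ((fv v).pos hj) (le_gs (fv v) f j)

theorem cf_ne {a : ℕ} {f : ι → K[X]} (hf : ∀ k, (f k).natDegree ≤ a) (h : ∃ k, f k ≠ 0) :
    ∃ q, cf a f q ≠ 0 := by
  obtain ⟨k, hk⟩ := h
  refine ⟨(k, ⟨(f k).natDegree, Nat.lt_succ_of_le (hf k)⟩), ?_⟩
  show (f k).coeff (f k).natDegree ≠ 0
  exact leadingCoeff_ne_zero.2 hk

theorem exists_gn (p : Pl K) {a : ℕ} {f : ι → K[X]} (hf : ∀ k, (f k).natDegree ≤ a)
    (h : ∃ k, f k ≠ 0) : ∃ k, f k ≠ 0 ∧ gn p (f k) = lm p (cf a f) := by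
  obtain ⟨⟨k, j⟩, hq, hq'⟩ := exists_nm p (cf_ne hf h)
  have hkj : (f k).coeff j ≠ 0 := hq
  have hk : f k ≠ 0 := by
    rintro h0
    rw [h0, coeff_zero] at hkj
    exact hkj rfl
  refine ⟨k, hk, le_antisymm ?_ ?_⟩
  · obtain ⟨i, hi, hi', h1⟩ := gn_eq p hk
    rw [h1]
    exact nm_le_lm p (z := cf a f) (k := (k, ⟨i, Nat.lt_succ_of_le (hi.trans (hf k))⟩)) hi'
  · rw [← hq']
    exact nm_le_gn p hkj

theorem gn_fin {f : K[X]} (hf : f ≠ 0) : {v : Pr K | gn (Sum.inr v) f ≠ 0}.Finite := by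
  have h : ∃ k : Unit, (fun _ : Unit => f) k ≠ 0 := ⟨(), hf⟩
  refine (lm_fin (cf_ne (a := f.natDegree) (f := fun _ : Unit => f) (fun _ => le_rfl) h)).subset ?_
  intro v hv
  obtain ⟨k, -, h1⟩ := exists_gn (Sum.inr v) (a := f.natDegree) (f := fun _ : Unit => f)
    (fun _ => le_rfl) h
  show lm (Sum.inr v) _ ≠ 0
  rw [← h1]
  exact hv

theorem ht_eq {g : K[X]} (T : Finset (Pr K)) (hT' : ∀ v ∉ T, gn (Sum.inr v) g = 0) :
    ht g = ∑ w : InfinitePlace K, gn (Sum.inl w) g + ∑ v ∈ T, gn (Sum.inr v) g := by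
  unfold ht
  congr 1
  refine finsum_eq_sum_of_support_subset _ ?_
  intro v hv
  by_contra hcon
  exact hv (hT' v hcon)

open Classical in
/-- the sum of the local heights -/
theorem tot1 {g : K[X]} (hg : g ≠ 0) {e : ℕ} (hgd : g.natDegree ≤ e) {x : K} (hx : g.eval x ≠ 0)
    (B : Finset (Pr K)) :
    ∑ w : InfinitePlace K, mv (Sum.inl w) e g x + ∑ v ∈ B, mv (Sum.inr v) e g x ≤
        ht g + e * hr (aff x) := by
  obtain ⟨T, hT⟩ : ∃ T : Finset (Pr K), T = B ∪ ((gn_fin hg).toFinset ∪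
    ((mx_fin x).toFinset ∪ (nm_fin hx).toFinset)) := ⟨_, rfl⟩
  have hTB : B ⊆ T := by rw [hT]; exact Finset.subset_union_left
  have hTn : ∀ v ∉ T, gn (Sum.inr v) g = 0 ∧ mx (Sum.inr v) x = 0 ∧
      nm (Sum.inr v) (g.eval x) = 0 := by
    intro v hv
    rw [hT] at hv
    simp only [Finset.mem_union, not_or, Set.Finite.mem_toFinset,
      Set.mem_ofPred_eq, not_not] at hv
    exact hv.2
  have h1 : ∑ v ∈ B, mv (Sum.inr v) e g x ≤ ∑ v ∈ T, mv (Sum.inr v) e g x :=
    Finset.sum_le_sum_of_subset_of_nonneg hTB fun v _ _ => mv_nonneg v hgd hx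
  have h2 := sum_nm hx T fun v hv => (hTn v hv).2.2
  have h3 := sum_mx x T fun v hv => (hTn v hv).2.1
  have h4 := ht_eq T fun v hv => (hTn v hv).1
  have h6 : ∑ w : InfinitePlace K, mv (Sum.inl w) e g x + ∑ v ∈ T, mv (Sum.inr v) e g x =
      ht g + e * hr (aff x) := by
    unfold mv
    rw [Finset.sum_sub_distrib, Finset.sum_sub_distrib, Finset.sum_add_distrib,
      Finset.sum_add_distrib, ← Finset.mul_sum, ← Finset.mul_sum, ← h3, h4]
    linarith
  linarith

open Classical in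
/-- **the height of the values of a family of polynomials** -/
theorem hT_ge {a : ℕ} {f : ι → K[X]} (hf : ∀ k, (f k).natDegree ≤ a) (h : ∃ k, f k ≠ 0) {z : K}
    (hz : ∀ k, f k ≠ 0 → (f k).eval z ≠ 0) (B : Finset (Pr K))
    (hB1 : ∀ v ∉ B, lm (Sum.inr v) (cf a f) ≤ 0)
    (hB2 : ∀ v ∉ B, a * mx (Sum.inr v) z ≤ lm (Sum.inr v) (fun k => (f k).eval z)) :
    hT (cf a f) + a * hr (aff z) - ∑ k ∈ univ.filter (fun k => f k ≠ 0),
      (∑ w : InfinitePlace K, mv (Sum.inl w) a (f k) z + ∑ v ∈ B, mv (Sum.inr v) a (f k) z) -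
        Fintype.card ι * ((a + 1) * lossK K) ≤ hT (fun k => (f k).eval z) := by
  obtain ⟨F, hF⟩ : ∃ F : ι → K, F = fun k => (f k).eval z := ⟨_, rfl⟩
  rw [← hF] at hB2 ⊢
  have hFne : ∃ k, F k ≠ 0 := by
    obtain ⟨k, hk⟩ := h
    exact ⟨k, by rw [hF]; exact hz k hk⟩
  obtain ⟨T, hT'⟩ : ∃ T : Finset (Pr K), T = B ∪ ((lm_fin hFne).toFinset ∪
    ((mx_fin z).toFinset ∪ (lm_fin (cf_ne hf h)).toFinset)) := ⟨_, rfl⟩
  have hTB : B ⊆ T := by rw [hT']; exact Finset.subset_union_left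
  have hTn : ∀ v ∉ T, lm (Sum.inr v) F = 0 ∧ mx (Sum.inr v) z = 0 ∧
      lm (Sum.inr v) (cf a f) = 0 := by
    intro v hv
    rw [hT'] at hv
    simp only [Finset.mem_union, not_or, Set.Finite.mem_toFinset,
      Set.mem_ofPred_eq, not_not] at hv
    exact hv.2
  have h1 := hT_eq T fun v hv => (hTn v hv).1
  have h2 := sum_mx z T fun v hv => (hTn v hv).2.1
  have h3 := hT_eq T fun v hv => (hTn v hv).2.2
  -- one place
  have key : ∀ p : Pl K, lm p (cf a f) + a * mx p z - ∑ k ∈ univ.filter (fun k => f k ≠ 0),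
      (mv p a (f k) z + (a + 1) * loss p) ≤ lm p F := by
    intro p
    obtain ⟨k, hk, hk'⟩ := exists_gn p hf h
    have e1 : nm p ((f k).eval z) ≤ lm p F := by
      have := nm_le_lm p (z := F) (k := k) (by rw [hF]; exact hz k hk)
      rw [hF] at this
      rw [hF]
      exact this
    have e2 : mv p a (f k) z = gn p (f k) + a * mx p z - nm p ((f k).eval z) := rfl
    have e3 : mv p a (f k) z + (a + 1) * loss p ≤ ∑ k ∈ univ.filter (fun k => f k ≠ 0),
        (mv p a (f k) z + (a + 1) * loss p) := by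
      refine Finset.single_le_sum (f := fun k => mv p a (f k) z + (a + 1) * loss p) ?_
        (Finset.mem_filter.2 ⟨Finset.mem_univ _, hk⟩)
      intro j hj
      have := mv_ge p (hf j) (hz j (Finset.mem_filter.1 hj).2)
      show 0 ≤ mv p a (f j) z + (a + 1) * loss p
      linarith
    have e4 : 0 ≤ (a + 1) * loss p := mul_nonneg (by positivity) (loss_nonneg p)
    linarith
  have hw : ∑ w : InfinitePlace K, lm (Sum.inl w) (cf a f) +
      a * ∑ w : InfinitePlace K, mx (Sum.inl w) z - ∑ k ∈ univ.filter (fun k => f k ≠ 0),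
      (∑ w : InfinitePlace K, mv (Sum.inl w) a (f k) z + (a + 1) * lossK K) ≤
        ∑ w : InfinitePlace K, lm (Sum.inl w) F := by
    have e1 : ∑ k ∈ univ.filter (fun k => f k ≠ 0),
        (∑ w : InfinitePlace K, mv (Sum.inl w) a (f k) z + (a + 1) * lossK K) =
        ∑ w : InfinitePlace K, ∑ k ∈ univ.filter (fun k => f k ≠ 0),
          (mv (Sum.inl w) a (f k) z + (a + 1) * loss (Sum.inl w : Pl K)) := by
      rw [Finset.sum_comm]
      refine Finset.sum_congr rfl fun k _ => ?_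
      rw [Finset.sum_add_distrib, ← Finset.mul_sum]
      rfl
    rw [e1, Finset.mul_sum, ← Finset.sum_add_distrib, ← Finset.sum_sub_distrib]
    exact Finset.sum_le_sum fun w _ => key (Sum.inl w)
  have hv : ∑ v ∈ B, lm (Sum.inr v) (cf a f) + a * ∑ v ∈ B, mx (Sum.inr v) z -
      ∑ k ∈ univ.filter (fun k => f k ≠ 0), ∑ v ∈ B, mv (Sum.inr v) a (f k) z ≤
        ∑ v ∈ B, lm (Sum.inr v) F := by
    rw [Finset.sum_comm, Finset.mul_sum, ← Finset.sum_add_distrib, ← Finset.sum_sub_distrib]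
    refine Finset.sum_le_sum fun v _ => ?_
    refine le_trans (le_of_eq ?_) (key (Sum.inr v))
    have e1 : loss (Sum.inr v : Pl K) = 0 := rfl
    rw [e1]
    simp only [mul_zero, add_zero]
  have hTl : ∑ v ∈ T, lm (Sum.inr v) (cf a f) ≤ ∑ v ∈ B, lm (Sum.inr v) (cf a f) := by
    rw [← Finset.sum_sdiff hTB]
    have : ∑ v ∈ T \ B, lm (Sum.inr v) (cf a f) ≤ 0 :=
      Finset.sum_nonpos fun v hv => hB1 v (Finset.mem_sdiff.1 hv).2
    linarith
  have hTm : a * ∑ v ∈ T, mx (Sum.inr v) z - a * ∑ v ∈ B, mx (Sum.inr v) z ≤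
      ∑ v ∈ T, lm (Sum.inr v) F - ∑ v ∈ B, lm (Sum.inr v) F := by
    rw [← Finset.sum_sdiff hTB, ← Finset.sum_sdiff (f := fun v => lm (Sum.inr v) F) hTB]
    have : a * ∑ v ∈ T \ B, mx (Sum.inr v) z ≤ ∑ v ∈ T \ B, lm (Sum.inr v) F := by
      rw [Finset.mul_sum]
      exact Finset.sum_le_sum fun v hv => hB2 v (Finset.mem_sdiff.1 hv).2
    linarith
  have hc : ((univ.filter (fun k => f k ≠ 0)).card : ℝ) ≤ Fintype.card ι := by
    exact_mod_cast (Finset.card_filter_le _ _).trans (le_of_eq Finset.card_univ)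
  have hl := lossK_nonneg K
  have e5 : ∑ k ∈ univ.filter (fun k => f k ≠ 0),
      (∑ w : InfinitePlace K, mv (Sum.inl w) a (f k) z + (a + 1) * lossK K) =
      ∑ k ∈ univ.filter (fun k => f k ≠ 0), ∑ w : InfinitePlace K, mv (Sum.inl w) a (f k) z +
        (univ.filter (fun k => f k ≠ 0)).card * ((a + 1) * lossK K) := by
    rw [Finset.sum_add_distrib, Finset.sum_const, nsmul_eq_mul]
  have e6 : ((univ.filter (fun k => f k ≠ 0)).card : ℝ) * ((a + 1) * lossK K) ≤
      Fintype.card ι * ((a + 1) * lossK K) :=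
    mul_le_mul_of_nonneg_right hc (mul_nonneg (by positivity) hl)
  have e7 : ∑ k ∈ univ.filter (fun k => f k ≠ 0),
      (∑ w : InfinitePlace K, mv (Sum.inl w) a (f k) z + ∑ v ∈ B, mv (Sum.inr v) a (f k) z) =
      ∑ k ∈ univ.filter (fun k => f k ≠ 0), ∑ w : InfinitePlace K, mv (Sum.inl w) a (f k) z +
        ∑ k ∈ univ.filter (fun k => f k ≠ 0), ∑ v ∈ B, mv (Sum.inr v) a (f k) z :=
    Finset.sum_add_distrib
  rw [h1, h3, ← h2, e7]
  rw [e5] at hw
  linarith

end Pool.Agent.N753.SU
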