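import Mathlib
import Pool.Agent.N753.SU.Fam

/-!
# Counting points fibre by fibre, bad primes of the points of the base
-/

set_option autoImplicit false
set_option linter.unusedSectionVars false

namespace Pool.Agent.N753.SU

open NumberField IsDedekindDomain Finset Pool.Agent.H691R3
open Pool.Agent.TH876.Loc hiding mx
open Pool.Agent.N753.LS Pool.Agent.N753.SF Polynomial

variable {K : Type} [Field K] [NumberField K]

variable (K) in
open Classical in
/-- points close to the zeros of a polynomial of bounded degree and height -/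
theorem cnt0 (a : ℕ) {κ : ℝ} (hκ0 : 0 < κ) (hκ1 : κ ≤ 1) {R C0 : ℝ} (hR : 0 ≤ R) (hC0 : 0 ≤ C0) :
    ∃ ν C : ℝ, 0 < ν ∧ ν ≤ 1 ∧ 0 < C ∧ ∀ H : ℝ, 0 ≤ H → ∀ g : K[X], g ≠ 0 → g.natDegree ≤ a →
      ht g ≤ R * (1 + H) → ∀ B : Finset (Pr K), ∑ v ∈ B, Real.log (Nv v) ≤ C0 * (1 + H) →
      ∀ S : Finset K, (∀ z ∈ S, hr (aff z) ≤ H ∧ (g.eval z = 0 ∨ κ * H ≤
        ∑ w : InfinitePlace K, mv (Sum.inl w) a g z + ∑ v ∈ B, mv (Sum.inr v) a g z)) →
      (S.card : ℝ) ≤ C * Real.exp ((2 - ν) * H) := by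
  obtain ⟨C2, hC2, h2⟩ := count_all K (δ := 1) one_pos
  rcases Nat.eq_zero_or_pos a with ha | ha
  · refine ⟨1, C2, one_pos, le_rfl, hC2, ?_⟩
    intro H hH g hg hga _ B _ S hS
    subst ha
    have h1 : ∀ z ∈ S, H ≤ 0 := by
      intro z hz
      obtain ⟨c, rfl⟩ : ∃ c, g = C c := ⟨_, eq_C_of_natDegree_le_zero hga⟩
      have hc : c ≠ 0 := fun h => hg (by rw [h, C_0])
      have h3 : ∀ p : Pl K, mv p 0 (C c) z = 0 := by
        intro p
        have e1 := gn_C_mul p hc (f := 1) one_ne_zero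
        rw [mul_one] at e1
        have e2 : gn p (1 : K[X]) = 0 := by
          obtain ⟨j, hj, hj', e3⟩ := gn_eq p (f := (1 : K[X])) one_ne_zero
          rw [natDegree_one] at hj
          have hj0 : j = 0 := by omega
          rw [e3, hj0, coeff_one_zero]
          rcases p with w | v
          · show (w.mult : ℝ) * Real.log (w 1) = 0
            rw [map_one, Real.log_one, mul_zero]
          · show Real.log (fv v 1) = 0
            rw [map_one, Real.log_one]
        unfold mv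
        rw [e1, e2, eval_C]
        simp
      rcases (hS z hz).2 with h4 | h4
      · rw [eval_C] at h4
        exact absurd h4 hc
      · simp only [h3, Finset.sum_const_zero, add_zero] at h4
        exact nonpos_of_mul_nonpos_right h4 hκ0
    rcases S.eq_empty_or_nonempty with h0 | ⟨z0, hz0⟩
    · rw [h0, Finset.card_empty, Nat.cast_zero]
      positivity
    · have h3 := h2 H hH S fun z hz => (hS z hz).1
      have h4 : H = 0 := le_antisymm (h1 z0 hz0) hH
      rw [h4, mul_zero] at h3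
      rw [h4, mul_zero]
      exact h3
  · have ha0 : (0 : ℝ) < a := by exact_mod_cast ha
    have ha1 : (1 : ℝ) ≤ a := by exact_mod_cast ha
    obtain ⟨ν, hν⟩ : ∃ ν : ℝ, ν = κ / (2 * a) := ⟨_, rfl⟩
    have hν0 : 0 < ν := by rw [hν]; positivity
    have hν1 : ν ≤ 1 := by
      rw [hν, div_le_one (by positivity)]
      linarith
    obtain ⟨δ, hδ⟩ : ∃ δ : ℝ, δ = ν / (C0 + 1) := ⟨_, rfl⟩
    have hδ0 : 0 < δ := by rw [hδ]; positivity
    have hδ1 : δ * (C0 + 1) = ν := by
      rw [hδ]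
      field_simp
    obtain ⟨C1, hC1, h1⟩ := count_bad K a ha hκ0 (by linarith) (R := R + a) (by positivity) hδ0
    refine ⟨ν, C1 * Real.exp ν + a, hν0, hν1, by positivity, ?_⟩
    intro H hH g hg hga hgR B hB S hS
    obtain ⟨S1, hS1⟩ : ∃ S1 : Finset K, S1 = S.filter fun z => g.eval z = 0 := ⟨_, rfl⟩
    obtain ⟨S2, hS2⟩ : ∃ S2 : Finset K, S2 = S.filter fun z => ¬ g.eval z = 0 := ⟨_, rfl⟩
    have hc1 : (S1.card : ℝ) ≤ a := by
      have e1 : S1 ⊆ g.roots.toFinset := by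
        intro z hz
        rw [hS1] at hz
        rw [Multiset.mem_toFinset, mem_roots hg]
        exact (Finset.mem_filter.1 hz).2
      exact_mod_cast (Finset.card_le_card e1).trans ((Multiset.toFinset_card_le _).trans
        ((card_roots' g).trans hga))
    have hc2 := h1 g hg hga B H hH S2 (by
      intro z hz
      rw [hS2] at hz
      obtain ⟨hzS, hz0⟩ := Finset.mem_filter.1 hz
      have e1 := tot1 hg hga hz0 B
      have e2 := mul_le_mul_of_nonneg_left (hS z hzS).1 ha0.le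
      refine ⟨(hS z hzS).1, hz0, (hS z hzS).2.resolve_left hz0, e1.trans ?_⟩
      nlinarith)
    have h9 : (S.card : ℝ) = S1.card + S2.card := by
      rw [hS1, hS2]
      exact_mod_cast (Finset.card_filter_add_card_filter_not (s := S)
        (p := fun z => g.eval z = 0)).symm
    have hE : 1 ≤ Real.exp ((2 - ν) * H) := Real.one_le_exp (mul_nonneg (by linarith) hH)
    have h4 : Real.exp ((2 - κ / a + δ) * H + δ * ∑ v ∈ B, Real.log (Nv v)) ≤
        Real.exp ν * Real.exp ((2 - ν) * H) := by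
      rw [← Real.exp_add]
      refine Real.exp_le_exp.2 ?_
      have e1 := mul_le_mul_of_nonneg_left hB hδ0.le
      have e2 : δ * (C0 * (1 + H)) = δ * (C0 + 1) * (1 + H) - δ * (1 + H) := by ring
      rw [e2, hδ1] at e1
      have e3 : κ / a = 2 * ν := by
        rw [hν]
        field_simp
      rw [e3]
      linarith
    have h5 := mul_le_mul_of_nonneg_left h4 hC1.le
    have h6 : (a : ℝ) ≤ a * Real.exp ((2 - ν) * H) := le_mul_of_one_le_right ha0.le hE
    rw [h9, add_mul]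
    linarith

variable (K) in
/-- the number of the points of a box -/
theorem count_box (m : ℕ) {δ : ℝ} (hδ : 0 < δ) : ∃ C : ℝ, 0 < C ∧ ∀ H : ℝ, 0 ≤ H →
    ∀ S : Finset (Fin m → K), (∀ y ∈ S, ∀ i, hr (aff (y i)) ≤ H) →
      (S.card : ℝ) ≤ C * Real.exp ((2 * m + δ) * H) := by
  classical
  have hm : (0 : ℝ) < m + 1 := by positivity
  obtain ⟨C, hC, h⟩ := count_all K (δ := δ / (m + 1)) (by positivity)
  refine ⟨C ^ m, by positivity, ?_⟩
  intro H hH S hS
  have h1 : S ⊆ Fintype.piFinset fun i => S.image fun y => y i := by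
    intro y hy
    rw [Fintype.mem_piFinset]
    intro i
    exact Finset.mem_image_of_mem _ hy
  have h2 : (S.card : ℝ) ≤ ∏ i : Fin m, ((S.image fun y => y i).card : ℝ) := by
    have := Finset.card_le_card h1
    rw [Fintype.card_piFinset] at this
    exact_mod_cast this
  refine h2.trans ?_
  calc ∏ i : Fin m, ((S.image fun y => y i).card : ℝ) ≤
      ∏ _i : Fin m, (C * Real.exp ((2 + δ / (m + 1)) * H)) := by
        refine Finset.prod_le_prod (fun _ _ => Nat.cast_nonneg _) fun i _ => ?_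
        refine h H hH _ fun x hx => ?_
        obtain ⟨y, hy, rfl⟩ := Finset.mem_image.1 hx
        exact hS y hy i
    _ = C ^ m * Real.exp (m * ((2 + δ / (m + 1)) * H)) := by
        rw [Finset.prod_const, Finset.card_univ, Fintype.card_fin, mul_pow, ← Real.exp_nat_mul]
    _ ≤ _ := by
        refine mul_le_mul_of_nonneg_left (Real.exp_le_exp.2 ?_) (by positivity)
        have e1 : (m : ℝ) * (δ / (m + 1)) ≤ δ := by
          rw [mul_div_assoc', div_le_iff₀ hm]
          nlinarith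
        have e2 := mul_le_mul_of_nonneg_right e1 hH
        nlinarith

variable (K) in
/-- **counting fibre by fibre** -/
theorem fibM (m : ℕ) {ν1 ν2 C1 C2 : ℝ} (hν1 : 0 < ν1) (hν11 : ν1 ≤ 1) (hν2 : 0 < ν2)
    (_hν21 : ν2 ≤ 1) (hC1 : 0 < C1) (hC2 : 0 < C2) :
    ∃ ν C : ℝ, 0 < ν ∧ ν ≤ 1 ∧ 0 < C ∧ ∀ H : ℝ, 0 ≤ H → ∀ P : (Fin m → K) → Prop,
      (∀ T : Finset (Fin m → K), (∀ y ∈ T, (∀ i, hr (aff (y i)) ≤ H) ∧ P y) →
        (T.card : ℝ) ≤ C1 * Real.exp ((2 * m - ν1) * H)) →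
      ∀ S : Finset (Fin (m + 1) → K), (∀ x ∈ S, ∀ i, hr (aff (x i)) ≤ H) →
      (∀ y : Fin m → K, (∀ i, hr (aff (y i)) ≤ H) → ¬ P y → ∀ S' : Finset K,
        (∀ z ∈ S', (Fin.cons z y : Fin (m + 1) → K) ∈ S) →
          (S'.card : ℝ) ≤ C2 * Real.exp ((2 - ν2) * H)) →
      (S.card : ℝ) ≤ C * Real.exp ((2 * (m + 1 : ℕ) - ν) * H) := by
  classical
  obtain ⟨C3, hC3, h3⟩ := count_all K (δ := ν1 / 2) (by positivity)
  obtain ⟨C4, hC4, h4⟩ := count_box K m (δ := ν2 / 2) (by positivity)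
  refine ⟨min ν1 ν2 / 2, C1 * C3 + C4 * C2, by
    have := lt_min hν1 hν2
    positivity, by
    have := min_le_left ν1 ν2
    linarith, by positivity, ?_⟩
  intro H hH P hP S hS hfib
  obtain ⟨G, hG⟩ : ∃ G : ℝ, G = Real.exp ((2 * (m + 1 : ℕ) - min ν1 ν2 / 2) * H) := ⟨_, rfl⟩
  rw [← hG]
  have hG0 : 0 < G := by rw [hG]; exact Real.exp_pos _
  let fi : (Fin m → K) → Finset (Fin (m + 1) → K) := fun y => S.filter fun x => Fin.tail x = y
  have hfi : ∀ y x, x ∈ fi y ↔ x ∈ S ∧ Fin.tail x = y := fun y x => Finset.mem_filter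
  have hcard : ∀ y, (fi y).card = ((fi y).image fun x => x 0).card := by
    intro y
    refine (Finset.card_image_of_injOn ?_).symm
    intro a ha b hb hab
    rw [Finset.mem_coe, hfi] at ha hb
    rw [← Fin.cons_self_tail a, ← Fin.cons_self_tail b, ha.2, hb.2]
    have hab' : a 0 = b 0 := hab
    rw [hab']
  have himg : ∀ y, ∀ z ∈ (fi y).image (fun x => x 0), (Fin.cons z y : Fin (m + 1) → K) ∈ S := by
    intro y z hz
    obtain ⟨x, hx, rfl⟩ := Finset.mem_image.1 hz
    rw [hfi] at hx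
    rw [← hx.2, Fin.cons_self_tail]
    exact hx.1
  obtain ⟨Y, hY⟩ : ∃ Y : Finset (Fin m → K), Y = S.image Fin.tail := ⟨_, rfl⟩
  have hYh : ∀ y ∈ Y, ∀ i, hr (aff (y i)) ≤ H := by
    intro y hy i
    rw [hY] at hy
    obtain ⟨x, hx, rfl⟩ := Finset.mem_image.1 hy
    exact hS x hx i.succ
  have hsum : (S.card : ℝ) = ∑ y ∈ Y, ((fi y).card : ℝ) := by
    have := Finset.card_eq_sum_card_fiberwise (s := S) (t := Y) (f := Fin.tail) (by
      intro x hx
      rw [hY]
      exact Finset.mem_coe.2 (Finset.mem_image_of_mem _ (Finset.mem_coe.1 hx)))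
    exact_mod_cast this
  rw [hsum, ← Finset.sum_filter_add_sum_filter_not Y P]
  have hA : ∑ y ∈ Y.filter P, ((fi y).card : ℝ) ≤ C1 * C3 * G := by
    have e1 := hP (Y.filter P) fun y hy =>
      ⟨hYh y (Finset.mem_filter.1 hy).1, (Finset.mem_filter.1 hy).2⟩
    have e2 : ∀ y ∈ Y.filter P, ((fi y).card : ℝ) ≤ C3 * Real.exp ((2 + ν1 / 2) * H) := by
      intro y _
      rw [hcard]
      exact h3 H hH _ fun z hz => by
        have := hS _ (himg y z hz) 0
        rwa [Fin.cons_zero] at this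
    refine (Finset.sum_le_sum e2).trans ?_
    rw [Finset.sum_const, nsmul_eq_mul]
    refine (mul_le_mul_of_nonneg_right e1 (by positivity)).trans ?_
    have e3 : Real.exp ((2 * m - ν1) * H) * Real.exp ((2 + ν1 / 2) * H) ≤ G := by
      rw [hG, ← Real.exp_add]
      refine Real.exp_le_exp.2 ?_
      have e4 := mul_le_mul_of_nonneg_right (min_le_left ν1 ν2) hH
      push_cast
      nlinarith
    calc C1 * Real.exp ((2 * m - ν1) * H) * (C3 * Real.exp ((2 + ν1 / 2) * H)) =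
        C1 * C3 * (Real.exp ((2 * m - ν1) * H) * Real.exp ((2 + ν1 / 2) * H)) := by ring
      _ ≤ _ := mul_le_mul_of_nonneg_left e3 (by positivity)
  have hB : ∑ y ∈ Y.filter (fun y => ¬ P y), ((fi y).card : ℝ) ≤ C4 * C2 * G := by
    have e1 : ((Y.filter fun y => ¬ P y).card : ℝ) ≤ C4 * Real.exp ((2 * m + ν2 / 2) * H) := by
      refine le_trans ?_ (h4 H hH Y hYh)
      exact_mod_cast Finset.card_le_card (Finset.filter_subset _ _)
    have e2 : ∀ y ∈ Y.filter (fun y => ¬ P y), ((fi y).card : ℝ) ≤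
        C2 * Real.exp ((2 - ν2) * H) := by
      intro y hy
      obtain ⟨hy1, hy2⟩ := Finset.mem_filter.1 hy
      rw [hcard]
      exact hfib y (hYh y hy1) hy2 _ (himg y)
    refine (Finset.sum_le_sum e2).trans ?_
    rw [Finset.sum_const, nsmul_eq_mul]
    refine (mul_le_mul_of_nonneg_right e1 (by positivity)).trans ?_
    have e3 : Real.exp ((2 * m + ν2 / 2) * H) * Real.exp ((2 - ν2) * H) ≤ G := by
      rw [hG, ← Real.exp_add]
      refine Real.exp_le_exp.2 ?_
      have e4 := mul_le_mul_of_nonneg_right (min_le_right ν1 ν2) hH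
      push_cast
      nlinarith
    calc C4 * Real.exp ((2 * m + ν2 / 2) * H) * (C2 * Real.exp ((2 - ν2) * H)) =
        C4 * C2 * (Real.exp ((2 * m + ν2 / 2) * H) * Real.exp ((2 - ν2) * H)) := by ring
      _ ≤ _ := mul_le_mul_of_nonneg_left e3 (by positivity)
  linarith

/-! ### Consequences of the local bounds -/

/-- local upper bounds for a finite family -/
theorem um_fam (hUM : StmUM) {m : ℕ} {κ : Type} [Fintype κ] (Q : κ → MvPolynomial (Fin m) K) :
    ∃ c : Pl K → ℝ, (∀ p, 0 ≤ c p) ∧ {p | c p ≠ 0}.Finite ∧ ∀ (y : Fin m → K) (k : κ),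
      MvPolynomial.eval y (Q k) ≠ 0 → ∀ p : Pl K,
      nm p (MvPolynomial.eval y (Q k)) ≤ ∑ i, ((Q k).degreeOf i : ℝ) * mx p (y i) + c p := by
  have h := fun k => hUM K m (Q k)
  choose c hc0 hcf hc using h
  refine ⟨fun p => ∑ k, c k p, fun p => Finset.sum_nonneg fun k _ => hc0 k p, ?_, ?_⟩
  · refine (Set.finite_iUnion fun k => hcf k).subset ?_
    intro p hp
    by_contra hcon
    rw [Set.mem_iUnion] at hcon
    push Not at hcon
    refine hp (Finset.sum_eq_zero fun k _ => ?_)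
    have := hcon k
    rw [Set.mem_ofPred_eq, not_not] at this
    exact this
  · intro y k hk p
    refine (hc k y hk p).trans (add_le_add le_rfl ?_)
    exact Finset.single_le_sum (f := fun k => c k p) (fun k _ => hc0 k p) (Finset.mem_univ k)

theorem mx_of_le {v : Pr K} {y : K} (h : fv v y ≤ 1) : mx (Sum.inr v) y = 0 := by
  show Real.log (max (fv v y) 1) = 0
  rw [max_eq_right h, Real.log_one]

/-- integrality of the values -/
theorem int_fam (hUM : StmUM) {m : ℕ} {κ : Type} [Fintype κ] (Q : κ → MvPolynomial (Fin m) K) :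
    ∃ T : Finset (Pr K), ∀ v ∉ T, ∀ y : Fin m → K, (∀ i, fv v (y i) ≤ 1) → ∀ k,
      fv v (MvPolynomial.eval y (Q k)) ≤ 1 := by
  obtain ⟨c, hc0, hcf, hc⟩ := um_fam hUM Q
  refine ⟨hcf.toFinset.toRight, ?_⟩
  intro v hv y hy k
  rw [Finset.mem_toRight, Set.Finite.mem_toFinset, Set.mem_ofPred_eq, not_not] at hv
  by_cases h0 : MvPolynomial.eval y (Q k) = 0
  · rw [h0, map_zero]
    exact zero_le_one
  have h1 := hc y k h0 (Sum.inr v)
  have h2 : ∑ i, ((Q k).degreeOf i : ℝ) * mx (Sum.inr v) (y i) = 0 :=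
    Finset.sum_eq_zero fun i _ => by rw [mx_of_le (hy i), mul_zero]
  rw [h2, hv, add_zero] at h1
  have h3 : Real.log (fv v (MvPolynomial.eval y (Q k))) ≤ 0 := h1
  rwa [Real.log_nonpos_iff ((fv v).nonneg _)] at h3

/-- integrality of the values of a polynomial with coefficients in a polynomial ring -/
theorem int_poly (hUM : StmUM) {m : ℕ} (P : (MvPolynomial (Fin m) K)[X]) :
    ∃ T : Finset (Pr K), ∀ v ∉ T, ∀ y : Fin m → K, (∀ i, fv v (y i) ≤ 1) → ∀ z : K,
      fv v z ≤ 1 → fv v ((P.map (MvPolynomial.eval y)).eval z) ≤ 1 := by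
  obtain ⟨T, hT⟩ := int_fam hUM (fun j : Fin (P.natDegree + 1) => P.coeff j)
  refine ⟨T, fun v hv y hy z hz => ?_⟩
  have h1 : ∀ j, fv v ((P.map (MvPolynomial.eval y)).coeff j) ≤ 1 := by
    intro j
    rw [coeff_map]
    by_cases hj : j < P.natDegree + 1
    · exact hT v hv y hy ⟨j, hj⟩
    · rw [coeff_eq_zero_of_natDegree_lt (by omega), map_zero, map_zero]
      exact zero_le_one
  have h2 := eval_le (qm_na v) (f := P.map (MvPolynomial.eval y)) (le_refl _) z
  rw [one_pow, one_mul, max_eq_right hz, one_pow, mul_one] at h2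
  refine h2.trans (ciSup_le fun i => h1 i)

theorem sum_mx_le (x : K) (T : Finset (Pr K)) :
    ∑ w : InfinitePlace K, mx (Sum.inl w) x + ∑ v ∈ T, mx (Sum.inr v) x ≤ hr (aff x) := by
  classical
  rw [← sum_mx x (T ∪ (mx_fin x).toFinset) (fun v hv => by
    rw [Finset.mem_union, not_or, Set.Finite.mem_toFinset, Set.mem_ofPred_eq, not_not] at hv
    exact hv.2)]
  refine add_le_add le_rfl ?_
  exact Finset.sum_le_sum_of_subset_of_nonneg Finset.subset_union_left fun v _ _ => mx_nonneg _ _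

theorem log_ge_of_lt {v : Pr K} {z : K} (hz : z ≠ 0) (h : fv v z < 1) :
    Real.log (Nv v) ≤ -nm (Sum.inr v) z := by
  have h1 : 1 < fv v z⁻¹ := by
    rw [map_inv₀]
    exact (one_lt_inv₀ ((fv v).pos hz)).2 h
  have h2 := log_fv_ge v h1
  rw [max_eq_left h1.le, map_inv₀, Real.log_inv] at h2
  exact h2

/-- the primes which divide a value -/
theorem small_sum (hUM : StmUM) {m : ℕ} (Q : MvPolynomial (Fin m) K) : ∃ C : ℝ, 0 ≤ C ∧
    ∀ y : Fin m → K, MvPolynomial.eval y Q ≠ 0 → ∀ T : Finset (Pr K),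
      (∀ v ∈ T, fv v (MvPolynomial.eval y Q) < 1) →
        ∑ v ∈ T, Real.log (Nv v) ≤ C * (1 + ∑ i, hr (aff (y i))) := by
  classical
  obtain ⟨c, hc0, hcf, hc⟩ := hUM K m Q
  obtain ⟨ct, hct⟩ : ∃ ct : ℝ, ct = ∑ p ∈ hcf.toFinset, c p := ⟨_, rfl⟩
  have hct0 : 0 ≤ ct := by
    rw [hct]
    exact Finset.sum_nonneg fun p _ => hc0 p
  obtain ⟨d, hd⟩ : ∃ d : ℝ, d = ∑ i, (Q.degreeOf i : ℝ) := ⟨_, rfl⟩
  have hd0 : 0 ≤ d := by
    rw [hd]
    exact Finset.sum_nonneg fun i _ => Nat.cast_nonneg _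
  refine ⟨d + ct, by positivity, ?_⟩
  intro y hy T hT
  obtain ⟨U, hU⟩ : ∃ U : Finset (Pr K), U = T ∪ (nm_fin hy).toFinset := ⟨_, rfl⟩
  have h1 := sum_nm hy U (fun v hv => by
    rw [hU, Finset.mem_union, not_or, Set.Finite.mem_toFinset, Set.mem_ofPred_eq, not_not] at hv
    exact hv.2)
  have hTU : T ⊆ U := by rw [hU]; exact Finset.subset_union_left
  rw [← Finset.sum_sdiff hTU] at h1
  have h2 : ∑ v ∈ T, Real.log (Nv v) ≤ -∑ v ∈ T, nm (Sum.inr v) (MvPolynomial.eval y Q) := by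
    rw [← Finset.sum_neg_distrib]
    exact Finset.sum_le_sum fun v hv => log_ge_of_lt hy (hT v hv)
  have h3 : ∑ w : InfinitePlace K, nm (Sum.inl w) (MvPolynomial.eval y Q) ≤
      ∑ i, (Q.degreeOf i : ℝ) * ∑ w : InfinitePlace K, mx (Sum.inl w) (y i) +
        ∑ w : InfinitePlace K, c (Sum.inl w) := by
    have e1 : ∑ i, (Q.degreeOf i : ℝ) * ∑ w : InfinitePlace K, mx (Sum.inl w) (y i) =
        ∑ w : InfinitePlace K, ∑ i, (Q.degreeOf i : ℝ) * mx (Sum.inl w) (y i) := by
      rw [Finset.sum_comm]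
      exact Finset.sum_congr rfl fun i _ => Finset.mul_sum _ _ _
    rw [e1, ← Finset.sum_add_distrib]
    exact Finset.sum_le_sum fun w _ => hc y hy (Sum.inl w)
  have h4 : ∑ v ∈ U \ T, nm (Sum.inr v) (MvPolynomial.eval y Q) ≤
      ∑ i, (Q.degreeOf i : ℝ) * ∑ v ∈ U \ T, mx (Sum.inr v) (y i) +
        ∑ v ∈ U \ T, c (Sum.inr v) := by
    have e1 : ∑ i, (Q.degreeOf i : ℝ) * ∑ v ∈ U \ T, mx (Sum.inr v) (y i) =
        ∑ v ∈ U \ T, ∑ i, (Q.degreeOf i : ℝ) * mx (Sum.inr v) (y i) := by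
      rw [Finset.sum_comm]
      exact Finset.sum_congr rfl fun i _ => Finset.mul_sum _ _ _
    rw [e1, ← Finset.sum_add_distrib]
    exact Finset.sum_le_sum fun v _ => hc y hy (Sum.inr v)
  have h5 : ∑ w : InfinitePlace K, c (Sum.inl w) + ∑ v ∈ U \ T, c (Sum.inr v) ≤ ct := by
    rw [hct, ← Finset.sum_disjSum (s := Finset.univ) (t := U \ T) (f := c)]
    have e1 : ∑ p ∈ Finset.disjSum Finset.univ (U \ T), c p ≤
        ∑ p ∈ Finset.disjSum Finset.univ (U \ T) ∪ hcf.toFinset, c p :=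
      Finset.sum_le_sum_of_subset_of_nonneg Finset.subset_union_left fun p _ _ => hc0 p
    refine e1.trans (le_of_eq ?_)
    symm
    refine Finset.sum_subset Finset.subset_union_right ?_
    intro p _ hp
    rw [Set.Finite.mem_toFinset] at hp
    by_contra hcon
    exact hp hcon
  have h6 : ∑ i, (Q.degreeOf i : ℝ) * ∑ w : InfinitePlace K, mx (Sum.inl w) (y i) +
      ∑ i, (Q.degreeOf i : ℝ) * ∑ v ∈ U \ T, mx (Sum.inr v) (y i) ≤
        d * ∑ i, hr (aff (y i)) := by
    rw [← Finset.sum_add_distrib, hd, Finset.sum_mul]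
    refine Finset.sum_le_sum fun i _ => ?_
    rw [← mul_add]
    refine mul_le_mul_of_nonneg_left ((sum_mx_le (y i) _).trans ?_) (Nat.cast_nonneg _)
    exact Finset.single_le_sum (f := fun i => hr (aff (y i))) (fun i _ => hr_aff_nonneg _)
      (Finset.mem_univ i)
  have h7 : 0 ≤ ∑ i, hr (aff (y i)) := Finset.sum_nonneg fun i _ => hr_aff_nonneg _
  nlinarith [mul_nonneg hct0 h7]

open Classical in
/-- the primes at which a coordinate is not integral -/
noncomputable def den {m : ℕ} (y : Fin m → K) : Finset (Pr K) :=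
  univ.biUnion fun i => (mx_fin (y i)).toFinset

theorem mem_den {m : ℕ} {y : Fin m → K} {v : Pr K} (hv : v ∉ den y) (i : Fin m) :
    fv v (y i) ≤ 1 := by
  classical
  by_contra hcon
  rw [not_le] at hcon
  refine hv (Finset.mem_biUnion.2 ⟨i, Finset.mem_univ _, ?_⟩)
  rw [Set.Finite.mem_toFinset]
  have h1 := log_fv_ge v hcon
  have h2 := log_Nv_pos v
  show Real.log (max (fv v (y i)) 1) ≠ 0
  linarith

theorem sum_den {m : ℕ} (y : Fin m → K) : ∑ v ∈ den y, Real.log (Nv v) ≤ ∑ i, hr (aff (y i)) := by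
  classical
  have h1 : ∑ v ∈ den y, Real.log (Nv v) ≤ ∑ v ∈ den y, ∑ i, mx (Sum.inr v) (y i) := by
    refine Finset.sum_le_sum fun v hv => ?_
    obtain ⟨i, -, hi⟩ := Finset.mem_biUnion.1 hv
    rw [Set.Finite.mem_toFinset] at hi
    have h2 : 1 < fv v (y i) := by
      by_contra hcon
      rw [not_lt] at hcon
      exact hi (mx_of_le hcon)
    refine (log_fv_ge v h2).trans ?_
    exact Finset.single_le_sum (f := fun i => mx (Sum.inr v) (y i)) (fun i _ => mx_nonneg _ _)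
      (Finset.mem_univ i)
  refine h1.trans ?_
  rw [Finset.sum_comm]
  refine Finset.sum_le_sum fun i _ => ?_
  have h2 := sum_mx_le (y i) (den y)
  have h3 : 0 ≤ ∑ w : InfinitePlace K, mx (Sum.inl w) (y i) :=
    Finset.sum_nonneg fun w _ => mx_nonneg _ _
  linarith

end Pool.Agent.N753.SU
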