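import Mathlib
import Pool.Agent.N753.SU.Fam2

/-!
# The height of a polynomial with a good model; the statement for odd degrees
-/

set_option autoImplicit false
set_option linter.unusedSectionVars false

namespace Pool.Agent.N753.SU

open NumberField IsDedekindDomain Finset Pool.Agent.H691R3
open Pool.Agent.TH876.Loc hiding mx
open Pool.Agent.N753.LS Pool.Agent.N753.SF Polynomial

variable {K : Type} [Field K] [NumberField K]

theorem gn_good {f : (𝓞 K)[X]} {v : Pr K} (hv : f.leadingCoeff ∉ v.asIdeal) :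
    gn (Sum.inr v) (f.map (algebraMap (𝓞 K) K)) = 0 := by
  have h1 : gs (fv v) (f.map (algebraMap (𝓞 K) K)) = 1 := by
    refine le_antisymm (ciSup_le fun i => ?_) ?_
    · rw [coeff_map]
      exact (fv_le_one v _).2 (v.valuation_le_one _)
    · have h2 := le_gs (fv v) (f.map (algebraMap (𝓞 K) K)) f.natDegree
      rw [coeff_map, coeff_natDegree, fv_one_of_notMem hv] at h2
      exact h2
  show Real.log (gs (fv v) (f.map (algebraMap (𝓞 K) K))) = 0
  rw [h1, Real.log_one]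

theorem ht_good (f : (𝓞 K)[X]) (Bad : Finset (Pr K))
    (hBad : ∀ v ∉ Bad, f.leadingCoeff ∉ v.asIdeal) :
    ht (f.map (algebraMap (𝓞 K) K)) = ∑ w : InfinitePlace K, gn (Sum.inl w)
      (f.map (algebraMap (𝓞 K) K)) + ∑ v ∈ Bad, gn (Sum.inr v) (f.map (algebraMap (𝓞 K) K)) :=
  ht_eq Bad fun v hv => gn_good (hBad v hv)

open Classical in
/-- the size of the value of a polynomial outside the bad primes -/
theorem sum_nu_ht (f : (𝓞 K)[X]) (Bad : Finset (Pr K))
    (hBad : ∀ v ∉ Bad, f.leadingCoeff ∉ v.asIdeal) {x : K} (hx : aeval x f ≠ 0) :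
    ∑ v ∈ dv f x \ Bad, (nu f v x : ℝ) * Real.log (Nv v) ≤
      ht (f.map (algebraMap (𝓞 K) K)) + f.natDegree * hr (aff x) +
        (f.natDegree + 1) * lossK K := by
  obtain ⟨g, hg⟩ : ∃ g : K[X], g = f.map (algebraMap (𝓞 K) K) := ⟨_, rfl⟩
  have hge : g.eval x = aeval x f := by
    rw [hg, eval_map_algebraMap]
  have hgd : g.natDegree ≤ f.natDegree := by
    rw [hg]
    exact natDegree_map_le
  have h3 := height_eq f Bad hBad hx
  have h4 : ∀ p : Pl K, mu p f x = mv p f.natDegree g x - gn p g := fun p => by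
    rw [hg, mv_mu]
    ring
  simp only [h4] at h3
  rw [Finset.sum_sub_distrib, Finset.sum_sub_distrib] at h3
  have h5 := ht_good f Bad hBad
  rw [← hg] at h5 ⊢
  have hlow : -((f.natDegree + 1) * lossK K) ≤
      ∑ w : InfinitePlace K, mv (Sum.inl w) f.natDegree g x := by
    have hlsum : ∑ w : InfinitePlace K, ((f.natDegree : ℝ) + 1) * loss (Sum.inl w : Pl K) =
        (f.natDegree + 1) * lossK K := by
      rw [← Finset.mul_sum]
      rfl
    rw [← hlsum, ← Finset.sum_neg_distrib]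
    refine Finset.sum_le_sum fun w _ => ?_
    have := mv_ge (Sum.inl w) hgd (x := x) (by rw [hge]; exact hx)
    linarith
  have hlow2 : 0 ≤ ∑ v ∈ Bad, mv (Sum.inr v) f.natDegree g x :=
    Finset.sum_nonneg fun v _ => mv_nonneg v hgd (by rw [hge]; exact hx)
  linarith

/-- **SU/OD** few values of a polynomial of odd degree are divisible by the square of a large
prime -/
def StmOD : Prop := ∀ (K : Type) [Field K] [NumberField K] (e : ℕ), ¬ Even e → ∀ c0 : ℝ,
  0 ≤ c0 → ∀ δ : ℝ, 0 < δ → δ ≤ 1 / 64 → ∃ C : ℝ, 0 < C ∧ ∀ f : (𝓞 K)[X], f.natDegree = e →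
    ∀ Bad : Finset (Pr K), (∀ v ∉ Bad, Good f v ∧ GoodS f v) → ∀ H : ℝ, 0 ≤ H →
      ht (f.map (algebraMap (𝓞 K) K)) + e * H ≤ 5 * H + c0 → ∀ S : Finset K,
      (∀ x ∈ S, hr (aff x) ≤ H ∧ aeval x f ≠ 0 ∧
        ∃ v, v ∉ Bad ∧ 2 ≤ nu f v x ∧ (2 - 1 / 16) * H ≤ Real.log (Nv v)) →
      (S.card : ℝ) ≤ C * Real.exp ((2 - 1 / 16) * H + δ * ∑ v ∈ Bad, Real.log (Nv v))

end Pool.Agent.N753.SU
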