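import Mathlib
import Pool.Agent.N753.SU.Gn

/-!
# Odd degrees: statements
-/

set_option autoImplicit false
set_option linter.unusedSectionVars false

namespace Pool.Agent.N753.SU

open NumberField IsDedekindDomain Finset Pool.Agent.H691R3
open Pool.Agent.TH876.Loc hiding mx
open Pool.Agent.N753.LS Pool.Agent.N753.SF Polynomial

open Classical in
/-- **SU/OD1** points with given divisors, uniformly in the polynomial (compare `count_key`) -/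
def StmOD1 : Prop := ∀ (K : Type) [Field K] [NumberField K] (e : ℕ), ¬ Even e → ∀ δ : ℝ, 0 < δ →
  ∃ C : ℝ, 0 < C ∧ ∀ f : (𝓞 K)[X], f.natDegree = e → ∀ Bad : Finset (Pr K),
    (∀ v ∉ Bad, Good f v ∧ GoodS f v) → ∀ H : ℝ, 0 ≤ H → ∀ z : K, aeval z f ≠ 0 →
    ∀ (n : Pr K →₀ ℕ) (Y : Finset (Pr K)) (S : Finset K),
      (∀ x ∈ S, hr (aff x) ≤ H ∧ aeval x f ≠ 0 ∧ x ≠ z ∧
        (∀ v ∈ n.support, v ∉ Bad) ∧ (∀ v ∉ Bad, ml v x z = n v) ∧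
          ∀ v ∉ Bad, v ∈ Y ↔ ¬ Even (nu f v x)) →
      (S.card : ℝ) ≤ C * Real.exp (δ * ∑ v ∈ Bad ∪ dv f z, Real.log (Nv v)) *
        (1 + Real.exp ((1 + δ) * H - nrm n / 2))

open Classical in
/-- **SU/OD2** points with small odd divisors, uniformly in the polynomial (compare `count_odd`).
The constant `C0` is the constant of `exists_z`. -/
def StmOD2 : Prop := ∀ (K : Type) [Field K] [NumberField K] (C0 : ℝ), 0 ≤ C0 →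
  (∀ (y : Finset (Pr K)) (x : K), (∀ v ∈ y, fv v x ≤ 1) →
    ∃ z : K, 2 * hr (aff z) + ∑ v ∈ y.filter (fun v => ¬ cls v x = cls v z), Real.log (Nv v) ≤
      ∑ v ∈ y.filter (fun v => cls v x = cls v z), Real.log (Nv v) + C0) →
  ∀ e : ℕ, ¬ Even e → ∀ c1 : ℝ, 0 ≤ c1 → ∀ δ : ℝ, 0 < δ → δ ≤ 1 → ∃ C : ℝ, 0 < C ∧
    ∀ f : (𝓞 K)[X], f.natDegree = e → ∀ Bad : Finset (Pr K),
    (∀ v ∉ Bad, Good f v ∧ GoodS f v) → ∀ H : ℝ, 0 ≤ H →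
    ht (f.map (algebraMap (𝓞 K) K)) ≤ c1 * (1 + H) → ∀ τ : ℝ, 0 ≤ τ → τ ≤ 2 * H →
    ∀ S : Finset K, (∀ x ∈ S, hr (aff x) ≤ H ∧ aeval x f ≠ 0 ∧
      (∀ z : K, 2 * hr (aff z) ≤ τ + C0 → aeval z f ≠ 0) ∧
      ∑ v ∈ (dv f x \ Bad).filter (fun v => ¬ Even (nu f v x)), Real.log (Nv v) ≤ τ) →
      (S.card : ℝ) ≤ C * (Real.exp ((1 + δ) * H + τ / 2) + Real.exp ((3 / 2 + δ) * H + τ / 4)) *
        Real.exp (δ * ∑ v ∈ Bad, Real.log (Nv v))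

/-- **SU/OD3** the case of a polynomial with a root of small height -/
def StmOD3 : Prop := ∀ (K : Type) [Field K] [NumberField K] (e : ℕ), ¬ Even e → ∀ c0 : ℝ,
  0 ≤ c0 → ∀ C0 : ℝ, 0 ≤ C0 → ∀ δ : ℝ, 0 < δ → δ ≤ 1 / 64 → ∃ C : ℝ, 0 < C ∧
    ∀ f : (𝓞 K)[X], f.natDegree = e → ∀ Bad : Finset (Pr K),
    (∀ v ∉ Bad, Good f v ∧ GoodS f v) → ∀ H : ℝ, 0 ≤ H →
      ht (f.map (algebraMap (𝓞 K) K)) + e * H ≤ 5 * H + c0 → ∀ z : K, aeval z f = 0 →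
      2 * hr (aff z) ≤ 9 / 8 * H + C0 → ∀ S : Finset K,
      (∀ x ∈ S, hr (aff x) ≤ H ∧ aeval x f ≠ 0 ∧
        ∃ v, v ∉ Bad ∧ 2 ≤ nu f v x ∧ (2 - 1 / 16) * H ≤ Real.log (Nv v)) →
      (S.card : ℝ) ≤ C * Real.exp ((2 - 1 / 16) * H + δ * ∑ v ∈ Bad, Real.log (Nv v))

end Pool.Agent.N753.SU
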