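import Mathlib

/-!
# Families of polynomials in several variables without common factors: statements
-/

set_option autoImplicit false

namespace Pool.Agent.N753.SU

open Polynomial

/-- **SU/B1** Bezout identities for a family of polynomials without a common factor, in the
variable `0` and at infinity -/
def StmB1 : Prop := ∀ (K : Type) [Field K] (m : ℕ) (ι : Type) [Fintype ι]
  (G : ι → MvPolynomial (Fin (m + 1)) K), (∀ P, Irreducible P → ¬ ∀ k, P ∣ G k) → ∀ a : ℕ,
  (∀ k, (G k).degreeOf 0 ≤ a) → (∃ k, G k ≠ 0 ∧ (G k).degreeOf 0 = a) →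
  ∃ (A A' : ι → (MvPolynomial (Fin m) K)[X]) (R R' : MvPolynomial (Fin m) K), R ≠ 0 ∧ R' ≠ 0 ∧
    ∑ k, A k * MvPolynomial.finSuccEquiv K m (G k) = C R ∧
    ∑ k, A' k * reflect a (MvPolynomial.finSuccEquiv K m (G k)) = C R'

/-- **SU/B2** the coefficients have no common factor -/
def StmB2 : Prop := ∀ (K : Type) [Field K] (m : ℕ) (ι : Type)
  (G : ι → MvPolynomial (Fin (m + 1)) K), (∀ P, Irreducible P → ¬ ∀ k, P ∣ G k) →
  ∀ P : MvPolynomial (Fin m) K, Irreducible P →
    ¬ ∀ k j, P ∣ (MvPolynomial.finSuccEquiv K m (G k)).coeff j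

/-- **SU/B3** the degrees of the coefficients -/
def StmB3 : Prop := ∀ (K : Type) [Field K] (m : ℕ) (F : MvPolynomial (Fin (m + 1)) K)
  (i : Fin m), F ≠ 0 → ∃ j ≤ F.degreeOf 0,
    ((MvPolynomial.finSuccEquiv K m F).coeff j).degreeOf i = F.degreeOf i.succ ∧
      (MvPolynomial.finSuccEquiv K m F).coeff j ≠ 0

/-- **SU/B4** exchanging the variables `0` and `i` -/
def StmB4 : Prop := ∀ (K : Type) [Field K] (m : ℕ) (F : MvPolynomial (Fin (m + 1)) K)
  (σ : Equiv.Perm (Fin (m + 1))),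
    (Irreducible F → Irreducible (MvPolynomial.rename σ F)) ∧
    (∀ G : MvPolynomial (Fin (m + 1)) K, ¬ Associated F G →
      ¬ Associated (MvPolynomial.rename σ F) (MvPolynomial.rename σ G)) ∧
    (∀ i, (MvPolynomial.rename σ F).degreeOf (σ i) = F.degreeOf i) ∧
    ∀ x : Fin (m + 1) → K, MvPolynomial.eval x (MvPolynomial.rename σ F) =
      MvPolynomial.eval (x ∘ σ) F

end Pool.Agent.N753.SU
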