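import Mathlib
import Pool.Agent.N753.SU.Gn

/-!
# The number of the points of a fibre with a small radical: total degree at most five
-/

set_option autoImplicit false
set_option linter.unusedSectionVars false

namespace Pool.Agent.N753.SU

open NumberField IsDedekindDomain Finset Pool.Agent.H691R3
open Pool.Agent.TH876.Loc hiding mx
open Pool.Agent.N753.LS Pool.Agent.N753.SF Polynomial

variable {K : Type} [Field K] [NumberField K]

variable (K) in
/-- few values are divisible by the square of a large prime -/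
theorem nlc (hOD : StmOD) (e : ℕ) (he : 1 ≤ e) (c0 : ℝ) (hc0 : 0 ≤ c0)
    {δ : ℝ} (hδ : 0 < δ) (hδ1 : δ ≤ 1 / 64) :
    ∃ C : ℝ, 0 < C ∧ ∀ f : (𝓞 K)[X], f.natDegree = e →
    ∀ Bad : Finset (Pr K), (∀ v ∉ Bad, Good f v ∧ GoodS f v) → ∀ H : ℝ, 0 ≤ H →
      ht (f.map (algebraMap (𝓞 K) K)) + e * H ≤ 5 * H + c0 → ∀ S : Finset K,
      (∀ x ∈ S, hr (aff x) ≤ H ∧ aeval x f ≠ 0 ∧
        ∃ v, v ∉ Bad ∧ 2 ≤ nu f v x ∧ (2 - 1 / 16) * H ≤ Real.log (Nv v)) →
      (S.card : ℝ) ≤ C * Real.exp ((2 - 1 / 16) * H + δ * ∑ v ∈ Bad, Real.log (Nv v)) := by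
  by_cases hev : Even e
  · obtain ⟨l, hl⟩ : ∃ l : ℝ, l = (e + 1) * lossK K := ⟨_, rfl⟩
    have hl0 : 0 ≤ l := by
      rw [hl]
      exact mul_nonneg (by positivity) (lossK_nonneg K)
    obtain ⟨C, hC, h⟩ := noLargeU K e 5 he (Or.inl ⟨hev, le_rfl⟩) (c0 + l) (by positivity) hδ
      (by linarith)
    refine ⟨C, hC, ?_⟩
    intro f hfe Bad hBad H hH hht S hS
    have h1 := h f hfe Bad hBad H hH S fun x hx => ⟨(hS x hx).1, (hS x hx).2.1, by
      have e1 := sum_nu_ht f Bad (fun v hv => (hBad v hv).2.2) (hS x hx).2.1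
      rw [hfe, ← hl] at e1
      have e2 := mul_le_mul_of_nonneg_left (hS x hx).1 (show (0 : ℝ) ≤ e from Nat.cast_nonneg _)
      push_cast
      linarith, (hS x hx).2.2⟩
    refine h1.trans (mul_le_mul_of_nonneg_left (Real.exp_le_exp.2 ?_) hC.le)
    linarith
  · exact hOD K e hev c0 hc0 δ hδ hδ1

variable (K) in
open Classical in
/-- **the points with a large powerful part** -/
theorem count_WU5 (e : ℕ) (he : 1 ≤ e) {κ : ℝ} (hκ0 : 0 < κ) (hκ1 : κ ≤ 1) {δ : ℝ}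
    (hδ : 0 < δ) :
    ∃ C : ℝ, 0 < C ∧ ∀ f : (𝓞 K)[X], f.natDegree = e → ∀ Bad : Finset (Pr K),
      (∀ v ∉ Bad, Good f v ∧ GoodS f v) → ∀ H : ℝ, 0 ≤ H → ∀ S : Finset K,
      (∀ x ∈ S, hr (aff x) ≤ H ∧ aeval x f ≠ 0 ∧
        ∑ v ∈ dv f x \ Bad, Real.log (Nv v) + κ * H ≤
          ∑ v ∈ dv f x \ Bad, (nu f v x : ℝ) * Real.log (Nv v)) → ∀ N3 : ℝ, 0 ≤ N3 →
      (∀ S3 ⊆ S, (∀ x ∈ S3, ∃ v, v ∉ Bad ∧ 2 ≤ nu f v x ∧
        (2 - 1 / 16) * H ≤ Real.log (Nv v)) → (S3.card : ℝ) ≤ N3) →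
      (S.card : ℝ) ≤ C * Real.exp ((2 - κ / 64) * H + δ * ∑ v ∈ Bad, Real.log (Nv v)) + N3 := by
  -- the parameters
  obtain ⟨κ', hκ'⟩ : ∃ κ' : ℝ, κ' = 1 / 16 := ⟨_, rfl⟩
  obtain ⟨a0, ha0⟩ : ∃ a0 : ℝ, a0 = κ / 16 := ⟨_, rfl⟩
  have ha00 : 0 < a0 := by rw [ha0]; positivity
  have ha01 : a0 ≤ κ := by rw [ha0]; linarith
  have ha02 : a0 ≤ κ' := by rw [ha0, hκ']; linarith
  obtain ⟨C2, hC2, h2⟩ := count_powU K e (δ := a0 / 4) (by positivity) (by linarith)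
  obtain ⟨C4, hC4, h4⟩ := count_all K (δ := 1) one_pos
  refine ⟨C2 * 2 + C4, by positivity, ?_⟩
  intro f hfe Bad hBad H hH S hS N3 hN3 h3
  obtain ⟨β, hβ⟩ : ∃ β : ℝ, β = ∑ v ∈ Bad, Real.log (Nv v) := ⟨_, rfl⟩
  have hβ0 : 0 ≤ β := by
    rw [hβ]
    exact Finset.sum_nonneg fun v _ => (log_Nv_pos v).le
  rw [← hβ]
  have hδβ : 0 ≤ δ * β := by positivity
  obtain ⟨G, hG⟩ : ∃ G : ℝ, G = Real.exp ((2 - κ / 64) * H + δ * β) := ⟨_, rfl⟩
  rw [← hG]
  have hG0 : 0 < G := by rw [hG]; exact Real.exp_pos _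
  have hG1 : 1 ≤ G := by
    rw [hG]
    refine Real.one_le_exp ?_
    have : 0 ≤ (2 - κ / 64) * H := mul_nonneg (by linarith) hH
    linarith
  have hexp : ∀ t : ℝ, t ≤ 2 - κ / 64 → Real.exp (t * H) ≤ G := fun t ht => by
    rw [hG]
    refine Real.exp_le_exp.2 ?_
    have := mul_le_mul_of_nonneg_right ht hH
    linarith
  rcases hH.eq_or_lt with hH0 | hHpos
  · have h5 := h4 H hH S fun x hx => (hS x hx).1
    rw [← hH0, mul_zero, Real.exp_zero, mul_one] at h5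
    have e1 : C4 ≤ C4 * G := le_mul_of_one_le_right hC4.le hG1
    have e2 : 0 ≤ C2 * 2 * G := by positivity
    rw [add_mul]
    linarith
  have hdeg : 1 ≤ f.natDegree := by omega
  -- the two kinds of points
  obtain ⟨S3, hS3⟩ : ∃ S3 : Finset K, S3 = S.filter fun x => ∃ v, v ∉ Bad ∧ 2 ≤ nu f v x ∧
    (2 - κ') * H ≤ Real.log (Nv v) := ⟨_, rfl⟩
  obtain ⟨S2, hS2⟩ : ∃ S2 : Finset K, S2 = S.filter fun x => ∃ m : Pr K →₀ ℕ,
    (∀ v ∈ m.support, v ∉ Bad ∧ 2 ≤ m v ∧ m v ≤ nu f v x) ∧ a0 * H ≤ nrm m ∧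
      nrm m ≤ (4 - κ') * H := ⟨_, rfl⟩
  have hc3 : (S3.card : ℝ) ≤ N3 := by
    refine h3 S3 (by rw [hS3]; exact Finset.filter_subset _ _) fun x hx => ?_
    rw [hS3] at hx
    obtain ⟨-, v, hv1, hv2, hv3⟩ := Finset.mem_filter.1 hx
    rw [hκ'] at hv3
    exact ⟨v, hv1, hv2, hv3⟩
  have hc2 : (S2.card : ℝ) ≤ C2 * (G + G) := by
    have h6 := h2 f hdeg (by omega) Bad hBad H hH (a0 * H) ((4 - κ') * H) (by positivity) S2
      (fun x hx => by
        rw [hS2] at hx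
        obtain ⟨hxS, hx1⟩ := Finset.mem_filter.1 hx
        exact ⟨(hS x hxS).1, (hS x hxS).2.1, hx1⟩)
      (mul_le_mul_of_nonneg_right (by linarith) hH)
      (mul_le_mul_of_nonneg_right (by linarith) hH)
    refine h6.trans (mul_le_mul_of_nonneg_left (add_le_add ?_ ?_) hC2.le)
    · have e5 : (4 - κ') * H / 2 + a0 / 4 * H = (2 - κ' / 2 + a0 / 4) * H := by ring
      rw [e5]
      exact hexp _ (by linarith)
    · have e5 : (2 + a0 / 4) * H - a0 * H / 2 = (2 - a0 / 4) * H := by ring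
      rw [e5]
      exact hexp _ (by linarith)
  have hcover : S ⊆ S2 ∪ S3 := by
    intro x hx
    obtain ⟨hxH, hx0, hxW⟩ := hS x hx
    rw [Finset.mem_union]
    by_cases hx3 : ∃ v, v ∉ Bad ∧ 2 ≤ nu f v x ∧ (2 - κ') * H ≤ Real.log (Nv v)
    · right
      rw [hS3]
      exact Finset.mem_filter.2 ⟨hx, hx3⟩
    left
    rw [hS2]
    refine Finset.mem_filter.2 ⟨hx, ?_⟩
    push Not at hx3
    -- the powerful part
    let n : Pr K →₀ ℕ := Finsupp.onFinset (dv f x \ Bad)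
      (fun v => if v ∉ Bad ∧ v ∈ dv f x ∧ 2 ≤ nu f v x then nu f v x else 0) (by
        intro v hv
        have : v ∉ Bad ∧ v ∈ dv f x ∧ 2 ≤ nu f v x := by
          by_contra hcon
          exact hv (if_neg hcon)
        exact Finset.mem_sdiff.2 ⟨this.2.1, this.1⟩)
    have hnv : ∀ v, n v = if v ∉ Bad ∧ v ∈ dv f x ∧ 2 ≤ nu f v x then nu f v x else 0 :=
      fun v => rfl
    have hns : ∀ v, v ∈ n.support ↔ v ∉ Bad ∧ v ∈ dv f x ∧ 2 ≤ nu f v x := by
      intro v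
      rw [Finsupp.mem_support_iff, hnv]
      constructor
      · intro h
        by_contra hcon
        exact h (if_neg hcon)
      · intro h
        rw [if_pos h]
        omega
    have hn2 : ∀ v ∈ n.support, 2 ≤ n v := by
      intro v hv
      have h9 := (hns v).1 hv
      rw [hnv, if_pos h9]
      exact h9.2.2
    have hnn : ∀ v, n v ≤ nu f v x := by
      intro v
      rw [hnv]
      split_ifs
      · exact le_rfl
      · exact Nat.zero_le _
    have hnrm : nrm n = ∑ v ∈ dv f x \ Bad, (n v : ℝ) * Real.log (Nv v) := by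
      rw [nrm_eq]
      refine Finset.sum_subset ?_ ?_
      · intro v hv
        have h9 := (hns v).1 hv
        exact Finset.mem_sdiff.2 ⟨h9.2.1, h9.1⟩
      · intro v _ hv
        rw [Finsupp.notMem_support_iff.1 hv, Nat.cast_zero, zero_mul]
    have hsplit : ∑ v ∈ dv f x \ Bad, (nu f v x : ℝ) * Real.log (Nv v) ≤
        nrm n + ∑ v ∈ dv f x \ Bad, Real.log (Nv v) := by
      rw [hnrm, ← Finset.sum_add_distrib]
      refine Finset.sum_le_sum fun v hv => ?_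
      obtain ⟨hva, hvb⟩ := Finset.mem_sdiff.1 hv
      have hl := log_Nv_pos v
      rw [hnv]
      split_ifs with h10
      · linarith
      · have h11 : nu f v x ≤ 1 := by
          by_contra hcon
          exact h10 ⟨hvb, hva, by omega⟩
        have h12 : (nu f v x : ℝ) ≤ 1 := by exact_mod_cast h11
        rw [Nat.cast_zero, zero_mul, zero_add]
        nlinarith
    have hbig : a0 * H ≤ nrm n := by
      have h9 := mul_le_mul_of_nonneg_right ha01 hH
      linarith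
    obtain ⟨m, hm1, hm2, hm3, hm4⟩ := exists_sub n hn2 (a := a0 * H) (b := (2 - κ') * H)
      (by positivity) hbig (fun v hv => by
        have h9 := (hns v).1 hv
        exact (hx3 v h9.1 h9.2.2).le)
    refine ⟨m, ?_, hm3, ?_⟩
    · intro v hv
      have h9 : v ∈ n.support := by
        rw [Finsupp.mem_support_iff] at hv ⊢
        have := hm1 v
        omega
      exact ⟨((hns v).1 h9).1, hm2 v hv, (hm1 v).trans (hnn v)⟩
    · have h9 := mul_le_mul_of_nonneg_right ha02 hH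
      linarith
  have h9 : (S.card : ℝ) ≤ S2.card + S3.card := by
    exact_mod_cast (Finset.card_le_card hcover).trans (Finset.card_union_le _ _)
  have e2 : 0 ≤ C4 * G := by positivity
  rw [add_mul]
  linarith

variable (K) in
open Classical in
/-- **the points of a fibre with a small radical** -/
theorem fibre_bound5 (hOD : StmOD) (e : ℕ) (he : 1 ≤ e) (c0 : ℝ)
    (hc0 : 0 ≤ c0) {κ : ℝ} (hκ0 : 0 < κ) (hκ1 : κ ≤ 1) {δ : ℝ} (hδ : 0 < δ) (hδ1 : δ ≤ 1 / 64) :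
    ∃ C : ℝ, 0 < C ∧ ∀ f : (𝓞 K)[X], f.natDegree = e → ∀ Bad : Finset (Pr K),
      (∀ v ∉ Bad, Good f v ∧ GoodS f v) → ∀ H : ℝ, 0 ≤ H → ∀ L : ℝ,
      L = ht (f.map (algebraMap (𝓞 K) K)) →
      L + e * H ≤ 5 * H + c0 → ∀ S : Finset K, (∀ x ∈ S, hr (aff x) ≤ H ∧ aeval x f ≠ 0 ∧
        ∑ v ∈ dv f x \ Bad, Real.log (Nv v) < L + e * hr (aff x) - κ * H) →
      (S.card : ℝ) ≤ C * Real.exp ((2 - κ / (128 * e)) * H + δ * ∑ v ∈ Bad, Real.log (Nv v)) := by
  have he0 : (0 : ℝ) < e := by exact_mod_cast he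
  have he1 : (1 : ℝ) ≤ e := by exact_mod_cast he
  obtain ⟨l, hl⟩ : ∃ l : ℝ, l = (e + 1) * lossK K := ⟨_, rfl⟩
  have hl0 : 0 ≤ l := by
    rw [hl]
    exact mul_nonneg (by positivity) (lossK_nonneg K)
  obtain ⟨δ1, hδ1'⟩ : ∃ δ1 : ℝ, δ1 = min δ (κ / (4 * e)) := ⟨_, rfl⟩
  have hδ10 : 0 < δ1 := by rw [hδ1']; exact lt_min hδ (by positivity)
  have hδ11 : δ1 ≤ δ := by rw [hδ1']; exact min_le_left _ _
  have hδ12 : δ1 ≤ κ / (4 * e) := by rw [hδ1']; exact min_le_right _ _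
  obtain ⟨C1, hC1, h1⟩ := count_bad K e he (κ := κ / 2) (by positivity) (by linarith)
    (R := 5 + c0) (by positivity) hδ10
  obtain ⟨C2, hC2, h2⟩ := count_WU5 K e he (κ := κ / 2) (by positivity) (by linarith) hδ
  obtain ⟨C3, hC3, h3⟩ := nlc K hOD e he c0 hc0 hδ hδ1
  refine ⟨C1 + C2 + C3, by positivity, ?_⟩
  intro f hfe Bad hBad H hH L hL hLE S hS
  have hdeg : 1 ≤ f.natDegree := by omega
  have hf0 : f ≠ 0 := by
    rintro rfl
    simp at hdeg
  obtain ⟨g, hg⟩ : ∃ g : K[X], g = f.map (algebraMap (𝓞 K) K) := ⟨_, rfl⟩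
  have hg0 : g ≠ 0 := by
    rw [hg, Ne, Polynomial.map_eq_zero_iff (FaithfulSMul.algebraMap_injective (𝓞 K) K)]
    exact hf0
  have hgd : g.natDegree ≤ e := by
    rw [hg, ← hfe]
    exact natDegree_map_le
  have hge : ∀ x, g.eval x = aeval x f := fun x => by
    rw [hg, eval_map_algebraMap]
  have hL2 := ht_good f Bad (fun v hv => (hBad v hv).2.2)
  have hLf := hL
  rw [hL2] at hL
  rw [← hg] at hL
  obtain ⟨β, hβ⟩ : ∃ β : ℝ, β = ∑ v ∈ Bad, Real.log (Nv v) := ⟨_, rfl⟩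
  have hβ0 : 0 ≤ β := by
    rw [hβ]
    exact Finset.sum_nonneg fun v _ => (log_Nv_pos v).le
  rw [← hβ]
  obtain ⟨ν, hν⟩ : ∃ ν : ℝ, ν = κ / (128 * e) := ⟨_, rfl⟩
  have hν1 : ν ≤ κ / (4 * e) := by
    rw [hν]
    refine div_le_div_of_nonneg_left hκ0.le (by positivity) ?_
    linarith
  have hν2 : ν ≤ κ / 2 / 64 := by
    rw [hν, div_div]
    refine div_le_div_of_nonneg_left hκ0.le (by positivity) ?_
    linarith
  rw [← hν]
  obtain ⟨G, hG⟩ : ∃ G : ℝ, G = Real.exp ((2 - ν) * H + δ * β) := ⟨_, rfl⟩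
  rw [← hG]
  -- the identity
  have hid : ∀ x ∈ S, ∑ w : InfinitePlace K, mv (Sum.inl w) e g x +
      ∑ v ∈ Bad, mv (Sum.inr v) e g x + ∑ v ∈ dv f x \ Bad, (nu f v x : ℝ) * Real.log (Nv v) =
        L + e * hr (aff x) := by
    intro x hx
    have h3 := height_eq f Bad (fun v hv => (hBad v hv).2.2) (hS x hx).2.1
    rw [hfe] at h3
    have h4 : ∀ p : Pl K, mv p e g x = gn p g + mu p f x := fun p => by
      rw [← hfe, hg]
      exact mv_mu p f x
    simp only [h4]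
    rw [Finset.sum_add_distrib, Finset.sum_add_distrib, hL]
    linarith
  have hlow : ∀ x ∈ S, -l ≤ ∑ w : InfinitePlace K, mv (Sum.inl w) e g x := by
    intro x hx
    have hlsum : ∑ w : InfinitePlace K, ((e : ℝ) + 1) * loss (Sum.inl w : Pl K) = l := by
      rw [hl, ← Finset.mul_sum]
      rfl
    rw [← hlsum, ← Finset.sum_neg_distrib]
    refine Finset.sum_le_sum fun w _ => ?_
    have := mv_ge (Sum.inl w) hgd (x := x) (by rw [hge]; exact (hS x hx).2.1)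
    linarith
  have hlow2 : ∀ x ∈ S, 0 ≤ ∑ v ∈ Bad, mv (Sum.inr v) e g x := fun x hx =>
    Finset.sum_nonneg fun v _ => mv_nonneg v hgd (by rw [hge]; exact (hS x hx).2.1)
  have hlow3 : ∀ x, 0 ≤ ∑ v ∈ dv f x \ Bad, (nu f v x : ℝ) * Real.log (Nv v) := fun x =>
    Finset.sum_nonneg fun v _ => mul_nonneg (Nat.cast_nonneg _) (log_Nv_pos v).le
  have hup : ∀ x ∈ S, L + e * hr (aff x) ≤ 5 * H + c0 := by
    intro x hx
    have := mul_le_mul_of_nonneg_left (hS x hx).1 he0.le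
    linarith
  obtain ⟨S1, hS1⟩ : ∃ S1 : Finset K, S1 = S.filter fun x => κ / 2 * H ≤
    ∑ w : InfinitePlace K, mv (Sum.inl w) e g x + ∑ v ∈ Bad, mv (Sum.inr v) e g x := ⟨_, rfl⟩
  obtain ⟨S2, hS2⟩ : ∃ S2 : Finset K, S2 = S.filter fun x => ¬ κ / 2 * H ≤
    ∑ w : InfinitePlace K, mv (Sum.inl w) e g x + ∑ v ∈ Bad, mv (Sum.inr v) e g x := ⟨_, rfl⟩
  have hc1 : (S1.card : ℝ) ≤ C1 * G := by
    have h5 := h1 g hg0 hgd Bad H hH S1 (by
      intro x hx
      rw [hS1] at hx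
      obtain ⟨hxS, hx1⟩ := Finset.mem_filter.1 hx
      refine ⟨(hS x hxS).1, by rw [hge]; exact (hS x hxS).2.1, hx1, ?_⟩
      have e1 := hid x hxS
      have e2 := hlow3 x
      have e3 := hup x hxS
      have e4 : (5 : ℝ) * H + c0 ≤ (5 + c0) * (1 + H) := by
        nlinarith [mul_nonneg hc0 hH]
      linarith)
    rw [← hβ] at h5
    refine h5.trans (mul_le_mul_of_nonneg_left ?_ hC1.le)
    rw [hG]
    refine Real.exp_le_exp.2 (add_le_add (mul_le_mul_of_nonneg_right ?_ hH)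
      (mul_le_mul_of_nonneg_right hδ11 hβ0))
    have e1 : κ / 2 / e = κ / (4 * e) + κ / (4 * e) := by
      field_simp
      ring
    rw [e1]
    linarith
  have hc2 : (S2.card : ℝ) ≤ C2 * G + C3 * G := by
    have h5 := h2 f hfe Bad hBad H hH S2 (by
      intro x hx
      rw [hS2] at hx
      obtain ⟨hxS, hx1⟩ := Finset.mem_filter.1 hx
      rw [not_le] at hx1
      have e1 := hid x hxS
      have e5 := (hS x hxS).2.2
      refine ⟨(hS x hxS).1, (hS x hxS).2.1, by linarith⟩) (C3 * Real.exp ((2 - 1 / 16) * H +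
        δ * ∑ v ∈ Bad, Real.log (Nv v))) (by positivity) (by
      intro S3 hS3 hS3v
      refine h3 f hfe Bad hBad H hH (by rw [← hLf]; exact hLE) S3 fun x hx => ?_
      have hx2 := hS3 hx
      rw [hS2] at hx2
      have hxS := (Finset.mem_filter.1 hx2).1
      exact ⟨(hS x hxS).1, (hS x hxS).2.1, hS3v x hx⟩)
    rw [← hβ] at h5
    refine h5.trans (add_le_add (mul_le_mul_of_nonneg_left ?_ hC2.le)
      (mul_le_mul_of_nonneg_left ?_ hC3.le))
    · rw [hG]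
      refine Real.exp_le_exp.2 (add_le_add (mul_le_mul_of_nonneg_right ?_ hH) le_rfl)
      linarith
    · rw [hG]
      refine Real.exp_le_exp.2 (add_le_add (mul_le_mul_of_nonneg_right ?_ hH) le_rfl)
      linarith
  have h9 : (S.card : ℝ) = S1.card + S2.card := by
    rw [hS1, hS2]
    exact_mod_cast (Finset.card_filter_add_card_filter_not (s := S) (p := fun x => κ / 2 * H ≤
      ∑ w : InfinitePlace K, mv (Sum.inl w) e g x + ∑ v ∈ Bad, mv (Sum.inr v) e g x)).symm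
  rw [h9, add_mul, add_mul]
  linarith

end Pool.Agent.N753.SU
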