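import Mathlib
import Pool.Agent.N753.SU.Fam2
import Pool.Agent.N753.SU.StmB

/-!
# The height of almost all values of a family of polynomials without common factors
-/

set_option autoImplicit false
set_option linter.unusedSectionVars false

namespace Pool.Agent.N753.SU

open NumberField IsDedekindDomain Finset Pool.Agent.H691R3
open Pool.Agent.TH876.Loc hiding mx
open Pool.Agent.N753.LS Pool.Agent.N753.SF Polynomial

/-- almost all values of a family of polynomials without common factors have the expected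
height -/
def FamC (K : Type) [Field K] [NumberField K] (m : ℕ) : Prop :=
  ∀ (ι : Type) [Fintype ι] (G : ι → MvPolynomial (Fin m) K),
    (∀ P, Irreducible P → ¬ ∀ k, P ∣ G k) → ∀ κ : ℝ, 0 < κ → κ ≤ 1 →
    ∃ ν C : ℝ, 0 < ν ∧ ν ≤ 1 ∧ 0 < C ∧ ∀ H : ℝ, 0 ≤ H → ∀ S : Finset (Fin m → K),
      (∀ y ∈ S, (∀ i, hr (aff (y i)) ≤ H) ∧ (∃ k, MvPolynomial.eval y (G k) ≠ 0) ∧
        hT (fun k => MvPolynomial.eval y (G k)) <
          ∑ i, ((univ.sup fun k => (G k).degreeOf i : ℕ) : ℝ) * hr (aff (y i)) - κ * H) →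
      (S.card : ℝ) ≤ C * Real.exp ((2 * m - ν) * H)

variable {K : Type} [Field K] [NumberField K]

theorem hT_nonneg {ι : Type} [Fintype ι] {z : ι → K} (h : ∃ k, z k ≠ 0) : 0 ≤ hT z := by
  classical
  obtain ⟨k, hk⟩ := h
  obtain ⟨T, hT'⟩ : ∃ T : Finset (Pr K), T = (lm_fin ⟨k, hk⟩).toFinset ∪ (nm_fin hk).toFinset :=
    ⟨_, rfl⟩
  have hTn : ∀ v ∉ T, lm (Sum.inr v) z = 0 ∧ nm (Sum.inr v) (z k) = 0 := by
    intro v hv
    rw [hT'] at hv
    simp only [Finset.mem_union, not_or, Set.Finite.mem_toFinset,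
      Set.mem_ofPred_eq, not_not] at hv
    exact hv
  rw [hT_eq T fun v hv => (hTn v hv).1, ← sum_nm hk T fun v hv => (hTn v hv).2]
  exact add_le_add (Finset.sum_le_sum fun w _ => nm_le_lm _ hk)
    (Finset.sum_le_sum fun v _ => nm_le_lm _ hk)

theorem fam_zero : FamC K 0 := by
  intro ι _ G _ κ hκ0 _
  refine ⟨1, 1, one_pos, le_rfl, one_pos, ?_⟩
  intro H hH S hS
  have h0 : S = ∅ := by
    rw [Finset.eq_empty_iff_forall_notMem]
    intro y hy
    obtain ⟨-, h1, h2⟩ := hS y hy
    have h3 := hT_nonneg h1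
    rw [Fin.sum_univ_zero] at h2
    have h4 : 0 ≤ κ * H := by positivity
    linarith
  rw [h0, Finset.card_empty, Nat.cast_zero]
  positivity

open Classical in
/-- the primes which divide a number -/
noncomputable def sm (z : K) : Finset (Pr K) :=
  if h : z ≠ 0 then (fv_support_finite h).toFinset.filter fun v => fv v z < 1 else ∅

theorem mem_sm {z : K} (hz : z ≠ 0) {v : Pr K} : v ∈ sm z ↔ fv v z < 1 := by
  classical
  unfold sm
  rw [dif_pos hz, Finset.mem_filter, Set.Finite.mem_toFinset]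
  constructor
  · exact fun h => h.2
  · intro h
    exact ⟨h.ne, h⟩

/-- an upper bound for the height of the fibre polynomial -/
theorem ht_le {m : ℕ} {κ : Type} [Fintype κ] {Q : κ → MvPolynomial (Fin m) K} {c : Pl K → ℝ}
    (hc0 : ∀ p, 0 ≤ c p) (hcf : {p | c p ≠ 0}.Finite) (hc : ∀ (y : Fin m → K) (k : κ),
      MvPolynomial.eval y (Q k) ≠ 0 → ∀ p : Pl K,
      nm p (MvPolynomial.eval y (Q k)) ≤ ∑ i, ((Q k).degreeOf i : ℝ) * mx p (y i) + c p)
    {y : Fin m → K} {f : K[X]} (hf : f ≠ 0)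
    (hfc : ∀ j ≤ f.natDegree, ∃ k, f.coeff j = MvPolynomial.eval y (Q k)) :
    ht f ≤ (∑ k, ∑ i, ((Q k).degreeOf i : ℝ)) * ∑ i, hr (aff (y i)) +
      ∑ p ∈ hcf.toFinset, c p := by
  classical
  obtain ⟨D, hD⟩ : ∃ D : ℝ, D = ∑ k, ∑ i, ((Q k).degreeOf i : ℝ) := ⟨_, rfl⟩
  rw [← hD]
  have hDk : ∀ k i, ((Q k).degreeOf i : ℝ) ≤ D := by
    intro k i
    have h1 : ((Q k).degreeOf i : ℝ) ≤ ∑ i, ((Q k).degreeOf i : ℝ) :=
      Finset.single_le_sum (f := fun i => ((Q k).degreeOf i : ℝ)) (fun i _ => Nat.cast_nonneg _)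
        (Finset.mem_univ i)
    refine h1.trans ?_
    rw [hD]
    exact Finset.single_le_sum (f := fun k => ∑ i, ((Q k).degreeOf i : ℝ))
      (fun k _ => Finset.sum_nonneg fun i _ => Nat.cast_nonneg _) (Finset.mem_univ k)
  have hgn : ∀ p : Pl K, gn p f ≤ D * ∑ i, mx p (y i) + c p := by
    intro p
    obtain ⟨j, hj, hj', h1⟩ := gn_eq p hf
    obtain ⟨k, hk⟩ := hfc j hj
    rw [h1, hk]
    refine (hc y k (by rw [← hk]; exact hj') p).trans (add_le_add ?_ le_rfl)
    rw [Finset.mul_sum]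
    exact Finset.sum_le_sum fun i _ => mul_le_mul_of_nonneg_right (hDk k i) (mx_nonneg _ _)
  obtain ⟨T, hT⟩ : ∃ T : Finset (Pr K), T = (gn_fin hf).toFinset := ⟨_, rfl⟩
  rw [ht_eq T (fun v hv => by
    rw [hT, Set.Finite.mem_toFinset, Set.mem_ofPred_eq, not_not] at hv
    exact hv)]
  have h1 : ∑ w : InfinitePlace K, gn (Sum.inl w) f ≤
      D * ∑ i, ∑ w : InfinitePlace K, mx (Sum.inl w) (y i) +
        ∑ w : InfinitePlace K, c (Sum.inl w) := by
    rw [Finset.sum_comm, Finset.mul_sum, ← Finset.sum_add_distrib]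
    exact Finset.sum_le_sum fun w _ => hgn (Sum.inl w)
  have h2 : ∑ v ∈ T, gn (Sum.inr v) f ≤
      D * ∑ i, ∑ v ∈ T, mx (Sum.inr v) (y i) + ∑ v ∈ T, c (Sum.inr v) := by
    rw [Finset.sum_comm, Finset.mul_sum, ← Finset.sum_add_distrib]
    exact Finset.sum_le_sum fun v _ => hgn (Sum.inr v)
  have h3 : ∑ w : InfinitePlace K, c (Sum.inl w) + ∑ v ∈ T, c (Sum.inr v) ≤
      ∑ p ∈ hcf.toFinset, c p := by
    rw [← Finset.sum_disjSum (s := Finset.univ) (t := T) (f := c)]
    have e1 : ∑ p ∈ Finset.disjSum Finset.univ T, c p ≤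
        ∑ p ∈ Finset.disjSum Finset.univ T ∪ hcf.toFinset, c p :=
      Finset.sum_le_sum_of_subset_of_nonneg Finset.subset_union_left fun p _ _ => hc0 p
    refine e1.trans (le_of_eq ?_)
    symm
    refine Finset.sum_subset Finset.subset_union_right ?_
    intro p _ hp
    rw [Set.Finite.mem_toFinset] at hp
    by_contra hcon
    exact hp hcon
  have hD0 : 0 ≤ D := by
    rw [hD]
    exact Finset.sum_nonneg fun k _ => Finset.sum_nonneg fun i _ => Nat.cast_nonneg _
  have h4 : D * ∑ i, ∑ w : InfinitePlace K, mx (Sum.inl w) (y i) +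
      D * ∑ i, ∑ v ∈ T, mx (Sum.inr v) (y i) ≤ D * ∑ i, hr (aff (y i)) := by
    rw [← mul_add, ← Finset.sum_add_distrib]
    exact mul_le_mul_of_nonneg_left (Finset.sum_le_sum fun i _ => sum_mx_le (y i) T) hD0
  linarith

open Classical in
/-- the induction step -/
theorem fam_step (hUM : StmUM) (hZM : StmZM) (hB1 : StmB1) (hB2 : StmB2) (hB3 : StmB3) (m : ℕ)
    (ih : FamC K m) : FamC K (m + 1) := by
  intro ι _ G hG κ hκ0 hκ1
  have hne : ∃ k, G k ≠ 0 := by
    by_contra hcon
    push Not at hcon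
    exact hG (MvPolynomial.X 0) (MvPolynomial.X_prime).irreducible fun k => by
      rw [hcon k]
      exact dvd_zero _
  have hnon : Nonempty ι := ⟨hne.choose⟩
  obtain ⟨a, ha⟩ : ∃ a : ℕ, a = univ.sup fun k => (G k).degreeOf 0 := ⟨_, rfl⟩
  have ha1 : ∀ k, (G k).degreeOf 0 ≤ a := fun k => by
    rw [ha]
    exact Finset.le_sup (f := fun k => (G k).degreeOf 0) (Finset.mem_univ k)
  have ha2 : ∃ k, G k ≠ 0 ∧ (G k).degreeOf 0 = a := by
    obtain ⟨k0, hk0⟩ := hne
    obtain ⟨k1, -, hk1⟩ := Finset.exists_mem_eq_sup univ Finset.univ_nonempty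
      (fun k => (G k).degreeOf 0)
    rw [← ha] at hk1
    by_cases h : G k1 = 0
    · refine ⟨k0, hk0, ?_⟩
      have h1 : a = 0 := by
        rw [hk1, h]
        exact MvPolynomial.degreeOf_zero 0
      have := ha1 k0
      omega
    · exact ⟨k1, h, hk1.symm⟩
  obtain ⟨A, A', R, R', hR, hR', hA, hA'⟩ := hB1 K m ι G hG a ha1 ha2
  -- the coefficients
  obtain ⟨G', hG'd⟩ : ∃ G' : ι × Fin (a + 1) → MvPolynomial (Fin m) K, G' = fun q =>
    (MvPolynomial.finSuccEquiv K m (G q.1)).coeff q.2 := ⟨_, rfl⟩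
  have hcz : ∀ k j, ¬ j < a + 1 → (MvPolynomial.finSuccEquiv K m (G k)).coeff j = 0 := by
    intro k j hj
    refine coeff_eq_zero_of_natDegree_lt ?_
    rw [MvPolynomial.natDegree_finSuccEquiv]
    have := ha1 k
    omega
  have hG' : ∀ P, Irreducible P → ¬ ∀ q, P ∣ G' q := by
    intro P hP h
    refine hB2 K m ι G hG P hP fun k j => ?_
    by_cases hj : j < a + 1
    · have := h (k, ⟨j, hj⟩)
      rw [hG'd] at this
      exact this
    · rw [hcz k j hj]
      exact dvd_zero _
  obtain ⟨ν1, C1, hν1, hν11, hC1, h1⟩ := ih (ι × Fin (a + 1)) G' hG' (κ / 4) (by positivity)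
    (by linarith)
  have hdeg : ∀ i : Fin m, (univ.sup fun k => (G k).degreeOf i.succ) ≤
      univ.sup fun q => (G' q).degreeOf i := by
    intro i
    refine Finset.sup_le fun k _ => ?_
    by_cases hk : G k = 0
    · rw [hk, MvPolynomial.degreeOf_zero]
      exact Nat.zero_le _
    · obtain ⟨j, hj, hj', -⟩ := hB3 K m (G k) i hk
      rw [← hj']
      have h2 : G' (k, ⟨j, Nat.lt_succ_of_le (hj.trans (ha1 k))⟩) =
        (MvPolynomial.finSuccEquiv K m (G k)).coeff j := by rw [hG'd]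
      rw [← h2]
      exact Finset.le_sup (f := fun q => (G' q).degreeOf i) (Finset.mem_univ _)
  obtain ⟨c, hc0, hcf, hc⟩ := um_fam hUM G'
  obtain ⟨ct, hct⟩ : ∃ ct : ℝ, ct = ∑ p ∈ hcf.toFinset, c p := ⟨_, rfl⟩
  have hct0 : 0 ≤ ct := by
    rw [hct]
    exact Finset.sum_nonneg fun p _ => hc0 p
  obtain ⟨D, hD⟩ : ∃ D : ℝ, D = ∑ k, ∑ i, ((G' k).degreeOf i : ℝ) := ⟨_, rfl⟩
  have hD0 : 0 ≤ D := by
    rw [hD]
    exact Finset.sum_nonneg fun k _ => Finset.sum_nonneg fun i _ => Nat.cast_nonneg _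
  obtain ⟨T1, hT1⟩ := int_fam hUM G'
  have hTA := fun k => int_poly hUM (A k)
  choose TA hTA using hTA
  have hTA' := fun k => int_poly hUM (A' k)
  choose TA' hTA' using hTA'
  obtain ⟨s, hs0, hs⟩ := small_sum hUM R
  obtain ⟨s', hs'0, hs'⟩ := small_sum hUM R'
  obtain ⟨T0, hT0⟩ : ∃ T0 : Finset (Pr K), T0 = T1 ∪ (univ.biUnion TA ∪ univ.biUnion TA') :=
    ⟨_, rfl⟩
  obtain ⟨t0, ht0⟩ : ∃ t0 : ℝ, t0 = ∑ v ∈ T0, Real.log (Nv v) := ⟨_, rfl⟩
  have ht00 : 0 ≤ t0 := by
    rw [ht0]
    exact Finset.sum_nonneg fun v _ => (log_Nv_pos v).le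
  obtain ⟨C0, hC0⟩ : ∃ C0 : ℝ, C0 = (1 + s + s' + t0) * (m + 1) := ⟨_, rfl⟩
  have hC00 : 0 ≤ C0 := by rw [hC0]; positivity
  obtain ⟨N, hN⟩ : ∃ N : ℝ, N = Fintype.card ι := ⟨_, rfl⟩
  have hN1 : 1 ≤ N := by
    rw [hN]
    exact_mod_cast Fintype.card_pos
  obtain ⟨ν2, C2, hν2, hν21, hC2, h2⟩ := cnt0 K a (κ := κ / (2 * N)) (by positivity) (by
    rw [div_le_one (by positivity)]
    linarith) (R := D * m + ct) (C0 := C0) (by positivity) hC00
  obtain ⟨K0, hK0⟩ : ∃ K0 : ℝ, K0 = Fintype.card ι * ((a + 1) * lossK K) := ⟨_, rfl⟩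
  have hK00 : 0 ≤ K0 := by
    rw [hK0]
    exact mul_nonneg (Nat.cast_nonneg _) (mul_nonneg (by positivity) (lossK_nonneg K))
  obtain ⟨C3, hC3, h3⟩ := hZM K m R hR
  obtain ⟨C3', hC3', h3'⟩ := hZM K m R' hR'
  obtain ⟨C4, hC4, h4⟩ := count_all K (δ := 1) one_pos
  obtain ⟨ν, C, hν, hνle, hC, hfin⟩ := fibM K m hν1 hν11 hν2 hν21
    (C1 := C3 + C3' + C1) (C2 := N * C2 + C4 * Real.exp (3 * (4 * K0 / κ))) (by positivity)
    (by positivity)
  refine ⟨ν, C, hν, hνle, hC, ?_⟩
  intro H hH S hS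
  refine hfin H hH (fun y => MvPolynomial.eval y R = 0 ∨ MvPolynomial.eval y R' = 0 ∨
    ((∃ q, MvPolynomial.eval y (G' q) ≠ 0) ∧ hT (fun q => MvPolynomial.eval y (G' q)) <
      ∑ i, ((univ.sup fun q => (G' q).degreeOf i : ℕ) : ℝ) * hr (aff (y i)) - κ / 4 * H))
    ?_ S (fun x hx => (hS x hx).1) ?_
  · -- the exceptional points of the base
    intro T hTT
    obtain ⟨Ta, hTa⟩ : ∃ Ta, Ta = T.filter fun y => MvPolynomial.eval y R = 0 := ⟨_, rfl⟩
    obtain ⟨Tb, hTb⟩ : ∃ Tb, Tb = T.filter fun y => MvPolynomial.eval y R' = 0 := ⟨_, rfl⟩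
    obtain ⟨Tc, hTc⟩ : ∃ Tc, Tc = T.filter fun y =>
      ((∃ q, MvPolynomial.eval y (G' q) ≠ 0) ∧ hT (fun q => MvPolynomial.eval y (G' q)) <
        ∑ i, ((univ.sup fun q => (G' q).degreeOf i : ℕ) : ℝ) * hr (aff (y i)) - κ / 4 * H) :=
      ⟨_, rfl⟩
    have g1 := h3 H hH Ta fun y hy => by
      rw [hTa] at hy
      exact ⟨(hTT y (Finset.mem_filter.1 hy).1).1, (Finset.mem_filter.1 hy).2⟩
    have g2 := h3' H hH Tb fun y hy => by
      rw [hTb] at hy
      exact ⟨(hTT y (Finset.mem_filter.1 hy).1).1, (Finset.mem_filter.1 hy).2⟩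
    have g3 := h1 H hH Tc fun y hy => by
      rw [hTc] at hy
      obtain ⟨e1, e2⟩ := Finset.mem_filter.1 hy
      exact ⟨(hTT y e1).1, e2⟩
    have hsub : T ⊆ Ta ∪ (Tb ∪ Tc) := by
      intro y hy
      rw [Finset.mem_union, Finset.mem_union, hTa, hTb, hTc, Finset.mem_filter,
        Finset.mem_filter, Finset.mem_filter]
      rcases (hTT y hy).2 with h | h | h
      · exact Or.inl ⟨hy, h⟩
      · exact Or.inr (Or.inl ⟨hy, h⟩)
      · exact Or.inr (Or.inr ⟨hy, h⟩)
    have g4 : (T.card : ℝ) ≤ Ta.card + (Tb.card + Tc.card) := by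
      exact_mod_cast (Finset.card_le_card hsub).trans ((Finset.card_union_le _ _).trans
        (Nat.add_le_add_left (Finset.card_union_le _ _) _))
    have g5 : Real.exp ((2 * m - 1) * H) ≤ Real.exp ((2 * m - ν1) * H) :=
      Real.exp_le_exp.2 (mul_le_mul_of_nonneg_right (by linarith) hH)
    have g6 := mul_le_mul_of_nonneg_left g5 hC3.le
    have g7 := mul_le_mul_of_nonneg_left g5 hC3'.le
    rw [add_mul, add_mul]
    linarith
  · -- the other points
    intro y hyH hyP S' hS'
    push Not at hyP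
    obtain ⟨hyR, hyR', hyG⟩ := hyP
    obtain ⟨E, hE⟩ : ∃ E : ℝ, E = Real.exp ((2 - ν2) * H) := ⟨_, rfl⟩
    rw [← hE]
    have hE1 : 1 ≤ E := by
      rw [hE]
      exact Real.one_le_exp (mul_nonneg (by linarith) hH)
    by_cases hcase : H ≤ 4 * K0 / κ
    · have g1 := h4 H hH S' fun z hz => by
        have := (hS _ (hS' z hz)).1 0
        rwa [Fin.cons_zero] at this
      have g2 : Real.exp ((2 + 1) * H) ≤ Real.exp (3 * (4 * K0 / κ)) := by
        refine Real.exp_le_exp.2 ?_
        linarith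
      have g3 := mul_le_mul_of_nonneg_left g2 hC4.le
      have g4 : 0 ≤ C4 * Real.exp (3 * (4 * K0 / κ)) := by positivity
      have g5 := (g1.trans g3).trans (le_mul_of_one_le_right g4 hE1)
      rw [add_mul]
      exact g5.trans (le_add_of_nonneg_left (by positivity))
    rw [not_le, div_lt_iff₀ hκ0] at hcase
    -- the fibre
    let f : ι → K[X] := fun k => fibm (G k) y
    have hfd : ∀ k, (f k).natDegree ≤ a := fun k => (natDegree_fibm (G k) y).trans (ha1 k)
    have hfe : ∀ k z, (f k).eval z =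
        MvPolynomial.eval (Fin.cons z y : Fin (m + 1) → K) (G k) := fun k z => eval_fibm (G k) y z
    have hcoef : ∀ k j, (f k).coeff j =
        MvPolynomial.eval y ((MvPolynomial.finSuccEquiv K m (G k)).coeff j) := by
      intro k j
      show ((MvPolynomial.finSuccEquiv K m (G k)).map (MvPolynomial.eval y)).coeff j = _
      rw [coeff_map]
    have hcf' : cf a f = fun q => MvPolynomial.eval y (G' q) := by
      funext q
      show (f q.1).coeff q.2 = _
      rw [hcoef, hG'd]
    obtain ⟨B, hB⟩ : ∃ B : Finset (Pr K), B = den y ∪ (T0 ∪ (sm (MvPolynomial.eval y R) ∪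
      sm (MvPolynomial.eval y R'))) := ⟨_, rfl⟩
    have hBn : ∀ v ∉ B, (∀ i, fv v (y i) ≤ 1) ∧ v ∉ T1 ∧ (∀ k, v ∉ TA k) ∧ (∀ k, v ∉ TA' k) ∧
        1 ≤ fv v (MvPolynomial.eval y R) ∧ 1 ≤ fv v (MvPolynomial.eval y R') := by
      intro v hv
      rw [hB, hT0] at hv
      simp only [Finset.mem_union, not_or, Finset.mem_biUnion, Finset.mem_univ, true_and,
        not_exists] at hv
      obtain ⟨e1, ⟨e2, e3, e4⟩, e5, e6⟩ := hv
      rw [mem_sm hyR, not_lt] at e5
      rw [mem_sm hyR', not_lt] at e6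
      exact ⟨fun i => mem_den e1 i, e2, e3, e4, e5, e6⟩
    have hsumh : ∑ i, hr (aff (y i)) ≤ m * H := by
      refine (Finset.sum_le_sum fun i _ => hyH i).trans ?_
      rw [Finset.sum_const, Finset.card_univ, Fintype.card_fin, nsmul_eq_mul]
    have hsumh0 : 0 ≤ ∑ i, hr (aff (y i)) := Finset.sum_nonneg fun i _ => hr_aff_nonneg _
    have hun : ∀ U V : Finset (Pr K), ∑ v ∈ U ∪ V, Real.log (Nv v) ≤
        ∑ v ∈ U, Real.log (Nv v) + ∑ v ∈ V, Real.log (Nv v) := by
      intro U V
      rw [← Finset.sum_union_inter]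
      have : 0 ≤ ∑ v ∈ U ∩ V, Real.log (Nv v) := Finset.sum_nonneg fun v _ => (log_Nv_pos v).le
      linarith
    have hBs : ∑ v ∈ B, Real.log (Nv v) ≤ C0 * (1 + H) := by
      rw [hB]
      have e1 := hun (den y) (T0 ∪ (sm (MvPolynomial.eval y R) ∪ sm (MvPolynomial.eval y R')))
      have e2 := hun T0 (sm (MvPolynomial.eval y R) ∪ sm (MvPolynomial.eval y R'))
      have e3 := hun (sm (MvPolynomial.eval y R)) (sm (MvPolynomial.eval y R'))
      have e4 := sum_den y
      have e5 := hs y hyR (sm (MvPolynomial.eval y R)) fun v hv => (mem_sm hyR).1 hv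
      have e6 := hs' y hyR' (sm (MvPolynomial.eval y R')) fun v hv => (mem_sm hyR').1 hv
      have e7 : 1 + ∑ i, hr (aff (y i)) ≤ (m + 1) * (1 + H) := by
        have : (0 : ℝ) ≤ m := Nat.cast_nonneg _
        nlinarith
      have e8 := mul_le_mul_of_nonneg_left e7 hs0
      have e9 := mul_le_mul_of_nonneg_left e7 hs'0
      have e10 : t0 ≤ t0 * ((m + 1) * (1 + H)) := by
        refine le_mul_of_one_le_right ht00 ?_
        linarith
      rw [← ht0] at e2
      rw [hC0]
      linarith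
    have hB1' : ∀ v ∉ B, lm (Sum.inr v) (cf a f) ≤ 0 := by
      intro v hv
      obtain ⟨e1, e2, -⟩ := hBn v hv
      by_cases h : ∃ q, cf a f q ≠ 0
      · obtain ⟨q, hq, hq'⟩ := exists_nm (Sum.inr v) h
        rw [← hq', hcf']
        exact Real.log_nonpos ((fv v).nonneg _) (hT1 v e2 y e1 q)
      · push Not at h
        have e3 : gT (fv v) (cf a f) = 0 := by
          unfold gT
          simp only [h, map_zero]
          exact ciSup_const
        show Real.log (gT (fv v) (cf a f)) ≤ 0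
        rw [e3, Real.log_zero]
    have hB2' : ∀ z : K, ∀ v ∉ B,
        a * mx (Sum.inr v) z ≤ lm (Sum.inr v) (fun k => (f k).eval z) := by
      intro z v hv
      obtain ⟨e1, -, e2, e3, e4, e5⟩ := hBn v hv
      obtain ⟨M, hM⟩ : ∃ M : ℝ, M = gT (fv v) (fun k => (f k).eval z) := ⟨_, rfl⟩
      have hM0 : 0 ≤ M := by
        obtain ⟨k⟩ := hnon
        rw [hM]
        exact ((fv v).nonneg _).trans (le_gT (fv v) (fun k => (f k).eval z) k)
      have hMk : ∀ k, fv v ((f k).eval z) ≤ M := fun k => by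
        rw [hM]
        exact le_gT (fv v) (fun k => (f k).eval z) k
      show a * mx (Sum.inr v) z ≤ Real.log (gT (fv v) (fun k => (f k).eval z))
      rw [← hM]
      rcases le_or_gt (fv v z) 1 with hz | hz
      · rw [mx_of_le hz, mul_zero]
        refine Real.log_nonneg ?_
        have e6 : MvPolynomial.eval y R = ∑ k, ((A k).map (MvPolynomial.eval y)).eval z *
            (f k).eval z := by
          have e7 := congrArg (fun P => (P.map (MvPolynomial.eval y)).eval z) hA
          simp only [Polynomial.map_sum, Polynomial.map_mul, eval_finsetSum, eval_mul, map_C,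
            eval_C] at e7
          exact e7.symm
        have e8 := qm_sum (qm_na v) univ (fun k => ((A k).map (MvPolynomial.eval y)).eval z *
            (f k).eval z) hM0 (fun k _ => by
          rw [(fv v).map_mul]
          have e9 := hTA k v (e2 k) y e1 z hz
          have e10 := hMk k
          calc fv v (((A k).map (MvPolynomial.eval y)).eval z) * fv v ((f k).eval z) ≤ 1 * M :=
                mul_le_mul e9 e10 ((fv v).nonneg _) zero_le_one
            _ = M := one_mul M)
        rw [← e6, one_pow, one_mul] at e8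
        exact e4.trans e8
      · have hz0 : z ≠ 0 := by
          rintro rfl
          rw [map_zero] at hz
          linarith
        have hzi : fv v z⁻¹ ≤ 1 := by
          rw [map_inv₀]
          exact inv_le_one_of_one_le₀ hz.le
        have hrefl : ∀ k, (reflect a (f k)).eval z⁻¹ * z ^ a = (f k).eval z := by
          intro k
          let _ : Invertible z := invertibleOfNonzero hz0
          have h4 := eval₂_reflect_mul_pow (RingHom.id K) z a (f k) (hfd k)
          rw [invOf_eq_inv] at h4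
          exact h4
        have e6 : MvPolynomial.eval y R' = ∑ k, ((A' k).map (MvPolynomial.eval y)).eval z⁻¹ *
            (reflect a (f k)).eval z⁻¹ := by
          have e7 := congrArg (fun P => (P.map (MvPolynomial.eval y)).eval z⁻¹) hA'
          simp only [Polynomial.map_sum, Polynomial.map_mul, eval_finsetSum, eval_mul, map_C,
            eval_C] at e7
          rw [← e7]
          refine Finset.sum_congr rfl fun k _ => ?_
          congr 2
          exact (reflect_map _ _ _).symm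
        have e7 : MvPolynomial.eval y R' * z ^ a =
            ∑ k, ((A' k).map (MvPolynomial.eval y)).eval z⁻¹ * (f k).eval z := by
          rw [e6, Finset.sum_mul]
          refine Finset.sum_congr rfl fun k _ => ?_
          rw [mul_assoc, hrefl]
        have e8 := qm_sum (qm_na v) univ (fun k => ((A' k).map (MvPolynomial.eval y)).eval z⁻¹ *
            (f k).eval z) hM0 (fun k _ => by
          rw [(fv v).map_mul]
          have e9 := hTA' k v (e3 k) y e1 z⁻¹ hzi
          have e10 := hMk k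
          calc fv v (((A' k).map (MvPolynomial.eval y)).eval z⁻¹) * fv v ((f k).eval z) ≤ 1 * M :=
                mul_le_mul e9 e10 ((fv v).nonneg _) zero_le_one
            _ = M := one_mul M)
        rw [← e7, one_pow, one_mul, (fv v).map_mul, (fv v).map_pow] at e8
        have e9 : fv v z ^ a ≤ M := by
          refine le_trans ?_ e8
          have e10 : 0 ≤ fv v z ^ a := pow_nonneg ((fv v).nonneg _) _
          nlinarith
        have e10 := Real.log_le_log (pow_pos (zero_lt_one.trans hz) a) e9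
        rw [Real.log_pow] at e10
        have e11 : mx (Sum.inr v) z = Real.log (fv v z) := by
          show Real.log (max (fv v z) 1) = _
          rw [max_eq_left hz.le]
        rw [e11]
        exact e10
    -- the points of the fibre
    have hht : ∀ k, f k ≠ 0 → ht (f k) ≤ (D * m + ct) * (1 + H) := by
      intro k hk
      have e1 := ht_le hc0 hcf hc (y := y) hk (fun j hj =>
        ⟨(k, ⟨j, Nat.lt_succ_of_le (hj.trans (hfd k))⟩), by rw [hcoef, hG'd]⟩)
      rw [← hD, ← hct] at e1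
      refine e1.trans ?_
      have e2 := mul_le_mul_of_nonneg_left hsumh hD0
      have e3 : (0 : ℝ) ≤ m := Nat.cast_nonneg _
      have e4 : 0 ≤ D * m := by positivity
      have e5 : 0 ≤ ct * H := by positivity
      nlinarith
    have hz' : ∀ z ∈ S', ∃ k, f k ≠ 0 ∧ ((f k).eval z = 0 ∨ κ / (2 * N) * H ≤
        ∑ w : InfinitePlace K, mv (Sum.inl w) a (f k) z + ∑ v ∈ B, mv (Sum.inr v) a (f k) z) := by
      intro z hz
      by_contra hcon
      push Not at hcon
      obtain ⟨hzH, hzk, hzT⟩ := hS _ (hS' z hz)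
      have hex : ∃ k, f k ≠ 0 := by
        obtain ⟨k, hk⟩ := hzk
        refine ⟨k, fun h => hk ?_⟩
        rw [← hfe, h, eval_zero]
      have e1 := hT_ge hfd hex (z := z) (fun k hk => (hcon k hk).1) B hB1' (hB2' z)
      have e2 : ∑ k ∈ univ.filter (fun k => f k ≠ 0),
          (∑ w : InfinitePlace K, mv (Sum.inl w) a (f k) z +
            ∑ v ∈ B, mv (Sum.inr v) a (f k) z) ≤ κ / 2 * H := by
        have e3 : ∑ k ∈ univ.filter (fun k => f k ≠ 0),
          (∑ w : InfinitePlace K, mv (Sum.inl w) a (f k) z +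
            ∑ v ∈ B, mv (Sum.inr v) a (f k) z) ≤
            ∑ _k ∈ univ.filter (fun k => f k ≠ 0), κ / (2 * N) * H :=
          Finset.sum_le_sum fun k hk => (hcon k (Finset.mem_filter.1 hk).2).2.le
        refine e3.trans ?_
        rw [Finset.sum_const, nsmul_eq_mul]
        have e4 : ((univ.filter (fun k => f k ≠ 0)).card : ℝ) ≤ N := by
          rw [hN]
          exact_mod_cast (Finset.card_filter_le _ _).trans (le_of_eq Finset.card_univ)
        have e5 := mul_le_mul_of_nonneg_right e4 (show 0 ≤ κ / (2 * N) * H by positivity)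
        refine e5.trans (le_of_eq ?_)
        field_simp
      have hq : ∃ q, MvPolynomial.eval y (G' q) ≠ 0 := by
        obtain ⟨q, hq⟩ := cf_ne hfd hex
        rw [hcf'] at hq
        exact ⟨q, hq⟩
      have e3 := hyG hq
      rw [← hcf'] at e3
      have e4 : ∑ i : Fin m, ((univ.sup fun k => (G k).degreeOf i.succ : ℕ) : ℝ) *
          hr (aff (y i)) ≤ ∑ i, ((univ.sup fun q => (G' q).degreeOf i : ℕ) : ℝ) *
            hr (aff (y i)) := by
        refine Finset.sum_le_sum fun i _ => mul_le_mul_of_nonneg_right ?_ (hr_aff_nonneg _)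
        exact_mod_cast hdeg i
      rw [Fin.sum_univ_succ] at hzT
      simp only [Fin.cons_zero, Fin.cons_succ] at hzT
      rw [← ha] at hzT
      have e5 : (fun k => (f k).eval z) = fun k =>
          MvPolynomial.eval (Fin.cons z y : Fin (m + 1) → K) (G k) := funext fun k => hfe k z
      rw [← e5] at hzT
      rw [← hK0] at e1
      linarith
    -- the count
    have hsub : S' ⊆ univ.biUnion fun k => S'.filter fun z => f k ≠ 0 ∧ ((f k).eval z = 0 ∨
        κ / (2 * N) * H ≤ ∑ w : InfinitePlace K, mv (Sum.inl w) a (f k) z +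
          ∑ v ∈ B, mv (Sum.inr v) a (f k) z) := by
      intro z hz
      obtain ⟨k, hk⟩ := hz' z hz
      exact Finset.mem_biUnion.2 ⟨k, Finset.mem_univ _, Finset.mem_filter.2 ⟨hz, hk⟩⟩
    have e1 : (S'.card : ℝ) ≤ ∑ k, ((S'.filter fun z => f k ≠ 0 ∧ ((f k).eval z = 0 ∨
        κ / (2 * N) * H ≤ ∑ w : InfinitePlace K, mv (Sum.inl w) a (f k) z +
          ∑ v ∈ B, mv (Sum.inr v) a (f k) z)).card : ℝ) := by
      exact_mod_cast (Finset.card_le_card hsub).trans Finset.card_biUnion_le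
    have e2 : ∀ k ∈ (univ : Finset ι), ((S'.filter fun z => f k ≠ 0 ∧ ((f k).eval z = 0 ∨
        κ / (2 * N) * H ≤ ∑ w : InfinitePlace K, mv (Sum.inl w) a (f k) z +
          ∑ v ∈ B, mv (Sum.inr v) a (f k) z)).card : ℝ) ≤ C2 * E := by
      intro k _
      by_cases hk : f k = 0
      · have e3 : (S'.filter fun z => f k ≠ 0 ∧ ((f k).eval z = 0 ∨
            κ / (2 * N) * H ≤ ∑ w : InfinitePlace K, mv (Sum.inl w) a (f k) z +
            ∑ v ∈ B, mv (Sum.inr v) a (f k) z)) = ∅ := by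
          rw [Finset.filter_eq_empty_iff]
          rintro z - ⟨h, -⟩
          exact h hk
        rw [e3, Finset.card_empty, Nat.cast_zero]
        positivity
      · rw [hE]
        refine h2 H hH (f k) hk (hfd k) (hht k hk) B hBs _ fun z hz => ?_
        obtain ⟨hz1, hz2⟩ := Finset.mem_filter.1 hz
        have := (hS _ (hS' z hz1)).1 0
        rw [Fin.cons_zero] at this
        exact ⟨this, hz2.2⟩
    have e3 := e1.trans (Finset.sum_le_sum e2)
    rw [Finset.sum_const, Finset.card_univ, nsmul_eq_mul, ← hN, ← mul_assoc] at e3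
    rw [add_mul]
    exact e3.trans (le_add_of_nonneg_right (by positivity))

theorem fam_all (hUM : StmUM) (hZM : StmZM) (hB1 : StmB1) (hB2 : StmB2) (hB3 : StmB3) (m : ℕ) :
    FamC K m := by
  induction m with
  | zero => exact fam_zero
  | succ m ih => exact fam_step hUM hZM hB1 hB2 hB3 m ih

end Pool.Agent.N753.SU
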