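import Mathlib
import Pool.Agent.N753.SU.NL2
import Pool.Agent.N753.SU.Fam3
import Pool.Agent.N753.SU.StmM

/-!
# Hypersurfaces in a product of lines: the number of the exceptional points
-/

set_option autoImplicit false
set_option linter.unusedSectionVars false

namespace Pool.Agent.N753.SU

open NumberField IsDedekindDomain Finset Pool.Agent.H691R3
open Pool.Agent.TH876.Loc hiding mx
open Pool.Agent.N753.LS Pool.Agent.N753.SF Polynomial

variable {K : Type} [Field K] [NumberField K]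

/-! ### Heights of polynomials in one variable -/

theorem gn_lm (p : Pl K) {f : K[X]} (hf : f ≠ 0) {a : ℕ} (ha : f.natDegree ≤ a) :
    gn p f = lm p (fun j : Fin (a + 1) => f.coeff j) := by
  refine le_antisymm ?_ ?_
  · obtain ⟨j, hj, hj', h1⟩ := gn_eq p hf
    rw [h1]
    exact nm_le_lm p (z := fun j : Fin (a + 1) => f.coeff j)
      (k := ⟨j, Nat.lt_succ_of_le (hj.trans ha)⟩) hj'
  · obtain ⟨k, hk, hk'⟩ := exists_nm p (z := fun j : Fin (a + 1) => f.coeff j)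
      ⟨⟨f.natDegree, Nat.lt_succ_of_le ha⟩, leadingCoeff_ne_zero.2 hf⟩
    rw [← hk']
    exact nm_le_gn p hk

theorem ht_hT {f : K[X]} (hf : f ≠ 0) {a : ℕ} (ha : f.natDegree ≤ a) :
    ht f = hT (fun j : Fin (a + 1) => f.coeff j) := by
  unfold ht hT
  simp only [gn_lm _ hf ha]

theorem ht_C_mul {u : K} (hu : u ≠ 0) {g : K[X]} (hg : g ≠ 0) : ht (C u * g) = ht g := by
  classical
  have hug : C u * g ≠ 0 := mul_ne_zero (fun h => hu (C_eq_zero.1 h)) hg
  obtain ⟨T, hT'⟩ : ∃ T : Finset (Pr K), T = (gn_fin hg).toFinset ∪ ((gn_fin hug).toFinset ∪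
    (nm_fin hu).toFinset) := ⟨_, rfl⟩
  have hTn : ∀ v ∉ T, gn (Sum.inr v) g = 0 ∧ gn (Sum.inr v) (C u * g) = 0 ∧
      nm (Sum.inr v) u = 0 := by
    intro v hv
    rw [hT'] at hv
    simp only [Finset.mem_union, not_or, Set.Finite.mem_toFinset,
      Set.mem_ofPred_eq, not_not] at hv
    exact hv
  rw [ht_eq T fun v hv => (hTn v hv).1, ht_eq T fun v hv => (hTn v hv).2.1]
  have h1 := sum_nm hu T fun v hv => (hTn v hv).2.2
  simp only [gn_C_mul _ hu hg]
  rw [Finset.sum_add_distrib, Finset.sum_add_distrib]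
  linarith

/-- the sum of the local upper bounds -/
theorem sumU_le {m : ℕ} {d : Fin m → ℝ} (hd : ∀ i, 0 ≤ d i) {c : Pl K → ℝ}
    (hc0 : ∀ p, 0 ≤ c p) (hcf : {p | c p ≠ 0}.Finite) (y : Fin m → K) (T : Finset (Pr K)) :
    ∑ w : InfinitePlace K, (∑ i, d i * mx (Sum.inl w) (y i) + c (Sum.inl w)) +
      ∑ v ∈ T, (∑ i, d i * mx (Sum.inr v) (y i) + c (Sum.inr v)) ≤
        ∑ i, d i * hr (aff (y i)) + ∑ p ∈ hcf.toFinset, c p := by
  classical
  rw [Finset.sum_add_distrib, Finset.sum_add_distrib]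
  have h3 : ∑ w : InfinitePlace K, c (Sum.inl w) + ∑ v ∈ T, c (Sum.inr v) ≤
      ∑ p ∈ hcf.toFinset, c p := by
    rw [← Finset.sum_disjSum (s := Finset.univ) (t := T) (f := c)]
    have e1 : ∑ p ∈ Finset.disjSum Finset.univ T, c p ≤
        ∑ p ∈ Finset.disjSum Finset.univ T ∪ hcf.toFinset, c p :=
      Finset.sum_le_sum_of_subset_of_nonneg Finset.subset_union_left fun p _ _ => hc0 p
    refine e1.trans (le_of_eq ?_)
    symm
    refine Finset.sum_subset Finset.subset_union_right ?_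
    intro p _ hp
    rw [Set.Finite.mem_toFinset] at hp
    by_contra hcon
    exact hp hcon
  have h4 : ∑ w : InfinitePlace K, ∑ i, d i * mx (Sum.inl w) (y i) +
      ∑ v ∈ T, ∑ i, d i * mx (Sum.inr v) (y i) ≤ ∑ i, d i * hr (aff (y i)) := by
    rw [Finset.sum_comm, Finset.sum_comm (s := T), ← Finset.sum_add_distrib]
    refine Finset.sum_le_sum fun i _ => ?_
    rw [← Finset.mul_sum, ← Finset.mul_sum, ← mul_add]
    exact mul_le_mul_of_nonneg_left (sum_mx_le (y i) T) (hd i)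
  linarith

theorem ht_le2 {m : ℕ} {d : Fin m → ℝ} (hd : ∀ i, 0 ≤ d i) {c : Pl K → ℝ}
    (hc0 : ∀ p, 0 ≤ c p) (hcf : {p | c p ≠ 0}.Finite) {y : Fin m → K} {f : K[X]} (hf : f ≠ 0)
    (hfp : ∀ p : Pl K, gn p f ≤ ∑ i, d i * mx p (y i) + c p) :
    ht f ≤ ∑ i, d i * hr (aff (y i)) + ∑ p ∈ hcf.toFinset, c p := by
  classical
  obtain ⟨T, hT⟩ : ∃ T : Finset (Pr K), T = (gn_fin hf).toFinset := ⟨_, rfl⟩
  rw [ht_eq T (fun v hv => by
    rw [hT, Set.Finite.mem_toFinset, Set.mem_ofPred_eq, not_not] at hv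
    exact hv)]
  refine le_trans (add_le_add ?_ ?_) (sumU_le hd hc0 hcf y T)
  · exact Finset.sum_le_sum fun w _ => hfp (Sum.inl w)
  · exact Finset.sum_le_sum fun v _ => hfp (Sum.inr v)

/-- the primes which divide all the coefficients -/
theorem def_sum {m : ℕ} {d : Fin m → ℝ} (hd : ∀ i, 0 ≤ d i) {c : Pl K → ℝ}
    (hc0 : ∀ p, 0 ≤ c p) (hcf : {p | c p ≠ 0}.Finite) {y : Fin m → K} {f : K[X]} (hf : f ≠ 0)
    (hfp : ∀ p : Pl K, gn p f ≤ ∑ i, d i * mx p (y i) + c p) (T : Finset (Pr K)) :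
    ∑ v ∈ T, (-gn (Sum.inr v) f) ≤
      ∑ i, d i * hr (aff (y i)) + ∑ p ∈ hcf.toFinset, c p - ht f := by
  classical
  obtain ⟨U, hU⟩ : ∃ U : Finset (Pr K), U = T ∪ (gn_fin hf).toFinset := ⟨_, rfl⟩
  have hTU : T ⊆ U := by rw [hU]; exact Finset.subset_union_left
  rw [ht_eq U (fun v hv => by
    rw [hU, Finset.mem_union, not_or, Set.Finite.mem_toFinset, Set.mem_ofPred_eq, not_not] at hv
    exact hv.2), ← Finset.sum_sdiff hTU, Finset.sum_neg_distrib]
  have h1 : ∑ w : InfinitePlace K, gn (Sum.inl w) f + ∑ v ∈ U \ T, gn (Sum.inr v) f ≤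
      ∑ i, d i * hr (aff (y i)) + ∑ p ∈ hcf.toFinset, c p := by
    refine le_trans (add_le_add ?_ ?_) (sumU_le hd hc0 hcf y (U \ T))
    · exact Finset.sum_le_sum fun w _ => hfp (Sum.inl w)
    · exact Finset.sum_le_sum fun v _ => hfp (Sum.inr v)
  linarith

/-- the local bounds for the fibres -/
theorem fib_up (hUM : StmUM) {m : ℕ} (F : MvPolynomial (Fin (m + 1)) K) :
    ∃ c : Pl K → ℝ, (∀ p, 0 ≤ c p) ∧ {p | c p ≠ 0}.Finite ∧ ∀ y : Fin m → K, fibm F y ≠ 0 →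
      ∀ p : Pl K, gn p (fibm F y) ≤ ∑ i, (F.degreeOf (Fin.succ i) : ℝ) * mx p (y i) + c p := by
  obtain ⟨c, hc0, hcf, hc⟩ := um_fam hUM (fun j : Fin (F.degreeOf 0 + 1) =>
    (MvPolynomial.finSuccEquiv K m F).coeff j)
  refine ⟨c, hc0, hcf, ?_⟩
  intro y hy p
  obtain ⟨j, hj, hj', h1⟩ := gn_eq p hy
  have h2 : (fibm F y).coeff j =
      MvPolynomial.eval y ((MvPolynomial.finSuccEquiv K m F).coeff j) := by
    unfold fibm
    rw [coeff_map]
  have hjd : j < F.degreeOf 0 + 1 := Nat.lt_succ_of_le (hj.trans (natDegree_fibm F y))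
  have h3 := hc y ⟨j, hjd⟩ (by
    show MvPolynomial.eval y ((MvPolynomial.finSuccEquiv K m F).coeff j) ≠ 0
    rw [← h2]
    exact hj') p
  rw [h1, h2]
  refine h3.trans (add_le_add ?_ le_rfl)
  refine Finset.sum_le_sum fun i _ => mul_le_mul_of_nonneg_right ?_ (mx_nonneg _ _)
  exact_mod_cast MvPolynomial.degreeOf_coeff_finSuccEquiv F i j

/-- **almost all fibres have the expected height** -/
theorem stmLM (hUM : StmUM) (hZM : StmZM) (hB1 : StmB1) (hB2 : StmB2) (hB3 : StmB3) : StmLM := by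
  intro K _ _ m F hF he κ hκ0 hκ1
  obtain ⟨ν, C, hν, hν1, hC, h⟩ := fam_all (K := K) hUM hZM hB1 hB2 hB3 m
    (Fin (F.degreeOf 0 + 1)) (fun j => (MvPolynomial.finSuccEquiv K m F).coeff j) (by
    intro P hP hall
    have h1 : Polynomial.C P ∣ MvPolynomial.finSuccEquiv K m F := by
      rw [C_dvd_iff_dvd_coeff]
      intro j
      by_cases hj : j < F.degreeOf 0 + 1
      · exact hall ⟨j, hj⟩
      · rw [coeff_eq_zero_of_natDegree_lt (by
          rw [MvPolynomial.natDegree_finSuccEquiv]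
          omega)]
        exact dvd_zero _
    have h2 : Irreducible (MvPolynomial.finSuccEquiv K m F) :=
      (MulEquiv.irreducible_iff (MvPolynomial.finSuccEquiv K m)).2 hF
    obtain ⟨Q, hQ⟩ := h1
    rcases h2.isUnit_or_isUnit hQ with h3 | h3
    · exact hP.not_isUnit (isUnit_C.1 h3)
    · have h4 := MvPolynomial.natDegree_finSuccEquiv F
      rw [hQ] at h4
      have h5 := natDegree_mul_le (p := Polynomial.C P) (q := Q)
      rw [natDegree_C, natDegree_eq_zero_of_isUnit h3] at h5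
      omega) κ hκ0 hκ1
  refine ⟨ν, C, hν, hC, ?_⟩
  intro H hH S hS
  refine h H hH S fun y hy => ?_
  obtain ⟨h1, h2, h3⟩ := hS y hy
  have h4 : (fun j : Fin (F.degreeOf 0 + 1) => (fibm F y).coeff j) =
      fun j : Fin (F.degreeOf 0 + 1) =>
      MvPolynomial.eval y ((MvPolynomial.finSuccEquiv K m F).coeff j) := by
    funext j
    unfold fibm
    rw [coeff_map]
  rw [ht_hT h2 (natDegree_fibm F y), h4] at h3
  refine ⟨h1, ?_, h3.trans_le (sub_le_sub_right ?_ _)⟩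
  · by_contra hcon
    push Not at hcon
    refine h2 (Polynomial.ext fun j => ?_)
    rw [coeff_zero]
    by_cases hj : j < F.degreeOf 0 + 1
    · have h5 := congrFun h4 ⟨j, hj⟩
      simp only at h5
      rw [h5]
      exact hcon ⟨j, hj⟩
    · exact coeff_eq_zero_of_natDegree_lt ((natDegree_fibm F y).trans_lt (by omega))
  · refine Finset.sum_le_sum fun i _ => mul_le_mul_of_nonneg_right ?_ (hr_aff_nonneg _)
    have hF0 : F ≠ 0 := hF.ne_zero
    obtain ⟨j, hj, hj', -⟩ := hB3 K m F i hF0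
    rw [← hj']
    exact_mod_cast Finset.le_sup (f := fun j : Fin (F.degreeOf 0 + 1) =>
      ((MvPolynomial.finSuccEquiv K m F).coeff j).degreeOf i)
      (Finset.mem_univ (⟨j, Nat.lt_succ_of_le hj⟩ : Fin (F.degreeOf 0 + 1)))

open Classical in
/-- the primes at which the point is integral and meets the hypersurface -/
noncomputable def ddm {m : ℕ} (F : MvPolynomial (Fin m) K) (x : Fin m → K) : Finset (Pr K) :=
  if h : {v : Pr K | (∀ i, fv v (x i) ≤ 1) ∧ fv v (MvPolynomial.eval x F) < 1}.Finite then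
    h.toFinset else ∅

theorem mem_ddm {m : ℕ} {F : MvPolynomial (Fin m) K} {x : Fin m → K}
    (hx : MvPolynomial.eval x F ≠ 0) {v : Pr K} :
    v ∈ ddm F x ↔ (∀ i, fv v (x i) ≤ 1) ∧ fv v (MvPolynomial.eval x F) < 1 := by
  have h : {v : Pr K | (∀ i, fv v (x i) ≤ 1) ∧ fv v (MvPolynomial.eval x F) < 1}.Finite := by
    refine (fv_support_finite hx).subset ?_
    rintro v ⟨-, h2⟩
    exact h2.ne
  unfold ddm
  rw [dif_pos h, Set.Finite.mem_toFinset]
  rfl

theorem sumh_le {m : ℕ} {y : Fin m → K} {H : ℝ} (hy : ∀ i, hr (aff (y i)) ≤ H) :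
    ∑ i, hr (aff (y i)) ≤ m * H := by
  refine (Finset.sum_le_sum fun i _ => hy i).trans ?_
  rw [Finset.sum_const, Finset.card_univ, Fintype.card_fin, nsmul_eq_mul]

open Classical in
/-- **Proposition A** -/
theorem propAM (hRM : StmRM) (hUM : StmUM) (hZM : StmZM) (hLM : StmLM) (hOD : StmOD) {m : ℕ}
    (F : MvPolynomial (Fin (m + 1)) K) (hF : Irreducible F) (he : 1 ≤ F.degreeOf 0)
    (hE : ∑ i, F.degreeOf i ≤ 5) {κ : ℝ} (hκ0 : 0 < κ) (hκ1 : κ ≤ 1) :
    ∃ ν C : ℝ, 0 < ν ∧ ν ≤ 1 ∧ 0 < C ∧ ∀ H : ℝ, 0 ≤ H → ∀ S : Finset (Fin (m + 1) → K),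
      (∀ x ∈ S, (∀ i, hr (aff (x i)) ≤ H) ∧ MvPolynomial.eval x F ≠ 0 ∧
        ∑ v ∈ ddm F x, Real.log (Nv v) <
          ∑ i, (F.degreeOf i : ℝ) * hr (aff (x i)) - κ * H) →
      (S.card : ℝ) ≤ C * Real.exp ((2 * (m + 1 : ℕ) - ν) * H) := by
  obtain ⟨n, CF, hn, hCF, hRF⟩ := hRM K m F hF he
  obtain ⟨c, hc0, hcf, hc⟩ := fib_up hUM F
  obtain ⟨ν1', C1', hν1', hC1', h1⟩ := hLM K m F hF he (κ / 4) (by positivity) (by linarith)
  obtain ⟨C3, hC3, h3⟩ := hZM K m n hn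
  obtain ⟨e, he'⟩ : ∃ e : ℕ, e = F.degreeOf 0 := ⟨_, rfl⟩
  rw [← he'] at he hRF
  have he0 : (0 : ℝ) < e := by exact_mod_cast he
  have he1 : (1 : ℝ) ≤ e := by exact_mod_cast he
  have hm0 : (0 : ℝ) ≤ m := Nat.cast_nonneg _
  obtain ⟨ct, hct⟩ : ∃ ct : ℝ, ct = ∑ p ∈ hcf.toFinset, c p := ⟨_, rfl⟩
  have hct0 : 0 ≤ ct := by
    rw [hct]
    exact Finset.sum_nonneg fun p _ => hc0 p
  obtain ⟨d, hd⟩ : ∃ d : Fin m → ℝ, d = fun i => (F.degreeOf (Fin.succ i) : ℝ) := ⟨_, rfl⟩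
  have hd0 : ∀ i, 0 ≤ d i := fun i => by rw [hd]; exact Nat.cast_nonneg _
  have hdi : ∀ i, (F.degreeOf (Fin.succ i) : ℝ) = d i := fun i => by rw [hd]
  simp only [hdi] at hc h1
  have hE' : ∑ i, d i + e ≤ 5 := by
    rw [Fin.sum_univ_succ, ← he'] at hE
    have h2 : ((∑ i : Fin m, F.degreeOf i.succ : ℕ) : ℝ) = ∑ i, d i := by
      rw [hd]
      push_cast
      rfl
    rw [← h2]
    exact_mod_cast (by omega : ∑ i : Fin m, F.degreeOf i.succ + e ≤ 5)
  obtain ⟨ν0, hν0⟩ : ∃ ν0 : ℝ, ν0 = κ / 2 / (128 * e) := ⟨_, rfl⟩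
  have hν00 : 0 < ν0 := by rw [hν0]; positivity
  have hν01 : ν0 ≤ 1 := by
    rw [hν0, div_le_one (by positivity)]
    linarith
  obtain ⟨CM, hCM⟩ : ∃ CM : ℝ, CM = CF * (m + 1) := ⟨_, rfl⟩
  have hCM0 : 0 ≤ CM := by rw [hCM]; positivity
  obtain ⟨δ, hδ⟩ : ∃ δ : ℝ, δ = min (1 / 64) (ν0 / (2 * (CM + 1))) := ⟨_, rfl⟩
  have hδ0 : 0 < δ := by rw [hδ]; exact lt_min (by norm_num) (by positivity)
  have hδ1 : δ ≤ 1 / 64 := by rw [hδ]; exact min_le_left _ _
  have hδ2 : δ * CM ≤ ν0 / 2 := by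
    have h1 : δ ≤ ν0 / (2 * (CM + 1)) := by rw [hδ]; exact min_le_right _ _
    have h2 := mul_le_mul_of_nonneg_right h1 (show 0 ≤ CM + 1 by linarith)
    have h3 : ν0 / (2 * (CM + 1)) * (CM + 1) = ν0 / 2 := by field_simp
    nlinarith
  obtain ⟨C2, hC2, h2⟩ := fibre_bound5 K hOD e he ct hct0 (κ := κ / 2) (by positivity)
    (by linarith) hδ0 hδ1
  obtain ⟨ν1, hν1⟩ : ∃ ν1 : ℝ, ν1 = min ν1' 1 := ⟨_, rfl⟩
  have hν10 : 0 < ν1 := by rw [hν1]; exact lt_min hν1' one_pos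
  have hν11 : ν1 ≤ 1 := by rw [hν1]; exact min_le_right _ _
  have hν12 : ν1 ≤ ν1' := by rw [hν1]; exact min_le_left _ _
  obtain ⟨ν, C, hν, hνle, hC, hfin⟩ := fibM K m hν10 hν11 (ν2 := ν0 / 2) (by positivity)
    (by linarith) (C1 := C3 + C1') (C2 := C2 * Real.exp (ν0 / 2)) (by positivity) (by positivity)
  refine ⟨ν, C, hν, hνle, hC, ?_⟩
  intro H hH S hS
  refine hfin H hH (fun y => MvPolynomial.eval y n = 0 ∨ (fibm F y ≠ 0 ∧
    ht (fibm F y) < ∑ i, d i * hr (aff (y i)) - κ / 4 * H)) ?_ S (fun x hx => (hS x hx).1) ?_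
  · -- the exceptional points of the base
    intro T hTT
    obtain ⟨Ta, hTa⟩ : ∃ Ta, Ta = T.filter fun y => MvPolynomial.eval y n = 0 := ⟨_, rfl⟩
    obtain ⟨Tb, hTb⟩ : ∃ Tb, Tb = T.filter fun y => (fibm F y ≠ 0 ∧
      ht (fibm F y) < ∑ i, d i * hr (aff (y i)) - κ / 4 * H) := ⟨_, rfl⟩
    have g1 := h3 H hH Ta fun y hy => by
      rw [hTa] at hy
      exact ⟨(hTT y (Finset.mem_filter.1 hy).1).1, (Finset.mem_filter.1 hy).2⟩
    have g3 := h1 H hH Tb fun y hy => by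
      rw [hTb] at hy
      obtain ⟨e1, e2⟩ := Finset.mem_filter.1 hy
      exact ⟨(hTT y e1).1, e2⟩
    have hsub : T ⊆ Ta ∪ Tb := by
      intro y hy
      rw [Finset.mem_union, hTa, hTb, Finset.mem_filter, Finset.mem_filter]
      rcases (hTT y hy).2 with h | h
      · exact Or.inl ⟨hy, h⟩
      · exact Or.inr ⟨hy, h⟩
    have g4 : (T.card : ℝ) ≤ Ta.card + Tb.card := by
      exact_mod_cast (Finset.card_le_card hsub).trans (Finset.card_union_le _ _)
    have g5 : Real.exp ((2 * m - 1) * H) ≤ Real.exp ((2 * m - ν1) * H) :=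
      Real.exp_le_exp.2 (mul_le_mul_of_nonneg_right (by linarith) hH)
    have g5' : Real.exp ((2 * m - ν1') * H) ≤ Real.exp ((2 * m - ν1) * H) :=
      Real.exp_le_exp.2 (mul_le_mul_of_nonneg_right (by linarith) hH)
    have g6 := mul_le_mul_of_nonneg_left g5 hC3.le
    have g7 := mul_le_mul_of_nonneg_left g5' hC1'.le
    rw [add_mul]
    linarith
  · -- the other points
    intro y hyH hyP S' hS'
    push Not at hyP
    obtain ⟨hyn, hyG⟩ := hyP
    rcases S'.eq_empty_or_nonempty with h0 | ⟨z0, hz0⟩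
    · rw [h0, Finset.card_empty, Nat.cast_zero]
      positivity
    have hg0 : fibm F y ≠ 0 := by
      intro h
      have h4 := (hS _ (hS' z0 hz0)).2.1
      rw [← eval_fibm, h, eval_zero] at h4
      exact h4 rfl
    have hyG' := hyG hg0
    obtain ⟨f, u, Bad, hu, hfg, hfe, hBad, hβ⟩ := hRF y hyn
    obtain ⟨L, hL⟩ : ∃ L : ℝ, L = ht (f.map (algebraMap (𝓞 K) K)) := ⟨_, rfl⟩
    have hL' : L = ht (fibm F y) := by
      rw [hL, hfg]
      exact ht_C_mul hu hg0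
    have hL2 : L ≤ ∑ i, d i * hr (aff (y i)) + ct := by
      rw [hL', hct]
      exact ht_le2 hd0 hc0 hcf hg0 (hc y hg0)
    have hdH : ∑ i, d i * hr (aff (y i)) ≤ (∑ i, d i) * H := by
      rw [Finset.sum_mul]
      exact Finset.sum_le_sum fun i _ => mul_le_mul_of_nonneg_left (hyH i) (hd0 i)
    have hfx : ∀ z, aeval z f = u * MvPolynomial.eval (Fin.cons z y : Fin (m + 1) → K) F := by
      intro z
      rw [← eval_map_algebraMap, hfg, eval_mul, eval_C, eval_fibm]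
    have h4 := h2 f hfe Bad (fun v hv => ⟨(hBad v hv).1, (hBad v hv).2.1⟩) H hH L hL (by
      have := mul_le_mul_of_nonneg_right hE' hH
      linarith) S' (by
      intro z hz
      obtain ⟨hxH, hx0, hxs⟩ := hS _ (hS' z hz)
      have hfx0 : aeval z f ≠ 0 := by
        rw [hfx]
        exact mul_ne_zero hu hx0
      have hzH := hxH 0
      rw [Fin.cons_zero] at hzH
      refine ⟨hzH, hfx0, ?_⟩
      have e1 : ∑ v ∈ dv f z \ Bad, Real.log (Nv v) ≤
          ∑ v ∈ ddm F (Fin.cons z y : Fin (m + 1) → K), Real.log (Nv v) := by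
        refine Finset.sum_le_sum_of_subset_of_nonneg ?_ fun v _ _ => (log_Nv_pos v).le
        intro v hv
        obtain ⟨hva, hvb⟩ := Finset.mem_sdiff.1 hv
        rw [mem_dv hfx0] at hva
        rw [mem_ddm hx0]
        refine ⟨?_, ?_⟩
        · intro i
          refine Fin.cases ?_ (fun j => ?_) i
          · rw [Fin.cons_zero]
            exact hva.1
          · rw [Fin.cons_succ]
            exact (hBad v hvb).2.2.1 j
        · have e2 := hva.2
          rw [hfx, (fv v).map_mul, (hBad v hvb).2.2.2, one_mul] at e2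
          exact e2
      rw [Fin.sum_univ_succ] at hxs
      simp only [Fin.cons_zero, Fin.cons_succ, hdi] at hxs
      rw [← he'] at hxs
      have e2 : 0 ≤ κ * H := by positivity
      linarith)
    refine h4.trans ?_
    have hβ' : δ * ∑ v ∈ Bad, Real.log (Nv v) ≤ ν0 / 2 + ν0 / 2 * H := by
      have e1 : ∑ v ∈ Bad, Real.log (Nv v) ≤ CM * (1 + H) := by
        refine hβ.trans ?_
        rw [hCM, mul_assoc]
        refine mul_le_mul_of_nonneg_left ?_ hCF
        have := sumh_le hyH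
        nlinarith
      have e2 := mul_le_mul_of_nonneg_left e1 hδ0.le
      have e3 := mul_le_mul_of_nonneg_right hδ2 (show 0 ≤ 1 + H by linarith)
      linarith
    rw [mul_assoc, ← Real.exp_add]
    refine mul_le_mul_of_nonneg_left (Real.exp_le_exp.2 ?_) hC2.le
    rw [← hν0]
    linarith

open Classical in
/-- **Proposition B** -/
theorem propBM (hUM : StmUM) (hLM : StmLM) {m : ℕ}
    (F : MvPolynomial (Fin (m + 1)) K) (hF : Irreducible F) (he : 1 ≤ F.degreeOf 0)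
    {κ : ℝ} (hκ0 : 0 < κ) (hκ1 : κ ≤ 1) {C0 : ℝ} (hC0 : 0 ≤ C0) :
    ∃ ν C : ℝ, 0 < ν ∧ ν ≤ 1 ∧ 0 < C ∧ ∀ H : ℝ, 0 ≤ H → ∀ S : Finset (Fin (m + 1) → K),
      ∀ Bad : (Fin m → K) → Finset (Pr K),
      (∀ x ∈ S, (∀ i, hr (aff (x i)) ≤ H) ∧ MvPolynomial.eval x F ≠ 0 ∧
        ∑ v ∈ Bad (Fin.tail x), Real.log (Nv v) ≤ C0 * (1 + H) ∧
        κ * H ≤ ∑ v ∈ Bad (Fin.tail x) ∩ ddm F x, Real.log (Nv v)) →
      (S.card : ℝ) ≤ C * Real.exp ((2 * (m + 1 : ℕ) - ν) * H) := by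
  obtain ⟨c, hc0, hcf, hc⟩ := fib_up hUM F
  obtain ⟨ν1', C1', hν1', hC1', h1⟩ := hLM K m F hF he (κ / 4) (by positivity) (by linarith)
  obtain ⟨e, he'⟩ : ∃ e : ℕ, e = F.degreeOf 0 := ⟨_, rfl⟩
  rw [← he'] at he
  have he0 : (0 : ℝ) < e := by exact_mod_cast he
  have hm0 : (0 : ℝ) ≤ m := Nat.cast_nonneg _
  obtain ⟨ct, hct⟩ : ∃ ct : ℝ, ct = ∑ p ∈ hcf.toFinset, c p := ⟨_, rfl⟩
  have hct0 : 0 ≤ ct := by
    rw [hct]
    exact Finset.sum_nonneg fun p _ => hc0 p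
  obtain ⟨d, hd⟩ : ∃ d : Fin m → ℝ, d = fun i => (F.degreeOf (Fin.succ i) : ℝ) := ⟨_, rfl⟩
  have hd0 : ∀ i, 0 ≤ d i := fun i => by rw [hd]; exact Nat.cast_nonneg _
  have hdi : ∀ i, (F.degreeOf (Fin.succ i) : ℝ) = d i := fun i => by rw [hd]
  simp only [hdi] at hc h1
  obtain ⟨D, hD⟩ : ∃ D : ℝ, D = ∑ i, d i := ⟨_, rfl⟩
  have hD0 : 0 ≤ D := by rw [hD]; exact Finset.sum_nonneg fun i _ => hd0 i
  obtain ⟨l, hl⟩ : ∃ l : ℝ, l = (e + 1) * lossK K := ⟨_, rfl⟩
  have hl0 : 0 ≤ l := by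
    rw [hl]
    exact mul_nonneg (by positivity) (lossK_nonneg K)
  obtain ⟨ν2, C2, hν2, hν21, hC2, h2⟩ := cnt0 K e (κ := κ / 2) (by positivity) (by linarith)
    (R := D + ct) (by positivity) hC0
  obtain ⟨C4, hC4, h4⟩ := count_all K (δ := 1) one_pos
  obtain ⟨ν1, hν1⟩ : ∃ ν1 : ℝ, ν1 = min ν1' 1 := ⟨_, rfl⟩
  have hν10 : 0 < ν1 := by rw [hν1]; exact lt_min hν1' one_pos
  have hν11 : ν1 ≤ 1 := by rw [hν1]; exact min_le_right _ _
  have hν12 : ν1 ≤ ν1' := by rw [hν1]; exact min_le_left _ _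
  obtain ⟨ν, C, hν, hνle, hC, hfin⟩ := fibM K m hν10 hν11 hν2 hν21
    (C1 := C1') (C2 := C2 + C4 * Real.exp (3 * (4 * (ct + l) / κ))) hC1' (by positivity)
  refine ⟨ν, C, hν, hνle, hC, ?_⟩
  intro H hH S Bad hS
  refine hfin H hH (fun y => fibm F y ≠ 0 ∧
    ht (fibm F y) < ∑ i, d i * hr (aff (y i)) - κ / 4 * H) ?_ S (fun x hx => (hS x hx).1) ?_
  · -- the exceptional points of the base
    intro T hTT
    refine (h1 H hH T hTT).trans (mul_le_mul_of_nonneg_left (Real.exp_le_exp.2 ?_) hC1'.le)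
    exact mul_le_mul_of_nonneg_right (by linarith) hH
  · -- the other points
    intro y hyH hyP S' hS'
    push Not at hyP
    obtain ⟨E, hE⟩ : ∃ E : ℝ, E = Real.exp ((2 - ν2) * H) := ⟨_, rfl⟩
    rw [← hE]
    have hE1 : 1 ≤ E := by
      rw [hE]
      exact Real.one_le_exp (mul_nonneg (by linarith) hH)
    by_cases hcase : H ≤ 4 * (ct + l) / κ
    · have g1 := h4 H hH S' fun z hz => by
        have := (hS _ (hS' z hz)).1 0
        rwa [Fin.cons_zero] at this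
      have g2 : Real.exp ((2 + 1) * H) ≤ Real.exp (3 * (4 * (ct + l) / κ)) := by
        refine Real.exp_le_exp.2 ?_
        linarith
      have g3 := mul_le_mul_of_nonneg_left g2 hC4.le
      have g4 : 0 ≤ C4 * Real.exp (3 * (4 * (ct + l) / κ)) := by positivity
      have g5 := (g1.trans g3).trans (le_mul_of_one_le_right g4 hE1)
      rw [add_mul]
      exact g5.trans (le_add_of_nonneg_left (by positivity))
    rw [not_le, div_lt_iff₀ hκ0] at hcase
    rcases S'.eq_empty_or_nonempty with h0 | ⟨z0, hz0⟩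
    · rw [h0, Finset.card_empty, Nat.cast_zero]
      positivity
    have hg0 : fibm F y ≠ 0 := by
      intro h
      have h4 := (hS _ (hS' z0 hz0)).2.1
      rw [← eval_fibm, h, eval_zero] at h4
      exact h4 rfl
    have hyG' := hyP hg0
    obtain ⟨g, hg⟩ : ∃ g : K[X], g = fibm F y := ⟨_, rfl⟩
    rw [← hg] at hg0 hyG'
    have hgd : g.natDegree ≤ e := by
      rw [hg, he']
      exact natDegree_fibm F y
    have hge : ∀ z, g.eval z = MvPolynomial.eval (Fin.cons z y : Fin (m + 1) → K) F :=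
      fun z => by rw [hg, eval_fibm]
    have hcy := hc y (by rw [← hg]; exact hg0)
    rw [← hg] at hcy
    have hL2 : ht g ≤ ∑ i, d i * hr (aff (y i)) + ct := by
      rw [hct]
      exact ht_le2 hd0 hc0 hcf hg0 hcy
    have hdH : ∑ i, d i * hr (aff (y i)) ≤ D * H := by
      rw [hD, Finset.sum_mul]
      exact Finset.sum_le_sum fun i _ => mul_le_mul_of_nonneg_left (hyH i) (hd0 i)
    have htail : ∀ z : K, Fin.tail (Fin.cons z y : Fin (m + 1) → K) = y := fun z => by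
      funext i
      simp [Fin.tail]
    have hB := (hS _ (hS' z0 hz0)).2.2.1
    rw [htail] at hB
    have h5 := h2 H hH g hg0 hgd (by
      refine hL2.trans ?_
      have : 0 ≤ ct * H := by positivity
      linarith) (Bad y) hB S' (by
      intro z hz
      obtain ⟨hxH, hx0, -, hxs⟩ := hS _ (hS' z hz)
      rw [htail] at hxs
      have hzH := hxH 0
      rw [Fin.cons_zero] at hzH
      have hgz0 : g.eval z ≠ 0 := by
        rw [hge]
        exact hx0
      refine ⟨hzH, Or.inr ?_⟩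
      obtain ⟨U, hU⟩ : ∃ U, U = Bad y ∩ ddm F (Fin.cons z y : Fin (m + 1) → K) := ⟨_, rfl⟩
      rw [← hU] at hxs
      have e1 : ∑ v ∈ U, Real.log (Nv v) ≤ ∑ v ∈ U, (mv (Sum.inr v) e g z +
          -gn (Sum.inr v) g) := by
        refine Finset.sum_le_sum fun v hv => ?_
        rw [hU] at hv
        obtain ⟨-, hv2⟩ := Finset.mem_inter.1 hv
        rw [mem_ddm hx0] at hv2
        have e2 := log_ge_of_lt hx0 hv2.2
        have e5 : 0 ≤ (e : ℝ) * mx (Sum.inr v) z :=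
          mul_nonneg (Nat.cast_nonneg _) (mx_nonneg _ _)
        unfold mv
        rw [hge]
        linarith
      rw [Finset.sum_add_distrib] at e1
      have e2 : ∑ v ∈ U, mv (Sum.inr v) e g z ≤ ∑ v ∈ Bad y, mv (Sum.inr v) e g z := by
        refine Finset.sum_le_sum_of_subset_of_nonneg ?_ fun v _ _ => mv_nonneg v hgd hgz0
        rw [hU]
        exact Finset.inter_subset_left
      have e3 := def_sum hd0 hc0 hcf hg0 hcy U
      rw [← hct] at e3
      have e4 : -l ≤ ∑ w : InfinitePlace K, mv (Sum.inl w) e g z := by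
        have hlsum : ∑ w : InfinitePlace K, ((e : ℝ) + 1) * loss (Sum.inl w : Pl K) = l := by
          rw [hl, ← Finset.mul_sum]
          rfl
        rw [← hlsum, ← Finset.sum_neg_distrib]
        refine Finset.sum_le_sum fun w _ => ?_
        have := mv_ge (Sum.inl w) hgd hgz0
        linarith
      linarith)
    rw [← hE] at h5
    rw [add_mul]
    exact h5.trans (le_add_of_nonneg_right (by positivity))

end Pool.Agent.N753.SU
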