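import Mathlib
import Pool.Agent.N753.SU.PropM
import Pool.Agent.N753.SU.NL3

/-!
# Hypersurfaces in a product of lines: components of any degree
-/

set_option autoImplicit false
set_option linter.unusedSectionVars false

namespace Pool.Agent.N753.SU

open NumberField IsDedekindDomain Finset Pool.Agent.H691R3
open Pool.Agent.TH876.Loc hiding mx
open Pool.Agent.N753.LS Pool.Agent.N753.SF Polynomial

variable {K : Type} [Field K] [NumberField K]

open Classical in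
/-- **Proposition A** -/
theorem propAW (hRM : StmRM) (hUM : StmUM) (hZM : StmZM) (hLM : StmLM) (hOD : StmOD) {m : ℕ}
    (F : MvPolynomial (Fin (m + 1)) K) (hF : Irreducible F) (he : 1 ≤ F.degreeOf 0)
    (E : ℕ) (hE : ∑ i, F.degreeOf i ≤ E) (w : ℝ) (hw : E ≤ 5 ∨ w ≤ 2)
    {κ : ℝ} (hκ0 : 0 < κ) (hκ1 : κ ≤ 1) :
    ∃ ν C : ℝ, 0 < ν ∧ ν ≤ 1 ∧ 0 < C ∧ ∀ H : ℝ, 0 ≤ H → ∀ S : Finset (Fin (m + 1) → K),
      (∀ x ∈ S, (∀ i, hr (aff (x i)) ≤ H) ∧ MvPolynomial.eval x F ≠ 0 ∧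
        ∑ v ∈ ddm F x, Real.log (Nv v) <
          ∑ i, (F.degreeOf i : ℝ) * hr (aff (x i)) - κ * H ∧
        ∑ v ∈ ddm F x, Real.log (Nv v) < (w - κ) * H) →
      (S.card : ℝ) ≤ C * Real.exp ((2 * (m + 1 : ℕ) - ν) * H) := by
  obtain ⟨n, CF, hn, hCF, hRF⟩ := hRM K m F hF he
  obtain ⟨c, hc0, hcf, hc⟩ := fib_up hUM F
  obtain ⟨ν1', C1', hν1', hC1', h1⟩ := hLM K m F hF he (κ / 4) (by positivity) (by linarith)
  obtain ⟨C3, hC3, h3⟩ := hZM K m n hn
  obtain ⟨e, he'⟩ : ∃ e : ℕ, e = F.degreeOf 0 := ⟨_, rfl⟩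
  rw [← he'] at he hRF
  have he0 : (0 : ℝ) < e := by exact_mod_cast he
  have he1 : (1 : ℝ) ≤ e := by exact_mod_cast he
  have hm0 : (0 : ℝ) ≤ m := Nat.cast_nonneg _
  obtain ⟨ct, hct⟩ : ∃ ct : ℝ, ct = ∑ p ∈ hcf.toFinset, c p := ⟨_, rfl⟩
  have hct0 : 0 ≤ ct := by
    rw [hct]
    exact Finset.sum_nonneg fun p _ => hc0 p
  obtain ⟨d, hd⟩ : ∃ d : Fin m → ℝ, d = fun i => (F.degreeOf (Fin.succ i) : ℝ) := ⟨_, rfl⟩
  have hd0 : ∀ i, 0 ≤ d i := fun i => by rw [hd]; exact Nat.cast_nonneg _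
  have hdi : ∀ i, (F.degreeOf (Fin.succ i) : ℝ) = d i := fun i => by rw [hd]
  simp only [hdi] at hc h1
  have hE' : ∑ i, d i + e ≤ E := by
    rw [Fin.sum_univ_succ, ← he'] at hE
    have h2 : ((∑ i : Fin m, F.degreeOf i.succ : ℕ) : ℝ) = ∑ i, d i := by
      rw [hd]
      push_cast
      rfl
    rw [← h2]
    exact_mod_cast (by omega : ∑ i : Fin m, F.degreeOf i.succ + e ≤ E)
  obtain ⟨ν0, hν0⟩ : ∃ ν0 : ℝ, ν0 = κ / 2 / (128 * e) := ⟨_, rfl⟩
  have hν00 : 0 < ν0 := by rw [hν0]; positivity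
  have hν01 : ν0 ≤ 1 := by
    rw [hν0, div_le_one (by positivity)]
    linarith
  obtain ⟨CM, hCM⟩ : ∃ CM : ℝ, CM = CF * (m + 1) := ⟨_, rfl⟩
  have hCM0 : 0 ≤ CM := by rw [hCM]; positivity
  obtain ⟨δ, hδ⟩ : ∃ δ : ℝ, δ = min (1 / 64) (ν0 / (2 * (CM + 1))) := ⟨_, rfl⟩
  have hδ0 : 0 < δ := by rw [hδ]; exact lt_min (by norm_num) (by positivity)
  have hδ1 : δ ≤ 1 / 64 := by rw [hδ]; exact min_le_left _ _
  have hδ2 : δ * CM ≤ ν0 / 2 := by
    have h1 : δ ≤ ν0 / (2 * (CM + 1)) := by rw [hδ]; exact min_le_right _ _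
    have h2 := mul_le_mul_of_nonneg_right h1 (show 0 ≤ CM + 1 by linarith)
    have h3 : ν0 / (2 * (CM + 1)) * (CM + 1) = ν0 / 2 := by field_simp
    nlinarith
  obtain ⟨C2, hC2, h2⟩ := fibre_boundW K hOD e he E w hw ct hct0 (κ := κ / 2) (by positivity)
    (by linarith) hδ0 hδ1
  obtain ⟨ν1, hν1⟩ : ∃ ν1 : ℝ, ν1 = min ν1' 1 := ⟨_, rfl⟩
  have hν10 : 0 < ν1 := by rw [hν1]; exact lt_min hν1' one_pos
  have hν11 : ν1 ≤ 1 := by rw [hν1]; exact min_le_right _ _
  have hν12 : ν1 ≤ ν1' := by rw [hν1]; exact min_le_left _ _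
  obtain ⟨ν, C, hν, hνle, hC, hfin⟩ := fibM K m hν10 hν11 (ν2 := ν0 / 2) (by positivity)
    (by linarith) (C1 := C3 + C1') (C2 := C2 * Real.exp (ν0 / 2)) (by positivity) (by positivity)
  refine ⟨ν, C, hν, hνle, hC, ?_⟩
  intro H hH S hS
  refine hfin H hH (fun y => MvPolynomial.eval y n = 0 ∨ (fibm F y ≠ 0 ∧
    ht (fibm F y) < ∑ i, d i * hr (aff (y i)) - κ / 4 * H)) ?_ S (fun x hx => (hS x hx).1) ?_
  · -- the exceptional points of the base
    intro T hTT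
    obtain ⟨Ta, hTa⟩ : ∃ Ta, Ta = T.filter fun y => MvPolynomial.eval y n = 0 := ⟨_, rfl⟩
    obtain ⟨Tb, hTb⟩ : ∃ Tb, Tb = T.filter fun y => (fibm F y ≠ 0 ∧
      ht (fibm F y) < ∑ i, d i * hr (aff (y i)) - κ / 4 * H) := ⟨_, rfl⟩
    have g1 := h3 H hH Ta fun y hy => by
      rw [hTa] at hy
      exact ⟨(hTT y (Finset.mem_filter.1 hy).1).1, (Finset.mem_filter.1 hy).2⟩
    have g3 := h1 H hH Tb fun y hy => by
      rw [hTb] at hy
      obtain ⟨e1, e2⟩ := Finset.mem_filter.1 hy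
      exact ⟨(hTT y e1).1, e2⟩
    have hsub : T ⊆ Ta ∪ Tb := by
      intro y hy
      rw [Finset.mem_union, hTa, hTb, Finset.mem_filter, Finset.mem_filter]
      rcases (hTT y hy).2 with h | h
      · exact Or.inl ⟨hy, h⟩
      · exact Or.inr ⟨hy, h⟩
    have g4 : (T.card : ℝ) ≤ Ta.card + Tb.card := by
      exact_mod_cast (Finset.card_le_card hsub).trans (Finset.card_union_le _ _)
    have g5 : Real.exp ((2 * m - 1) * H) ≤ Real.exp ((2 * m - ν1) * H) :=
      Real.exp_le_exp.2 (mul_le_mul_of_nonneg_right (by linarith) hH)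
    have g5' : Real.exp ((2 * m - ν1') * H) ≤ Real.exp ((2 * m - ν1) * H) :=
      Real.exp_le_exp.2 (mul_le_mul_of_nonneg_right (by linarith) hH)
    have g6 := mul_le_mul_of_nonneg_left g5 hC3.le
    have g7 := mul_le_mul_of_nonneg_left g5' hC1'.le
    rw [add_mul]
    linarith
  · -- the other points
    intro y hyH hyP S' hS'
    push Not at hyP
    obtain ⟨hyn, hyG⟩ := hyP
    rcases S'.eq_empty_or_nonempty with h0 | ⟨z0, hz0⟩
    · rw [h0, Finset.card_empty, Nat.cast_zero]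
      positivity
    have hg0 : fibm F y ≠ 0 := by
      intro h
      have h4 := (hS _ (hS' z0 hz0)).2.1
      rw [← eval_fibm, h, eval_zero] at h4
      exact h4 rfl
    have hyG' := hyG hg0
    obtain ⟨f, u, Bad, hu, hfg, hfe, hBad, hβ⟩ := hRF y hyn
    obtain ⟨L, hL⟩ : ∃ L : ℝ, L = ht (f.map (algebraMap (𝓞 K) K)) := ⟨_, rfl⟩
    have hL' : L = ht (fibm F y) := by
      rw [hL, hfg]
      exact ht_C_mul hu hg0
    have hL2 : L ≤ ∑ i, d i * hr (aff (y i)) + ct := by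
      rw [hL', hct]
      exact ht_le2 hd0 hc0 hcf hg0 (hc y hg0)
    have hdH : ∑ i, d i * hr (aff (y i)) ≤ (∑ i, d i) * H := by
      rw [Finset.sum_mul]
      exact Finset.sum_le_sum fun i _ => mul_le_mul_of_nonneg_left (hyH i) (hd0 i)
    have hfx : ∀ z, aeval z f = u * MvPolynomial.eval (Fin.cons z y : Fin (m + 1) → K) F := by
      intro z
      rw [← eval_map_algebraMap, hfg, eval_mul, eval_C, eval_fibm]
    have h4 := h2 f hfe Bad (fun v hv => ⟨(hBad v hv).1, (hBad v hv).2.1⟩) H hH L hL (by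
      have := mul_le_mul_of_nonneg_right hE' hH
      linarith) S' (by
      intro z hz
      obtain ⟨hxH, hx0, hxs, hxw⟩ := hS _ (hS' z hz)
      have hfx0 : aeval z f ≠ 0 := by
        rw [hfx]
        exact mul_ne_zero hu hx0
      have hzH := hxH 0
      rw [Fin.cons_zero] at hzH
      refine ⟨hzH, hfx0, ?_⟩
      have e1 : ∑ v ∈ dv f z \ Bad, Real.log (Nv v) ≤
          ∑ v ∈ ddm F (Fin.cons z y : Fin (m + 1) → K), Real.log (Nv v) := by
        refine Finset.sum_le_sum_of_subset_of_nonneg ?_ fun v _ _ => (log_Nv_pos v).le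
        intro v hv
        obtain ⟨hva, hvb⟩ := Finset.mem_sdiff.1 hv
        rw [mem_dv hfx0] at hva
        rw [mem_ddm hx0]
        refine ⟨?_, ?_⟩
        · intro i
          refine Fin.cases ?_ (fun j => ?_) i
          · rw [Fin.cons_zero]
            exact hva.1
          · rw [Fin.cons_succ]
            exact (hBad v hvb).2.2.1 j
        · have e2 := hva.2
          rw [hfx, (fv v).map_mul, (hBad v hvb).2.2.2, one_mul] at e2
          exact e2
      rw [Fin.sum_univ_succ] at hxs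
      simp only [Fin.cons_zero, Fin.cons_succ, hdi] at hxs
      rw [← he'] at hxs
      have e2 : 0 ≤ κ * H := by positivity
      exact ⟨by linarith, by linarith⟩)
    refine h4.trans ?_
    have hβ' : δ * ∑ v ∈ Bad, Real.log (Nv v) ≤ ν0 / 2 + ν0 / 2 * H := by
      have e1 : ∑ v ∈ Bad, Real.log (Nv v) ≤ CM * (1 + H) := by
        refine hβ.trans ?_
        rw [hCM, mul_assoc]
        refine mul_le_mul_of_nonneg_left ?_ hCF
        have := sumh_le hyH
        nlinarith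
      have e2 := mul_le_mul_of_nonneg_left e1 hδ0.le
      have e3 := mul_le_mul_of_nonneg_right hδ2 (show 0 ≤ 1 + H by linarith)
      linarith
    rw [mul_assoc, ← Real.exp_add]
    refine mul_le_mul_of_nonneg_left (Real.exp_le_exp.2 ?_) hC2.le
    rw [← hν0]
    linarith

end Pool.Agent.N753.SU
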