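import Mathlib
import Pool.Agent.N753.SU.PropW
import Pool.Agent.N753.LS.Exc

/-!
# Sets of points with a power saving
-/

set_option autoImplicit false
set_option linter.unusedSectionVars false

namespace Pool.Agent.N753.SU

open NumberField IsDedekindDomain Finset Pool.Agent.H691R3
open Pool.Agent.TH876.Loc hiding mx
open Pool.Agent.N753.LS Pool.Agent.N753.SF Polynomial

variable {K : Type} [Field K] [NumberField K]

variable (K) in
/-- the points in `A` are few: a power saving -/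
def Thin (m : ℕ) (A : ℝ → (Fin m → K) → Prop) : Prop :=
  ∃ ν C : ℝ, 0 < ν ∧ ν ≤ 1 ∧ 0 < C ∧ ∀ H : ℝ, 0 ≤ H → ∀ S : Finset (Fin m → K),
    (∀ x ∈ S, (∀ i, hr (aff (x i)) ≤ H) ∧ A H x) →
      (S.card : ℝ) ≤ C * Real.exp ((2 * m - ν) * H)

theorem Thin.mono {m : ℕ} {A B : ℝ → (Fin m → K) → Prop} (hB : Thin K m B)
    (h : ∀ H x, 0 ≤ H → (∀ i, hr (aff (x i)) ≤ H) → A H x → B H x) : Thin K m A := by
  obtain ⟨ν, C, hν, hν1, hC, hB⟩ := hB
  exact ⟨ν, C, hν, hν1, hC, fun H hH S hS => hB H hH S fun x hx =>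
    ⟨(hS x hx).1, h H x hH (hS x hx).1 (hS x hx).2⟩⟩

theorem Thin.or {m : ℕ} {A B : ℝ → (Fin m → K) → Prop} (hA : Thin K m A) (hB : Thin K m B) :
    Thin K m (fun H x => A H x ∨ B H x) := by
  classical
  obtain ⟨ν1, C1, hν1, hν11, hC1, hA⟩ := hA
  obtain ⟨ν2, C2, hν2, hν21, hC2, hB⟩ := hB
  refine ⟨min ν1 ν2, C1 + C2, lt_min hν1 hν2, (min_le_left _ _).trans hν11, by positivity, ?_⟩
  intro H hH S hS
  have h1 := hA H hH (S.filter fun x => A H x) fun x hx =>
    ⟨(hS x (Finset.mem_filter.1 hx).1).1, (Finset.mem_filter.1 hx).2⟩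
  have h2 := hB H hH (S.filter fun x => ¬ A H x) fun x hx =>
    ⟨(hS x (Finset.mem_filter.1 hx).1).1,
      ((hS x (Finset.mem_filter.1 hx).1).2).resolve_left (Finset.mem_filter.1 hx).2⟩
  have h3 : (S.card : ℝ) = (S.filter fun x => A H x).card + (S.filter fun x => ¬ A H x).card := by
    exact_mod_cast (Finset.card_filter_add_card_filter_not (s := S) (p := fun x => A H x)).symm
  have h4 : Real.exp ((2 * m - ν1) * H) ≤ Real.exp ((2 * m - min ν1 ν2) * H) :=
    Real.exp_le_exp.2 (mul_le_mul_of_nonneg_right (sub_le_sub_left (min_le_left _ _) _) hH)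
  have h5 : Real.exp ((2 * m - ν2) * H) ≤ Real.exp ((2 * m - min ν1 ν2) * H) :=
    Real.exp_le_exp.2 (mul_le_mul_of_nonneg_right (sub_le_sub_left (min_le_right _ _) _) hH)
  have h6 := mul_le_mul_of_nonneg_left h4 hC1.le
  have h7 := mul_le_mul_of_nonneg_left h5 hC2.le
  rw [h3, add_mul]
  linarith

theorem thin_false {m : ℕ} {A : ℝ → (Fin m → K) → Prop} (h : ∀ H x, 0 ≤ H → ¬ A H x) :
    Thin K m A := by
  refine ⟨1, 1, one_pos, le_rfl, one_pos, fun H hH S hS => ?_⟩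
  have : S = ∅ := Finset.eq_empty_of_forall_notMem fun x hx => h H x hH (hS x hx).2
  rw [this, Finset.card_empty, Nat.cast_zero]
  positivity

theorem Thin.ex {m : ℕ} {ι : Type} (s : Finset ι) {A : ι → ℝ → (Fin m → K) → Prop}
    (h : ∀ k ∈ s, Thin K m (A k)) : Thin K m (fun H x => ∃ k ∈ s, A k H x) := by
  classical
  induction s using Finset.induction_on with
  | empty => exact thin_false fun H x _ => by simp
  | insert a s ha ih =>
    refine ((h a (Finset.mem_insert_self a s)).or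
      (ih fun k hk => h k (Finset.mem_insert_of_mem hk))).mono ?_
    rintro H x _ _ ⟨k, hk, hx⟩
    rcases Finset.mem_insert.1 hk with rfl | hk
    · exact Or.inl hx
    · exact Or.inr ⟨k, hk, hx⟩

theorem thin_bdd (m : ℕ) (H0 : ℝ) : Thin K m (fun H _ => H ≤ H0) := by
  obtain ⟨C, hC, h⟩ := count_box K m (δ := 1) one_pos
  refine ⟨1, C * Real.exp (2 * max H0 0), one_pos, le_rfl, by positivity, ?_⟩
  intro H hH S hS
  rcases S.eq_empty_or_nonempty with h0 | ⟨x, hx⟩
  · rw [h0, Finset.card_empty, Nat.cast_zero]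
    positivity
  refine (h H hH S fun y hy => (hS y hy).1).trans ?_
  rw [mul_assoc, ← Real.exp_add]
  refine mul_le_mul_of_nonneg_left (Real.exp_le_exp.2 ?_) hC.le
  have h1 : H ≤ max H0 0 := (hS x hx).2.trans (le_max_left _ _)
  linarith

theorem Thin.perm {m : ℕ} {A : ℝ → (Fin m → K) → Prop} (σ : Equiv.Perm (Fin m))
    (hA : Thin K m A) : Thin K m (fun H x => A H (x ∘ σ)) := by
  classical
  obtain ⟨ν, C, hν, hν1, hC, hA⟩ := hA
  refine ⟨ν, C, hν, hν1, hC, fun H hH S hS => ?_⟩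
  have hinj : Function.Injective fun x : Fin m → K => x ∘ σ := by
    intro x y hxy
    funext i
    have := congrFun hxy (σ.symm i)
    simpa using this
  rw [← Finset.card_image_of_injective S hinj]
  refine hA H hH _ fun y hy => ?_
  obtain ⟨x, hx, rfl⟩ := Finset.mem_image.1 hy
  exact ⟨fun i => (hS x hx).1 (σ i), (hS x hx).2⟩

/-- a condition on one coordinate -/
theorem Thin.coord {m : ℕ} {A : ℝ → (Fin 1 → K) → Prop} (i : Fin m) (hA : Thin K 1 A) :
    Thin K m (fun H x => A H (fun _ => x i)) := by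
  classical
  obtain ⟨ν, C, hν, hν1, hC, hA⟩ := hA
  obtain ⟨δ, hδ⟩ : ∃ δ : ℝ, δ = ν / (2 * (m + 1)) := ⟨_, rfl⟩
  have hδ0 : 0 < δ := by rw [hδ]; positivity
  have hδm : (m + 1) * δ = ν / 2 := by rw [hδ]; field_simp
  obtain ⟨C3, hC3, h3⟩ := count_all K (δ := δ) hδ0
  refine ⟨ν / 2, C * C3 ^ (m - 1), by positivity, by linarith, by positivity, ?_⟩
  intro H hH S hS
  obtain ⟨B, hB⟩ : ∃ B : Finset K, B = S.biUnion fun x => univ.image x := ⟨_, rfl⟩
  obtain ⟨T, hT⟩ : ∃ T : Finset K, T = S.image fun x => x i := ⟨_, rfl⟩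
  have h1 := proj_one i B T S fun x hx => ⟨fun k => by
    rw [hB, Finset.mem_biUnion]
    exact ⟨x, hx, Finset.mem_image_of_mem _ (Finset.mem_univ k)⟩, by
    rw [hT]
    exact Finset.mem_image_of_mem _ hx⟩
  have h2 : (B.card : ℝ) ≤ C3 * Real.exp ((2 + δ) * H) := by
    refine h3 H hH B fun z hz => ?_
    rw [hB, Finset.mem_biUnion] at hz
    obtain ⟨x, hx, hz⟩ := hz
    obtain ⟨k, -, rfl⟩ := Finset.mem_image.1 hz
    exact (hS x hx).1 k
  have h4 : (T.card : ℝ) ≤ C * Real.exp ((2 * (1 : ℕ) - ν) * H) := by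
    have hinj : Function.Injective fun (z : K) (_ : Fin 1) => z := fun a b hab => congrFun hab 0
    rw [← Finset.card_image_of_injective T hinj]
    refine hA H hH _ fun y hy => ?_
    obtain ⟨z, hz, rfl⟩ := Finset.mem_image.1 hy
    rw [hT] at hz
    obtain ⟨x, hx, rfl⟩ := Finset.mem_image.1 hz
    exact ⟨fun _ => (hS x hx).1 i, (hS x hx).2⟩
  have hm : 1 ≤ m := by
    have := i.2
    omega
  have h5 : (S.card : ℝ) ≤ T.card * (B.card : ℝ) ^ (m - 1) := by exact_mod_cast h1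
  refine h5.trans ((mul_le_mul h4 (pow_le_pow_left₀ (Nat.cast_nonneg _) h2 _) (by positivity)
    (by positivity)).trans ?_)
  rw [mul_pow, ← Real.exp_nat_mul, mul_mul_mul_comm, ← Real.exp_add]
  refine mul_le_mul_of_nonneg_left (Real.exp_le_exp.2 ?_) (by positivity)
  rw [Nat.cast_sub hm]
  push_cast
  have h6 : (2 * 1 - ν) * H + ((m : ℝ) - 1) * ((2 + δ) * H) =
      (2 * m - ν + (m - 1) * δ) * H := by ring
  rw [h6]
  refine mul_le_mul_of_nonneg_right ?_ hH
  nlinarith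

/-- a condition on two coordinates -/
theorem Thin.coord2 {m : ℕ} {A : ℝ → (Fin 2 → K) → Prop} {i j : Fin m} (hij : i ≠ j)
    (hA : Thin K 2 A) : Thin K m (fun H x => A H ![x i, x j]) := by
  classical
  obtain ⟨ν, C, hν, hν1, hC, hA⟩ := hA
  obtain ⟨δ, hδ⟩ : ∃ δ : ℝ, δ = ν / (2 * (m + 1)) := ⟨_, rfl⟩
  have hδ0 : 0 < δ := by rw [hδ]; positivity
  have hδm : (m + 1) * δ = ν / 2 := by rw [hδ]; field_simp
  obtain ⟨C3, hC3, h3⟩ := count_all K (δ := δ) hδ0
  refine ⟨ν / 2, C * C3 ^ (m - 2), by positivity, by linarith, by positivity, ?_⟩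
  intro H hH S hS
  obtain ⟨B, hB⟩ : ∃ B : Finset K, B = S.biUnion fun x => univ.image x := ⟨_, rfl⟩
  obtain ⟨T, hT⟩ : ∃ T : Finset (K × K), T = S.image fun x => (x i, x j) := ⟨_, rfl⟩
  have h1 := proj_two hij B T S fun x hx => ⟨fun k => by
    rw [hB, Finset.mem_biUnion]
    exact ⟨x, hx, Finset.mem_image_of_mem _ (Finset.mem_univ k)⟩, by
    rw [hT]
    exact Finset.mem_image_of_mem (fun x : Fin m → K => (x i, x j)) hx⟩
  have h2 : (B.card : ℝ) ≤ C3 * Real.exp ((2 + δ) * H) := by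
    refine h3 H hH B fun z hz => ?_
    rw [hB, Finset.mem_biUnion] at hz
    obtain ⟨x, hx, hz⟩ := hz
    obtain ⟨k, -, rfl⟩ := Finset.mem_image.1 hz
    exact (hS x hx).1 k
  have h4 : (T.card : ℝ) ≤ C * Real.exp ((2 * (2 : ℕ) - ν) * H) := by
    have hinj : Function.Injective fun (z : K × K) => ![z.1, z.2] := by
      rintro ⟨a, b⟩ ⟨c, d⟩ hab
      have e1 := congrFun hab 0
      have e2 := congrFun hab 1
      simp only [Matrix.cons_val_zero, Matrix.cons_val_one] at e1 e2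
      rw [e1, e2]
    rw [← Finset.card_image_of_injective T hinj]
    refine hA H hH _ fun y hy => ?_
    obtain ⟨z, hz, rfl⟩ := Finset.mem_image.1 hy
    rw [hT] at hz
    obtain ⟨x, hx, rfl⟩ := Finset.mem_image.1 hz
    refine ⟨fun k => ?_, (hS x hx).2⟩
    fin_cases k
    · exact (hS x hx).1 i
    · exact (hS x hx).1 j
  have hm : 2 ≤ m := by
    have h6 := i.2
    have h7 := j.2
    have h8 : (i : ℕ) ≠ j := fun h => hij (Fin.ext h)
    omega
  have h5 : (S.card : ℝ) ≤ T.card * (B.card : ℝ) ^ (m - 2) := by exact_mod_cast h1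
  refine h5.trans ((mul_le_mul h4 (pow_le_pow_left₀ (Nat.cast_nonneg _) h2 _) (by positivity)
    (by positivity)).trans ?_)
  rw [mul_pow, ← Real.exp_nat_mul, mul_mul_mul_comm, ← Real.exp_add]
  refine mul_le_mul_of_nonneg_left (Real.exp_le_exp.2 ?_) (by positivity)
  rw [Nat.cast_sub hm]
  push_cast
  have h6 : (2 * 2 - ν) * H + ((m : ℝ) - 2) * ((2 + δ) * H) =
      (2 * m - ν + (m - 2) * δ) * H := by ring
  rw [h6]
  refine mul_le_mul_of_nonneg_right ?_ hH
  nlinarith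

/-- the zeros of a polynomial -/
theorem thin_zero (hZM : StmZM) {m : ℕ} (n : MvPolynomial (Fin m) K) (hn : n ≠ 0) :
    Thin K m (fun _ x => MvPolynomial.eval x n = 0) := by
  obtain ⟨C, hC, h⟩ := hZM K m n hn
  exact ⟨1, C, one_pos, le_rfl, hC, fun H hH S hS => h H hH S hS⟩

/-- the points with a coordinate of smaller height -/
theorem thin_ht {m : ℕ} (i : Fin m) {κ : ℝ} (hκ0 : 0 < κ) (hκ1 : κ ≤ 1) :
    Thin K m (fun H x => hr (aff (x i)) < (1 - κ) * H) := by
  classical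
  refine Thin.coord (A := fun H x => hr (aff (x 0)) < (1 - κ) * H) i ?_
  obtain ⟨C, hC, h⟩ := count_all K (δ := κ) hκ0
  refine ⟨κ, C, hκ0, hκ1, hC, ?_⟩
  intro H hH S hS
  have hinj : Function.Injective fun (x : Fin 1 → K) => x 0 := by
    intro x y hxy
    funext i
    rw [Subsingleton.elim i 0]
    exact hxy
  have h1 := h ((1 - κ) * H) (mul_nonneg (by linarith) hH) (S.image fun x => x 0) fun z hz => by
    obtain ⟨x, hx, rfl⟩ := Finset.mem_image.1 hz
    exact (hS x hx).2.le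
  rw [Finset.card_image_of_injective S hinj] at h1
  refine h1.trans (mul_le_mul_of_nonneg_left (Real.exp_le_exp.2 ?_) hC.le)
  push_cast
  nlinarith [mul_nonneg (mul_nonneg hκ0.le hκ0.le) hH, mul_nonneg hκ0.le hH]

end Pool.Agent.N753.SU
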