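import Mathlib
import Pool.Agent.N753.SU.Thin
import Pool.Agent.N753.SU.StmB
import Pool.Agent.N753.LS.Ht

/-!
# The components of a divisor
-/

set_option autoImplicit false
set_option linter.unusedSectionVars false

namespace Pool.Agent.N753.SU

open NumberField IsDedekindDomain Finset Pool.Agent.H691R3
open Pool.Agent.TH876.Loc hiding mx
open Pool.Agent.N753.LS Pool.Agent.N753.SF Polynomial

variable {K : Type} [Field K] [NumberField K]

/-- an irreducible polynomial depends on a variable -/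
theorem exists_deg {m : ℕ} {F : MvPolynomial (Fin m) K} (hF : Irreducible F) :
    ∃ i, 1 ≤ F.degreeOf i := by
  by_contra hcon
  push Not at hcon
  have h1 : F.totalDegree = 0 := by
    rw [MvPolynomial.totalDegree_eq_zero_iff]
    intro s hs i
    have h2 := MvPolynomial.monomial_le_degreeOf i hs
    have h3 := hcon i
    omega
  rw [MvPolynomial.totalDegree_eq_zero_iff_eq_C] at h1
  have h2 : MvPolynomial.coeff 0 F ≠ 0 := fun h => hF.ne_zero (by rw [h1, h, MvPolynomial.C_0])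
  apply hF.not_isUnit
  rw [h1]
  exact (isUnit_iff_ne_zero.2 h2).map MvPolynomial.C

section Perm

variable {m : ℕ}

theorem eval_swap (hB4 : StmB4) (F : MvPolynomial (Fin (m + 1)) K) (i : Fin (m + 1))
    (x : Fin (m + 1) → K) : MvPolynomial.eval (x ∘ Equiv.swap 0 i)
      (MvPolynomial.rename (Equiv.swap 0 i) F) = MvPolynomial.eval x F := by
  rw [(hB4 K m F (Equiv.swap 0 i)).2.2.2]
  have h : (x ∘ Equiv.swap 0 i) ∘ Equiv.swap 0 i = x := by
    funext j
    simp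
  rw [h]

theorem ddm_swap (hB4 : StmB4) {F : MvPolynomial (Fin (m + 1)) K} (i : Fin (m + 1))
    {x : Fin (m + 1) → K} (hx : MvPolynomial.eval x F ≠ 0) :
    ddm (MvPolynomial.rename (Equiv.swap 0 i) F) (x ∘ Equiv.swap 0 i) = ddm F x := by
  ext v
  rw [mem_ddm (by rw [eval_swap hB4]; exact hx), mem_ddm hx, eval_swap hB4]
  refine and_congr ?_ Iff.rfl
  constructor
  · intro h j
    have := h (Equiv.swap 0 i j)
    simpa using this
  · intro h j
    exact h _

theorem degreeOf_swap (hB4 : StmB4) (F : MvPolynomial (Fin (m + 1)) K) (i : Fin (m + 1)) :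
    (MvPolynomial.rename (Equiv.swap 0 i) F).degreeOf 0 = F.degreeOf i := by
  have h := (hB4 K m F (Equiv.swap 0 i)).2.2.1 i
  rwa [Equiv.swap_apply_right] at h

theorem sumh_swap (hB4 : StmB4) (F : MvPolynomial (Fin (m + 1)) K) (i : Fin (m + 1))
    (x : Fin (m + 1) → K) : ∑ j, ((MvPolynomial.rename (Equiv.swap 0 i) F).degreeOf j : ℝ) *
      hr (aff ((x ∘ Equiv.swap 0 i) j)) = ∑ j, (F.degreeOf j : ℝ) * hr (aff (x j)) := by
  rw [← Equiv.sum_comp (Equiv.swap 0 i)]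
  refine Finset.sum_congr rfl fun j _ => ?_
  rw [(hB4 K m F (Equiv.swap 0 i)).2.2.1 j]
  simp

theorem sumd_swap (hB4 : StmB4) (F : MvPolynomial (Fin (m + 1)) K) (i : Fin (m + 1)) :
    ∑ j, (MvPolynomial.rename (Equiv.swap 0 i) F).degreeOf j = ∑ j, F.degreeOf j := by
  rw [← Equiv.sum_comp (Equiv.swap 0 i)]
  refine Finset.sum_congr rfl fun j _ => ?_
  rw [(hB4 K m F (Equiv.swap 0 i)).2.2.1 j]

end Perm

/-- **one component** -/
theorem thin_comp (hRM : StmRM) (hUM : StmUM) (hZM : StmZM) (hLM : StmLM) (hOD : StmOD)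
    (hB4 : StmB4) {m : ℕ} (F : MvPolynomial (Fin m) K) (hF : Irreducible F) {w : ℝ}
    (hwE : w ≤ (∑ i, F.degreeOf i : ℕ)) (hw : ∑ i, F.degreeOf i ≤ 5 ∨ w ≤ 2)
    {κ : ℝ} (hκ0 : 0 < κ) (hκ1 : κ ≤ 1) :
    Thin K m (fun H x => MvPolynomial.eval x F ≠ 0 ∧
      ∑ v ∈ ddm F x, Real.log (Nv v) < (w - κ) * H) := by
  obtain ⟨i, hi⟩ := exists_deg hF
  cases m with
  | zero => exact i.elim0
  | succ m =>
    obtain ⟨E, hE⟩ : ∃ E : ℕ, E = ∑ i, F.degreeOf i := ⟨_, rfl⟩
    rw [← hE] at hwE hw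
    have hE0 : (0 : ℝ) ≤ E := Nat.cast_nonneg _
    obtain ⟨κ', hκ'⟩ : ∃ κ' : ℝ, κ' = κ / (E + 1) := ⟨_, rfl⟩
    have hκ'0 : 0 < κ' := by rw [hκ']; positivity
    have hκ'E : κ' * (E + 1) = κ := by rw [hκ']; field_simp
    have hκ'1 : κ' ≤ κ := by nlinarith
    obtain ⟨G, hG⟩ : ∃ G, G = MvPolynomial.rename (Equiv.swap 0 i) F := ⟨_, rfl⟩
    have hGi : Irreducible G := by
      rw [hG]
      exact (hB4 K m F (Equiv.swap 0 i)).1 hF
    have hGd : 1 ≤ G.degreeOf 0 := by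
      rw [hG, degreeOf_swap hB4]
      exact hi
    have hGE : ∑ j, G.degreeOf j ≤ E := by
      rw [hG, sumd_swap hB4, hE]
    have h1 : Thin K (m + 1) (fun H x => MvPolynomial.eval x G ≠ 0 ∧
        ∑ v ∈ ddm G x, Real.log (Nv v) <
          ∑ i, (G.degreeOf i : ℝ) * hr (aff (x i)) - κ' * H ∧
        ∑ v ∈ ddm G x, Real.log (Nv v) < (w - κ') * H) := by
      obtain ⟨ν, C, hν, hν1, hC, h⟩ := propAW hRM hUM hZM hLM hOD G hGi hGd E hGE w hw hκ'0
        (hκ'1.trans hκ1)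
      exact ⟨ν, C, hν, hν1, hC, h⟩
    have h2 := h1.perm (Equiv.swap 0 i)
    have h3 : Thin K (m + 1) (fun H x => ∃ j ∈ (univ : Finset (Fin (m + 1))),
        hr (aff (x j)) < (1 - κ') * H) :=
      Thin.ex _ fun j _ => thin_ht j hκ'0 (hκ'1.trans hκ1)
    refine (h2.or h3).mono ?_
    rintro H x hH hxH ⟨hx0, hx1⟩
    by_cases hx2 : ∃ j ∈ (univ : Finset (Fin (m + 1))), hr (aff (x j)) < (1 - κ') * H
    · exact Or.inr hx2
    left
    push Not at hx2
    rw [hG]
    refine ⟨by rw [eval_swap hB4]; exact hx0, ?_, ?_⟩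
    · rw [ddm_swap hB4 i hx0, sumh_swap hB4]
      have h4 : (E : ℝ) * ((1 - κ') * H) ≤ ∑ j, (F.degreeOf j : ℝ) * hr (aff (x j)) := by
        rw [hE]
        push_cast
        rw [Finset.sum_mul]
        exact Finset.sum_le_sum fun j hj => mul_le_mul_of_nonneg_left (hx2 j hj)
          (Nat.cast_nonneg _)
      have h5 := mul_le_mul_of_nonneg_right hwE hH
      have h6 : κ' * (E + 1) * H = κ * H := by rw [hκ'E]
      linarith
    · rw [ddm_swap hB4 i hx0]
      have h5 := mul_le_mul_of_nonneg_right hκ'1 hH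
      linarith

open Classical in
/-- **two components** -/
theorem thin_ovl (hOM : StmOM) (hUM : StmUM) (hZM : StmZM) (hLM : StmLM) (hB4 : StmB4) {m : ℕ}
    (F G : MvPolynomial (Fin m) K) (hF : Irreducible F) (hG : Irreducible G)
    (hFG : ¬ Associated F G) {κ : ℝ} (hκ0 : 0 < κ) (hκ1 : κ ≤ 1) :
    Thin K m (fun H x => MvPolynomial.eval x F ≠ 0 ∧ MvPolynomial.eval x G ≠ 0 ∧
      κ * H ≤ ∑ v ∈ ddm F x ∩ ddm G x, Real.log (Nv v)) := by
  obtain ⟨i, hi⟩ := exists_deg hF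
  cases m with
  | zero => exact i.elim0
  | succ m =>
    obtain ⟨F', hF'⟩ : ∃ F', F' = MvPolynomial.rename (Equiv.swap 0 i) F := ⟨_, rfl⟩
    obtain ⟨G', hG'⟩ : ∃ G', G' = MvPolynomial.rename (Equiv.swap 0 i) G := ⟨_, rfl⟩
    have hFi : Irreducible F' := by
      rw [hF']
      exact (hB4 K m F (Equiv.swap 0 i)).1 hF
    have hGi : Irreducible G' := by
      rw [hG']
      exact (hB4 K m G (Equiv.swap 0 i)).1 hG
    have hFG' : ¬ Associated F' G' := by
      rw [hF', hG']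
      exact (hB4 K m F (Equiv.swap 0 i)).2.1 G hFG
    have hFd : 1 ≤ F'.degreeOf 0 := by
      rw [hF', degreeOf_swap hB4]
      exact hi
    obtain ⟨n, C0, hn, hC0, hnC⟩ := hOM K m F' G' hFi hGi hFG' hFd
    obtain ⟨Bad, hBad⟩ : ∃ Bad : (Fin m → K) → Finset (Pr K), Bad = fun y =>
      if h : MvPolynomial.eval y n ≠ 0 then (hnC y h).choose else ∅ := ⟨_, rfl⟩
    obtain ⟨C1, hC1⟩ : ∃ C1 : ℝ, C1 = C0 * (m + 1) := ⟨_, rfl⟩
    have hC10 : 0 ≤ C1 := by rw [hC1]; positivity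
    have h1 : Thin K (m + 1) (fun H x => MvPolynomial.eval x F' ≠ 0 ∧
        ∑ v ∈ Bad (Fin.tail x), Real.log (Nv v) ≤ C1 * (1 + H) ∧
        κ * H ≤ ∑ v ∈ Bad (Fin.tail x) ∩ ddm F' x, Real.log (Nv v)) := by
      obtain ⟨ν, C, hν, hν1, hC, h⟩ := propBM hUM hLM F' hFi hFd hκ0 hκ1 hC10
      exact ⟨ν, C, hν, hν1, hC, fun H hH S hS => h H hH S Bad hS⟩
    have h2 := thin_zero hZM (MvPolynomial.rename Fin.succ n)
      (fun h => hn (MvPolynomial.rename_injective _ (Fin.succ_injective m) (by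
        rw [h, map_zero])))
    have h3 : Thin K (m + 1) (fun H x => MvPolynomial.eval x F' ≠ 0 ∧
        MvPolynomial.eval x G' ≠ 0 ∧
        κ * H ≤ ∑ v ∈ ddm F' x ∩ ddm G' x, Real.log (Nv v)) := by
      refine (h1.or h2).mono ?_
      rintro H x hH hxH ⟨hx0, hx1, hx2⟩
      have hsu : x ∘ Fin.succ = Fin.tail x := rfl
      by_cases hxn : MvPolynomial.eval x (MvPolynomial.rename Fin.succ n) = 0
      · exact Or.inr hxn
      left
      rw [MvPolynomial.eval_rename, hsu] at hxn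
      have hBx : Bad (Fin.tail x) = (hnC (Fin.tail x) hxn).choose := by
        rw [hBad]
        exact dif_pos hxn
      have hsp := (hnC (Fin.tail x) hxn).choose_spec
      rw [← hBx] at hsp
      obtain ⟨hs1, hs2⟩ := hsp
      refine ⟨hx0, ?_, ?_⟩
      · refine hs1.trans ?_
        rw [hC1, mul_assoc]
        refine mul_le_mul_of_nonneg_left ?_ hC0
        have h4 : ∑ i, hr (aff (Fin.tail x i)) ≤ m * H := sumh_le fun i => hxH i.succ
        have h5 : (0 : ℝ) ≤ m := Nat.cast_nonneg _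
        nlinarith
      · refine hx2.trans (Finset.sum_le_sum_of_subset_of_nonneg ?_ fun v _ _ =>
          (log_Nv_pos v).le)
        intro v hv
        obtain ⟨hv1, hv2⟩ := Finset.mem_inter.1 hv
        refine Finset.mem_inter.2 ⟨?_, hv1⟩
        by_contra hcon
        rw [mem_ddm hx0] at hv1
        rw [mem_ddm hx1] at hv2
        have h4 := (hs2 v hcon).2 (x 0) (hv1.1 0)
        have h5 : (Fin.cons (x 0) (Fin.tail x) : Fin (m + 1) → K) = x := Fin.cons_self_tail x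
        rw [h5] at h4
        exact h4 ⟨hv1.2, hv2.2⟩
    refine (h3.perm (Equiv.swap 0 i)).mono ?_
    rintro H x hH hxH ⟨hx0, hx1, hx2⟩
    rw [hF', hG', eval_swap hB4, eval_swap hB4, ddm_swap hB4 i hx0, ddm_swap hB4 i hx1]
    exact ⟨hx0, hx1, hx2⟩

end Pool.Agent.N753.SU
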