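import Mathlib
import Pool.Agent.N753.SU.Comp

/-!
# The components at infinity
-/

set_option autoImplicit false
set_option linter.unusedSectionVars false

namespace Pool.Agent.N753.SU

open NumberField IsDedekindDomain Finset Pool.Agent.H691R3
open Pool.Agent.TH876.Loc hiding mx
open Pool.Agent.N753.LS Pool.Agent.N753.SF Polynomial

variable {K : Type} [Field K] [NumberField K]

/-- the primes at which a number is not integral -/
noncomputable def pd (z : K) : Finset (Pr K) := (mx_fin z).toFinset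

theorem mem_pd {z : K} {v : Pr K} : v ∈ pd z ↔ 1 < fv v z := by
  unfold pd
  rw [Set.Finite.mem_toFinset, Set.mem_ofPred_eq]
  constructor
  · intro h
    by_contra hcon
    exact h (mx_of_le (not_lt.1 hcon))
  · intro h
    have h1 := log_fv_ge v h
    have h2 := log_Nv_pos v
    show Real.log (max (fv v z) 1) ≠ 0
    linarith

theorem hr_inv (z : K) : hr (aff z⁻¹) = hr (aff z) := by
  rw [hr_aff, hr_aff, Height.logHeight₁_inv]

theorem Thin.inv {m : ℕ} {A : ℝ → (Fin m → K) → Prop} (hA : Thin K m A) :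
    Thin K m (fun H x => A H (fun i => (x i)⁻¹)) := by
  classical
  obtain ⟨ν, C, hν, hν1, hC, hA⟩ := hA
  refine ⟨ν, C, hν, hν1, hC, fun H hH S hS => ?_⟩
  have hinj : Function.Injective fun (x : Fin m → K) (i : Fin m) => (x i)⁻¹ := by
    intro x y hxy
    funext i
    exact inv_injective (congrFun hxy i)
  rw [← Finset.card_image_of_injective S hinj]
  refine hA H hH _ fun y hy => ?_
  obtain ⟨x, hx, rfl⟩ := Finset.mem_image.1 hy
  refine ⟨fun i => ?_, (hS x hx).2⟩
  beta_reduce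
  rw [hr_inv]
  exact (hS x hx).1 i

/-- **a component at infinity** -/
theorem thin_inf (hRM : StmRM) (hUM : StmUM) (hZM : StmZM) (hLM : StmLM) (hOD : StmOD)
    (hB4 : StmB4) {m : ℕ} (i : Fin m) {κ : ℝ} (hκ0 : 0 < κ) (hκ1 : κ ≤ 1) :
    Thin K m (fun H x => ∑ v ∈ pd (x i), Real.log (Nv v) < (1 - κ) * H) := by
  refine Thin.coord (A := fun H x => ∑ v ∈ pd (x 0), Real.log (Nv v) < (1 - κ) * H) i ?_
  have hd : ∑ i, (MvPolynomial.X (0 : Fin 1) : MvPolynomial (Fin 1) K).degreeOf i = 1 := by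
    rw [Fin.sum_univ_one, MvPolynomial.degreeOf_X, if_pos rfl]
  have h1 := thin_comp hRM hUM hZM hLM hOD hB4 (MvPolynomial.X (0 : Fin 1) : MvPolynomial (Fin 1) K)
    (MvPolynomial.X_prime).irreducible (w := 1) (by rw [hd]; norm_num) (Or.inl (by
      rw [hd]; norm_num)) hκ0 hκ1
  have h2 := thin_zero hZM (MvPolynomial.X (0 : Fin 1) : MvPolynomial (Fin 1) K)
    (MvPolynomial.X_ne_zero _)
  refine (h1.inv.or h2).mono ?_
  intro H x hH hxH hx
  by_cases hx0 : x 0 = 0
  · exact Or.inr (by rw [MvPolynomial.eval_X]; exact hx0)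
  left
  have hxi : (x 0)⁻¹ ≠ 0 := inv_ne_zero hx0
  have he : MvPolynomial.eval (fun i => (x i)⁻¹) (MvPolynomial.X (0 : Fin 1) :
      MvPolynomial (Fin 1) K) = (x 0)⁻¹ := by rw [MvPolynomial.eval_X]
  refine ⟨by rw [he]; exact hxi, ?_⟩
  have hs : ddm (MvPolynomial.X (0 : Fin 1) : MvPolynomial (Fin 1) K) (fun i => (x i)⁻¹) =
      pd (x 0) := by
    ext v
    rw [mem_ddm (by rw [he]; exact hxi), mem_pd, he, map_inv₀,
      inv_lt_one₀ ((fv v).pos hx0)]
    constructor
    · exact fun h => h.2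
    · intro h
      refine ⟨fun j => ?_, h⟩
      rw [Subsingleton.elim j 0, map_inv₀]
      exact inv_le_one_of_one_le₀ h.le
  rw [hs]
  exact hx

theorem nm_one (p : Pl K) : nm p (1 : K) = 0 := by
  rcases p with w | v
  · show (w.mult : ℝ) * Real.log (w 1) = 0
    rw [map_one, Real.log_one, mul_zero]
  · show Real.log (fv v 1) = 0
    rw [map_one, Real.log_one]

theorem gn_one' (p : Pl K) : gn p (1 : K[X]) = 0 := by
  obtain ⟨j, hj, hj', h⟩ := gn_eq p (one_ne_zero (α := K[X]))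
  rw [natDegree_one] at hj
  obtain rfl : j = 0 := by omega
  rw [h, coeff_one_zero, nm_one]

/-- **two components at infinity** -/
theorem thin_inf2 [DecidableEq (Pr K)] {m : ℕ} {i j : Fin m} (hij : i ≠ j) {κ : ℝ}
    (hκ0 : 0 < κ) (hκ1 : κ ≤ 1) :
    Thin K m (fun H x => κ * H ≤ ∑ v ∈ pd (x i) ∩ pd (x j), Real.log (Nv v)) := by
  refine Thin.mono (Thin.coord2 (A := fun H x => κ * H ≤ ∑ v ∈ pd (x 0) ∩ pd (x 1),
    Real.log (Nv v)) hij ?_) (fun H x _ _ h => h)
  obtain ⟨ν2, C2, hν2, hν21, hC2, h2⟩ := cnt0 K 1 hκ0 hκ1 (R := 0) le_rfl (C0 := 1) zero_le_one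
  obtain ⟨ν, C, hν, hνle, hC, hfin⟩ := fibM K 1 (ν1 := 1) one_pos le_rfl hν2 hν21 (C1 := 1)
    (C2 := C2) one_pos hC2
  refine ⟨ν, C, hν, hνle, hC, fun H hH S hS => hfin H hH (fun _ => False) ?_ S
    (fun x hx => (hS x hx).1) ?_⟩
  · intro T hT
    have : T = ∅ := Finset.eq_empty_of_forall_notMem fun x hx => (hT x hx).2
    rw [this, Finset.card_empty, Nat.cast_zero]
    positivity
  · intro y hyH _ S' hS'
    refine h2 H hH 1 one_ne_zero (by simp) ?_ (pd (y 0)) ?_ S' ?_
    · rw [zero_mul]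
      unfold ht
      simp only [gn_one', Finset.sum_const_zero, finsum_zero, add_zero, le_refl]
    · have h3 : ∑ v ∈ pd (y 0), Real.log (Nv v) ≤ ∑ v ∈ pd (y 0), mx (Sum.inr v) (y 0) :=
        Finset.sum_le_sum fun v hv => log_fv_ge v (mem_pd.1 hv)
      have h4 := sum_mx_le (y 0) (pd (y 0))
      have h5 : 0 ≤ ∑ w : InfinitePlace K, mx (Sum.inl w) (y 0) :=
        Finset.sum_nonneg fun w _ => mx_nonneg _ _
      have h6 := hyH 0
      linarith
    · intro z hz
      obtain ⟨h3, h4⟩ := hS _ (hS' z hz)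
      have h5 := h3 0
      rw [Fin.cons_zero] at h5 h4
      have e1 : (Fin.cons z y : Fin 2 → K) 1 = y 0 := rfl
      rw [e1] at h4
      refine ⟨h5, Or.inr (h4.trans ?_)⟩
      have hmv : ∀ p : Pl K, mv p 1 (1 : K[X]) z = mx p z := by
        intro p
        unfold mv
        rw [gn_one', eval_one, nm_one]
        push_cast
        ring
      simp only [hmv]
      have h6 : 0 ≤ ∑ w : InfinitePlace K, mx (Sum.inl w) z :=
        Finset.sum_nonneg fun w _ => mx_nonneg _ _
      have h7 : ∑ v ∈ pd z ∩ pd (y 0), Real.log (Nv v) ≤ ∑ v ∈ pd z ∩ pd (y 0),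
          mx (Sum.inr v) z :=
        Finset.sum_le_sum fun v hv => log_fv_ge v (mem_pd.1 (Finset.mem_inter.1 hv).1)
      have h8 : ∑ v ∈ pd z ∩ pd (y 0), mx (Sum.inr v) z ≤ ∑ v ∈ pd (y 0), mx (Sum.inr v) z :=
        Finset.sum_le_sum_of_subset_of_nonneg Finset.inter_subset_right fun v _ _ =>
          mx_nonneg _ _
      linarith

end Pool.Agent.N753.SU
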