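import Mathlib
import Pool.Agent.N753.SU.Inf
import Pool.Agent.N753.LS.SetE
import Pool.Agent.N753.SF.Mob

/-!
# All divisors at once
-/

set_option autoImplicit false
set_option linter.unusedSectionVars false

namespace Pool.Agent.N753.SU

open NumberField IsDedekindDomain Finset Pool.Agent.H691R3
open Pool.Agent.TH876.Loc hiding mx
open Pool.Agent.N753.LS Pool.Agent.N753.SF Polynomial

section Bonf

variable {α ι : Type} [DecidableEq α] [DecidableEq ι]

theorem sum_biU (s : Finset ι) (B : ι → Finset α) (w : α → ℝ) (hw : ∀ a, 0 ≤ w a) :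
    ∑ v ∈ s.biUnion B, w v ≤ ∑ l ∈ s, ∑ v ∈ B l, w v := by
  induction s using Finset.induction_on with
  | empty => simp
  | insert a s ha ih =>
    rw [Finset.biUnion_insert, Finset.sum_insert ha]
    have h1 : ∑ v ∈ B a ∪ s.biUnion B, w v + ∑ v ∈ B a ∩ s.biUnion B, w v =
        ∑ v ∈ B a, w v + ∑ v ∈ s.biUnion B, w v := Finset.sum_union_inter
    have h2 : 0 ≤ ∑ v ∈ B a ∩ s.biUnion B, w v := Finset.sum_nonneg fun v _ => hw v
    linarith

/-- Bonferroni's inequality -/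
theorem bonf (s : Finset ι) (A : ι → Finset α) (w : α → ℝ) (hw : ∀ a, 0 ≤ w a) :
    ∑ k ∈ s, ∑ v ∈ A k, w v ≤ ∑ v ∈ s.biUnion A, w v +
      ∑ k ∈ s, ∑ l ∈ s, if k = l then 0 else ∑ v ∈ A k ∩ A l, w v := by
  have hnn : ∀ k l, 0 ≤ (if k = l then (0 : ℝ) else ∑ v ∈ A k ∩ A l, w v) := by
    intro k l
    split_ifs
    · exact le_rfl
    · exact Finset.sum_nonneg fun v _ => hw v
  induction s using Finset.induction_on with
  | empty => simp
  | insert a s ha ih =>
    rw [Finset.sum_insert ha, Finset.biUnion_insert, Finset.sum_insert ha, Finset.sum_insert ha,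
      if_pos rfl]
    have h1 : ∑ v ∈ A a ∪ s.biUnion A, w v + ∑ v ∈ A a ∩ s.biUnion A, w v =
        ∑ v ∈ A a, w v + ∑ v ∈ s.biUnion A, w v := Finset.sum_union_inter
    have h2 : ∑ v ∈ A a ∩ s.biUnion A, w v ≤
        ∑ l ∈ s, if a = l then 0 else ∑ v ∈ A a ∩ A l, w v := by
      have e1 : ∑ l ∈ s, (if a = l then (0 : ℝ) else ∑ v ∈ A a ∩ A l, w v) =
          ∑ l ∈ s, ∑ v ∈ A a ∩ A l, w v := by
        refine Finset.sum_congr rfl fun l hl => ?_
        rw [if_neg]
        rintro rfl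
        exact ha hl
      rw [e1]
      have e2 : A a ∩ s.biUnion A = s.biUnion fun l => A a ∩ A l := by
        ext v
        simp only [Finset.mem_inter, Finset.mem_biUnion]
        constructor
        · rintro ⟨h, l, hl, hl'⟩
          exact ⟨l, hl, h, hl'⟩
        · rintro ⟨l, hl, h, hl'⟩
          exact ⟨h, l, hl, hl'⟩
      rw [e2]
      exact sum_biU s _ w hw
    have h3 : ∑ k ∈ s, ∑ l ∈ s, (if k = l then (0 : ℝ) else ∑ v ∈ A k ∩ A l, w v) ≤
        ∑ k ∈ s, ∑ l ∈ insert a s, (if k = l then (0 : ℝ) else ∑ v ∈ A k ∩ A l, w v) := by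
      refine Finset.sum_le_sum fun k _ => ?_
      rw [Finset.sum_insert ha]
      have := hnn k a
      linarith
    linarith

end Bonf

variable {K : Type} [Field K] [NumberField K]

/-- the primes over which the point meets the components -/
noncomputable def cp {m r : ℕ} (F : Fin r → MvPolynomial (Fin m) K) (x : Fin m → K) :
    Fin r ⊕ Fin m → Finset (Pr K) :=
  Sum.elim (fun j => ddm (F j) x) (fun i => pd (x i))

/-- the weight of a component of total degree `E` -/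
def wt (E : ℕ) : ℕ := if E ≤ 5 then E else 2

open Classical in
/-- **one divisor** -/
theorem thin_total {m r : ℕ} (F : Fin r → MvPolynomial (Fin m) K) (s : Finset (Fin r ⊕ Fin m))
    (w : Fin r ⊕ Fin m → ℝ) (P : (Fin m → K) → Prop)
    (hA : ∀ k ∈ s, ∀ κ : ℝ, 0 < κ → κ ≤ 1 → Thin K m (fun H x => P x ∧
      ∑ v ∈ cp F x k, Real.log (Nv v) < (w k - κ) * H))
    (hB : ∀ k ∈ s, ∀ l ∈ s, k ≠ l → ∀ κ : ℝ, 0 < κ → κ ≤ 1 → Thin K m (fun H x => P x ∧
      κ * H ≤ ∑ v ∈ cp F x k ∩ cp F x l, Real.log (Nv v)))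
    (T : Finset (Pr K)) {κ : ℝ} (hκ0 : 0 < κ) (hκ1 : κ ≤ 1) :
    Thin K m (fun H x => P x ∧
      ∑ v ∈ s.biUnion (cp F x) \ T, Real.log (Nv v) < (∑ k ∈ s, w k - κ) * H) := by
  obtain ⟨n, hn⟩ : ∃ n : ℝ, n = s.card := ⟨_, rfl⟩
  have hn0 : 0 ≤ n := by rw [hn]; exact Nat.cast_nonneg _
  obtain ⟨κ', hκ'⟩ : ∃ κ' : ℝ, κ' = κ / (4 * (n + 1) ^ 2) := ⟨_, rfl⟩
  have hκ'0 : 0 < κ' := by rw [hκ']; positivity
  have hκ'n : κ' * (n + 1) ^ 2 = κ / 4 := by rw [hκ']; field_simp
  have hκ'1 : κ' ≤ 1 := by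
    have h1 : 1 ≤ (n + 1) ^ 2 := by nlinarith
    nlinarith
  obtain ⟨t, ht⟩ : ∃ t : ℝ, t = ∑ v ∈ T, Real.log (Nv v) := ⟨_, rfl⟩
  have h1 := Thin.ex s fun k hk => hA k hk κ' hκ'0 hκ'1
  have h2 : Thin K m (fun H x => ∃ k ∈ s, ∃ l ∈ s.erase k, P x ∧
      κ' * H ≤ ∑ v ∈ cp F x k ∩ cp F x l, Real.log (Nv v)) :=
    Thin.ex s fun k hk => Thin.ex (s.erase k) fun l hl =>
      hB k hk l (Finset.mem_of_mem_erase hl) (Finset.ne_of_mem_erase hl).symm κ' hκ'0 hκ'1
  refine (h1.or (h2.or (thin_bdd m (4 * t / κ)))).mono ?_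
  rintro H x hH hxH ⟨hxP, hx⟩
  by_contra hcon
  push Not at hcon
  obtain ⟨hc1, hc2, hc3⟩ := hcon
  have e1 : ∑ k ∈ s, (w k - κ') * H ≤ ∑ k ∈ s, ∑ v ∈ cp F x k, Real.log (Nv v) :=
    Finset.sum_le_sum fun k hk => hc1 k hk hxP
  have e2 := bonf s (cp F x) (fun v => Real.log (Nv v)) fun v => (log_Nv_pos v).le
  have e3 : ∑ k ∈ s, ∑ l ∈ s, (if k = l then (0 : ℝ) else
      ∑ v ∈ cp F x k ∩ cp F x l, Real.log (Nv v)) ≤ ∑ k ∈ s, ∑ l ∈ s, κ' * H := by
    refine Finset.sum_le_sum fun k hk => Finset.sum_le_sum fun l hl => ?_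
    split_ifs with hkl
    · positivity
    · exact (hc2 k hk l (Finset.mem_erase.2 ⟨fun h => hkl h.symm, hl⟩) hxP).le
  rw [Finset.sum_const, Finset.sum_const, nsmul_eq_mul, nsmul_eq_mul, ← hn] at e3
  rw [← Finset.sum_mul, Finset.sum_sub_distrib, Finset.sum_const, nsmul_eq_mul, ← hn] at e1
  have e4 : ∑ v ∈ s.biUnion (cp F x), Real.log (Nv v) - t ≤
      ∑ v ∈ s.biUnion (cp F x) \ T, Real.log (Nv v) := by
    rw [ht, sub_le_iff_le_add]
    refine (Finset.sum_le_sum_of_subset_of_nonneg (t := s.biUnion (cp F x) \ T ∪ T) ?_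
      fun v _ _ => (log_Nv_pos v).le).trans (le_of_eq ?_)
    · intro v hv
      by_cases hvT : v ∈ T
      · exact Finset.mem_union_right _ hvT
      · exact Finset.mem_union_left _ (Finset.mem_sdiff.2 ⟨hv, hvT⟩)
    · exact Finset.sum_union Finset.sdiff_disjoint
  have e5 : t ≤ κ / 4 * H := by
    rw [div_lt_iff₀ hκ0] at hc3
    linarith
  have e6 : κ' * (n + 1) ^ 2 * H = κ / 4 * H := by rw [hκ'n]
  have e7 : 0 ≤ κ' * H := by positivity
  have e8 : 0 ≤ κ * H := by positivity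
  nlinarith

/-- **one exceptional set for countably many problems** -/
theorem diag2 {X : Type} (ht : X → ℝ) (hbox : ∀ H : ℝ, {x | ht x ≤ H}.Finite) (E : ℕ → Set X)
    {α : ℝ} (hE : ∀ n, ∃ ν C : ℝ, 0 < ν ∧ ∀ H : ℝ, 0 ≤ H →
      ((E n ∩ {x | ht x ≤ H}).ncard : ℝ) ≤ C * Real.exp ((α - ν) * H)) :
    ∃ (T : Set X) (h : ℕ → ℝ), (∀ n, ∀ x ∈ E n, x ∉ T → ht x < h n) ∧
      ∀ H : ℝ, 0 ≤ H → ((T ∩ {x | ht x ≤ H}).ncard : ℝ) ≤ 2 * Real.exp (α * H - √H) := by
  classical
  choose ν C hν hC using hE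
  obtain ⟨D, hD⟩ : ∃ D : ℕ → ℝ, D = fun n => max (C n) 1 := ⟨_, rfl⟩
  have hD1 : ∀ n, 1 ≤ D n := fun n => by rw [hD]; exact le_max_right _ _
  have hDC : ∀ n, C n ≤ D n := fun n => by rw [hD]; exact le_max_left _ _
  have hl2 : 0 < Real.log 2 := Real.log_pos (by norm_num)
  have hlD : ∀ n, 0 ≤ Real.log (D n) := fun n => Real.log_nonneg (hD1 n)
  obtain ⟨h, hh⟩ : ∃ h : ℕ → ℝ, h = fun n => max (4 / ν n ^ 2)
    (max (2 * (Real.log (D n) + n * Real.log 2) / ν n) n) := ⟨_, rfl⟩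
  have hh1 : ∀ n H, h n ≤ H → Real.log (D n) + n * Real.log 2 + √H ≤ ν n * H := by
    intro n H hH
    rw [hh] at hH
    beta_reduce at hH
    have h1 : 4 / ν n ^ 2 ≤ H := (le_max_left _ _).trans hH
    have h2 : 2 * (Real.log (D n) + n * Real.log 2) / ν n ≤ H :=
      (le_max_left _ _).trans ((le_max_right _ _).trans hH)
    rw [div_le_iff₀ (hν n)] at h2
    have hH0 : 0 ≤ H := le_trans (by have := hν n; positivity) h1
    have h3 : 2 / ν n ≤ √H := by
      refine Real.le_sqrt_of_sq_le ?_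
      rw [div_pow]
      norm_num
      exact h1
    rw [div_le_iff₀ (hν n)] at h3
    have h4 : √H * √H = H := Real.mul_self_sqrt hH0
    have h5 : 0 ≤ √H := Real.sqrt_nonneg _
    have h6 := mul_le_mul_of_nonneg_left h3 h5
    have h7 : √H * (√H * ν n) = ν n * H := by
      rw [← mul_assoc, h4, mul_comm]
    rw [h7] at h6
    linarith
  have hhn : ∀ n : ℕ, (n : ℝ) ≤ h n := fun n => by
    rw [hh]
    exact (le_max_right _ _).trans (le_max_right _ _)
  refine ⟨⋃ n, E n ∩ {x | h n ≤ ht x}, h, ?_, ?_⟩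
  · intro n x hx hxT
    by_contra hcon
    rw [not_lt] at hcon
    exact hxT (Set.mem_iUnion.2 ⟨n, hx, hcon⟩)
  · intro H hH
    obtain ⟨N, hN⟩ := exists_nat_gt H
    have hNn : ∀ n, N ≤ n → H < h n := by
      intro n hn
      have h1 : (N : ℝ) ≤ n := by exact_mod_cast hn
      linarith [hhn n]
    -- the pieces
    let A : ℕ → Finset X := fun n =>
      if h n ≤ H then ((hbox H).subset (Set.inter_subset_right (s := E n))).toFinset else ∅
    have hsub : (⋃ n, E n ∩ {x | h n ≤ ht x}) ∩ {x | ht x ≤ H} ⊆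
        (((Finset.range N).biUnion A : Finset X) : Set X) := by
      rintro x ⟨hx, hxH⟩
      obtain ⟨n, hxn, hn⟩ := Set.mem_iUnion.1 hx
      have hn' : h n ≤ ht x := hn
      have hxH' : ht x ≤ H := hxH
      have hnH : h n ≤ H := hn'.trans hxH'
      rw [Finset.mem_coe, Finset.mem_biUnion]
      refine ⟨n, ?_, ?_⟩
      · rw [Finset.mem_range]
        by_contra hcon
        exact absurd hnH (not_le.2 (hNn n (not_lt.1 hcon)))
      · show x ∈ if h n ≤ H then _ else _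
        rw [if_pos hnH, Set.Finite.mem_toFinset]
        exact ⟨hxn, hxH⟩
    have hcard : ∀ n, ((A n).card : ℝ) ≤ (1 / 2) ^ n * Real.exp (α * H - √H) := by
      intro n
      by_cases hn : h n ≤ H
      · have h1 : (A n).card = (E n ∩ {x | ht x ≤ H}).ncard := by
          have e : A n = ((hbox H).subset (Set.inter_subset_right (s := E n))).toFinset := if_pos hn
          rw [e, Set.ncard_eq_toFinset_card _ ((hbox H).subset (Set.inter_subset_right (s := E n)))]
        rw [h1]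
        refine (hC n H hH).trans ?_
        have h2 := hh1 n H hn
        have h3 : (1 / 2 : ℝ) ^ n = Real.exp (-(n * Real.log 2)) := by
          rw [Real.exp_neg, Real.exp_nat_mul, Real.exp_log (by norm_num), one_div, inv_pow]
        have h0 : 0 < D n := by linarith [hD1 n]
        calc C n * Real.exp ((α - ν n) * H) ≤ D n * Real.exp ((α - ν n) * H) :=
              mul_le_mul_of_nonneg_right (hDC n) (Real.exp_pos _).le
          _ = Real.exp (Real.log (D n) + (α - ν n) * H) := by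
              rw [Real.exp_add, Real.exp_log h0]
          _ ≤ Real.exp (-(n * Real.log 2) + (α * H - √H)) := Real.exp_le_exp.2 (by linarith)
          _ = _ := by rw [Real.exp_add, h3]
      · have e : A n = ∅ := if_neg hn
        rw [e, Finset.card_empty, Nat.cast_zero]
        positivity
    calc (((⋃ n, E n ∩ {x | h n ≤ ht x}) ∩ {x | ht x ≤ H}).ncard : ℝ)
        ≤ (((((Finset.range N).biUnion A : Finset X) : Set X)).ncard : ℝ) := by
          exact_mod_cast Set.ncard_le_ncard hsub (Finset.finite_toSet _)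
      _ = (((Finset.range N).biUnion A).card : ℝ) := by rw [Set.ncard_coe_finset]
      _ ≤ ∑ n ∈ Finset.range N, ((A n).card : ℝ) := by exact_mod_cast Finset.card_biUnion_le
      _ ≤ ∑ n ∈ Finset.range N, (1 / 2) ^ n * Real.exp (α * H - √H) :=
          Finset.sum_le_sum fun n _ => hcard n
      _ = (∑ n ∈ Finset.range N, (1 / 2 : ℝ) ^ n) * Real.exp (α * H - √H) := by
          rw [Finset.sum_mul]
      _ ≤ 2 * Real.exp (α * H - √H) := by
          refine mul_le_mul_of_nonneg_right ?_ (Real.exp_pos _).le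
          have h1 := summable_geometric_two.sum_le_tsum (Finset.range N)
            (fun n _ => by positivity)
          rw [tsum_geometric_two] at h1
          exact h1

end Pool.Agent.N753.SU
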