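import Mathlib
import Pool.Agent.N753.SU.Asm

/-!
# One exceptional set for all divisors
-/

set_option autoImplicit false
set_option linter.unusedSectionVars false

namespace Pool.Agent.N753.SU

open NumberField IsDedekindDomain Finset Pool.Agent.H691R3
open Pool.Agent.TH876.Loc hiding mx
open Pool.Agent.N753.LS Pool.Agent.N753.SF Polynomial

variable {K : Type} [Field K] [NumberField K]

variable (K) in
theorem countable_mv (m : ℕ) : Countable (MvPolynomial (Fin m) K) := by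
  have := countable_K K
  rw [← Cardinal.mk_le_aleph0_iff]
  refine MvPolynomial.cardinalMk_le_max.trans (max_le (max_le ?_ ?_) le_rfl)
  · rw [Cardinal.mk_le_aleph0_iff]
    exact this
  · rw [Cardinal.mk_le_aleph0_iff]
    infer_instance

/-- the weight of a divisor -/
noncomputable def wtt {m r : ℕ} (F : Fin r → MvPolynomial (Fin m) K) (I : Finset (Fin m)) : ℝ :=
  ∑ j, (wt (∑ i, (F j).degreeOf i) : ℝ) + I.card

open Classical in
/-- the primes over which the point meets the divisor -/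
noncomputable def UU {m r : ℕ} (F : Fin r → MvPolynomial (Fin m) K) (I : Finset (Fin m))
    (x : Fin m → K) : Finset (Pr K) := (Finset.univ.disjSum I).biUnion (cp F x)

/-- the exceptional points -/
def Exc {m r : ℕ} (F : Fin r → MvPolynomial (Fin m) K) (I : Finset (Fin m)) (κ : ℝ) :
    Set (Fin m → K) :=
  {x | ((∀ j, MvPolynomial.eval x (F j) ≠ 0) ∧
    ∑ v ∈ UU F I x, Real.log (Nv v) < (wtt F I - κ) * htm x) ∨
      ∃ i, hr (aff (x i)) < (1 - κ) * htm x}

theorem ddm_pd_disj {m : ℕ} {F : MvPolynomial (Fin m) K} {x : Fin m → K}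
    (hx : MvPolynomial.eval x F ≠ 0) (i : Fin m) [DecidableEq (Pr K)] :
    ddm F x ∩ pd (x i) = ∅ := by
  refine Finset.eq_empty_of_forall_notMem fun v hv => ?_
  obtain ⟨h1, h2⟩ := Finset.mem_inter.1 hv
  rw [mem_ddm hx] at h1
  rw [mem_pd] at h2
  exact absurd (h1.1 i) (not_le.2 h2)

/-- **one divisor** -/
theorem thin_Exc (hRM : StmRM) (hUM : StmUM) (hZM : StmZM) (hLM : StmLM) (hOD : StmOD)
    (hOM : StmOM) (hB4 : StmB4) {m r : ℕ} (F : Fin r → MvPolynomial (Fin m) K)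
    (I : Finset (Fin m)) (hF : ∀ j, Irreducible (F j)) (hFF : ∀ j k, j ≠ k → ¬ Associated (F j) (F k))
    {κ : ℝ} (hκ0 : 0 < κ) (hκ1 : κ ≤ 1) :
    Thin K m (fun H x => ((∀ j, MvPolynomial.eval x (F j) ≠ 0) ∧
      ∑ v ∈ UU F I x, Real.log (Nv v) < (wtt F I - κ) * H) ∨
        ∃ i ∈ (univ : Finset (Fin m)), hr (aff (x i)) < (1 - κ) * H) := by
  classical
  refine Thin.or ?_ (Thin.ex _ fun i _ => thin_ht i hκ0 hκ1)
  have h1 := thin_total F (Finset.univ.disjSum I)
    (Sum.elim (fun j => (wt (∑ i, (F j).degreeOf i) : ℝ)) (fun _ => 1))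
    (fun x => ∀ j, MvPolynomial.eval x (F j) ≠ 0) (by
      rintro (j | i) hk κ' hκ'0 hκ'1
      · have hw : (wt (∑ i, (F j).degreeOf i) : ℝ) ≤ (∑ i, (F j).degreeOf i : ℕ) := by
          unfold wt
          split_ifs with h
          · exact le_rfl
          · exact_mod_cast (by omega : 2 ≤ ∑ i, (F j).degreeOf i)
        have hw2 : ∑ i, (F j).degreeOf i ≤ 5 ∨ (wt (∑ i, (F j).degreeOf i) : ℝ) ≤ 2 := by
          unfold wt
          split_ifs with h
          · exact Or.inl h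
          · exact Or.inr (by norm_num)
        refine (thin_comp hRM hUM hZM hLM hOD hB4 (F j) (hF j) hw hw2 hκ'0 hκ'1).mono ?_
        rintro H x _ _ ⟨hx1, hx2⟩
        exact ⟨hx1 j, hx2⟩
      · refine (thin_inf hRM hUM hZM hLM hOD hB4 i hκ'0 hκ'1).mono ?_
        rintro H x _ _ ⟨hx1, hx2⟩
        exact hx2) (by
      rintro (j | i) hk (k | l) hl hkl κ' hκ'0 hκ'1
      · refine (thin_ovl hOM hUM hZM hLM hB4 (F j) (F k) (hF j) (hF k)
          (hFF j k fun h => hkl (by rw [h])) hκ'0 hκ'1).mono ?_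
        rintro H x _ _ ⟨hx1, hx2⟩
        exact ⟨hx1 j, hx1 k, hx2⟩
      · refine (thin_bdd m 0).mono ?_
        rintro H x hH _ ⟨hx1, hx2⟩
        have h3 : ∑ v ∈ cp F x (Sum.inl j) ∩ cp F x (Sum.inr l), Real.log (Nv v) = 0 := by
          show ∑ v ∈ ddm (F j) x ∩ pd (x l), Real.log (Nv v) = 0
          rw [ddm_pd_disj (hx1 j), Finset.sum_empty]
        rw [h3] at hx2
        by_contra hcon
        rw [not_le] at hcon
        have := mul_pos hκ'0 hcon
        linarith
      · refine (thin_bdd m 0).mono ?_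
        rintro H x hH _ ⟨hx1, hx2⟩
        have h3 : ∑ v ∈ cp F x (Sum.inr i) ∩ cp F x (Sum.inl k), Real.log (Nv v) = 0 := by
          show ∑ v ∈ pd (x i) ∩ ddm (F k) x, Real.log (Nv v) = 0
          rw [Finset.inter_comm, ddm_pd_disj (hx1 k), Finset.sum_empty]
        rw [h3] at hx2
        by_contra hcon
        rw [not_le] at hcon
        have := mul_pos hκ'0 hcon
        linarith
      · refine (thin_inf2 (fun h => hkl (by rw [h])) hκ'0 hκ'1 (i := i) (j := l)).mono ?_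
        rintro H x _ _ ⟨hx1, hx2⟩
        exact hx2) ∅ hκ0 hκ1
  refine h1.mono ?_
  rintro H x _ _ ⟨hx1, hx2⟩
  refine ⟨hx1, ?_⟩
  rw [Finset.sdiff_empty, Finset.sum_disjSum]
  simp only [Sum.elim_inl, Sum.elim_inr, Finset.sum_const, nsmul_eq_mul, mul_one]
  exact hx2

variable (K) in
open Classical in
/-- **one exceptional set for all divisors** -/
theorem all_div (hRM : StmRM) (hUM : StmUM) (hZM : StmZM) (hLM : StmLM) (hOD : StmOD)
    (hOM : StmOM) (hB4 : StmB4) (m : ℕ) (hm : 0 < m) :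
    ∃ E : Set (Fin m → K), (∀ H : ℝ, 0 ≤ H → ((E ∩ {x | htm x ≤ H}).ncard : ℝ) ≤
      2 * Real.exp (2 * m * H - √H)) ∧
      ∀ (r : ℕ) (F : Fin r → MvPolynomial (Fin m) K) (I : Finset (Fin m)),
        (∀ j, Irreducible (F j)) → (∀ j k, j ≠ k → ¬ Associated (F j) (F k)) → ∀ κ : ℝ, 0 < κ →
        ∃ h0 : ℝ, ∀ x : Fin m → K, x ∉ E → h0 ≤ htm x →
          (∀ j, MvPolynomial.eval x (F j) ≠ 0) →
            (wtt F I - κ) * htm x ≤ ∑ v ∈ UU F I x, Real.log (Nv v) ∧
              ∀ i, (1 - κ) * htm x ≤ hr (aff (x i)) := by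
  have hc := countable_mv K m
  obtain ⟨e, he⟩ := exists_surjective_nat
    ((Σ r : ℕ, Fin r → MvPolynomial (Fin m) K) × Finset (Fin m) × ℕ)
  obtain ⟨T, h, hT1, hT2⟩ := diag2 (X := Fin m → K) htm (fun H => box_fin H)
    (fun n => if (∀ j, Irreducible ((e n).1.2 j)) ∧
      (∀ j k, j ≠ k → ¬ Associated ((e n).1.2 j) ((e n).1.2 k)) then
        Exc (e n).1.2 (e n).2.1 (1 / ((e n).2.2 + 1 : ℝ)) else ∅) (α := 2 * m) (by
      intro n
      by_cases hn : (∀ j, Irreducible ((e n).1.2 j)) ∧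
        (∀ j k, j ≠ k → ¬ Associated ((e n).1.2 j) ((e n).1.2 k))
      · rw [if_pos hn]
        obtain ⟨κ, hκ⟩ : ∃ κ : ℝ, κ = 1 / ((e n).2.2 + 1 : ℝ) := ⟨_, rfl⟩
        rw [← hκ]
        have hκ0 : 0 < κ := by rw [hκ]; positivity
        have hκ1 : κ ≤ 1 := by
          rw [hκ, div_le_one (by positivity)]
          linarith [(Nat.cast_nonneg (e n).2.2 : (0 : ℝ) ≤ ((e n).2.2 : ℝ))]
        obtain ⟨ν, C, hν, hν1, hC, hmain⟩ := thin_Exc hRM hUM hZM hLM hOD hOM hB4 (e n).1.2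
          (e n).2.1 hn.1 hn.2 hκ0 hκ1
        refine ⟨ν, C, hν, fun H hH => ?_⟩
        have hfin : (Exc (e n).1.2 (e n).2.1 κ ∩ {x | htm x ≤ H}).Finite :=
          (box_fin H).subset Set.inter_subset_right
        rw [Set.ncard_eq_toFinset_card _ hfin]
        refine hmain H hH _ fun x hx => ?_
        rw [Set.Finite.mem_toFinset] at hx
        obtain ⟨hx1, hx2⟩ := hx
        have hx2' : htm x ≤ H := hx2
        have hmon : ∀ i, hr (aff (x i)) ≤ htm x := fun i => by
          rw [hr_aff]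
          exact le_htm x i
        refine ⟨fun i => (hmon i).trans hx2', ?_⟩
        have h0 : 0 ≤ htm x := (hr_aff_nonneg _).trans (hmon ⟨0, hm⟩)
        rcases hx1 with ⟨hx3, hx4⟩ | ⟨i, hi⟩
        · left
          refine ⟨hx3, ?_⟩
          by_cases hW : 0 ≤ wtt (e n).1.2 (e n).2.1 - κ
          · exact hx4.trans_le (mul_le_mul_of_nonneg_left hx2' hW)
          · exfalso
            rw [not_le] at hW
            have h1 := mul_nonpos_of_nonpos_of_nonneg hW.le h0
            have h2 : 0 ≤ ∑ v ∈ UU (e n).1.2 (e n).2.1 x, Real.log (Nv v) :=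
              Finset.sum_nonneg fun v _ => (log_Nv_pos v).le
            linarith
        · right
          exact ⟨i, Finset.mem_univ i, hi.trans_le (mul_le_mul_of_nonneg_left hx2' (by linarith))⟩
      · refine ⟨1, 0, one_pos, fun H hH => ?_⟩
        rw [if_neg hn, Set.empty_inter, Set.ncard_empty, Nat.cast_zero, zero_mul])
  refine ⟨T, hT2, ?_⟩
  intro r F I hF hFF κ hκ
  obtain ⟨k, hk⟩ := exists_nat_gt (1 / κ)
  have hk2 : 1 / (k + 1 : ℝ) ≤ κ := by
    rw [div_lt_iff₀ hκ] at hk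
    rw [div_le_iff₀ (by positivity)]
    nlinarith
  obtain ⟨n, hn⟩ := he (⟨r, F⟩, I, k)
  refine ⟨h n, fun x hxT hxh hx0 => ?_⟩
  have h1 : x ∉ Exc F I (1 / (k + 1 : ℝ)) := by
    intro hx
    have h2 := hT1 n x (by
      rw [hn, if_pos ⟨hF, hFF⟩]
      exact hx) hxT
    linarith
  have h0 : 0 ≤ htm x := by
    have h2 := le_htm x ⟨0, hm⟩
    rw [← hr_aff] at h2
    exact (hr_aff_nonneg _).trans h2
  unfold Exc at h1
  rw [Set.mem_ofPred_eq, not_or, not_and, not_exists] at h1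
  obtain ⟨h2, h3⟩ := h1
  have h4 := mul_le_mul_of_nonneg_right hk2 h0
  refine ⟨?_, fun i => ?_⟩
  · have h5 := not_lt.1 (h2 hx0)
    linarith
  · have h5 := not_lt.1 (h3 i)
    linarith

end Pool.Agent.N753.SU
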