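import Mathlib
import Pool.Agent.N753.SU.All

/-!
# The truncated counting function
-/

set_option autoImplicit false
set_option linter.unusedSectionVars false

namespace Pool.Agent.N753.SU

open NumberField IsDedekindDomain Finset Pool.Agent.H691R3
open Pool.Agent.TH876.Loc hiding mx
open Pool.Agent.N753.LS Pool.Agent.N753.SF Polynomial

variable {K : Type} [Field K] [NumberField K]

/-- the local height -/
noncomputable def lh {m : ℕ} (v : Pr K) (F : MvPolynomial (Fin m) K) (x : Fin m → K) : ℝ :=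
  Real.log (⨆ s : F.support, FinitePlace.mk v (F.coeff s)) +
    ∑ i, (F.degreeOf i : ℝ) * Real.log (max 1 (FinitePlace.mk v (x i))) -
      Real.log (FinitePlace.mk v (MvPolynomial.eval x F))

/-- the local height of the divisor -/
noncomputable def lhD {m r : ℕ} (v : Pr K) (F : Fin r → MvPolynomial (Fin m) K)
    (I : Finset (Fin m)) (x : Fin m → K) : ℝ :=
  ∑ j, lh v (F j) x + ∑ i ∈ I, Real.log (max 1 (FinitePlace.mk v (x i)))

/-- the truncated counting function -/
noncomputable def cnt1 {m r : ℕ} (S : Set (Pr K)) (F : Fin r → MvPolynomial (Fin m) K)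
    (I : Finset (Fin m)) (x : Fin m → K) : ℝ :=
  ∑ᶠ (v : Pr K) (_ : v ∉ S), min (Real.log (Nv v)) (lhD v F I x)

/-- the coefficients -/
def cfs {m : ℕ} (F : MvPolynomial (Fin m) K) : F.support → K := fun s => F.coeff s

theorem cfs_ne {m : ℕ} {F : MvPolynomial (Fin m) K} (hF : F ≠ 0) : ∃ k, cfs F k ≠ 0 := by
  obtain ⟨s, hs⟩ := MvPolynomial.support_nonempty.2 hF
  exact ⟨⟨s, hs⟩, MvPolynomial.mem_support_iff.1 hs⟩

theorem lh_eq {m : ℕ} (v : Pr K) (F : MvPolynomial (Fin m) K) (x : Fin m → K) :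
    lh v F x = lm (Sum.inr v) (cfs F) + ∑ i, (F.degreeOf i : ℝ) * mx (Sum.inr v) (x i) -
      nm (Sum.inr v) (MvPolynomial.eval x F) := by
  have h1 : ∀ i, Real.log (max 1 (FinitePlace.mk v (x i))) = mx (Sum.inr v) (x i) := fun i => by
    rw [max_comm]
    rfl
  unfold lh
  simp only [h1]
  rfl

/-- the local heights are not negative -/
theorem lh_nonneg {m : ℕ} (v : Pr K) {F : MvPolynomial (Fin m) K} {x : Fin m → K}
    (hx : MvPolynomial.eval x F ≠ 0) : 0 ≤ lh v F x := by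
  have hF : F ≠ 0 := fun h => hx (by rw [h, map_zero])
  obtain ⟨M, hM⟩ : ∃ M : ℝ, M = gT (fv v) (cfs F) * ∏ i, (max (fv v (x i)) 1) ^ F.degreeOf i :=
    ⟨_, rfl⟩
  have hg : 0 < gT (fv v) (cfs F) := gT_pos (fv v) (cfs_ne hF)
  have hm1 : ∀ i, 1 ≤ max (fv v (x i)) 1 := fun i => le_max_right _ _
  have hm0 : ∀ i, 0 < max (fv v (x i)) 1 := fun i => zero_lt_one.trans_le (hm1 i)
  have hP : 0 < ∏ i, (max (fv v (x i)) 1) ^ F.degreeOf i :=
    Finset.prod_pos fun i _ => pow_pos (hm0 i) _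
  have hM0 : 0 < M := by rw [hM]; positivity
  have h1 : fv v (MvPolynomial.eval x F) ≤ M := by
    rw [MvPolynomial.eval_eq']
    have h2 := qm_sum (qm_na v) F.support (fun s => F.coeff s * ∏ i, x i ^ s i) hM0.le (by
      intro s hs
      rw [map_mul, map_prod, hM]
      refine mul_le_mul (le_gT (fv v) (cfs F) ⟨s, hs⟩) (Finset.prod_le_prod (fun i _ =>
        (fv v).nonneg _) fun i _ => ?_) (Finset.prod_nonneg fun i _ => (fv v).nonneg _) hg.le
      rw [map_pow]
      refine (pow_le_pow_left₀ ((fv v).nonneg _) (le_max_left (fv v (x i)) 1) _).trans ?_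
      exact pow_le_pow_right₀ (hm1 i) (MvPolynomial.monomial_le_degreeOf i hs))
    rw [one_pow, one_mul] at h2
    exact h2
  rw [lh_eq]
  have h2 : nm (Sum.inr v) (MvPolynomial.eval x F) ≤ Real.log M :=
    Real.log_le_log ((fv v).pos hx) h1
  rw [hM, Real.log_mul hg.ne' hP.ne', Real.log_prod (fun i _ => (pow_pos (hm0 i) _).ne')] at h2
  simp only [Real.log_pow] at h2
  have h3 : lm (Sum.inr v) (cfs F) = Real.log (gT (fv v) (cfs F)) := rfl
  have h4 : ∀ i, mx (Sum.inr v) (x i) = Real.log (max (fv v (x i)) 1) := fun i => rfl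
  rw [h3]
  simp only [h4]
  linarith

theorem lhD_nonneg {m r : ℕ} (v : Pr K) {F : Fin r → MvPolynomial (Fin m) K}
    (I : Finset (Fin m)) {x : Fin m → K} (hx : ∀ j, MvPolynomial.eval x (F j) ≠ 0) :
    0 ≤ lhD v F I x :=
  add_nonneg (Finset.sum_nonneg fun j _ => lh_nonneg v (hx j))
    (Finset.sum_nonneg fun i _ => Real.log_nonneg (le_max_left _ _))

theorem lh_fin {m : ℕ} {F : MvPolynomial (Fin m) K} {x : Fin m → K}
    (hx : MvPolynomial.eval x F ≠ 0) : {v : Pr K | lh v F x ≠ 0}.Finite := by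
  have hF : F ≠ 0 := fun h => hx (by rw [h, map_zero])
  refine ((lm_fin (cfs_ne hF)).union ((Set.finite_iUnion fun i => mx_fin (x i)).union
    (nm_fin hx))).subset ?_
  intro v hv
  by_contra hcon
  simp only [Set.mem_union, Set.mem_iUnion, Set.mem_ofPred_eq, not_or, not_exists, not_not] at hcon
  obtain ⟨h1, h2, h3⟩ := hcon
  refine hv ?_
  rw [lh_eq, h1, h3]
  simp [h2]

theorem lhD_fin {m r : ℕ} {F : Fin r → MvPolynomial (Fin m) K}
    (I : Finset (Fin m)) {x : Fin m → K} (hx : ∀ j, MvPolynomial.eval x (F j) ≠ 0) :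
    {v : Pr K | lhD v F I x ≠ 0}.Finite := by
  refine ((Set.finite_iUnion fun j => lh_fin (hx j)).union
    (Set.finite_iUnion fun i => mx_fin (x i))).subset ?_
  intro v hv
  by_contra hcon
  simp only [Set.mem_union, Set.mem_iUnion, Set.mem_ofPred_eq, not_or, not_exists, not_not] at hcon
  obtain ⟨h1, h2⟩ := hcon
  refine hv ?_
  unfold lhD
  rw [Finset.sum_eq_zero fun j _ => h1 j, zero_add]
  refine Finset.sum_eq_zero fun i _ => ?_
  rw [max_comm]
  exact h2 i

theorem min_nonneg' {m r : ℕ} (v : Pr K) {F : Fin r → MvPolynomial (Fin m) K}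
    (I : Finset (Fin m)) {x : Fin m → K} (hx : ∀ j, MvPolynomial.eval x (F j) ≠ 0) :
    0 ≤ min (Real.log (Nv v)) (lhD v F I x) :=
  le_min (log_Nv_pos v).le (lhD_nonneg v I hx)

theorem cnt1_nonneg {m r : ℕ} (S : Set (Pr K)) {F : Fin r → MvPolynomial (Fin m) K}
    (I : Finset (Fin m)) {x : Fin m → K} (hx : ∀ j, MvPolynomial.eval x (F j) ≠ 0) :
    0 ≤ cnt1 S F I x :=
  finsum_nonneg fun v => finsum_nonneg fun _ => min_nonneg' v I hx

/-- the counting function as a finite sum -/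
theorem cnt1_eq {m r : ℕ} (S : Set (Pr K)) {F : Fin r → MvPolynomial (Fin m) K}
    (I : Finset (Fin m)) {x : Fin m → K} (T : Finset (Pr K))
    (hT : ∀ v ∉ T, lhD v F I x = 0) [DecidablePred (· ∈ S)] :
    cnt1 S F I x = ∑ v ∈ T.filter (· ∉ S), min (Real.log (Nv v)) (lhD v F I x) := by
  have h1 : ∀ v : Pr K, (∑ᶠ (_ : v ∉ S), min (Real.log (Nv v)) (lhD v F I x)) =
      if v ∉ S then min (Real.log (Nv v)) (lhD v F I x) else 0 := fun v => finsum_eq_if
  unfold cnt1
  simp only [h1]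
  rw [finsum_eq_sum_of_support_subset (s := T), Finset.sum_filter]
  intro v hv
  by_contra hcon
  refine hv ?_
  simp only [hT v hcon]
  split_ifs
  · rfl
  · exact min_eq_right (log_Nv_pos v).le

open Classical in
/-- **lower bound** -/
theorem cnt1_ge {m r : ℕ} {S : Set (Pr K)} (hS : S.Finite) (F : Fin r → MvPolynomial (Fin m) K)
    (hF : ∀ j, F j ≠ 0) (I : Finset (Fin m)) : ∃ C : ℝ, 0 ≤ C ∧ ∀ x : Fin m → K,
      (∀ j, MvPolynomial.eval x (F j) ≠ 0) →
        ∑ v ∈ UU F I x, Real.log (Nv v) ≤ cnt1 S F I x + C := by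
  obtain ⟨T, hT⟩ : ∃ T : Finset (Pr K), T = hS.toFinset ∪
    (Set.finite_iUnion fun j => lm_fin (cfs_ne (hF j))).toFinset := ⟨_, rfl⟩
  refine ⟨∑ v ∈ T, Real.log (Nv v), Finset.sum_nonneg fun v _ => (log_Nv_pos v).le, ?_⟩
  intro x hx
  obtain ⟨U, hU⟩ : ∃ U : Finset (Pr K), U = (lhD_fin I hx).toFinset ∪ UU F I x := ⟨_, rfl⟩
  rw [cnt1_eq S I U (fun v hv => by
    rw [hU, Finset.mem_union, not_or, Set.Finite.mem_toFinset, Set.mem_ofPred_eq, not_not] at hv
    exact hv.1)]
  have h1 : ∑ v ∈ UU F I x \ T, Real.log (Nv v) ≤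
      ∑ v ∈ U.filter (· ∉ S), min (Real.log (Nv v)) (lhD v F I x) := by
    refine le_trans (Finset.sum_le_sum fun v hv => ?_)
      (Finset.sum_le_sum_of_subset_of_nonneg (s := UU F I x \ T) ?_ fun v _ _ =>
        min_nonneg' v I hx)
    · refine le_min le_rfl ?_
      obtain ⟨hv1, hv2⟩ := Finset.mem_sdiff.1 hv
      rw [UU, Finset.mem_biUnion] at hv1
      obtain ⟨k, hk, hkv⟩ := hv1
      rcases k with j | i
      · have h2 : v ∈ ddm (F j) x := hkv
        rw [mem_ddm (hx j)] at h2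
        have h3 : Real.log (Nv v) ≤ lh v (F j) x := by
          rw [lh_eq]
          have h4 : lm (Sum.inr v) (cfs (F j)) = 0 := by
            by_contra hcon
            refine hv2 ?_
            rw [hT, Finset.mem_union, Set.Finite.mem_toFinset, Set.Finite.mem_toFinset]
            exact Or.inr (Set.mem_iUnion.2 ⟨j, hcon⟩)
          have h5 : ∑ i, ((F j).degreeOf i : ℝ) * mx (Sum.inr v) (x i) = 0 :=
            Finset.sum_eq_zero fun i _ => by rw [mx_of_le (h2.1 i), mul_zero]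
          rw [h4, h5]
          have := log_ge_of_lt (hx j) h2.2
          linarith
        refine h3.trans ?_
        unfold lhD
        refine le_add_of_le_of_nonneg (Finset.single_le_sum (f := fun j => lh v (F j) x)
          (fun j _ => lh_nonneg v (hx j)) (Finset.mem_univ j))
          (Finset.sum_nonneg fun i _ => Real.log_nonneg (le_max_left _ _))
      · have h2 : v ∈ pd (x i) := hkv
        rw [mem_pd] at h2
        have hiI : i ∈ I := by simpa using hk
        have h3 := log_fv_ge v h2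
        rw [max_comm] at h3
        refine h3.trans ?_
        unfold lhD
        exact le_add_of_nonneg_of_le (Finset.sum_nonneg fun j _ => lh_nonneg v (hx j))
          (Finset.single_le_sum (f := fun i => Real.log (max 1 (FinitePlace.mk v (x i))))
            (fun i _ => Real.log_nonneg (le_max_left _ _)) hiI)
    · intro v hv
      obtain ⟨hv1, hv2⟩ := Finset.mem_sdiff.1 hv
      rw [Finset.mem_filter]
      refine ⟨by rw [hU]; exact Finset.mem_union_right _ hv1, fun hvS => hv2 ?_⟩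
      rw [hT, Finset.mem_union, Set.Finite.mem_toFinset]
      exact Or.inl hvS
  have h2 : ∑ v ∈ UU F I x, Real.log (Nv v) ≤
      ∑ v ∈ UU F I x \ T, Real.log (Nv v) + ∑ v ∈ T, Real.log (Nv v) := by
    refine (Finset.sum_le_sum_of_subset_of_nonneg (t := UU F I x \ T ∪ T) ?_
      fun v _ _ => (log_Nv_pos v).le).trans (le_of_eq ?_)
    · intro v hv
      by_cases hvT : v ∈ T
      · exact Finset.mem_union_right _ hvT
      · exact Finset.mem_union_left _ (Finset.mem_sdiff.2 ⟨hv, hvT⟩)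
    · exact Finset.sum_union Finset.sdiff_disjoint
  linarith

/-- **upper bound** -/
theorem cnt1_le (hUM : StmUM) {m r : ℕ} (S : Set (Pr K)) (F : Fin r → MvPolynomial (Fin m) K)
    (hF : ∀ j, F j ≠ 0) (I : Finset (Fin m)) : ∃ C : ℝ, ∀ x : Fin m → K,
      (∀ j, MvPolynomial.eval x (F j) ≠ 0) →
        cnt1 S F I x ≤ ∑ i, ((∑ j, (F j).degreeOf i + if i ∈ I then 1 else 0 : ℕ) : ℝ) *
          hr (aff (x i)) + C := by
  classical
  -- one polynomial
  have key : ∀ j, ∃ C : ℝ, ∀ x : Fin m → K, MvPolynomial.eval x (F j) ≠ 0 → ∀ T : Finset (Pr K),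
      ∑ v ∈ T, lh v (F j) x ≤ ∑ i, ((F j).degreeOf i : ℝ) * hr (aff (x i)) + C := by
    intro j
    obtain ⟨c, hc0, hcf, hc⟩ := hUM K m (F j)
    obtain ⟨L, hL⟩ : ∃ L : Finset (Pr K), L = (lm_fin (cfs_ne (hF j))).toFinset := ⟨_, rfl⟩
    refine ⟨∑ v ∈ L, lm (Sum.inr v) (cfs (F j)) +
      ∑ w : InfinitePlace K, c (Sum.inl w), ?_⟩
    intro x hx T
    obtain ⟨U, hU⟩ : ∃ U : Finset (Pr K), U = T ∪ (L ∪ (nm_fin hx).toFinset) := ⟨_, rfl⟩
    have hLU : L ⊆ U := by
      rw [hU]
      exact Finset.subset_union_left.trans Finset.subset_union_right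
    have h1 : ∑ v ∈ T, lh v (F j) x ≤ ∑ v ∈ U, lh v (F j) x :=
      Finset.sum_le_sum_of_subset_of_nonneg (by rw [hU]; exact Finset.subset_union_left)
        fun v _ _ => lh_nonneg v hx
    refine h1.trans ?_
    simp only [lh_eq]
    rw [Finset.sum_sub_distrib, Finset.sum_add_distrib]
    have h2 : ∑ v ∈ U, lm (Sum.inr v) (cfs (F j)) = ∑ v ∈ L, lm (Sum.inr v) (cfs (F j)) := by
      symm
      refine Finset.sum_subset hLU fun v _ hv => ?_
      rw [hL, Set.Finite.mem_toFinset, Set.mem_ofPred_eq, not_not] at hv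
      exact hv
    have h3 := sum_nm hx U (fun v hv => by
      rw [hU] at hv
      simp only [Finset.mem_union, not_or, Set.Finite.mem_toFinset,
        Set.mem_ofPred_eq, not_not] at hv
      exact hv.2.2)
    have h4 : ∑ w : InfinitePlace K, nm (Sum.inl w) (MvPolynomial.eval x (F j)) ≤
        ∑ w : InfinitePlace K, (∑ i, ((F j).degreeOf i : ℝ) * mx (Sum.inl w) (x i) +
          c (Sum.inl w)) := Finset.sum_le_sum fun w _ => hc x hx (Sum.inl w)
    rw [Finset.sum_add_distrib] at h4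
    have h5 : ∑ w : InfinitePlace K, ∑ i, ((F j).degreeOf i : ℝ) * mx (Sum.inl w) (x i) +
        ∑ v ∈ U, ∑ i, ((F j).degreeOf i : ℝ) * mx (Sum.inr v) (x i) ≤
          ∑ i, ((F j).degreeOf i : ℝ) * hr (aff (x i)) := by
      rw [Finset.sum_comm, Finset.sum_comm (s := U), ← Finset.sum_add_distrib]
      refine Finset.sum_le_sum fun i _ => ?_
      rw [← Finset.mul_sum, ← Finset.mul_sum, ← mul_add]
      exact mul_le_mul_of_nonneg_left (sum_mx_le (x i) U) (Nat.cast_nonneg _)
    linarith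
  choose C hC using key
  refine ⟨∑ j, C j, fun x hx => ?_⟩
  obtain ⟨U, hU⟩ : ∃ U : Finset (Pr K), U = (lhD_fin I hx).toFinset := ⟨_, rfl⟩
  rw [cnt1_eq S I U (fun v hv => by
    rw [hU, Set.Finite.mem_toFinset, Set.mem_ofPred_eq, not_not] at hv
    exact hv)]
  have h1 : ∑ v ∈ U.filter (· ∉ S), min (Real.log (Nv v)) (lhD v F I x) ≤
      ∑ v ∈ U, lhD v F I x :=
    (Finset.sum_le_sum fun v _ => min_le_right _ _).trans
      (Finset.sum_le_sum_of_subset_of_nonneg (Finset.filter_subset _ _) fun v _ _ =>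
        lhD_nonneg v I hx)
  refine h1.trans ?_
  unfold lhD
  rw [Finset.sum_add_distrib, Finset.sum_comm, Finset.sum_comm (t := I)]
  have h2 : ∑ j, ∑ v ∈ U, lh v (F j) x ≤
      ∑ j, (∑ i, ((F j).degreeOf i : ℝ) * hr (aff (x i)) + C j) :=
    Finset.sum_le_sum fun j _ => hC j x (hx j) U
  have h3 : ∑ i ∈ I, ∑ v ∈ U, Real.log (max 1 (FinitePlace.mk v (x i))) ≤
      ∑ i ∈ I, hr (aff (x i)) := by
    refine Finset.sum_le_sum fun i _ => ?_
    have h4 := sum_mx_le (x i) U
    have h5 : 0 ≤ ∑ w : InfinitePlace K, mx (Sum.inl w) (x i) :=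
      Finset.sum_nonneg fun w _ => mx_nonneg _ _
    have h6 : ∑ v ∈ U, Real.log (max 1 (FinitePlace.mk v (x i))) =
        ∑ v ∈ U, mx (Sum.inr v) (x i) := Finset.sum_congr rfl fun v _ => by
      rw [max_comm]
      rfl
    linarith
  rw [Finset.sum_add_distrib] at h2
  have h4 : ∑ i, ((∑ j, (F j).degreeOf i + if i ∈ I then 1 else 0 : ℕ) : ℝ) * hr (aff (x i)) =
      ∑ j, ∑ i, ((F j).degreeOf i : ℝ) * hr (aff (x i)) + ∑ i ∈ I, hr (aff (x i)) := by
    rw [Finset.sum_comm]
    have e1 : ∀ i, ((∑ j, (F j).degreeOf i + if i ∈ I then 1 else 0 : ℕ) : ℝ) * hr (aff (x i)) =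
        ∑ j, ((F j).degreeOf i : ℝ) * hr (aff (x i)) + if i ∈ I then hr (aff (x i)) else 0 := by
      intro i
      push_cast
      rw [add_mul, Finset.sum_mul]
      congr 1
      split_ifs <;> simp
    rw [Finset.sum_congr rfl fun i _ => e1 i, Finset.sum_add_distrib]
    congr 1
    rw [Finset.sum_ite_mem, Finset.univ_inter]
  rw [h4]
  linarith

end Pool.Agent.N753.SU
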