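import Mathlib
import Pool.Agent.N753.SU.Cnt

/-!
# Heights relative to ideals of codimension two
-/

set_option autoImplicit false
set_option linter.unusedSectionVars false

namespace Pool.Agent.N753.SU

open NumberField IsDedekindDomain Finset Pool.Agent.H691R3
open Pool.Agent.TH876.Loc hiding mx
open Pool.Agent.N753.LS Pool.Agent.N753.SF Polynomial

variable {K : Type} [Field K] [NumberField K] {m : ℕ}

/-- the local height relative to the ideal `(F, G)` -/
noncomputable def idLoc (F G : MvPolynomial (Fin m) K) (x : Fin m → K) (v : K → ℝ) : ℝ :=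
  -Real.log (max (v (MvPolynomial.eval x F) / ∏ i, (max 1 (v (x i))) ^ F.degreeOf i)
    (v (MvPolynomial.eval x G) / ∏ i, (max 1 (v (x i))) ^ G.degreeOf i))

/-- the height relative to the ideal `(F, G)` -/
noncomputable def idHt (F G : MvPolynomial (Fin m) K) (x : Fin m → K) : ℝ :=
  ∑ w : InfinitePlace K, (w.mult : ℝ) * idLoc F G x w +
    ∑ᶠ v : HeightOneSpectrum (𝓞 K), idLoc F G x (FinitePlace.mk v)

/-- the two polynomials -/
def two (F G : MvPolynomial (Fin m) K) (b : Bool) : MvPolynomial (Fin m) K := if b then F else G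

/-- the larger degree -/
noncomputable def dM (F G : MvPolynomial (Fin m) K) (i : Fin m) : ℕ :=
  max (F.degreeOf i) (G.degreeOf i)

theorem two_le_dM (F G : MvPolynomial (Fin m) K) (b : Bool) (i : Fin m) :
    (two F G b).degreeOf i ≤ dM F G i := by
  unfold two dM
  split_ifs
  · exact le_max_left _ _
  · exact le_max_right _ _

/-- the family of the multiples of `F`, `G` by monomials -/
noncomputable def Qf (F G : MvPolynomial (Fin m) K) (k : Bool × (Fin m → Bool)) :
    MvPolynomial (Fin m) K :=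
  two F G k.1 * ∏ i, MvPolynomial.X i ^ (if k.2 i then dM F G i - (two F G k.1).degreeOf i else 0)

theorem Qf_false (F G : MvPolynomial (Fin m) K) (b : Bool) :
    Qf F G (b, fun _ => false) = two F G b := by
  unfold Qf
  simp

theorem Qf_sup (F G : MvPolynomial (Fin m) K) (i : Fin m) :
    dM F G i ≤ univ.sup fun k => (Qf F G k).degreeOf i := by
  have h1 : ∀ b, (two F G b).degreeOf i ≤ univ.sup fun k => (Qf F G k).degreeOf i := by
    intro b
    have h2 := Finset.le_sup (f := fun k => (Qf F G k).degreeOf i)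
      (Finset.mem_univ ((b, fun _ => false) : Bool × (Fin m → Bool)))
    rw [Qf_false] at h2
    exact h2
  exact max_le (h1 true) (h1 false)

theorem eval_Qf (F G : MvPolynomial (Fin m) K) (k : Bool × (Fin m → Bool)) (x : Fin m → K) :
    MvPolynomial.eval x (Qf F G k) = MvPolynomial.eval x (two F G k.1) *
      ∏ i, x i ^ (if k.2 i then dM F G i - (two F G k.1).degreeOf i else 0) := by
  unfold Qf
  rw [map_mul, map_prod]
  simp only [map_pow, MvPolynomial.eval_X]

/-- the local inequality -/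
theorem idLoc_le (g : AbsoluteValue K ℝ) (F G : MvPolynomial (Fin m) K)
    {x : Fin m → K} (hx : MvPolynomial.eval x F ≠ 0 ∨ MvPolynomial.eval x G ≠ 0) :
    idLoc F G x g ≤ ∑ i, (dM F G i : ℝ) * Real.log (max (g (x i)) 1) -
      Real.log (gT g fun k => MvPolynomial.eval x (Qf F G k)) := by
  have hm1 : ∀ i, 1 ≤ max 1 (g (x i)) := fun i => le_max_left _ _
  have hm0 : ∀ i, 0 < max 1 (g (x i)) := fun i => zero_lt_one.trans_le (hm1 i)
  obtain ⟨P, hP⟩ : ∃ P : ℝ, P = ∏ i, (max 1 (g (x i))) ^ dM F G i := ⟨_, rfl⟩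
  have hP0 : 0 < P := by
    rw [hP]
    exact Finset.prod_pos fun i _ => pow_pos (hm0 i) _
  obtain ⟨R, hR⟩ : ∃ R : Bool → ℝ, R = fun b => g (MvPolynomial.eval x (two F G b)) /
    ∏ i, (max 1 (g (x i))) ^ (two F G b).degreeOf i := ⟨_, rfl⟩
  obtain ⟨M, hM⟩ : ∃ M : ℝ, M = max (R true) (R false) := ⟨_, rfl⟩
  have hid : idLoc F G x g = -Real.log M := by
    rw [hM, hR]
    rfl
  have hMb : ∀ b, R b ≤ M := by
    intro b
    rw [hM]
    cases b
    · exact le_max_right _ _
    · exact le_max_left _ _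
  have hprod : ∀ b, 0 < ∏ i, (max 1 (g (x i))) ^ (two F G b).degreeOf i := fun b =>
    Finset.prod_pos fun i _ => pow_pos (hm0 i) _
  have hM0 : 0 < M := by
    rcases hx with hx | hx
    · refine lt_of_lt_of_le ?_ (hMb true)
      rw [hR]
      exact div_pos (g.pos hx) (hprod true)
    · refine lt_of_lt_of_le ?_ (hMb false)
      rw [hR]
      exact div_pos (g.pos hx) (hprod false)
  have hk : ∃ k, MvPolynomial.eval x (Qf F G k) ≠ 0 := by
    rcases hx with hx | hx
    · exact ⟨(true, fun _ => false), by rw [Qf_false]; exact hx⟩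
    · exact ⟨(false, fun _ => false), by rw [Qf_false]; exact hx⟩
  have hg0 : 0 < gT g fun k => MvPolynomial.eval x (Qf F G k) := gT_pos g hk
  have hle : (gT g fun k => MvPolynomial.eval x (Qf F G k)) ≤ M * P := by
    refine ciSup_le fun k => ?_
    show g (MvPolynomial.eval x (Qf F G k)) ≤ M * P
    rw [eval_Qf, map_mul, map_prod]
    have h1 : ∏ i, g (x i ^ (if k.2 i then dM F G i - (two F G k.1).degreeOf i else 0)) ≤
        ∏ i, (max 1 (g (x i))) ^ (dM F G i - (two F G k.1).degreeOf i) := by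
      refine Finset.prod_le_prod (fun i _ => g.nonneg _) fun i _ => ?_
      rw [map_pow]
      refine (pow_le_pow_left₀ (g.nonneg _) (le_max_right 1 (g (x i))) _).trans ?_
      refine pow_le_pow_right₀ (hm1 i) ?_
      split_ifs
      · exact le_rfl
      · exact Nat.zero_le _
    have h2 : (∏ i, (max 1 (g (x i))) ^ (dM F G i - (two F G k.1).degreeOf i)) *
        ∏ i, (max 1 (g (x i))) ^ (two F G k.1).degreeOf i = P := by
      rw [hP, ← Finset.prod_mul_distrib]
      refine Finset.prod_congr rfl fun i _ => ?_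
      rw [← pow_add, Nat.sub_add_cancel (two_le_dM F G k.1 i)]
    have h3 : g (MvPolynomial.eval x (two F G k.1)) =
        R k.1 * ∏ i, (max 1 (g (x i))) ^ (two F G k.1).degreeOf i := by
      rw [hR]
      exact (div_mul_cancel₀ _ (hprod k.1).ne').symm
    calc g (MvPolynomial.eval x (two F G k.1)) *
          ∏ i, g (x i ^ (if k.2 i then dM F G i - (two F G k.1).degreeOf i else 0))
        ≤ g (MvPolynomial.eval x (two F G k.1)) *
          ∏ i, (max 1 (g (x i))) ^ (dM F G i - (two F G k.1).degreeOf i) :=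
          mul_le_mul_of_nonneg_left h1 (g.nonneg _)
      _ = R k.1 * P := by
          rw [h3, ← h2]
          ring
      _ ≤ M * P := mul_le_mul_of_nonneg_right (hMb _) hP0.le
  have hlog := Real.log_le_log hg0 hle
  rw [Real.log_mul hM0.ne' hP0.ne', hP, Real.log_prod (fun i _ => (pow_pos (hm0 i) _).ne')] at hlog
  simp only [Real.log_pow] at hlog
  have hmc : ∀ i, max (g (x i)) 1 = max 1 (g (x i)) := fun i => max_comm _ _
  rw [hid]
  simp only [hmc]
  linarith

theorem idLoc_fin (F G : MvPolynomial (Fin m) K) {x : Fin m → K}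
    (hx : MvPolynomial.eval x F ≠ 0 ∨ MvPolynomial.eval x G ≠ 0) :
    {v : Pr K | idLoc F G x (FinitePlace.mk v) ≠ 0}.Finite := by
  have h1 : ∀ z : K, {v : Pr K | z ≠ 0 ∧ fv v z ≠ 1}.Finite := by
    intro z
    by_cases hz : z = 0
    · refine Set.finite_empty.subset ?_
      rintro v ⟨h, -⟩
      exact absurd hz h
    · exact (fv_support_finite hz).subset fun v hv => hv.2
  refine ((Set.finite_iUnion fun i => mx_fin (x i)).union
    ((h1 (MvPolynomial.eval x F)).union (h1 (MvPolynomial.eval x G)))).subset ?_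
  intro v hv
  by_contra hcon
  simp only [Set.mem_union, Set.mem_iUnion, Set.mem_ofPred_eq, not_or, not_exists, not_not,
    not_and] at hcon
  obtain ⟨h2, h3, h4⟩ := hcon
  refine hv ?_
  have h5 : ∀ i, max 1 (FinitePlace.mk v (x i)) = 1 := by
    intro i
    have h6 := h2 i
    refine max_eq_left ?_
    by_contra hcon
    rw [not_le] at hcon
    have h7 := log_fv_ge v (show 1 < fv v (x i) from hcon)
    have h8 := log_Nv_pos v
    have h9 : mx (Sum.inr v) (x i) = Real.log (max (fv v (x i)) 1) := rfl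
    linarith
  have h6 : ∀ z : K, (z ≠ 0 → fv v z = 1) → FinitePlace.mk v z ≤ 1 := by
    intro z hz
    by_cases hz0 : z = 0
    · rw [hz0]
      show fv v 0 ≤ 1
      rw [map_zero]
      exact zero_le_one
    · exact (hz hz0).le
  unfold idLoc
  simp only [h5, one_pow, Finset.prod_const_one, div_one]
  have h7 : max (FinitePlace.mk v (MvPolynomial.eval x F))
      (FinitePlace.mk v (MvPolynomial.eval x G)) = 1 := by
    rcases hx with hx | hx
    · have h8 : FinitePlace.mk v (MvPolynomial.eval x F) = 1 := h3 hx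
      rw [h8]
      exact max_eq_left (h6 _ h4)
    · have h8 : FinitePlace.mk v (MvPolynomial.eval x G) = 1 := h4 hx
      rw [h8]
      exact max_eq_right (h6 _ h3)
  rw [h7, Real.log_one, neg_zero]

/-- the global inequality -/
theorem idHt_le (F G : MvPolynomial (Fin m) K) {x : Fin m → K}
    (hx : MvPolynomial.eval x F ≠ 0 ∨ MvPolynomial.eval x G ≠ 0) :
    idHt F G x ≤ ∑ i, (dM F G i : ℝ) * hr (aff (x i)) -
      hT (fun k => MvPolynomial.eval x (Qf F G k)) := by
  classical
  have hk : ∃ k, MvPolynomial.eval x (Qf F G k) ≠ 0 := by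
    rcases hx with hx | hx
    · exact ⟨(true, fun _ => false), by rw [Qf_false]; exact hx⟩
    · exact ⟨(false, fun _ => false), by rw [Qf_false]; exact hx⟩
  obtain ⟨T, hT'⟩ : ∃ T : Finset (Pr K), T = (idLoc_fin F G hx).toFinset ∪
    (lm_fin hk).toFinset := ⟨_, rfl⟩
  rw [hT_eq T fun v hv => by
    rw [hT', Finset.mem_union, not_or, Set.Finite.mem_toFinset, Set.Finite.mem_toFinset,
      Set.mem_ofPred_eq, Set.mem_ofPred_eq, not_not, not_not] at hv
    exact hv.2]
  have h1 : ∑ᶠ v : HeightOneSpectrum (𝓞 K), idLoc F G x (FinitePlace.mk v) =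
      ∑ v ∈ T, idLoc F G x (FinitePlace.mk v) := by
    refine finsum_eq_sum_of_support_subset _ ?_
    intro v hv
    rw [hT', Finset.coe_union]
    left
    rw [Set.Finite.coe_toFinset]
    exact hv
  unfold idHt
  rw [h1]
  have h2 : ∀ w : InfinitePlace K, (w.mult : ℝ) * idLoc F G x w ≤
      ∑ i, (dM F G i : ℝ) * mx (Sum.inl w) (x i) -
        lm (Sum.inl w) (fun k => MvPolynomial.eval x (Qf F G k)) := by
    intro w
    have e1 := mul_le_mul_of_nonneg_left (idLoc_le w.1 F G hx)
      (Nat.cast_nonneg (α := ℝ) w.mult)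
    refine e1.trans (le_of_eq ?_)
    rw [mul_sub, Finset.mul_sum]
    congr 1
    refine Finset.sum_congr rfl fun i _ => ?_
    show _ = (dM F G i : ℝ) * ((w.mult : ℝ) * Real.log (max (w (x i)) 1))
    have e2 : w.1 (x i) = w (x i) := rfl
    rw [e2]
    ring
  have h3 : ∀ v : Pr K, idLoc F G x (FinitePlace.mk v) ≤
      ∑ i, (dM F G i : ℝ) * mx (Sum.inr v) (x i) -
        lm (Sum.inr v) (fun k => MvPolynomial.eval x (Qf F G k)) := fun v =>
    idLoc_le (fv v) F G hx
  have h4 := add_le_add (Finset.sum_le_sum fun w (_ : w ∈ (univ : Finset (InfinitePlace K))) =>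
    h2 w) (Finset.sum_le_sum fun v (_ : v ∈ T) => h3 v)
  refine h4.trans ?_
  rw [Finset.sum_sub_distrib, Finset.sum_sub_distrib]
  have h5 : ∑ w : InfinitePlace K, ∑ i, (dM F G i : ℝ) * mx (Sum.inl w) (x i) +
      ∑ v ∈ T, ∑ i, (dM F G i : ℝ) * mx (Sum.inr v) (x i) ≤
        ∑ i, (dM F G i : ℝ) * hr (aff (x i)) := by
    rw [Finset.sum_comm, Finset.sum_comm (s := T), ← Finset.sum_add_distrib]
    refine Finset.sum_le_sum fun i _ => ?_
    rw [← Finset.mul_sum, ← Finset.mul_sum, ← mul_add]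
    exact mul_le_mul_of_nonneg_left (sum_mx_le (x i) T) (Nat.cast_nonneg _)
  linarith

/-- **almost all points are far from a given subset of codimension two** -/
theorem thin_idl (hUM : StmUM) (hZM : StmZM) (hB1 : StmB1) (hB2 : StmB2) (hB3 : StmB3)
    (F G : MvPolynomial (Fin m) K) (hFG : IsRelPrime F G) {κ : ℝ} (hκ0 : 0 < κ) (hκ1 : κ ≤ 1) :
    Thin K m (fun H x => (MvPolynomial.eval x F ≠ 0 ∨ MvPolynomial.eval x G ≠ 0) ∧
      κ * H < idHt F G x) := by
  obtain ⟨ν, C, hν, hν1, hC, h⟩ := fam_all (K := K) hUM hZM hB1 hB2 hB3 m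
    (Bool × (Fin m → Bool)) (Qf F G) (by
    intro P hP hall
    have h1 := hall (true, fun _ => false)
    have h2 := hall (false, fun _ => false)
    rw [Qf_false] at h1 h2
    exact hP.not_isUnit (hFG h1 h2)) κ hκ0 hκ1
  refine ⟨ν, C, hν, hν1, hC, fun H hH S hS => h H hH S fun x hx => ?_⟩
  obtain ⟨h1, h2, h3⟩ := hS x hx
  have hk : ∃ k, MvPolynomial.eval x (Qf F G k) ≠ 0 := by
    rcases h2 with hx | hx
    · exact ⟨(true, fun _ => false), by rw [Qf_false]; exact hx⟩
    · exact ⟨(false, fun _ => false), by rw [Qf_false]; exact hx⟩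
  refine ⟨h1, hk, ?_⟩
  have h4 := idHt_le F G h2
  have h5 : ∑ i, (dM F G i : ℝ) * hr (aff (x i)) ≤
      ∑ i, ((univ.sup fun k => (Qf F G k).degreeOf i : ℕ) : ℝ) * hr (aff (x i)) := by
    refine Finset.sum_le_sum fun i _ => mul_le_mul_of_nonneg_right ?_ (hr_aff_nonneg _)
    exact_mod_cast Qf_sup F G i
  linarith

variable (K) in
/-- **one exceptional set for all ideals** -/
theorem all_idl (hUM : StmUM) (hZM : StmZM) (hB1 : StmB1) (hB2 : StmB2) (hB3 : StmB3)
    (m : ℕ) (hm : 0 < m) :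
    ∃ E : Set (Fin m → K), (∀ H : ℝ, 0 ≤ H → ((E ∩ {x | htm x ≤ H}).ncard : ℝ) ≤
      2 * Real.exp (2 * m * H - √H)) ∧
      ∀ F G : MvPolynomial (Fin m) K, IsRelPrime F G → ∀ κ : ℝ, 0 < κ →
        ∃ h0 : ℝ, ∀ x : Fin m → K, x ∉ E → h0 ≤ htm x →
          (MvPolynomial.eval x F ≠ 0 ∨ MvPolynomial.eval x G ≠ 0) ∧
            idHt F G x ≤ κ * htm x := by
  classical
  have hc := countable_mv K m
  obtain ⟨e, he⟩ := exists_surjective_nat
    (MvPolynomial (Fin m) K × MvPolynomial (Fin m) K × ℕ)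
  obtain ⟨T, h, hT1, hT2⟩ := diag2 (X := Fin m → K) htm (fun H => box_fin H)
    (fun n => if IsRelPrime (e n).1 (e n).2.1 then
      {x | (MvPolynomial.eval x (e n).1 = 0 ∧ MvPolynomial.eval x (e n).2.1 = 0) ∨
        (1 / ((e n).2.2 + 1 : ℝ)) * htm x < idHt (e n).1 (e n).2.1 x} else ∅) (α := 2 * m) (by
      intro n
      by_cases hn : IsRelPrime (e n).1 (e n).2.1
      · rw [if_pos hn]
        obtain ⟨κ, hκ⟩ : ∃ κ : ℝ, κ = 1 / ((e n).2.2 + 1 : ℝ) := ⟨_, rfl⟩
        rw [← hκ]
        have hκ0 : 0 < κ := by rw [hκ]; positivity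
        have hκ1 : κ ≤ 1 := by
          rw [hκ, div_le_one (by positivity)]
          linarith [(Nat.cast_nonneg (e n).2.2 : (0 : ℝ) ≤ ((e n).2.2 : ℝ))]
        have hz : Thin K m (fun _ x => MvPolynomial.eval x (e n).1 = 0 ∧
            MvPolynomial.eval x (e n).2.1 = 0) := by
          by_cases h0 : (e n).1 = 0
          · have h1 : (e n).2.1 ≠ 0 := by
              intro h1
              rw [h0, h1] at hn
              exact not_isUnit_zero (hn (dvd_refl _) (dvd_refl _))
            exact (thin_zero hZM _ h1).mono fun H x _ _ hx => hx.2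
          · exact (thin_zero hZM _ h0).mono fun H x _ _ hx => hx.1
        obtain ⟨ν, C, hν, hν1, hC, hmain⟩ := (thin_ht (K := K) (⟨0, hm⟩ : Fin m)
          (κ := 1 / 2) (by norm_num) (by norm_num)).or (hz.or
            (thin_idl hUM hZM hB1 hB2 hB3 _ _ hn (κ := κ / 2) (by positivity) (by linarith)))
        refine ⟨ν, C, hν, fun H hH => ?_⟩
        have hfin : ({x | (MvPolynomial.eval x (e n).1 = 0 ∧ MvPolynomial.eval x (e n).2.1 = 0) ∨
          κ * htm x < idHt (e n).1 (e n).2.1 x} ∩ {x | htm x ≤ H}).Finite :=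
          (box_fin H).subset Set.inter_subset_right
        rw [Set.ncard_eq_toFinset_card _ hfin]
        refine hmain H hH _ fun x hx => ?_
        rw [Set.Finite.mem_toFinset] at hx
        obtain ⟨hx1, hx2⟩ := hx
        have hx2' : htm x ≤ H := hx2
        have hmon : ∀ i, hr (aff (x i)) ≤ htm x := fun i => by
          rw [hr_aff]
          exact le_htm x i
        refine ⟨fun i => (hmon i).trans hx2', ?_⟩
        by_cases h0 : hr (aff (x ⟨0, hm⟩)) < (1 - 1 / 2) * H
        · exact Or.inl h0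
        right
        rw [not_lt] at h0
        by_cases h1 : MvPolynomial.eval x (e n).1 = 0 ∧ MvPolynomial.eval x (e n).2.1 = 0
        · exact Or.inl h1
        right
        have h2 := hx1.resolve_left h1
        have h3 := (hmon ⟨0, hm⟩)
        refine ⟨by
          by_cases h4 : MvPolynomial.eval x (e n).1 = 0
          · exact Or.inr fun h5 => h1 ⟨h4, h5⟩
          · exact Or.inl h4, lt_of_le_of_lt ?_ h2⟩
        have h4 := mul_le_mul_of_nonneg_left (h0.trans h3) hκ0.le
        linarith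
      · refine ⟨1, 0, one_pos, fun H hH => ?_⟩
        rw [if_neg hn, Set.empty_inter, Set.ncard_empty, Nat.cast_zero, zero_mul])
  refine ⟨T, hT2, ?_⟩
  intro F G hFG κ hκ
  obtain ⟨k, hk⟩ := exists_nat_gt (1 / κ)
  have hk2 : 1 / (k + 1 : ℝ) ≤ κ := by
    rw [div_lt_iff₀ hκ] at hk
    rw [div_le_iff₀ (by positivity)]
    nlinarith
  obtain ⟨n, hn⟩ := he (F, G, k)
  refine ⟨h n, fun x hxT hxh => ?_⟩
  have h1 : x ∉ {x : Fin m → K | (MvPolynomial.eval x F = 0 ∧ MvPolynomial.eval x G = 0) ∨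
        (1 / (k + 1 : ℝ)) * htm x < idHt F G x} := by
    intro hx
    have h2 := hT1 n x (by
      rw [hn, if_pos hFG]
      exact hx) hxT
    linarith
  have h0 : 0 ≤ htm x := by
    have h2 := le_htm x ⟨0, hm⟩
    rw [← hr_aff] at h2
    exact (hr_aff_nonneg _).trans h2
  rw [Set.mem_ofPred_eq, not_or] at h1
  obtain ⟨h2, h3⟩ := h1
  have h4 := mul_le_mul_of_nonneg_right hk2 h0
  refine ⟨?_, (not_lt.1 h3).trans h4⟩
  by_cases h5 : MvPolynomial.eval x F = 0
  · exact Or.inr fun h6 => h2 ⟨h5, h6⟩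
  · exact Or.inl h5

end Pool.Agent.N753.SU
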