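import Mathlib
import Pool.Agent.N753.SU.StmO
import Pool.Agent.N753.SF.Pig
import Pool.Agent.N753.LS.Over

/-!
# Odd degrees: the assembly
-/

set_option autoImplicit false
set_option linter.unusedSectionVars false

namespace Pool.Agent.N753.SU

open NumberField IsDedekindDomain Finset Pool.Agent.H691R3
open Pool.Agent.TH876.Loc hiding mx
open Pool.Agent.N753.LS Pool.Agent.N753.SF Polynomial

open Classical in
/-- **few values of a polynomial of odd degree are divisible by the square of a large prime** -/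
theorem stmOD (h2 : StmOD2) (h3 : StmOD3) : StmOD := by
  intro K _ _ e he c0 hc0 δ hδ hδ1
  obtain ⟨C0, hC0, hz⟩ := exists_z K
  obtain ⟨l, hl⟩ : ∃ l : ℝ, l = (e + 1) * lossK K := ⟨_, rfl⟩
  have hl0 : 0 ≤ l := by
    rw [hl]
    exact mul_nonneg (by positivity) (lossK_nonneg K)
  obtain ⟨C1, hC1, hcount⟩ := count_all K (δ := 1) one_pos
  obtain ⟨C2, hC2, h2⟩ := h2 K C0 hC0 hz e he (5 + c0) (by positivity) δ hδ (by linarith)
  obtain ⟨C3, hC3, h3⟩ := h3 K e he c0 hc0 (c0 + l + C0) (by positivity) δ hδ hδ1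
  obtain ⟨H0, hH0⟩ : ∃ H0 : ℝ, H0 = 2 * (c0 + l) + 1 := ⟨_, rfl⟩
  refine ⟨C1 * Real.exp (3 * H0) + C2 * (2 * Real.exp (c0 + l)) + C3, by positivity, ?_⟩
  intro f hfe Bad hBad H hH hht S hS
  obtain ⟨β, hβ⟩ : ∃ β : ℝ, β = ∑ v ∈ Bad, Real.log (Nv v) := ⟨_, rfl⟩
  have hβ0 : 0 ≤ β := by
    rw [hβ]
    exact Finset.sum_nonneg fun v _ => (log_Nv_pos v).le
  rw [← hβ]
  have hδβ : 0 ≤ δ * β := by positivity
  obtain ⟨G, hG⟩ : ∃ G : ℝ, G = Real.exp ((2 - 1 / 16) * H + δ * β) := ⟨_, rfl⟩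
  rw [← hG]
  have hG0 : 0 < G := by rw [hG]; exact Real.exp_pos _
  have hG1 : 1 ≤ G := by
    rw [hG]
    refine Real.one_le_exp ?_
    linarith
  have hp1 : 0 ≤ C1 * Real.exp (3 * H0) * G := by positivity
  have hp2 : 0 ≤ C2 * (2 * Real.exp (c0 + l)) * G := by positivity
  have hp3 : 0 ≤ C3 * G := by positivity
  rw [add_mul, add_mul]
  by_cases hcase : H ≤ H0
  · have h5 := hcount H hH S fun x hx => (hS x hx).1
    have h6 : Real.exp ((2 + 1) * H) ≤ Real.exp (3 * H0) := Real.exp_le_exp.2 (by linarith)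
    have h7 : C1 * Real.exp ((2 + 1) * H) ≤ C1 * Real.exp (3 * H0) * G :=
      (mul_le_mul_of_nonneg_left h6 hC1.le).trans
        (le_mul_of_one_le_right (by positivity) hG1)
    linarith
  rw [not_le] at hcase
  by_cases hroot : ∃ z : K, aeval z f = 0 ∧ 2 * hr (aff z) ≤ 9 / 8 * H + (c0 + l + C0)
  · obtain ⟨z, hz0, hz1⟩ := hroot
    have h5 := h3 f hfe Bad hBad H hH hht z hz0 hz1 S hS
    rw [← hβ, ← hG] at h5
    linarith
  push Not at hroot
  have hhtf : ht (f.map (algebraMap (𝓞 K) K)) ≤ (5 + c0) * (1 + H) := by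
    have e1 : 0 ≤ (e : ℝ) * H := by positivity
    nlinarith [mul_nonneg hc0 hH]
  have key : ∀ x ∈ S, ∑ v ∈ (dv f x \ Bad).filter (fun v => ¬ Even (nu f v x)),
      Real.log (Nv v) ≤ 9 / 8 * H + (c0 + l) := by
    intro x hx
    obtain ⟨hxH, hx0, v0, hv0, hv2, hv3⟩ := hS x hx
    have hl0 := log_Nv_pos v0
    have hsum := sum_nu_ht f Bad (fun v hv => (hBad v hv).2.2) hx0
    rw [hfe, ← hl] at hsum
    have hsum2 := mul_le_mul_of_nonneg_left hxH (show (0 : ℝ) ≤ e from Nat.cast_nonneg _)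
    have hv0d : v0 ∈ dv f x \ Bad := by
      rw [Finset.mem_sdiff]
      exact ⟨(mem_dv_iff hx0 (hBad v0 hv0).2.2).2 (by omega), hv0⟩
    rw [← Finset.add_sum_erase _ _ hv0d] at hsum
    obtain ⟨Q, hQ⟩ : ∃ Q : ℝ, Q = ∑ v ∈ (dv f x \ Bad).erase v0,
      (nu f v x : ℝ) * Real.log (Nv v) := ⟨_, rfl⟩
    rw [← hQ] at hsum
    have h7 : 0 ≤ Q := by
      rw [hQ]
      exact Finset.sum_nonneg fun v _ => mul_nonneg (Nat.cast_nonneg _) (log_Nv_pos v).le
    have h8 : (2 : ℝ) ≤ nu f v0 x := by exact_mod_cast hv2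
    have h9 : 2 * ((2 - 1 / 16) * H) ≤ nu f v0 x * Real.log (Nv v0) := by nlinarith
    have hnu : nu f v0 x = 2 := by
      by_contra hcon
      have h10 : (3 : ℝ) ≤ nu f v0 x := by
        have : 3 ≤ nu f v0 x := by omega
        exact_mod_cast this
      have h11 : 3 * ((2 - 1 / 16) * H) ≤ nu f v0 x * Real.log (Nv v0) := by nlinarith
      linarith
    have h10 : (dv f x \ Bad).filter (fun v => ¬ Even (nu f v x)) ⊆ (dv f x \ Bad).erase v0 := by
      intro v hv
      obtain ⟨hva, hvb⟩ := Finset.mem_filter.1 hv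
      rw [Finset.mem_erase]
      refine ⟨?_, hva⟩
      rintro rfl
      rw [hnu] at hvb
      exact hvb even_two
    have h11 : ∑ v ∈ (dv f x \ Bad).filter (fun v => ¬ Even (nu f v x)), Real.log (Nv v) ≤ Q := by
      rw [hQ]
      refine (Finset.sum_le_sum_of_subset_of_nonneg h10 fun v _ _ => (log_Nv_pos v).le).trans ?_
      refine Finset.sum_le_sum fun v hv => ?_
      obtain ⟨-, hv⟩ := Finset.mem_erase.1 hv
      obtain ⟨hva, hvb⟩ := Finset.mem_sdiff.1 hv
      have h12 : (1 : ℝ) ≤ nu f v x := by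
        exact_mod_cast (mem_dv_iff hx0 (hBad v hvb).2.2).1 hva
      have := log_Nv_pos v
      nlinarith
    linarith
  have h5 := h2 f hfe Bad hBad H hH hhtf (9 / 8 * H + (c0 + l)) (by positivity) (by linarith) S
    fun x hx => ⟨(hS x hx).1, (hS x hx).2.1, fun z hz1 hz0 => by
      have := hroot z hz0
      linarith, key x hx⟩
  rw [← hβ, mul_assoc] at h5
  have hδH : δ * H ≤ 1 / 64 * H := mul_le_mul_of_nonneg_right hδ1 hH
  have h6 : Real.exp ((1 + δ) * H + (9 / 8 * H + (c0 + l)) / 2) * Real.exp (δ * β) ≤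
      Real.exp (c0 + l) * G := by
    rw [hG, ← Real.exp_add, ← Real.exp_add]
    exact Real.exp_le_exp.2 (by linarith)
  have h7 : Real.exp ((3 / 2 + δ) * H + (9 / 8 * H + (c0 + l)) / 4) * Real.exp (δ * β) ≤
      Real.exp (c0 + l) * G := by
    rw [hG, ← Real.exp_add, ← Real.exp_add]
    exact Real.exp_le_exp.2 (by linarith)
  have h8 := mul_le_mul_of_nonneg_left (add_le_add h6 h7) hC2.le
  rw [← add_mul] at h8
  have h9 : C2 * (Real.exp (c0 + l) * G + Real.exp (c0 + l) * G) =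
      C2 * (2 * Real.exp (c0 + l)) * G := by ring
  linarith

end Pool.Agent.N753.SU
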