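import Mathlib
import Pool.Agent.N753.SU.Biv

/-!
# Curves in the product of two lines: the number of the exceptional points
-/

set_option autoImplicit false
set_option linter.unusedSectionVars false

namespace Pool.Agent.N753.SU

open NumberField IsDedekindDomain Finset Pool.Agent.H691R3
open Pool.Agent.TH876.Loc hiding mx
open Pool.Agent.N753.LS Pool.Agent.N753.SF Polynomial

variable {K : Type} [Field K] [NumberField K]

open Classical in
theorem csum_le {c : Pl K → ℝ} (hc0 : ∀ p, 0 ≤ c p) (hcf : {p | c p ≠ 0}.Finite)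
    (B : Finset (Pr K)) : ∑ w : InfinitePlace K, c (Sum.inl w) + ∑ v ∈ B, c (Sum.inr v) ≤
      ∑ p ∈ hcf.toFinset, c p := by
  rw [← Finset.sum_disjSum (s := Finset.univ) (t := B) (f := c)]
  have h1 : ∑ p ∈ Finset.disjSum Finset.univ B, c p ≤
      ∑ p ∈ Finset.disjSum Finset.univ B ∪ hcf.toFinset, c p :=
    Finset.sum_le_sum_of_subset_of_nonneg Finset.subset_union_left fun p _ _ => hc0 p
  refine h1.trans (le_of_eq ?_)
  symm
  refine Finset.sum_subset Finset.subset_union_right ?_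
  intro p _ hp
  rw [Set.Finite.mem_toFinset] at hp
  by_contra hcon
  exact hp hcon

open Classical in
/-- **Proposition A**, on the fibres -/
theorem propA_fib (F : K[X][X]) (hG : GeoC F) (hR : FibC F) (he : 1 ≤ F.natDegree)
    (hE : (Even F.natDegree ∧ dgi F + F.natDegree ≤ 5) ∨ dgi F + F.natDegree ≤ 4)
    {κ : ℝ} (hκ0 : 0 < κ) (hκ1 : κ ≤ 1) :
    ∃ (n : K[X]) (ν C : ℝ), n ≠ 0 ∧ 0 < ν ∧ ν ≤ 1 ∧ 0 < C ∧ ∀ H : ℝ, 0 ≤ H → ∀ y : K,
      n.eval y ≠ 0 → hr (aff y) ≤ H → ∀ S : Finset K, (∀ x ∈ S, hr (aff x) ≤ H ∧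
        F.evalEval y x ≠ 0 ∧ ∑ v ∈ dd F y x, Real.log (Nv v) <
          dgi F * hr (aff y) + F.natDegree * hr (aff x) - κ * H) →
        (S.card : ℝ) ≤ C * Real.exp ((2 - ν) * H) := by
  obtain ⟨c, hc0, hcf, hc⟩ := hG
  obtain ⟨n, CF, hn, hCF, hF⟩ := hR
  obtain ⟨e, he'⟩ : ∃ e : ℕ, e = F.natDegree := ⟨_, rfl⟩
  obtain ⟨a, ha⟩ : ∃ a : ℕ, a = dgi F := ⟨_, rfl⟩
  rw [← he', ← ha] at hE
  rw [← he'] at he
  rw [← he', ← ha]
  rw [← he'] at hF
  rw [← ha] at hc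
  have he0 : (0 : ℝ) < e := by exact_mod_cast he
  have he1 : (1 : ℝ) ≤ e := by exact_mod_cast he
  obtain ⟨ct, hct⟩ : ∃ ct : ℝ, ct = ∑ p ∈ hcf.toFinset, c p := ⟨_, rfl⟩
  have hct0 : 0 ≤ ct := by
    rw [hct]
    exact Finset.sum_nonneg fun p _ => hc0 p
  obtain ⟨ν0, hν0⟩ : ∃ ν0 : ℝ, ν0 = κ / 2 / (128 * e) := ⟨_, rfl⟩
  have hν00 : 0 < ν0 := by rw [hν0]; positivity
  have hν01 : ν0 ≤ 1 := by
    rw [hν0, div_le_one (by positivity)]
    linarith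
  obtain ⟨δ, hδ⟩ : ∃ δ : ℝ, δ = min (1 / 16) (ν0 / (2 * (CF + 1))) := ⟨_, rfl⟩
  have hδ0 : 0 < δ := by rw [hδ]; exact lt_min (by norm_num) (by positivity)
  have hδ1 : δ ≤ 1 / 16 := by rw [hδ]; exact min_le_left _ _
  have hδ2 : δ * CF ≤ ν0 / 2 := by
    have h1 : δ ≤ ν0 / (2 * (CF + 1)) := by rw [hδ]; exact min_le_right _ _
    have h2 := mul_le_mul_of_nonneg_right h1 (show 0 ≤ CF + 1 by linarith)
    have h3 : ν0 / (2 * (CF + 1)) * (CF + 1) = ν0 / 2 := by field_simp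
    nlinarith
  obtain ⟨C1, hC1, h1⟩ := fibre_bound K e (a + e) he (by
    rcases hE with h | h
    · exact Or.inl h
    · exact Or.inr h) ct hct0 (κ := κ / 2) (by positivity) (by linarith) hδ0 hδ1
  obtain ⟨C2, hC2, h2⟩ := count_all K (δ := 1) one_pos
  refine ⟨n, ν0 / 2, C1 * Real.exp (ν0 / 2) + C2 * Real.exp (3 * (2 * ct / κ)), hn,
    by positivity, by linarith, by positivity, ?_⟩
  intro H hH y hny hyH S hS
  obtain ⟨G, hG⟩ : ∃ G : ℝ, G = Real.exp ((2 - ν0 / 2) * H) := ⟨_, rfl⟩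
  rw [← hG]
  have hG1 : 1 ≤ G := by
    rw [hG]
    exact Real.one_le_exp (mul_nonneg (by linarith) hH)
  by_cases hcase : H ≤ 2 * ct / κ
  · have h3 := h2 H hH S fun x hx => (hS x hx).1
    have h4 : Real.exp ((2 + 1) * H) ≤ Real.exp (3 * (2 * ct / κ)) := by
      refine Real.exp_le_exp.2 ?_
      linarith
    have h5 := mul_le_mul_of_nonneg_left h4 hC2.le
    have h6 : 0 ≤ C2 * Real.exp (3 * (2 * ct / κ)) := by positivity
    have h7 : 0 ≤ C1 * Real.exp (ν0 / 2) * G := by positivity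
    have h8 := (h3.trans h5).trans (le_mul_of_one_le_right h6 hG1)
    rw [add_mul]
    exact h8.trans (le_add_of_nonneg_left h7)
  rw [not_le, div_lt_iff₀ hκ0] at hcase
  obtain ⟨f, u, Bad, hu, hfg, hfe, hBad, hβ⟩ := hF y hny
  obtain ⟨g, hg⟩ : ∃ g : K[X], g = fib F y := ⟨_, rfl⟩
  have hg0 : g ≠ 0 := by
    rw [hg]
    exact (hc y).1
  have hc' := (hc y).2
  rw [← hg] at hfg hc'
  have hgn : ∀ p : Pl K, gn p (f.map (algebraMap (𝓞 K) K)) = nm p u + gn p g := fun p => by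
    rw [hfg]
    exact gn_C_mul p hu hg0
  have hnmu := sum_nm hu Bad (fun v hv => by
    show Real.log (fv v u) = 0
    rw [(hBad v hv).2.2.2, Real.log_one])
  have hmxy := sum_mx y Bad (fun v hv => by
    show Real.log (max (fv v y) 1) = 0
    rw [max_eq_right (hBad v hv).2.2.1, Real.log_one])
  have hcs := csum_le hc0 hcf Bad
  rw [← hct] at hcs
  obtain ⟨L, hL⟩ : ∃ L : ℝ, L = ∑ w : InfinitePlace K, gn (Sum.inl w)
    (f.map (algebraMap (𝓞 K) K)) + ∑ v ∈ Bad, gn (Sum.inr v) (f.map (algebraMap (𝓞 K) K)) :=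
    ⟨_, rfl⟩
  have hL' : L = ∑ w : InfinitePlace K, gn (Sum.inl w) g + ∑ v ∈ Bad, gn (Sum.inr v) g := by
    rw [hL]
    simp only [hgn]
    rw [Finset.sum_add_distrib, Finset.sum_add_distrib]
    linarith
  have hL1 : a * hr (aff y) - ct ≤ L := by
    have e1 : a * ∑ w : InfinitePlace K, mx (Sum.inl w) y - ∑ w : InfinitePlace K, c (Sum.inl w) ≤
        ∑ w : InfinitePlace K, gn (Sum.inl w) g := by
      rw [Finset.mul_sum, ← Finset.sum_sub_distrib]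
      exact Finset.sum_le_sum fun w _ => (hc' (Sum.inl w)).1
    have e2 : a * ∑ v ∈ Bad, mx (Sum.inr v) y - ∑ v ∈ Bad, c (Sum.inr v) ≤
        ∑ v ∈ Bad, gn (Sum.inr v) g := by
      rw [Finset.mul_sum, ← Finset.sum_sub_distrib]
      exact Finset.sum_le_sum fun v _ => (hc' (Sum.inr v)).1
    rw [hL', ← hmxy]
    linarith
  have hL2 : L ≤ a * hr (aff y) + ct := by
    have e1 : ∑ w : InfinitePlace K, gn (Sum.inl w) g ≤
        a * ∑ w : InfinitePlace K, mx (Sum.inl w) y + ∑ w : InfinitePlace K, c (Sum.inl w) := by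
      rw [Finset.mul_sum, ← Finset.sum_add_distrib]
      exact Finset.sum_le_sum fun w _ => (hc' (Sum.inl w)).2
    have e2 : ∑ v ∈ Bad, gn (Sum.inr v) g ≤
        a * ∑ v ∈ Bad, mx (Sum.inr v) y + ∑ v ∈ Bad, c (Sum.inr v) := by
      rw [Finset.mul_sum, ← Finset.sum_add_distrib]
      exact Finset.sum_le_sum fun v _ => (hc' (Sum.inr v)).2
    rw [hL', ← hmxy]
    linarith
  have ha0 : (0 : ℝ) ≤ a := Nat.cast_nonneg _
  have hayH := mul_le_mul_of_nonneg_left hyH ha0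
  have hfx : ∀ x, aeval x f = u * F.evalEval y x := by
    intro x
    rw [← eval_map_algebraMap, hfg, eval_mul, eval_C, hg, eval_fib]
  have h3 := h1 f hfe Bad (fun v hv => ⟨(hBad v hv).1, (hBad v hv).2.1⟩) H hH L hL (by
    push_cast
    linarith) S (by
    intro x hx
    obtain ⟨hxH, hx0, hxs⟩ := hS x hx
    have hfx0 : aeval x f ≠ 0 := by
      rw [hfx]
      exact mul_ne_zero hu hx0
    refine ⟨hxH, hfx0, ?_⟩
    have e1 : ∑ v ∈ dv f x \ Bad, Real.log (Nv v) ≤ ∑ v ∈ dd F y x, Real.log (Nv v) := by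
      refine Finset.sum_le_sum_of_subset_of_nonneg ?_ fun v _ _ => (log_Nv_pos v).le
      intro v hv
      obtain ⟨hva, hvb⟩ := Finset.mem_sdiff.1 hv
      rw [mem_dv hfx0] at hva
      rw [mem_dd hx0]
      refine ⟨(hBad v hvb).2.2.1, hva.1, ?_⟩
      have e2 := hva.2
      rw [hfx, (fv v).map_mul, (hBad v hvb).2.2.2, one_mul] at e2
      exact e2
    linarith)
  refine h3.trans ?_
  have hβ' : δ * ∑ v ∈ Bad, Real.log (Nv v) ≤ ν0 / 2 + ν0 / 2 * H := by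
    have e1 : ∑ v ∈ Bad, Real.log (Nv v) ≤ CF * (1 + H) :=
      hβ.trans (mul_le_mul_of_nonneg_left (by linarith) hCF)
    have e2 := mul_le_mul_of_nonneg_left e1 hδ0.le
    have e3 := mul_le_mul_of_nonneg_right hδ2 (show 0 ≤ 1 + H by linarith)
    linarith
  have h4 : Real.exp ((2 - κ / 2 / (128 * e)) * H + δ * ∑ v ∈ Bad, Real.log (Nv v)) ≤
      Real.exp (ν0 / 2) * G := by
    rw [hG, ← Real.exp_add, ← hν0]
    refine Real.exp_le_exp.2 ?_
    linarith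
  have h5 := mul_le_mul_of_nonneg_left h4 hC1.le
  have h6 : 0 ≤ C2 * Real.exp (3 * (2 * ct / κ)) * G := by positivity
  linarith

theorem log_le_nm {v : Pr K} {z : K} (hz : z ≠ 0) (h : fv v z < 1) :
    Real.log (Nv v) ≤ -nm (Sum.inr v) z := by
  have h1 : 1 < fv v z⁻¹ := by
    rw [map_inv₀]
    exact (one_lt_inv₀ ((fv v).pos hz)).2 h
  have h2 := log_fv_ge v h1
  rw [max_eq_left h1.le, map_inv₀, Real.log_inv] at h2
  exact h2

open Classical in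
/-- **Proposition B**, on the fibres -/
theorem propB_fib (F : K[X][X]) (hG : GeoC F) (he : 1 ≤ F.natDegree)
    {κ : ℝ} (hκ0 : 0 < κ) (hκ1 : κ ≤ 1) {C0 : ℝ} (hC0 : 0 ≤ C0) :
    ∃ (ν C : ℝ), 0 < ν ∧ ν ≤ 1 ∧ 0 < C ∧ ∀ H : ℝ, 0 ≤ H → ∀ y : K, hr (aff y) ≤ H →
      ∀ Bad : Finset (Pr K), ∑ v ∈ Bad, Real.log (Nv v) ≤ C0 * (1 + H) →
      ∀ S : Finset K, (∀ x ∈ S, hr (aff x) ≤ H ∧ F.evalEval y x ≠ 0 ∧
        κ * H ≤ ∑ v ∈ Bad ∩ dd F y x, Real.log (Nv v)) →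
        (S.card : ℝ) ≤ C * Real.exp ((2 - ν) * H) := by
  obtain ⟨c, hc0, hcf, hc⟩ := hG
  obtain ⟨e, he'⟩ : ∃ e : ℕ, e = F.natDegree := ⟨_, rfl⟩
  obtain ⟨a, ha⟩ : ∃ a : ℕ, a = dgi F := ⟨_, rfl⟩
  rw [← he'] at he
  have he0 : (0 : ℝ) < e := by exact_mod_cast he
  have he1 : (1 : ℝ) ≤ e := by exact_mod_cast he
  obtain ⟨ct, hct⟩ : ∃ ct : ℝ, ct = ∑ p ∈ hcf.toFinset, c p := ⟨_, rfl⟩
  have hct0 : 0 ≤ ct := by
    rw [hct]
    exact Finset.sum_nonneg fun p _ => hc0 p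
  obtain ⟨l, hl⟩ : ∃ l : ℝ, l = (e + 1) * lossK K := ⟨_, rfl⟩
  have hl0 : 0 ≤ l := by
    rw [hl]
    exact mul_nonneg (by positivity) (lossK_nonneg K)
  obtain ⟨ν, hν⟩ : ∃ ν : ℝ, ν = κ / (4 * e) := ⟨_, rfl⟩
  have hν0 : 0 < ν := by rw [hν]; positivity
  have hν1 : ν ≤ 1 := by
    rw [hν, div_le_one (by positivity)]
    linarith
  obtain ⟨δ, hδ⟩ : ∃ δ : ℝ, δ = ν / (2 * (C0 + 1)) := ⟨_, rfl⟩
  have hδ0 : 0 < δ := by rw [hδ]; positivity
  have hδ1 : δ * (C0 + 1) = ν / 2 := by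
    rw [hδ]
    field_simp
  obtain ⟨C1, hC1, h1⟩ := count_bad K e he (κ := κ / 2) (by positivity) (by linarith)
    (R := a + e + ct) (by positivity) hδ0
  obtain ⟨C2, hC2, h2⟩ := count_all K (δ := 1) one_pos
  refine ⟨ν, C1 * Real.exp (ν / 2) + C2 * Real.exp (3 * (2 * (ct + l) / κ)), hν0, hν1,
    by positivity, ?_⟩
  intro H hH y hyH Bad hβ S hS
  obtain ⟨G, hG⟩ : ∃ G : ℝ, G = Real.exp ((2 - ν) * H) := ⟨_, rfl⟩
  rw [← hG]
  have hG1 : 1 ≤ G := by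
    rw [hG]
    exact Real.one_le_exp (mul_nonneg (by linarith) hH)
  by_cases hcase : H ≤ 2 * (ct + l) / κ
  · have h3 := h2 H hH S fun x hx => (hS x hx).1
    have h4 : Real.exp ((2 + 1) * H) ≤ Real.exp (3 * (2 * (ct + l) / κ)) := by
      refine Real.exp_le_exp.2 ?_
      linarith
    have h5 := mul_le_mul_of_nonneg_left h4 hC2.le
    have h6 : 0 ≤ C2 * Real.exp (3 * (2 * (ct + l) / κ)) := by positivity
    have h7 : 0 ≤ C1 * Real.exp (ν / 2) * G := by positivity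
    have h8 := (h3.trans h5).trans (le_mul_of_one_le_right h6 hG1)
    rw [add_mul]
    exact h8.trans (le_add_of_nonneg_left h7)
  rw [not_le, div_lt_iff₀ hκ0] at hcase
  obtain ⟨g, hg⟩ : ∃ g : K[X], g = fib F y := ⟨_, rfl⟩
  have hg0 : g ≠ 0 := by
    rw [hg]
    exact (hc y).1
  have hgd : g.natDegree ≤ e := by
    rw [hg, he']
    exact natDegree_map_le
  have hge : ∀ x, g.eval x = F.evalEval y x := fun x => by
    rw [hg, eval_fib]
  have h3 := h1 g hg0 hgd Bad H hH S (by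
    intro x hx
    obtain ⟨hxH, hx0, hxs⟩ := hS x hx
    have hgx0 : g.eval x ≠ 0 := by
      rw [hge]
      exact hx0
    refine ⟨hxH, hgx0, ?_, ?_⟩
    · have e1 : ∑ v ∈ Bad ∩ dd F y x, Real.log (Nv v) ≤
          ∑ v ∈ Bad ∩ dd F y x, (mv (Sum.inr v) e g x + c (Sum.inr v)) := by
        refine Finset.sum_le_sum fun v hv => ?_
        obtain ⟨-, hv2⟩ := Finset.mem_inter.1 hv
        rw [mem_dd hx0] at hv2
        have e2 := log_le_nm hx0 hv2.2.2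
        have e3 := ((hc y).2 (Sum.inr v)).1
        rw [← hg] at e3
        have e4 : 0 ≤ (dgi F : ℝ) * mx (Sum.inr v) y :=
          mul_nonneg (Nat.cast_nonneg _) (mx_nonneg _ _)
        have e5 : 0 ≤ (e : ℝ) * mx (Sum.inr v) x :=
          mul_nonneg (Nat.cast_nonneg _) (mx_nonneg _ _)
        unfold mv
        rw [hge]
        linarith
      rw [Finset.sum_add_distrib] at e1
      have e2 : ∑ v ∈ Bad ∩ dd F y x, mv (Sum.inr v) e g x ≤ ∑ v ∈ Bad, mv (Sum.inr v) e g x :=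
        Finset.sum_le_sum_of_subset_of_nonneg Finset.inter_subset_left
          fun v _ _ => mv_nonneg v hgd hgx0
      have e3 : ∑ v ∈ Bad ∩ dd F y x, c (Sum.inr v) ≤ ct := by
        have e4 := csum_le hc0 hcf (Bad ∩ dd F y x)
        rw [← hct] at e4
        have e5 : 0 ≤ ∑ w : InfinitePlace K, c (Sum.inl w) :=
          Finset.sum_nonneg fun w _ => hc0 _
        linarith
      have e4 : -l ≤ ∑ w : InfinitePlace K, mv (Sum.inl w) e g x := by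
        have hlsum : ∑ w : InfinitePlace K, ((e : ℝ) + 1) * loss (Sum.inl w : Pl K) = l := by
          rw [hl, ← Finset.mul_sum]
          rfl
        rw [← hlsum, ← Finset.sum_neg_distrib]
        refine Finset.sum_le_sum fun w _ => ?_
        have := mv_ge (Sum.inl w) hgd hgx0
        linarith
      linarith
    · have e1 := tot hc0 hcf hc hx0 Bad
      rw [← he', ← ha, ← hg, ← hct] at e1
      refine e1.trans ?_
      have e2 := mul_le_mul_of_nonneg_left hyH (show (0 : ℝ) ≤ a from Nat.cast_nonneg _)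
      have e3 := mul_le_mul_of_nonneg_left hxH he0.le
      have e4 : (0 : ℝ) ≤ a := Nat.cast_nonneg _
      have e5 : 0 ≤ ct * H := mul_nonneg hct0 hH
      linarith)
  refine h3.trans ?_
  have hβ' : δ * ∑ v ∈ Bad, Real.log (Nv v) ≤ ν / 2 + (ν / 2 - δ) * H := by
    have e1 := mul_le_mul_of_nonneg_left hβ hδ0.le
    have e2 : δ * (C0 * (1 + H)) = δ * (C0 + 1) * (1 + H) - δ * (1 + H) := by ring
    rw [e2, hδ1] at e1
    linarith
  have h4 : Real.exp ((2 - κ / 2 / e + δ) * H + δ * ∑ v ∈ Bad, Real.log (Nv v)) ≤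
      Real.exp (ν / 2) * G := by
    rw [hG, ← Real.exp_add]
    refine Real.exp_le_exp.2 ?_
    have e1 : κ / 2 / e = 2 * ν := by
      rw [hν]
      field_simp
      ring
    rw [e1]
    have e2 : 0 ≤ ν * H := by positivity
    linarith
  have h5 := mul_le_mul_of_nonneg_left h4 hC1.le
  have h6 : 0 ≤ C2 * Real.exp (3 * (2 * (ct + l) / κ)) * G := by positivity
  linarith

open Classical in
/-- **Proposition A** -/
theorem propA (F : K[X][X]) (hG : GeoC F) (hR : FibC F) (he : 1 ≤ F.natDegree)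
    (hE : (Even F.natDegree ∧ dgi F + F.natDegree ≤ 5) ∨ dgi F + F.natDegree ≤ 4)
    {κ : ℝ} (hκ0 : 0 < κ) (hκ1 : κ ≤ 1) :
    ∃ (ν C : ℝ), 0 < ν ∧ 0 < C ∧ ∀ H : ℝ, 0 ≤ H → ∀ S : Finset (K × K),
      (∀ z ∈ S, hr (aff z.1) ≤ H ∧ hr (aff z.2) ≤ H ∧ F.evalEval z.1 z.2 ≠ 0 ∧
        ∑ v ∈ dd F z.1 z.2, Real.log (Nv v) <
          dgi F * hr (aff z.1) + F.natDegree * hr (aff z.2) - κ * H) →
      (S.card : ℝ) ≤ C * Real.exp ((4 - ν) * H) := by
  obtain ⟨n, ν, C, hn, hν0, hν1, hC, h⟩ := propA_fib F hG hR he hE hκ0 hκ1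
  obtain ⟨C', hC', h'⟩ := fibres n hn hC hν0 hν1
  refine ⟨ν / 2, C', by positivity, hC', ?_⟩
  intro H hH S hS
  refine h' H hH S (fun z hz => ⟨(hS z hz).1, (hS z hz).2.1⟩) ?_
  intro y hny hyH S' hS'
  refine h H hH y hny hyH S' fun x hx => ?_
  exact ⟨(hS _ (hS' x hx)).2.1, (hS _ (hS' x hx)).2.2.1, (hS _ (hS' x hx)).2.2.2⟩

open Classical in
/-- **Proposition B** -/
theorem propB (F : K[X][X]) (hG : GeoC F) (he : 1 ≤ F.natDegree)
    {κ : ℝ} (hκ0 : 0 < κ) (hκ1 : κ ≤ 1) {C0 : ℝ} (hC0 : 0 ≤ C0) :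
    ∃ (ν C : ℝ), 0 < ν ∧ 0 < C ∧ ∀ H : ℝ, 0 ≤ H → ∀ (S : Finset (K × K))
      (Bad : K → Finset (Pr K)),
      (∀ z ∈ S, hr (aff z.1) ≤ H ∧ hr (aff z.2) ≤ H ∧ F.evalEval z.1 z.2 ≠ 0 ∧
        ∑ v ∈ Bad z.1, Real.log (Nv v) ≤ C0 * (1 + H) ∧
        κ * H ≤ ∑ v ∈ Bad z.1 ∩ dd F z.1 z.2, Real.log (Nv v)) →
      (S.card : ℝ) ≤ C * Real.exp ((4 - ν) * H) := by
  obtain ⟨ν, C, hν0, hν1, hC, h⟩ := propB_fib F hG he hκ0 hκ1 hC0
  obtain ⟨C', hC', h'⟩ := fibres (K := K) 1 one_ne_zero hC hν0 hν1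
  refine ⟨ν / 2, C', by positivity, hC', ?_⟩
  intro H hH S Bad hS
  refine h' H hH S (fun z hz => ⟨(hS z hz).1, (hS z hz).2.1⟩) ?_
  intro y _ hyH S' hS'
  rcases S'.eq_empty_or_nonempty with h0 | ⟨x0, hx0⟩
  · rw [h0, Finset.card_empty, Nat.cast_zero]
    positivity
  refine h H hH y hyH (Bad y) (hS _ (hS' x0 hx0)).2.2.2.1 S' fun x hx => ?_
  exact ⟨(hS _ (hS' x hx)).2.1, (hS _ (hS' x hx)).2.2.1, (hS _ (hS' x hx)).2.2.2.2⟩

end Pool.Agent.N753.SU
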